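import Mathlib

namespace H693RF

open MvPolynomial

/-- the ideal of the origin in affine space -/
noncomputable def mI (n : ℕ) (L : Type*) [Field L] : Ideal (MvPolynomial (Fin n) L) :=
  Ideal.span (Set.range (X : Fin n → MvPolynomial (Fin n) L))

/-- A smooth projective variety of dimension `n` in projective `r`-space, given by its homogeneous prime ideal. -/
structure IsSmoothProjectiveVariety (𝕜 : Type*) [Field 𝕜] (r n : ℕ) (P : Ideal (MvPolynomial (Fin (r+1)) 𝕜)) : Prop where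
  isPrime : P.IsPrime
  homogeneous : ∀ F ∈ P, ∀ d, homogeneousComponent d F ∈ P
  nonempty : ∃ x : Fin (r+1) → 𝕜, x ≠ 0 ∧ ∀ F ∈ P, eval x F = 0
  dim : ringKrullDim (MvPolynomial (Fin (r+1)) 𝕜 ⧸ P) = ((n + 1 : ℕ) : WithBot ℕ∞)
  smooth : ∀ x : Fin (r+1) → 𝕜, x ≠ 0 → (∀ F ∈ P, eval x F = 0) →
    Module.finrank 𝕜 (Submodule.span 𝕜 {v : Fin (r+1) → 𝕜 | ∃ F ∈ P, v = fun j => eval x (pderiv j F)}) + n = r

/-- the linear form with coefficient vector `a` -/
noncomputable def linForm {𝕜 : Type*} [Field 𝕜] {r : ℕ} (a : Fin (r+1) → 𝕜) : MvPolynomial (Fin (r+1)) 𝕜 :=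
  ∑ j, C (a j) * X j

/-- homogeneous ideal of the scheme-theoretic fibre over the point `p` of the projection `x ↦ (H_0(x) : ... : H_{K-1}(x))` -/
noncomputable def fiberIdeal {𝕜 : Type*} [Field 𝕜] {r K : ℕ} (P : Ideal (MvPolynomial (Fin (r+1)) 𝕜))
    (H : Fin K → Fin (r+1) → 𝕜) (p : Fin K → 𝕜) : Ideal (MvPolynomial (Fin (r+1)) 𝕜) :=
  P ⊔ Ideal.span {F | ∃ i j, F = C (p i) * linForm (H j) - C (p j) * linForm (H i)}

/-- saturation with respect to the irrelevant ideal -/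
def saturation {𝕜 : Type*} [Field 𝕜] {r : ℕ} (J : Ideal (MvPolynomial (Fin (r+1)) 𝕜)) :
    Ideal (MvPolynomial (Fin (r+1)) 𝕜) where
  carrier := {F | ∃ N : ℕ, ∀ G ∈ mI (r+1) 𝕜 ^ N, G * F ∈ J}
  zero_mem' := ⟨0, fun G _ => by simp⟩
  add_mem' := by
    rintro a b ⟨N, hN⟩ ⟨N', hN'⟩
    refine ⟨N + N', fun G hG => ?_⟩
    rw [mul_add]
    exact J.add_mem (hN G (Ideal.pow_le_pow_right (Nat.le_add_right _ _) hG))
      (hN' G (Ideal.pow_le_pow_right (Nat.le_add_left _ _) hG))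
  smul_mem' := by
    rintro c a ⟨N, hN⟩
    refine ⟨N, fun G hG => ?_⟩
    rw [smul_eq_mul, mul_left_comm]
    exact J.mul_mem_left _ (hN G hG)

/-- Hilbert function of the closed subscheme of projective space defined by `J` (that is, of its saturated ideal) -/
noncomputable def hilb {𝕜 : Type*} [Field 𝕜] {r : ℕ} (J : Ideal (MvPolynomial (Fin (r+1)) 𝕜)) (d : ℕ) : ℕ :=
  Module.finrank 𝕜 (Submodule.map (Ideal.Quotient.mkₐ 𝕜 (saturation J)).toLinearMap
    (homogeneousSubmodule (Fin (r+1)) 𝕜 d))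

/-- the closed subscheme defined by `J` is finite of degree `δ` -/
def IsFiniteOfDegree {𝕜 : Type*} [Field 𝕜] {r : ℕ} (J : Ideal (MvPolynomial (Fin (r+1)) 𝕜)) (δ : ℕ) : Prop :=
  ∃ e₀, ∀ e, e₀ ≤ e → hilb J e = δ

/-- the finite closed subscheme defined by `J` imposes independent conditions on forms of degree `d` -/
def ImposesIndependentConditions {𝕜 : Type*} [Field 𝕜] {r : ℕ} (J : Ideal (MvPolynomial (Fin (r+1)) 𝕜)) (d : ℕ) : Prop :=
  ∃ δ, IsFiniteOfDegree J δ ∧ hilb J d = δ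

/-- Castelnuovo-Mumford regularity of a nonempty finite subscheme -/
noncomputable def reg {𝕜 : Type*} [Field 𝕜] {r : ℕ} (J : Ideal (MvPolynomial (Fin (r+1)) 𝕜)) : ℕ :=
  sInf {m | 1 ≤ m ∧ ImposesIndependentConditions J (m - 1)}

end H693RF
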