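import Mathlib
import Pool.Agent.Helper693.RF.FibreDefs

namespace H693RF

open MvPolynomial

/-- vectors congruent modulo `I` to `(D f_i)_i` for a derivation `D` -/
def derSub {R : Type*} [CommRing R] {k : ℕ} (I : Ideal R) (f : Fin k → R) :
    Submodule R (Fin k → R) where
  carrier := {w | ∃ D : Derivation ℤ R R, ∀ i, w i - D (f i) ∈ I}
  zero_mem' := ⟨0, fun i => by simp⟩
  add_mem' := by
    rintro a b ⟨D, hD⟩ ⟨D', hD'⟩
    refine ⟨D + D', fun i => ?_⟩
    have : (a + b) i - (D + D') (f i) = (a i - D (f i)) + (b i - D' (f i)) := by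
      simp; ring
    rw [this]; exact I.add_mem (hD i) (hD' i)
  smul_mem' := by
    rintro c a ⟨D, hD⟩
    refine ⟨c • D, fun i => ?_⟩
    have : (c • a) i - (c • D) (f i) = c * (a i - D (f i)) := by
      simp; ring
    rw [this]; exact I.mul_mem_left _ (hD i)

/-- the cone data of a smooth projective variety, in the algebraic form used in the proof:
`P` ideal of the cone, `q` = codimension, `n+1+q = r+1` -/
structure ConeData (𝕜 : Type*) [Field 𝕜] (r n q : ℕ) (P : Ideal (MvPolynomial (Fin (r+1)) 𝕜)) : Prop where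
  hr : n + q = r
  homog : ∀ F ∈ P, ∀ d, homogeneousComponent d F ∈ P
  minors : ∀ (G : Fin (q+1) → MvPolynomial (Fin (r+1)) 𝕜), (∀ i, G i ∈ P) → ∀ c : Fin (q+1) → Fin (r+1),
    (Matrix.of fun i j => pderiv (c j) (G i)).det ∈ P
  proper : P ≠ ⊤

/-- extension of the ideal to a bigger field -/
noncomputable def extI {𝕜 : Type*} [Field 𝕜] (L : Type*) [Field L] [Algebra 𝕜 L] {r : ℕ}
    (P : Ideal (MvPolynomial (Fin (r+1)) 𝕜)) : Ideal (MvPolynomial (Fin (r+1)) L) :=
  P.map (MvPolynomial.map (algebraMap 𝕜 L))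

/-- smoothness away from the vertex, at points of a bigger field -/
def SmoothAt {𝕜 : Type*} [Field 𝕜] (L : Type*) [Field L] [Algebra 𝕜 L] {r : ℕ} (q : ℕ)
    (P : Ideal (MvPolynomial (Fin (r+1)) 𝕜)) : Prop :=
  ∀ y : Fin (r+1) → L, y ≠ 0 → (∀ F ∈ P, aeval y F = 0) →
    ∃ (G : Fin q → MvPolynomial (Fin (r+1)) 𝕜) (c : Fin q → Fin (r+1)), (∀ i, G i ∈ P) ∧
      (Matrix.of fun i j => aeval y (pderiv (c j) (G i))).det ≠ 0

/-- the fibre ideal over `p` in the coordinate ring of the cone, over `L` -/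
noncomputable def fibI {𝕜 : Type*} [Field 𝕜] (L : Type*) [Field L] [Algebra 𝕜 L] {r K : ℕ}
    (P : Ideal (MvPolynomial (Fin (r+1)) 𝕜)) (a : Fin K → Fin (r+1) → L) (p : Fin K → L) :
    Ideal (MvPolynomial (Fin (r+1)) L) :=
  extI L P ⊔ Ideal.span (Set.range fun l : Fin K => (∑ j, C (a l j) * X j) - C (p l))

end H693RF
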