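import Mathlib

namespace H693RF

open MvPolynomial

theorem exists_centred_aux {L R : Type*} [Field L] [CommRing R] [IsDomain R] [Algebra L R]
    (J : Ideal R) (hfin : FiniteDimensional L (R ⧸ J))
    (v : AddValuation (FractionRing R) (WithTop ℤ)) (hv0 : ∀ r : R, 0 ≤ v (algebraMap _ _ r))
    (hvg : ∀ r ∈ J, 0 < v (algebraMap _ _ r)) (x : R) (hx : ¬ 0 < v (algebraMap _ _ x)) (N : ℕ)
    (M : Ideal R) (hxM : x ∈ M) :
    ∃ y : R, 0 < v (algebraMap _ _ y) ∧ 1 - y ∈ M ^ N := by
  let c : Ideal R :=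
    { carrier := {r | 0 < v (algebraMap _ _ r)}
      add_mem' := by
        intro a b ha hb
        show 0 < v (algebraMap R (FractionRing R) (a + b))
        rw [map_add]
        exact lt_of_lt_of_le (lt_min ha hb) (v.map_add _ _)
      zero_mem' := by
        show 0 < v (algebraMap R (FractionRing R) 0)
        rw [map_zero, v.map_zero]
        exact WithTop.coe_lt_top 0
      smul_mem' := by
        intro a b hb
        show 0 < v (algebraMap R (FractionRing R) (a * b))
        rw [map_mul, v.map_mul]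
        have hb' : 0 < v (algebraMap R (FractionRing R) b) := hb
        exact lt_of_lt_of_le hb' (le_add_of_nonneg_left (hv0 a)) }
  have hc : ∀ r : R, r ∈ c ↔ 0 < v (algebraMap _ _ r) := fun r => Iff.rfl
  have hprime : c.IsPrime := by
    refine ⟨?_, ?_⟩
    · intro h
      have h1 : (1 : R) ∈ c := by rw [h]; trivial
      rw [hc, map_one, v.map_one] at h1
      exact lt_irrefl _ h1
    · intro a b hab
      by_contra hcon
      push Not at hcon
      have ha : v (algebraMap R (FractionRing R) a) = 0 :=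
        le_antisymm (not_lt.mp hcon.1) (hv0 a)
      have hb : v (algebraMap R (FractionRing R) b) = 0 :=
        le_antisymm (not_lt.mp hcon.2) (hv0 b)
      rw [hc, map_mul, v.map_mul, ha, hb, add_zero] at hab
      exact lt_irrefl _ hab
  have hJc : J ≤ c := fun r hr => hvg r hr
  have hfin' : FiniteDimensional L (R ⧸ c) := by
    refine Module.Finite.of_surjective (Ideal.Quotient.factorₐ L hJc).toLinearMap ?_
    exact Ideal.Quotient.factor_surjective hJc
  have hdom : IsDomain (R ⧸ c) := Ideal.Quotient.isDomain c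
  have hfield : IsField (R ⧸ c) := by
    haveI : Algebra.IsIntegral L (R ⧸ c) := inferInstance
    exact isField_of_isIntegral_of_isField' (Field.toIsField L)
  have hmax : c.IsMaximal := Ideal.Quotient.maximal_of_isField c hfield
  have hxc : x ∉ c := hx
  obtain ⟨a, y, hy, hay⟩ : ∃ a, ∃ y ∈ c, a * x + y = 1 := by
    have h1 := hmax.exists_inv hxc
    obtain ⟨a, y, hy, h2⟩ := h1
    exact ⟨a, y, hy, h2⟩
  refine ⟨1 - (a * x) ^ N, ?_, ?_⟩
  · have h1 : 1 - a * x ∣ 1 - (a * x) ^ N := by
      have := sub_dvd_pow_sub_pow 1 (a * x) N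
      rwa [one_pow] at this
    have h2 : 1 - a * x ∈ c := by
      have : 1 - a * x = y := by rw [← hay]; ring
      rw [this]; exact hy
    exact c.mem_of_dvd h1 h2
  · rw [sub_sub_cancel]
    exact Ideal.pow_mem_pow (M.mul_mem_left a hxM) N

/-- one of the valuations centred at the origin satisfies `v z ≤ v Jac` -/
theorem exists_centred {L : Type*} [Field L] {n : ℕ} (g : Fin (n+1) → MvPolynomial (Fin (n+1)) L)
    (hfin : FiniteDimensional L (MvPolynomial (Fin (n+1)) L ⧸ Ideal.span (Set.range g)))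
    (m : ℕ) (v : Fin m → AddValuation (FractionRing (MvPolynomial (Fin (n+1)) L)) (WithTop ℤ))
    (hv0 : ∀ e (r : MvPolynomial (Fin (n+1)) L), 0 ≤ v e (algebraMap _ _ r))
    (hvg : ∀ e i, 0 < v e (algebraMap _ _ (g i)))
    (Jac : MvPolynomial (Fin (n+1)) L) (hJ : Jac ≠ 0)
    (hSk : ∀ r : MvPolynomial (Fin (n+1)) L, (∀ e, v e (algebraMap _ _ Jac) < v e (algebraMap _ _ r)) →
      r ∈ Ideal.span (Set.range g))
    (N : ℕ) (I : Ideal (MvPolynomial (Fin (n+1)) L)) (hgI : ∀ i, g i ∈ I)
    (hNI : (Ideal.span (Set.range (X : Fin (n+1) → MvPolynomial (Fin (n+1)) L))) ^ N ≤ I)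
    (z : MvPolynomial (Fin (n+1)) L) (hz : z ∉ I) :
    ∃ e, (∀ i, 0 < v e (algebraMap _ _ (X i : MvPolynomial (Fin (n+1)) L))) ∧
      v e (algebraMap _ _ z) ≤ v e (algebraMap _ _ Jac) := by
  by_contra hcon
  push Not at hcon
  have hinj : Function.Injective (algebraMap (MvPolynomial (Fin (n+1)) L)
      (FractionRing (MvPolynomial (Fin (n+1)) L))) := IsFractionRing.injective _ _
  have hspan : ∀ e, ∀ r ∈ Ideal.span (Set.range g), 0 < v e (algebraMap _ _ r) := by
    intro e r hr
    refine Submodule.span_induction (p := fun r _ => 0 < v e (algebraMap _ _ r)) ?_ ?_ ?_ ?_ hr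
    · rintro _ ⟨i, rfl⟩
      exact hvg e i
    · rw [map_zero, (v e).map_zero]
      exact WithTop.coe_lt_top 0
    · intro a b _ _ ha hb
      rw [map_add]
      exact lt_of_lt_of_le (lt_min ha hb) ((v e).map_add _ _)
    · intro a b _ hb
      rw [smul_eq_mul, map_mul, (v e).map_mul]
      exact lt_of_lt_of_le hb (le_add_of_nonneg_left (hv0 e a))
  -- the elements `y e`
  have hy : ∀ e : Fin m, ∃ y : MvPolynomial (Fin (n+1)) L,
      ((∀ i, 0 < v e (algebraMap _ _ (X i : MvPolynomial (Fin (n+1)) L))) ∨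
        0 < v e (algebraMap _ _ y)) ∧
      1 - y ∈ (Ideal.span (Set.range (X : Fin (n+1) → MvPolynomial (Fin (n+1)) L))) ^ N := by
    intro e
    by_cases he : ∀ i, 0 < v e (algebraMap _ _ (X i : MvPolynomial (Fin (n+1)) L))
    · exact ⟨1, Or.inl he, by rw [sub_self]; exact Ideal.zero_mem _⟩
    · push Not at he
      obtain ⟨i, hi⟩ := he
      have hXm : (X i : MvPolynomial (Fin (n+1)) L) ∈
          Ideal.span (Set.range (X : Fin (n+1) → MvPolynomial (Fin (n+1)) L)) :=
        Ideal.subset_span (Set.mem_range_self i)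
      obtain ⟨y, h1, h2⟩ := exists_centred_aux (L := L) _ hfin (v e) (hv0 e) (hspan e) (X i)
        (not_lt.mpr hi) N _ hXm
      exact ⟨y, Or.inr h1, h2⟩
  choose y hy1 hy2 using hy
  -- bound for the values of `Jac`
  have hJtop : ∀ e, ∃ k : ℤ, v e (algebraMap _ _ Jac) = (k : WithTop ℤ) := by
    intro e
    have h1 : v e (algebraMap _ _ Jac) ≠ ⊤ := by
      intro h
      rw [(v e).top_iff] at h
      exact hJ (hinj (by rw [h, map_zero]))
    obtain ⟨k, hk⟩ := WithTop.ne_top_iff_exists.mp h1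
    exact ⟨k, hk.symm⟩
  choose k hk using hJtop
  obtain ⟨A, hA⟩ : ∃ A : ℕ, ∀ e, k e < A := by
    refine ⟨∑ e, (k e).natAbs + 1, fun e => ?_⟩
    have h1 : (k e).natAbs ≤ ∑ e, (k e).natAbs :=
      Finset.single_le_sum (f := fun e => (k e).natAbs) (fun _ _ => Nat.zero_le _) (Finset.mem_univ e)
    have h2 : k e ≤ (k e).natAbs := Int.le_natAbs
    omega
  set e0 : MvPolynomial (Fin (n+1)) L := ∏ e, y e ^ A with he0
  have hvz : ∀ e, v e (algebraMap _ _ Jac) < v e (algebraMap _ _ (e0 * z)) := by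
    intro e
    rw [map_mul, (v e).map_mul]
    rcases hy1 e with h1 | h1
    · exact lt_of_lt_of_le (hcon e h1) (le_add_of_nonneg_left (hv0 e _))
    · have h2 : e0 = y e ^ A * ∏ e' ∈ Finset.univ.erase e, y e' ^ A := by
        rw [he0, Finset.mul_prod_erase _ (fun e => y e ^ A) (Finset.mem_univ e)]
      have h3 : (A : WithTop ℤ) ≤ v e (algebraMap _ _ e0) := by
        rw [h2, map_mul, (v e).map_mul, map_pow, (v e).map_pow]
        refine le_trans ?_ (le_add_of_nonneg_right (hv0 e _))
        have h4 : (1 : WithTop ℤ) ≤ v e (algebraMap _ _ (y e)) := by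
          rcases eq_or_ne (v e (algebraMap _ _ (y e))) ⊤ with h5 | h5
          · rw [h5]; exact le_top
          · obtain ⟨l, hl⟩ := WithTop.ne_top_iff_exists.mp h5
            rw [← hl] at h1 ⊢
            have h6 : (0 : ℤ) < l := by exact_mod_cast h1
            exact_mod_cast h6
        calc (A : WithTop ℤ) = A • (1 : WithTop ℤ) := by rw [nsmul_one]
          _ ≤ A • v e (algebraMap _ _ (y e)) := nsmul_le_nsmul_right h4 A
      rw [hk e]
      have h7 : ((k e : ℤ) : WithTop ℤ) < (A : WithTop ℤ) := by exact_mod_cast hA e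
      exact lt_of_lt_of_le h7 (h3.trans (le_add_of_nonneg_right (hv0 e _)))
  have h1 : e0 * z ∈ I := by
    have h2 := hSk _ hvz
    refine Ideal.span_le.mpr ?_ h2
    rintro _ ⟨i, rfl⟩
    exact hgI i
  have h2 : 1 - e0 ∈ (Ideal.span (Set.range (X : Fin (n+1) → MvPolynomial (Fin (n+1)) L))) ^ N := by
    rw [← Ideal.Quotient.mk_eq_mk_iff_sub_mem, he0, map_prod]
    have h3 : ∀ e, Ideal.Quotient.mk ((Ideal.span (Set.range (X : Fin (n+1) →
        MvPolynomial (Fin (n+1)) L))) ^ N) (y e ^ A) = 1 := by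
      intro e
      have h4 := (Ideal.Quotient.mk_eq_mk_iff_sub_mem _ _).mpr (hy2 e)
      rw [map_pow, ← h4, map_one, one_pow]
    rw [map_one]
    exact (Finset.prod_eq_one fun e _ => h3 e).symm
  apply hz
  have h3 : z = e0 * z + (1 - e0) * z := by ring
  rw [h3]
  exact I.add_mem h1 (I.mul_mem_right z (hNI h2))

end H693RF
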