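import Mathlib

namespace H693RF

open MvPolynomial

theorem cl_pos {L : Type*} [Field L] {n : ℕ}
    (ν : AddValuation (MvPolynomial (Fin (n+1)) L) (WithTop ℤ))
    (hv0 : ∀ r, 0 ≤ ν r) (hvX : ∀ i, 0 < ν (X i)) (r : MvPolynomial (Fin (n+1)) L)
    (hr : constantCoeff r = 0) : 0 < ν r := by
  have h : ∀ r : MvPolynomial (Fin (n+1)) L, 0 < ν (r - C (constantCoeff r)) := by
    intro r
    induction r using MvPolynomial.induction_on with
    | C a => simp
    | add p q hp hq =>
      have : p + q - C (constantCoeff (p + q)) = (p - C (constantCoeff p)) +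
          (q - C (constantCoeff q)) := by rw [map_add, C_add]; ring
      rw [this]
      exact lt_of_lt_of_le (lt_min hp hq) (ν.map_add _ _)
    | mul_X p i hp =>
      rw [map_mul, constantCoeff_X, mul_zero, C_0, sub_zero, ν.map_mul]
      exact lt_of_lt_of_le (hvX i) (le_add_of_nonneg_left (hv0 p))
  have := h r
  rwa [hr, C_0, sub_zero] at this

theorem cl_fin {L : Type*} [Field L] {n : ℕ}
    (ν : AddValuation (MvPolynomial (Fin (n+1)) L) (WithTop ℤ))
    (hvX : ∀ i, 0 < ν (X i)) (q : ℤ) (hq : 0 < q)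
    (A : Ideal (MvPolynomial (Fin (n+1)) L))
    (hA : ∀ r, r ∈ A ↔ (q : WithTop ℤ) ≤ ν r) :
    Module.Finite L (MvPolynomial (Fin (n+1)) L ⧸ A) := by
  have hX : ∀ i : Fin (n+1), (X i : MvPolynomial (Fin (n+1)) L) ^ q.toNat ∈ A := by
    intro i
    rw [hA, ν.map_pow]
    have h1 := hvX i
    cases hx : ν (X i) with
    | top =>
      have : q.toNat • (⊤ : WithTop ℤ) = ⊤ := by
        obtain ⟨k, hk⟩ : ∃ k, q.toNat = k + 1 := ⟨q.toNat - 1, by omega⟩
        rw [hk, succ_nsmul]
        simp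
      rw [this]; exact le_top
    | coe m =>
      rw [hx] at h1
      have hm : 0 < m := by exact_mod_cast h1
      have h2 : q.toNat • ((m : ℤ) : WithTop ℤ) = ((q.toNat • m : ℤ) : WithTop ℤ) := by
        rw [WithTop.coe_nsmul]
      rw [h2]
      have h3 : q ≤ q.toNat • m := by
        rw [nsmul_eq_mul, Int.toNat_of_nonneg hq.le]
        nlinarith
      exact_mod_cast h3
  haveI : Algebra.IsIntegral L (MvPolynomial (Fin (n+1)) L ⧸ A) := by
    constructor
    intro x
    obtain ⟨p, rfl⟩ := Ideal.Quotient.mk_surjective x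
    induction p using MvPolynomial.induction_on with
    | C a => exact isIntegral_algebraMap
    | add p q hp hq => rw [map_add]; exact hp.add hq
    | mul_X p i hp =>
      rw [map_mul]
      refine hp.mul ?_
      have h0 : (Ideal.Quotient.mk A (X i)) ^ q.toNat = 0 := by
        rw [← map_pow]
        exact Ideal.Quotient.eq_zero_iff_mem.2 (hX i)
      refine IsIntegral.of_pow (n := q.toNat) (by omega) ?_
      rw [h0]
      exact isIntegral_zero
  haveI : Algebra.FiniteType L (MvPolynomial (Fin (n+1)) L ⧸ A) :=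
    Algebra.FiniteType.of_surjective (Ideal.Quotient.mkₐ L A) (Ideal.Quotient.mkₐ_surjective L A)
  exact Algebra.IsIntegral.finite

/-- counting -/
theorem cl_count (b q μ : ℤ) (hb : 0 < b) (hμ : 0 ≤ μ) (hq : 0 < q) :
    q - μ ≤ b * (((Finset.range q.toNat).filter (fun i : ℕ => (i : ℤ) * b + μ < q)).card : ℤ) := by
  classical
  have hex : ∃ k : ℕ, q ≤ (k : ℤ) * b + μ := ⟨q.toNat, by
    rw [Int.toNat_of_nonneg hq.le]; nlinarith⟩
  set k := Nat.find hex with hk
  have h1 := Nat.find_spec hex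
  have hkq : k ≤ q.toNat := Nat.find_min' hex (by
    rw [Int.toNat_of_nonneg hq.le]; nlinarith)
  have h2 : Finset.range k ⊆ (Finset.range q.toNat).filter (fun i : ℕ => (i : ℤ) * b + μ < q) := by
    intro i hi
    rw [Finset.mem_range] at hi
    rw [Finset.mem_filter, Finset.mem_range]
    refine ⟨by omega, ?_⟩
    have := Nat.find_min hex hi
    omega
  have h3 := Finset.card_le_card h2
  rw [Finset.card_range] at h3
  have h4 : (k : ℤ) ≤ (((Finset.range q.toNat).filter (fun i : ℕ => (i : ℤ) * b + μ < q)).card : ℤ) := by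
    exact_mod_cast h3
  nlinarith

theorem cl_grad_pow {L : Type*} [Field L] {n : ℕ} (l u : MvPolynomial (Fin (n+1)) L)
    (hl : constantCoeff l = 0) (hu : constantCoeff u = 0) (m : ℕ) (i : Fin (n+1)) :
    constantCoeff (pderiv i (l ^ m * u)) = 0 ^ m * constantCoeff (pderiv i u) := by
  rw [pderiv_mul, map_add, map_mul, map_mul, hu, mul_zero, zero_add, map_pow, hl]

theorem cl_grad_one {L : Type*} [Field L] {n : ℕ} (l : MvPolynomial (Fin (n+1)) L)
    (hl : constantCoeff l = 0) (m : ℕ) (i : Fin (n+1)) :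
    constantCoeff (pderiv i (l ^ m * 1)) = (m : L) * 0 ^ (m - 1) * constantCoeff (pderiv i l) := by
  rw [mul_one, pderiv_pow, map_mul, map_mul, map_pow, hl, map_natCast]

/-- the key independence statement -/
theorem cl_key {L : Type*} [Field L] {n : ℕ}
    (ν : AddValuation (MvPolynomial (Fin (n+1)) L) (WithTop ℤ))
    (hvL : ∀ c : L, c ≠ 0 → ν (C c) = 0)
    (q : ℤ) (b : ℤ) (hb : 0 < b)
    (l : MvPolynomial (Fin (n+1)) L) (hl0 : constantCoeff l = 0)
    (hlb : ν l = (b : WithTop ℤ))
    (w : Fin (n+1) → MvPolynomial (Fin (n+1)) L) (hw0 : w 0 = l)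
    (hwc : ∀ a, constantCoeff (w a) = 0)
    (hwd : (Matrix.of fun a i => constantCoeff (pderiv i (w a))).det ≠ 0)
    (m : Fin (n+1) → ℤ) (hm : ∀ a, ν (w a) = (m a : WithTop ℤ)) (hmpos : ∀ a, 0 < m a)
    (hmax : ∀ a0 : Fin (n+1), a0 ≠ 0 → ∀ z, constantCoeff z = 0 →
      (Matrix.of fun a i => constantCoeff (pderiv i (Function.update w a0 z a))).det ≠ 0 →
      ν z ≤ (m a0 : WithTop ℤ))
    (T : Finset (Fin (n+1) × ℕ))
    (hT : ∀ p ∈ T, (p.2 : ℤ) * b + (if p.1 = 0 then 0 else m p.1) < q)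
    (c : Fin (n+1) × ℕ → L)
    (hx : (q : WithTop ℤ) ≤ ν (∑ p ∈ T, C (c p) * (l ^ p.2 * (if p.1 = 0 then 1 else w p.1)))) :
    ∀ p ∈ T, c p = 0 := by
  classical
  by_contra hcon
  push Not at hcon
  set μ : Fin (n+1) → ℤ := fun a => if a = 0 then 0 else m a with hμ
  set u : Fin (n+1) → MvPolynomial (Fin (n+1)) L := fun a => if a = 0 then 1 else w a with hu
  have huν : ∀ a, ν (u a) = (μ a : WithTop ℤ) := by
    intro a
    simp only [hu, hμ]
    split_ifs with h
    · rw [ν.map_one]; rfl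
    · exact hm a
  set val : Fin (n+1) × ℕ → ℤ := fun p => (p.2 : ℤ) * b + μ p.1 with hval
  set y : Fin (n+1) × ℕ → MvPolynomial (Fin (n+1)) L := fun p => l ^ p.2 * u p.1 with hy
  have hpow : ∀ k : ℕ, ν (l ^ k) = (((k : ℤ) * b : ℤ) : WithTop ℤ) := by
    intro k
    rw [ν.map_pow, hlb, ← WithTop.coe_nsmul, nsmul_eq_mul]
  have hyν : ∀ p, ν (y p) = (val p : WithTop ℤ) := by
    intro p
    simp only [hy, hval]
    rw [ν.map_mul, huν, hpow, ← WithTop.coe_add]
  have hcy : ∀ p, c p ≠ 0 → ν (C (c p) * y p) = (val p : WithTop ℤ) := by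
    intro p hp
    rw [ν.map_mul, hvL _ hp, zero_add, hyν]
  set P := T.filter (fun p => c p ≠ 0) with hP
  have hPne : P.Nonempty := by
    obtain ⟨p, hp, hp'⟩ := hcon
    exact ⟨p, Finset.mem_filter.2 ⟨hp, hp'⟩⟩
  obtain ⟨p0, hp0, hmin⟩ := Finset.exists_min_image P val hPne
  have hp0T := (Finset.mem_filter.1 hp0)
  have hρq : val p0 < q := hT p0 hp0T.1
  set P1 := P.filter (fun p => val p = val p0) with hP1
  have hP1c : ∀ p ∈ P1, c p ≠ 0 := fun p hp =>
    (Finset.mem_filter.1 (Finset.mem_filter.1 hp).1).2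
  have hP1v : ∀ p ∈ P1, val p = val p0 := fun p hp => (Finset.mem_filter.1 hp).2
  have hsum : ∑ p ∈ T, C (c p) * y p = ∑ p ∈ P, C (c p) * y p := by
    symm
    apply Finset.sum_subset (Finset.filter_subset _ _)
    intro p hp hp'
    have : c p = 0 := by
      by_contra h
      exact hp' (Finset.mem_filter.2 ⟨hp, h⟩)
    rw [this, C_0, zero_mul]
  have hx' : (q : WithTop ℤ) ≤ ν (∑ p ∈ P, C (c p) * y p) := by rw [← hsum]; exact hx
  have hsplit : ∑ p ∈ P, C (c p) * y p = ∑ p ∈ P1, C (c p) * y p +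
      ∑ p ∈ P.filter (fun p => ¬ val p = val p0), C (c p) * y p :=
    (Finset.sum_filter_add_sum_filter_not P _ _).symm
  have hrest : (val p0 : WithTop ℤ) <
      ν (∑ p ∈ P.filter (fun p => ¬ val p = val p0), C (c p) * y p) := by
    apply ν.map_lt_sum (WithTop.coe_ne_top)
    intro p hp
    rw [Finset.mem_filter] at hp
    rw [hcy p (Finset.mem_filter.1 hp.1).2]
    have := hmin p hp.1
    have h2 : val p0 < val p := lt_of_le_of_ne this (fun h => hp.2 h.symm)
    exact_mod_cast h2
  have hx1 : (val p0 : WithTop ℤ) < ν (∑ p ∈ P1, C (c p) * y p) := by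
    have h1 : ∑ p ∈ P1, C (c p) * y p = ∑ p ∈ P, C (c p) * y p -
      ∑ p ∈ P.filter (fun p => ¬ val p = val p0), C (c p) * y p := by rw [hsplit]; ring
    rw [h1]
    refine lt_of_lt_of_le (lt_min ?_ hrest) (ν.map_sub _ _)
    refine lt_of_lt_of_le ?_ hx'
    exact_mod_cast hρq
  -- injectivity
  have hinj : ∀ p ∈ P1, ∀ p' ∈ P1, p.1 = p'.1 → p = p' := by
    intro p hp p' hp' h
    have h1 := hP1v p hp
    have h2 := hP1v p' hp'
    simp only [hval] at h1 h2
    rw [h] at h1
    have h3 : (p.2 : ℤ) * b = (p'.2 : ℤ) * b := by linarith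
    have h4 : (p.2 : ℤ) = p'.2 := mul_right_cancel₀ hb.ne' h3
    exact Prod.ext h (by exact_mod_cast h4)
  by_cases hS : ∃ p ∈ P1, p.1 ≠ 0
  swap
  · push Not at hS
    have hp01 : p0 ∈ P1 := Finset.mem_filter.2 ⟨hp0, rfl⟩
    have h1 : P1 = {p0} := by
      ext p
      rw [Finset.mem_singleton]
      constructor
      · intro hp
        exact hinj p hp p0 hp01 (by rw [hS p hp, hS p0 hp01])
      · rintro rfl; exact hp01
    rw [h1, Finset.sum_singleton, hcy p0 (hP1c p0 hp01)] at hx1
    exact lt_irrefl _ hx1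
  · obtain ⟨p1, hp1, hp1min⟩ := Finset.exists_min_image (P1.filter (fun p => p.1 ≠ 0))
      (fun p => p.2) (by
        obtain ⟨p, hp, hp'⟩ := hS
        exact ⟨p, Finset.mem_filter.2 ⟨hp, hp'⟩⟩)
    obtain ⟨hp1P, hp1z⟩ := Finset.mem_filter.1 hp1
    have hjval : (p1.2 : ℤ) * b + m p1.1 = val p0 := by
      have := hP1v p1 hp1P
      simp only [hval, hμ, if_neg hp1z] at this
      exact this
    have hge : ∀ p ∈ P1, p1.2 ≤ p.2 := by
      intro p hp
      by_cases h : p.1 = 0
      · have h1 := hP1v p hp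
        simp only [hval, hμ, if_pos h] at h1
        have h2 := hmpos p1.1
        have h3 : (p1.2 : ℤ) * b < (p.2 : ℤ) * b := by
          simp only [hval, hμ] at hjval h1
          linarith
        have h4 : (p1.2 : ℤ) < p.2 := lt_of_mul_lt_mul_right h3 hb.le
        omega
      · exact hp1min p (Finset.mem_filter.2 ⟨hp, h⟩)
    have hgt : ∀ p ∈ P1, p.1 = 0 → p1.2 < p.2 := by
      intro p hp h
      have h1 := hP1v p hp
      simp only [hval, hμ, if_pos h] at h1
      have h2 := hmpos p1.1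
      have h3 : (p1.2 : ℤ) * b < (p.2 : ℤ) * b := by
        simp only [hval, hμ] at hjval h1
        linarith
      have h4 : (p1.2 : ℤ) < p.2 := lt_of_mul_lt_mul_right h3 hb.le
      omega
    set z := ∑ p ∈ P1, C (c p) * (l ^ (p.2 - p1.2) * u p.1) with hz
    have hxz : ∑ p ∈ P1, C (c p) * y p = l ^ p1.2 * z := by
      rw [hz, Finset.mul_sum]
      refine Finset.sum_congr rfl fun p hp => ?_
      simp only [hy]
      have : p.2 = p1.2 + (p.2 - p1.2) := by have := hge p hp; omega
      calc C (c p) * (l ^ p.2 * u p.1) = C (c p) * (l ^ (p1.2 + (p.2 - p1.2)) * u p.1) := by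
            rw [← this]
        _ = _ := by rw [pow_add]; ring
    have hzν : (m p1.1 : WithTop ℤ) < ν z := by
      rw [hxz, ν.map_mul, hpow, ← hjval] at hx1
      cases hzz : ν z with
      | top => exact WithTop.coe_lt_top _
      | coe t =>
        rw [hzz, ← WithTop.coe_add] at hx1
        have h1 : (p1.2 : ℤ) * b + m p1.1 < (p1.2 : ℤ) * b + t := by exact_mod_cast hx1
        have h2 : m p1.1 < t := by linarith
        exact_mod_cast h2
    refine absurd (hmax p1.1 hp1z z ?_ ?_) (not_le.2 hzν)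
    · rw [hz, map_sum]
      refine Finset.sum_eq_zero fun p hp => ?_
      rw [map_mul, map_mul, map_pow]
      by_cases h : p.1 = 0
      · have := hgt p hp h
        rw [hl0, zero_pow (by omega)]
        ring
      · simp only [hu, if_neg h]
        rw [hwc]; ring
    · set k : Fin (n+1) → L := fun a => ∑ p ∈ P1 with p.1 = a, c p *
        (if a = 0 then (((p.2 - p1.2 : ℕ) : L) * 0 ^ (p.2 - p1.2 - 1)) else 0 ^ (p.2 - p1.2)) with hk
      have hrow : ∀ i, constantCoeff (pderiv i z) =
          ∑ a, k a * constantCoeff (pderiv i (w a)) := by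
        intro i
        rw [hz, map_sum, map_sum, ← Finset.sum_fiberwise P1 (fun p => p.1)]
        refine Finset.sum_congr rfl fun a _ => ?_
        rw [hk]
        simp only
        rw [Finset.sum_mul]
        refine Finset.sum_congr rfl fun p hp => ?_
        have hpa : p.1 = a := (Finset.mem_filter.1 hp).2
        rw [pderiv_C_mul, map_mul, constantCoeff_C]
        by_cases h : a = 0
        · simp only [hu, hpa, h, if_true]
          rw [cl_grad_one l hl0, hw0]
          ring
        · simp only [hu, hpa, h, if_false]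
          rw [cl_grad_pow l (w a) hl0 (hwc a)]
          ring
      have hmat : (Matrix.of fun a i => constantCoeff (pderiv i (Function.update w p1.1 z a))) =
          (Matrix.of fun a i => constantCoeff (pderiv i (w a))).updateRow p1.1
            (∑ a, k a • (Matrix.of fun a i => constantCoeff (pderiv i (w a))) a) := by
        ext a i
        by_cases h : a = p1.1
        · subst h
          rw [Matrix.updateRow_self, Matrix.of_apply, Function.update_self, hrow,
            Finset.sum_apply]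
          refine Finset.sum_congr rfl fun a _ => ?_
          rw [Pi.smul_apply, smul_eq_mul, Matrix.of_apply]
        · rw [Matrix.updateRow_ne h, Matrix.of_apply, Function.update_of_ne h, Matrix.of_apply]
      rw [hmat, Matrix.det_updateRow_sum, smul_eq_mul]
      refine mul_ne_zero ?_ hwd
      have hf : P1.filter (fun p => p.1 = p1.1) = {p1} := by
        ext p
        rw [Finset.mem_filter, Finset.mem_singleton]
        constructor
        · rintro ⟨h1, h2⟩; exact hinj p h1 p1 hp1P h2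
        · rintro rfl; exact ⟨hp1P, rfl⟩
      simp only [hk]
      rw [hf, Finset.sum_singleton, if_neg hp1z, Nat.sub_self, pow_zero, mul_one]
      exact hP1c p1 hp1P

/-- counting lemma: `v` a discrete valuation on the fraction field, nonnegative on polynomials, positive on the variables -/
theorem count_lemma
    {L : Type*} [Field L] {n : ℕ}
    (v : AddValuation (FractionRing (MvPolynomial (Fin (n+1)) L)) (WithTop ℤ))
    (hv0 : ∀ r : MvPolynomial (Fin (n+1)) L, 0 ≤ v (algebraMap _ _ r))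
    (hvX : ∀ i : Fin (n+1), 0 < v (algebraMap _ _ (X i : MvPolynomial (Fin (n+1)) L)))
    (hvL : ∀ c : L, c ≠ 0 → v (algebraMap _ _ (C c : MvPolynomial (Fin (n+1)) L)) = 0)
    (q : ℤ) (hq : 0 < q) (b J : ℤ) (s : ℕ)
    (l : MvPolynomial (Fin (n+1)) L) (hl0 : constantCoeff l = 0)
    (hlb : v (algebraMap _ _ l) = (b : WithTop ℤ))
    (hl1 : ∃ w : Fin (n+1) → MvPolynomial (Fin (n+1)) L, w 0 = l ∧ (∀ a, constantCoeff (w a) = 0) ∧
      (Matrix.of fun a i => constantCoeff (pderiv i (w a))).det ≠ 0)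
    (hJ : (s : ℤ) * b ≤ J)
    (hK3 : ∀ w : Fin (n+1) → MvPolynomial (Fin (n+1)) L, w 0 = l → (∀ a, constantCoeff (w a) = 0) →
      (Matrix.of fun a i => constantCoeff (pderiv i (w a))).det ≠ 0 →
      (∑ a, v (algebraMap _ _ (w a))) + (J : WithTop ℤ) ≤ (((n+1 : ℕ) : ℤ) * q : ℤ))
    (A : Ideal (MvPolynomial (Fin (n+1)) L))
    (hA : ∀ r, r ∈ A ↔ (q : WithTop ℤ) ≤ v (algebraMap _ _ r)) :
    FiniteDimensional L (MvPolynomial (Fin (n+1)) L ⧸ A) ∧
    s + 1 ≤ Module.finrank L (MvPolynomial (Fin (n+1)) L ⧸ A) := by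
  classical
  let ν : AddValuation (MvPolynomial (Fin (n+1)) L) (WithTop ℤ) :=
    v.comap (algebraMap (MvPolynomial (Fin (n+1)) L) (FractionRing (MvPolynomial (Fin (n+1)) L)))
  have hv0' : ∀ r, 0 ≤ ν r := hv0
  have hvX' : ∀ i, 0 < ν (X i) := hvX
  have hvL' : ∀ c : L, c ≠ 0 → ν (C c) = 0 := hvL
  have hlb' : ν l = (b : WithTop ℤ) := hlb
  have hA' : ∀ r, r ∈ A ↔ (q : WithTop ℤ) ≤ ν r := hA
  have hfin : Module.Finite L (MvPolynomial (Fin (n+1)) L ⧸ A) := cl_fin ν hvX' q hq A hA'
  refine ⟨hfin, ?_⟩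
  have hb : 0 < b := by
    have := cl_pos ν hv0' hvX' l hl0
    rw [hlb'] at this
    exact_mod_cast this
  -- integer values
  have hint : ∀ w : Fin (n+1) → MvPolynomial (Fin (n+1)) L, w 0 = l →
      (∀ a, constantCoeff (w a) = 0) →
      (Matrix.of fun a i => constantCoeff (pderiv i (w a))).det ≠ 0 →
      ∃ m : Fin (n+1) → ℤ, (∀ a, ν (w a) = (m a : WithTop ℤ)) ∧
        (∑ a, m a) + J ≤ ((n+1 : ℕ) : ℤ) * q := by
    intro w h0 hc hd
    have h1 := hK3 w h0 hc hd
    have h2 : ∀ a, ν (w a) ≠ ⊤ := by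
      intro a ha
      have h3 : (∑ a, v (algebraMap _ _ (w a))) = ⊤ := by
        rw [WithTop.sum_eq_top]
        exact ⟨a, Finset.mem_univ _, ha⟩
      rw [h3, WithTop.top_add, top_le_iff] at h1
      exact WithTop.coe_ne_top h1
    choose m hm using fun a => WithTop.ne_top_iff_exists.1 (h2 a)
    refine ⟨m, fun a => (hm a).symm, ?_⟩
    have h3 : (∑ a, v (algebraMap _ _ (w a))) = ((∑ a, m a : ℤ) : WithTop ℤ) := by
      rw [WithTop.coe_sum]
      exact Finset.sum_congr rfl fun a _ => (hm a).symm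
    rw [h3, ← WithTop.coe_add] at h1
    exact_mod_cast h1
  obtain ⟨S, ⟨w, m, hw0, hwc, hwd, hm, hmS⟩, hSmax⟩ := Int.exists_greatest_of_bdd
    (P := fun S => ∃ (w : Fin (n+1) → MvPolynomial (Fin (n+1)) L) (m : Fin (n+1) → ℤ), w 0 = l ∧
      (∀ a, constantCoeff (w a) = 0) ∧
      (Matrix.of fun a i => constantCoeff (pderiv i (w a))).det ≠ 0 ∧
      (∀ a, ν (w a) = (m a : WithTop ℤ)) ∧ ∑ a, m a = S)
    ⟨((n+1 : ℕ) : ℤ) * q - J, by
      rintro S ⟨w, m, h0, hc, hd, hm, hS⟩
      obtain ⟨m', hm', hm''⟩ := hint w h0 hc hd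
      have : m = m' := by
        funext a
        have := (hm a).symm.trans (hm' a)
        exact_mod_cast this
      subst this
      linarith⟩
    (by
      obtain ⟨w, h0, hc, hd⟩ := hl1
      obtain ⟨m, hm, hm'⟩ := hint w h0 hc hd
      exact ⟨_, w, m, h0, hc, hd, hm, rfl⟩)
  have hmpos : ∀ a, 0 < m a := by
    intro a
    have := cl_pos ν hv0' hvX' (w a) (hwc a)
    rw [hm a] at this
    exact_mod_cast this
  have hmJ : (∑ a, m a) + J ≤ ((n+1 : ℕ) : ℤ) * q := by
    obtain ⟨m', hm', hm''⟩ := hint w hw0 hwc hwd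
    have : m = m' := by
      funext a
      have := (hm a).symm.trans (hm' a)
      exact_mod_cast this
    subst this
    exact hm''
  have hm0 : m 0 = b := by
    have h1 := hm 0
    rw [hw0, hlb'] at h1
    exact_mod_cast h1.symm
  have hmax : ∀ a0 : Fin (n+1), a0 ≠ 0 → ∀ z, constantCoeff z = 0 →
      (Matrix.of fun a i => constantCoeff (pderiv i (Function.update w a0 z a))).det ≠ 0 →
      ν z ≤ (m a0 : WithTop ℤ) := by
    intro a0 ha0 z hz hd
    have h0 : Function.update w a0 z 0 = l := by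
      rw [Function.update_of_ne (Ne.symm ha0), hw0]
    have hc : ∀ a, constantCoeff (Function.update w a0 z a) = 0 := by
      intro a
      by_cases h : a = a0
      · subst h; rw [Function.update_self]; exact hz
      · rw [Function.update_of_ne h]; exact hwc a
    obtain ⟨m', hm', -⟩ := hint _ h0 hc hd
    have h1 := hSmax (∑ a, m' a) ⟨_, m', h0, hc, hd, hm', rfl⟩
    have h2 : ∀ a, a ≠ a0 → m' a = m a := by
      intro a ha
      have h3 := hm' a
      rw [Function.update_of_ne ha, hm a] at h3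
      exact_mod_cast h3.symm
    have h3 : ∑ a ∈ Finset.univ.erase a0, m' a = ∑ a ∈ Finset.univ.erase a0, m a :=
      Finset.sum_congr rfl fun a ha => h2 a (Finset.ne_of_mem_erase ha)
    rw [← hmS, ← Finset.add_sum_erase _ _ (Finset.mem_univ a0),
      ← Finset.add_sum_erase _ (fun a => m a) (Finset.mem_univ a0), h3] at h1
    have h4 : m' a0 ≤ m a0 := by linarith
    have h5 := hm' a0
    rw [Function.update_self] at h5
    rw [h5]
    exact_mod_cast h4
  set μ : Fin (n+1) → ℤ := fun a => if a = 0 then 0 else m a with hμ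
  set T : Finset (Fin (n+1) × ℕ) := (Finset.univ ×ˢ Finset.range q.toNat).filter
    (fun p => (p.2 : ℤ) * b + μ p.1 < q) with hT
  have hTcard : ((n+1 : ℕ) : ℤ) * q - ∑ a, μ a ≤ b * (T.card : ℤ) := by
    have h1 : T.card = ∑ a, ((Finset.range q.toNat).filter
        (fun i : ℕ => (i : ℤ) * b + μ a < q)).card := by
      rw [Finset.card_eq_sum_card_fiberwise (f := Prod.fst) (t := Finset.univ)
        (fun _ _ => Finset.mem_univ _)]
      refine Finset.sum_congr rfl fun a _ => ?_
      symm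
      apply Finset.card_bij (fun i _ => (a, i))
      · intro i hi
        rw [Finset.mem_filter] at hi
        simp only [hT, Finset.mem_filter, Finset.mem_product, Finset.mem_univ, true_and]
        exact ⟨⟨hi.1, hi.2⟩, trivial⟩
      · intro i _ j _ h
        exact (Prod.ext_iff.1 h).2
      · rintro ⟨a', i⟩ hp
        simp only [hT, Finset.mem_filter, Finset.mem_product, Finset.mem_univ, true_and] at hp
        obtain ⟨⟨h1, h2⟩, rfl⟩ := hp
        exact ⟨i, Finset.mem_filter.2 ⟨h1, h2⟩, rfl⟩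
    rw [h1]
    push_cast
    rw [Finset.mul_sum]
    have h2 : ∑ a : Fin (n+1), (q - μ a) ≤ ∑ a, b * (((Finset.range q.toNat).filter
        (fun i : ℕ => (i : ℤ) * b + μ a < q)).card : ℤ) := by
      refine Finset.sum_le_sum fun a _ => cl_count b q (μ a) hb ?_ hq
      simp only [hμ]
      split_ifs
      · exact le_rfl
      · exact (hmpos a).le
    rw [Finset.sum_sub_distrib, Finset.sum_const, Finset.card_univ, Fintype.card_fin,
      nsmul_eq_mul] at h2
    push_cast at h2
    exact h2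
  have hμsum : ∑ a, μ a = ∑ a, m a - b := by
    rw [Fin.sum_univ_succ, Fin.sum_univ_succ (f := m), hm0]
    simp [hμ, Fin.succ_ne_zero]
  have hcard : s + 1 ≤ T.card := by
    have h1 : b * ((s : ℤ) + 1) ≤ b * (T.card : ℤ) := by
      refine le_trans ?_ hTcard
      rw [hμsum]
      nlinarith
    have h2 := le_of_mul_le_mul_left h1 hb
    exact_mod_cast h2
  refine hcard.trans ?_
  have hli : LinearIndependent L (fun p : T => Ideal.Quotient.mk A
      (l ^ (p : Fin (n+1) × ℕ).2 * (if (p : Fin (n+1) × ℕ).1 = 0 then 1 else w (p : Fin (n+1) × ℕ).1))) := by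
    rw [Fintype.linearIndependent_iff]
    intro g hg
    let c : Fin (n+1) × ℕ → L := fun p => if h : p ∈ T then g ⟨p, h⟩ else 0
    have hgc : ∀ p : T, g p = c p := by
      intro p
      simp only [c, dif_pos p.2]
    have hmem : ∑ p ∈ T, C (c p) * (l ^ p.2 * (if p.1 = 0 then 1 else w p.1)) ∈ A := by
      rw [← Ideal.Quotient.eq_zero_iff_mem, map_sum, ← Finset.sum_coe_sort T, ← hg]
      refine Finset.sum_congr rfl fun p _ => ?_
      rw [hgc p, MvPolynomial.C_mul']
      rfl
    have hkey := cl_key ν hvL' q b hb l hl0 hlb' w hw0 hwc hwd m hm hmpos hmax T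
      (fun p hp => (Finset.mem_filter.1 hp).2) c ((hA' _).1 hmem)
    intro p
    rw [hgc p]
    exact hkey p p.2
  have := hli.fintype_card_le_finrank
  rwa [Fintype.card_coe] at this

end H693RF
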