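import Mathlib

namespace H693RF

open MvPolynomial

/-- extension of a derivation to the fraction field -/
theorem det_ext_der {L : Type*} [Field L] {n : ℕ}
    (d : Derivation L (MvPolynomial (Fin (n+1)) L) (MvPolynomial (Fin (n+1)) L)) :
    ∃ D : Derivation L (FractionRing (MvPolynomial (Fin (n+1)) L))
      (FractionRing (MvPolynomial (Fin (n+1)) L)),
      ∀ r : MvPolynomial (Fin (n+1)) L, D (algebraMap _ _ r) = algebraMap _ _ (d r) := by
  let R := MvPolynomial (Fin (n+1)) L
  let K := FractionRing R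
  have : Algebra.FormallyEtale R K :=
    Algebra.FormallyEtale.of_isLocalization (nonZeroDivisors R)
  let d0 : Derivation L R K := (Algebra.linearMap R K).compDer d
  let f0 : Ω[R⁄L] →ₗ[R] K := d0.liftKaehlerDifferential
  let f1 : TensorProduct R K (Ω[R⁄L]) →ₗ[K] K := LinearMap.liftBaseChange K f0
  let f2 : Ω[K⁄L] →ₗ[K] K :=
    f1 ∘ₗ (KaehlerDifferential.tensorKaehlerEquivOfFormallyEtale L R K).symm.toLinearMap
  refine ⟨f2.compDer (KaehlerDifferential.D L K), ?_⟩
  intro r
  have h1 := KaehlerDifferential.tensorKaehlerEquivOfFormallyEtale_symm_D_algebraMap L R K r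
  show f1 ((KaehlerDifferential.tensorKaehlerEquivOfFormallyEtale L R K).symm
    ((KaehlerDifferential.D L K) (algebraMap R K r))) = _
  rw [h1]
  show (LinearMap.liftBaseChange K f0) _ = _
  rw [LinearMap.liftBaseChange_tmul, one_smul]
  show d0.liftKaehlerDifferential _ = _
  rw [Derivation.liftKaehlerDifferential_comp_D]
  rfl

theorem det_v_prod {K : Type*} [Field K] (v : AddValuation K (WithTop ℤ)) {ι : Type*}
    (s : Finset ι) (f : ι → K) : v (∏ i ∈ s, f i) = ∑ i ∈ s, v (f i) := by
  classical
  induction s using Finset.induction_on with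
  | empty => simp
  | insert a s ha ih => rw [Finset.prod_insert ha, Finset.sum_insert ha, v.map_mul, ih]

theorem det_v_det_ge {K : Type*} [Field K] (v : AddValuation K (WithTop ℤ)) {m : ℕ}
    (M : Matrix (Fin m) (Fin m) K) (c : Fin m → WithTop ℤ) (h : ∀ i a, c a ≤ v (M i a)) :
    ∑ a, c a ≤ v M.det := by
  rw [Matrix.det_apply]
  refine v.map_le_sum ?_
  intro σ _
  have h1 : v (Equiv.Perm.sign σ • ∏ i, M (σ i) i) = v (∏ i, M (σ i) i) := by
    rcases Int.units_eq_one_or (Equiv.Perm.sign σ) with h | h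
    · rw [h, one_smul]
    · rw [h, Units.neg_smul, one_smul, v.map_neg]
  rw [h1, det_v_prod]
  exact Finset.sum_le_sum (fun i _ => h _ _)

theorem det_v_pos {L : Type*} [Field L] {n : ℕ}
    (v : AddValuation (FractionRing (MvPolynomial (Fin (n+1)) L)) (WithTop ℤ))
    (hv0 : ∀ r : MvPolynomial (Fin (n+1)) L, 0 ≤ v (algebraMap _ _ r))
    (hvX : ∀ i : Fin (n+1), 0 < v (algebraMap _ _ (X i : MvPolynomial (Fin (n+1)) L)))
    (r : MvPolynomial (Fin (n+1)) L) (hr : constantCoeff r = 0) :
    0 < v (algebraMap _ _ r) := by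
  rw [r.as_sum, map_sum]
  refine v.map_lt_sum' (by exact WithTop.coe_lt_top 0) ?_
  intro s hs
  have hs0 : s ≠ 0 := by
    rintro rfl
    rw [mem_support_iff] at hs
    exact hs hr
  obtain ⟨i, hi⟩ : ∃ i, s i ≠ 0 := by
    by_contra hc
    push Not at hc
    exact hs0 (Finsupp.ext hc)
  have h1 : monomial s (coeff s r) = X i * monomial (s - Finsupp.single i 1) (coeff s r) := by
    have h2 : s = Finsupp.single i 1 + (s - Finsupp.single i 1) := by
      ext j
      rw [Finsupp.add_apply, Finsupp.tsub_apply]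
      rcases eq_or_ne i j with rfl | hij
      · rw [Finsupp.single_eq_same]; omega
      · rw [Finsupp.single_eq_of_ne hij.symm]; omega
    rw [X, monomial_mul, one_mul, ← h2]
  rw [h1, map_mul, v.map_mul]
  exact add_pos_of_pos_of_nonneg (hvX i) (hv0 _)

theorem det_v_unit {L : Type*} [Field L] {n : ℕ}
    (v : AddValuation (FractionRing (MvPolynomial (Fin (n+1)) L)) (WithTop ℤ))
    (hv0 : ∀ r : MvPolynomial (Fin (n+1)) L, 0 ≤ v (algebraMap _ _ r))
    (hvX : ∀ i : Fin (n+1), 0 < v (algebraMap _ _ (X i : MvPolynomial (Fin (n+1)) L)))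
    (hvL : ∀ c : L, c ≠ 0 → v (algebraMap _ _ (C c : MvPolynomial (Fin (n+1)) L)) = 0)
    (r : MvPolynomial (Fin (n+1)) L) (hr : constantCoeff r ≠ 0) :
    v (algebraMap _ _ r) = 0 := by
  have h1 : r = C (constantCoeff r) + (r - C (constantCoeff r)) := by ring
  have h2 := hvL _ hr
  have h3 := det_v_pos v hv0 hvX (r - C (constantCoeff r)) (by simp)
  rw [h1, map_add, v.map_add_eq_of_lt_left (by rw [h2]; exact h3), h2]

/-- determinant inequality (K3) -/
theorem det_ineq
    {L : Type*} [Field L] {n : ℕ}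
    (v : AddValuation (FractionRing (MvPolynomial (Fin (n+1)) L)) (WithTop ℤ))
    (hv0 : ∀ r : MvPolynomial (Fin (n+1)) L, 0 ≤ v (algebraMap _ _ r))
    (hvX : ∀ i : Fin (n+1), 0 < v (algebraMap _ _ (X i : MvPolynomial (Fin (n+1)) L)))
    (hvL : ∀ c : L, c ≠ 0 → v (algebraMap _ _ (C c : MvPolynomial (Fin (n+1)) L)) = 0)
    (g : Fin (n+1) → MvPolynomial (Fin (n+1)) L)
    (q : ℤ) (hg : ∀ i, v (algebraMap _ _ (g i)) = (q : WithTop ℤ))
    (hJac : (Matrix.of fun i j => pderiv j (g i)).det ≠ 0)
    (hBL : ∀ D : Derivation ℤ (FractionRing (MvPolynomial (Fin (n+1)) L)) (FractionRing (MvPolynomial (Fin (n+1)) L)),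
      (∀ c : L, 0 ≤ v (D (algebraMap _ _ (C c : MvPolynomial (Fin (n+1)) L)))) →
      (∀ i, (q : WithTop ℤ) ≤ v (D (algebraMap _ _ (g i)))) → ∀ x, v x ≤ v (D x))
    (w : Fin (n+1) → MvPolynomial (Fin (n+1)) L)
    (hw : (Matrix.of fun a i => constantCoeff (pderiv i (w a))).det ≠ 0) :
    (∑ a, v (algebraMap _ _ (w a))) + v (algebraMap _ _ ((Matrix.of fun i j => pderiv j (g i)).det))
      ≤ (((n+1 : ℕ) : ℤ) * q : ℤ) := by
  classical
  let R := MvPolynomial (Fin (n+1)) L
  let K := FractionRing R
  let φ : R →+* K := algebraMap R K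
  choose ext hext using fun b : Fin (n+1) => det_ext_der (L := L) (n := n) (pderiv b)
  let J0 : Matrix (Fin (n+1)) (Fin (n+1)) R := Matrix.of fun i j => pderiv j (g i)
  let Jg : Matrix (Fin (n+1)) (Fin (n+1)) K := J0.map φ
  have hdetJ : Jg.det = φ J0.det := (φ.map_det J0).symm
  have hdetJ0 : Jg.det ≠ 0 := by
    rw [hdetJ]
    intro h
    exact hJac ((IsFractionRing.injective R K) (by rw [map_zero]; exact h))
  let E : Matrix (Fin (n+1)) (Fin (n+1)) K :=
    Matrix.of fun i j => if i = 0 then φ (g j) else if i = j then φ (g 0) else 0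
  have hE : E.det = φ (g 0) ^ (n+1) := by
    rw [Matrix.det_of_isUpperTriangular]
    · have : ∀ i : Fin (n+1), E i i = φ (g 0) := by
        intro i
        show (if i = 0 then φ (g i) else if i = i then φ (g 0) else 0) = φ (g 0)
        by_cases h : i = 0
        · rw [if_pos h, h]
        · rw [if_neg h, if_pos rfl]
      simp [this]
    · intro i j hij
      have hij' : j < i := hij
      show (if i = 0 then φ (g j) else if i = j then φ (g 0) else 0) = 0
      have h1 : i ≠ 0 := by
        rintro rfl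
        exact absurd hij' (Fin.not_lt_zero j)
      rw [if_neg h1, if_neg (ne_of_gt hij')]
  let P : Matrix (Fin (n+1)) (Fin (n+1)) K := E * (Jg.transpose)⁻¹
  have hPJ : P * Jg.transpose = E := by
    show E * (Jg.transpose)⁻¹ * Jg.transpose = E
    rw [Matrix.mul_assoc, Matrix.nonsing_inv_mul, Matrix.mul_one]
    rw [Matrix.det_transpose]
    exact isUnit_iff_ne_zero.mpr hdetJ0
  let eps : Fin (n+1) → Derivation L K K := fun i => ∑ b, P i b • ext b
  have heps : ∀ i (r : R), eps i (φ r) = ∑ b, P i b * φ (pderiv b r) := by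
    intro i r
    show (∑ b, P i b • ext b : Derivation L K K) (φ r) = _
    have h0 : ∀ (s : Finset (Fin (n+1))) (x : K), (∑ b ∈ s, P i b • ext b : Derivation L K K) x =
        ∑ b ∈ s, P i b * ext b x := by
      intro s x
      induction s using Finset.induction_on with
      | empty => simp
      | insert a s ha ih =>
        rw [Finset.sum_insert ha, Finset.sum_insert ha, Derivation.add_apply, ih,
          Derivation.smul_apply, smul_eq_mul]
    rw [h0]
    refine Finset.sum_congr rfl ?_
    intro b _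
    rw [hext b r]
  have hepsg : ∀ i j, eps i (φ (g j)) = E i j := by
    intro i j
    rw [heps, ← hPJ]
    rfl
  have hv : ∀ i x, v x ≤ v (eps i x) := by
    intro i
    have := hBL ((eps i).restrictScalars ℤ) ?_ ?_
    · exact this
    · intro c
      have h1 : ((eps i).restrictScalars ℤ) (algebraMap R K (C c)) = 0 := by
        show eps i (algebraMap R K (C c)) = 0
        have h2 : algebraMap R K (C c) = algebraMap L K c := by
          rw [IsScalarTower.algebraMap_apply L R K]
          rfl
        rw [h2, Derivation.map_algebraMap]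
      rw [h1, v.map_zero]
      exact le_top
    · intro j
      have h1 : ((eps i).restrictScalars ℤ) (algebraMap R K (g j)) = E i j := hepsg i j
      rw [h1]
      show _ ≤ v (if i = 0 then φ (g j) else if i = j then φ (g 0) else 0)
      split_ifs
      · exact (hg j).symm.le
      · exact (hg 0).symm.le
      · rw [v.map_zero]; exact le_top
  let H0 : Matrix (Fin (n+1)) (Fin (n+1)) R := Matrix.of fun a i => pderiv i (w a)
  let H : Matrix (Fin (n+1)) (Fin (n+1)) K := H0.map φ
  have hdetH : H.det = φ H0.det := (φ.map_det H0).symm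
  have hvH : v H.det = 0 := by
    rw [hdetH]
    refine det_v_unit v hv0 hvX hvL _ ?_
    have : constantCoeff H0.det = (Matrix.of fun a i => constantCoeff (pderiv i (w a))).det := by
      rw [RingHom.map_det]
      rfl
    rw [this]
    exact hw
  let Mx : Matrix (Fin (n+1)) (Fin (n+1)) K := P * H.transpose
  have hMx : ∀ i a, Mx i a = eps i (φ (w a)) := by
    intro i a
    rw [heps]
    rfl
  have h1 : ∑ a, v (φ (w a)) ≤ v Mx.det := by
    refine det_v_det_ge v Mx (fun a => v (φ (w a))) ?_
    intro i a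
    rw [hMx]
    exact hv i _
  have h2 : Mx.det * Jg.det = E.det * H.det := by
    have h3 : P.det * Jg.det = E.det := by
      have h5 := congrArg Matrix.det hPJ
      rw [Matrix.det_mul P, Matrix.det_transpose] at h5
      exact h5
    show (P * H.transpose).det * Jg.det = E.det * H.det
    rw [Matrix.det_mul, Matrix.det_transpose, ← h3]
    ring
  have h4 : v Mx.det + v Jg.det = (((n+1 : ℕ) : ℤ) * q : ℤ) := by
    rw [← v.map_mul, h2, v.map_mul, hvH, add_zero, hE, v.map_pow]
    have : v (φ (g 0)) = (q : WithTop ℤ) := hg 0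
    rw [this]
    rw [← WithTop.coe_nsmul]
    congr 1
  calc (∑ a, v (algebraMap _ _ (w a))) + v (algebraMap _ _ ((Matrix.of fun i j => pderiv j (g i)).det))
      = (∑ a, v (φ (w a))) + v Jg.det := by rw [hdetJ]
    _ ≤ v Mx.det + v Jg.det := by gcongr
    _ = _ := h4

end H693RF
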