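import Pool.Agent.Helper693.RF.Defs

namespace H693RF

open MvPolynomial

/-- the final count -/
theorem end_count {L R : Type*} [Field L] [CommRing R] [Algebra L R] {n k : ℕ} (hnk : n ≤ k)
    (f : Fin k → R) (I A : Ideal R) (hIA : I ≤ A)
    (hfin : FiniteDimensional L (R ⧸ I))
    (hA : ∀ D : Derivation ℤ R R, (∀ i : Fin k, i.val < n → D (f i) ∈ I) → ∀ j, D (f j) ∈ A)
    (s : ℕ) (hs : s + 1 ≤ Module.finrank L (R ⧸ A)) :
    FiniteDimensional L ((Fin k → R) ⧸ (derSub I f).restrictScalars L) ∧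
    (k - n) * (s + 1) ≤ Module.finrank L ((Fin k → R) ⧸ (derSub I f).restrictScalars L) := by
  have hfd : FiniteDimensional L ((Fin k → R) ⧸ (derSub I f).restrictScalars L) := by
    obtain ⟨ψ, hψ⟩ : ∃ ψ : (Fin k → R) →ₗ[L] (Fin k → R ⧸ I),
        ψ = LinearMap.pi (fun i => (Ideal.Quotient.mkₐ L I).toLinearMap ∘ₗ LinearMap.proj i) :=
      ⟨_, rfl⟩
    have happ : ∀ w i, ψ w i = Ideal.Quotient.mk I (w i) := by
      intro w i; rw [hψ]; rfl
    have hsurj : Function.Surjective ψ := by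
      intro v
      choose w hw using fun i => Ideal.Quotient.mk_surjective (v i)
      exact ⟨w, by ext i; rw [happ, hw]⟩
    have hker : LinearMap.ker ψ ≤ (derSub I f).restrictScalars L := by
      intro w hw
      refine ⟨0, fun i => ?_⟩
      have h1 := congrFun (LinearMap.mem_ker.mp hw) i
      rw [happ, Pi.zero_apply, Ideal.Quotient.eq_zero_iff_mem] at h1
      simpa using h1
    have h2 : Module.Finite L ((Fin k → R) ⧸ LinearMap.ker ψ) :=
      Module.Finite.equiv (ψ.quotKerEquivOfSurjective hsurj).symm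
    exact Module.Finite.of_surjective (Submodule.factor hker) (Submodule.factor_surjective hker)
  refine ⟨hfd, ?_⟩
  obtain ⟨pad, hpad⟩ : ∃ pad : (Fin (k - n) → R) →ₗ[L] (Fin k → R),
      ∀ w (i : Fin k), pad w i = if h : n ≤ i.val then w ⟨i.val - n, by omega⟩ else 0 :=
    ⟨{ toFun := fun w i => if h : n ≤ i.val then w ⟨i.val - n, by omega⟩ else 0
       map_add' := by
        intro a b; ext i
        by_cases h : n ≤ i.val <;> simp [h]
       map_smul' := by
        intro a b; ext i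
        by_cases h : n ≤ i.val <;> simp [h] }, fun _ _ => rfl⟩
  obtain ⟨χ, hχ⟩ : ∃ χ : (Fin (k - n) → R) →ₗ[L] (Fin (k - n) → R ⧸ A),
      χ = LinearMap.pi (fun i => (Ideal.Quotient.mkₐ L A).toLinearMap ∘ₗ LinearMap.proj i) :=
    ⟨_, rfl⟩
  have happ : ∀ w i, χ w i = Ideal.Quotient.mk A (w i) := by
    intro w i; rw [hχ]; rfl
  have hsurj : Function.Surjective χ := by
    intro v
    choose w hw using fun i => Ideal.Quotient.mk_surjective (v i)
    exact ⟨w, by ext i; rw [happ, hw]⟩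
  obtain ⟨φ, hφ⟩ : ∃ φ : (Fin (k - n) → R) →ₗ[L] ((Fin k → R) ⧸ (derSub I f).restrictScalars L),
      φ = ((derSub I f).restrictScalars L).mkQ ∘ₗ pad := ⟨_, rfl⟩
  have hker : LinearMap.ker φ ≤ LinearMap.ker χ := by
    intro w hw
    rw [LinearMap.mem_ker] at hw ⊢
    rw [hφ, LinearMap.comp_apply, Submodule.mkQ_apply, Submodule.Quotient.mk_eq_zero] at hw
    obtain ⟨D, hD⟩ := hw
    have h1 := hA D (fun i hi => by
      have h2 := hD i
      rw [hpad, dif_neg (by omega), zero_sub] at h2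
      exact (I.neg_mem_iff).mp h2)
    ext j
    rw [happ, Pi.zero_apply, Ideal.Quotient.eq_zero_iff_mem]
    have h3 := hD ⟨n + j.val, by omega⟩
    rw [hpad, dif_pos (by simp)] at h3
    have h4 : (⟨n + j.val - n, by omega⟩ : Fin (k - n)) = j := by
      apply Fin.ext; simp
    simp only [h4] at h3
    have h5 := A.add_mem (hIA h3) (h1 ⟨n + j.val, by omega⟩)
    simpa using h5
  have hfin1 : Module.Finite L (LinearMap.range φ) := inferInstance
  have hfin2 : Module.Finite L ((Fin (k - n) → R) ⧸ LinearMap.ker φ) :=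
    Module.Finite.equiv φ.quotKerEquivRange.symm
  have h6 : Module.finrank L ((Fin (k - n) → R) ⧸ LinearMap.ker χ) ≤
      Module.finrank L ((Fin (k - n) → R) ⧸ LinearMap.ker φ) :=
    LinearMap.finrank_le_finrank_of_surjective (Submodule.factor_surjective hker)
  have h7 : Module.finrank L ((Fin (k - n) → R) ⧸ LinearMap.ker χ) =
      (k - n) * Module.finrank L (R ⧸ A) := by
    have hfinA : FiniteDimensional L (R ⧸ A) :=
      Module.Finite.of_surjective (Ideal.Quotient.factorₐ L hIA).toLinearMap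
        (Ideal.Quotient.factor_surjective hIA)
    rw [(χ.quotKerEquivOfSurjective hsurj).finrank_eq, Module.finrank_pi_fintype]
    simp
  have h8 : Module.finrank L ((Fin (k - n) → R) ⧸ LinearMap.ker φ) =
      Module.finrank L (LinearMap.range φ) := φ.quotKerEquivRange.finrank_eq
  have h9 : Module.finrank L (LinearMap.range φ) ≤
      Module.finrank L ((Fin k → R) ⧸ (derSub I f).restrictScalars L) :=
    Submodule.finrank_le _
  calc (k - n) * (s + 1) ≤ (k - n) * Module.finrank L (R ⧸ A) := Nat.mul_le_mul_left _ hs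
    _ ≤ _ := by rw [← h7]; exact h6.trans (h8.le.trans h9)

theorem derSub_equiv_aux {L : Type*} [Field L] {n k : ℕ} (g : Fin k → MvPolynomial (Fin n) L)
    (I : Ideal (MvPolynomial (Fin n) L)) (hg : ∀ i, g i ∈ I)
    (N : Matrix (Fin k) (Fin k) L) (w : Fin k → MvPolynomial (Fin n) L) (hw : w ∈ derSub I g) :
    (N.map C).mulVec w ∈ derSub I (fun i => ∑ j, C (N i j) * g j) := by
  obtain ⟨D, hD⟩ := hw
  refine ⟨D, fun i => ?_⟩
  have h1 : (N.map C).mulVec w i - D (∑ j, C (N i j) * g j) =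
      ∑ j, (C (N i j) * (w j - D (g j)) - g j * D (C (N i j))) := by
    rw [map_sum, Matrix.mulVec, dotProduct, ← Finset.sum_sub_distrib]
    refine Finset.sum_congr rfl fun j _ => ?_
    rw [Derivation.leibniz, Matrix.map_apply]
    simp only [smul_eq_mul]
    ring
  rw [h1]
  apply I.sum_mem
  intro j _
  exact I.sub_mem (I.mul_mem_left _ (hD j)) (I.mul_mem_right _ (hg j))

/-- an invertible matrix of constants does not change the quotient -/
theorem derSub_equiv {L : Type*} [Field L] {n k : ℕ} (f : Fin k → MvPolynomial (Fin n) L)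
    (I : Ideal (MvPolynomial (Fin n) L)) (hf : ∀ i, f i ∈ I)
    (Cm : Matrix (Fin k) (Fin k) L) (hC : IsUnit Cm.det) :
    Nonempty (((Fin k → MvPolynomial (Fin n) L) ⧸ (derSub I (fun i => ∑ j, C (Cm i j) * f j)).restrictScalars L) ≃ₗ[L]
      ((Fin k → MvPolynomial (Fin n) L) ⧸ (derSub I f).restrictScalars L)) := by
  have h1 : Cm⁻¹.map (C (σ := Fin n)) * Cm.map (C (σ := Fin n)) = 1 := by
    rw [← Matrix.map_mul, Matrix.nonsing_inv_mul _ hC]
    exact Matrix.map_one _ (map_zero _) (map_one _)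
  have h2 : Cm.map (C (σ := Fin n)) * Cm⁻¹.map (C (σ := Fin n)) = 1 := by
    rw [← Matrix.map_mul, Matrix.mul_nonsing_inv _ hC]
    exact Matrix.map_one _ (map_zero _) (map_one _)
  obtain ⟨e, he⟩ : ∃ e : (Fin k → MvPolynomial (Fin n) L) ≃ₗ[MvPolynomial (Fin n) L]
      (Fin k → MvPolynomial (Fin n) L), ∀ w, e w = (Cm.map (C (σ := Fin n))).mulVec w :=
    ⟨Matrix.toLin'OfInv h1 h2, fun w => by
      simp [Matrix.toLin'OfInv, Matrix.toLin'_apply]⟩
  refine ⟨(Submodule.Quotient.equiv _ _ (e.restrictScalars L) ?_).symm⟩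
  ext y
  constructor
  · rintro ⟨w, hw, rfl⟩
    show e w ∈ derSub I _
    rw [he]
    exact derSub_equiv_aux f I hf Cm w hw
  · intro hy
    refine ⟨(Cm⁻¹.map (C (σ := Fin n))).mulVec y, ?_, ?_⟩
    · have h3 := derSub_equiv_aux (fun i => ∑ j, C (Cm i j) * f j) I
        (fun i => I.sum_mem fun j _ => I.mul_mem_left _ (hf j)) Cm⁻¹ y hy
      have h4 : (fun i => ∑ j, C (Cm⁻¹ i j) * ∑ l, C (Cm j l) * f l) = f := by
        have h5 : (fun i => ∑ j, C (Cm⁻¹ i j) * ∑ l, C (Cm j l) * f l) =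
            (Cm⁻¹.map (C (σ := Fin n))).mulVec ((Cm.map (C (σ := Fin n))).mulVec f) := by
          ext1 i
          simp only [Matrix.mulVec, dotProduct, Matrix.map_apply]
        rw [h5, Matrix.mulVec_mulVec, h1, Matrix.one_mulVec]
      rw [h4] at h3
      exact h3
    · show e _ = y
      rw [he, Matrix.mulVec_mulVec, h2, Matrix.one_mulVec]

end H693RF
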