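import Mathlib

namespace H693RF

open MvPolynomial

/-- linear form with given coefficients -/
noncomputable def exists_linear_lin {L : Type*} [Field L] {n : ℕ} (a : Fin (n+1) → L) :
    MvPolynomial (Fin (n+1)) L := ∑ i, C (a i) * X i

theorem exists_linear_lin_add {L : Type*} [Field L] {n : ℕ} (a b : Fin (n+1) → L) (t : L) :
    exists_linear_lin (a + t • b) = t • exists_linear_lin b + exists_linear_lin a := by
  unfold exists_linear_lin
  rw [Finset.smul_sum, ← Finset.sum_add_distrib]
  refine Finset.sum_congr rfl fun i _ => ?_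
  rw [Pi.add_apply, Pi.smul_apply, smul_eq_mul, map_add, map_mul, MvPolynomial.smul_eq_C_mul]
  ring

theorem exists_linear_step {L : Type*} [Field L] [CharZero L] {n : ℕ} (k : ℕ)
    (I : Ideal (MvPolynomial (Fin (n+1)) L)) (z : MvPolynomial (Fin (n+1)) L)
    (hz : ∀ a : Fin (n+1) → L, exists_linear_lin a ^ (k + 1) * z ∈ I) (b : Fin (n+1) → L)
    (a : Fin (n+1) → L) : exists_linear_lin a ^ k * (exists_linear_lin b * z) ∈ I := by
  set x := exists_linear_lin a with hx
  set y := exists_linear_lin b with hy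
  have h1 : ∀ φ : Module.Dual L (MvPolynomial (Fin (n+1)) L ⧸ I),
      φ (Ideal.Quotient.mkₐ L I (y * x ^ k * ((k + 1 : ℕ) : MvPolynomial (Fin (n+1)) L) * z)) = 0 := by
    intro φ
    let c : ℕ → L := fun m => φ (Ideal.Quotient.mkₐ L I
      (y ^ m * x ^ (k + 1 - m) * (((k + 1).choose m : ℕ) : MvPolynomial (Fin (n+1)) L) * z))
    have h2 : (∑ m ∈ Finset.range (k + 1 + 1), Polynomial.C (c m) * Polynomial.X ^ m) = 0 := by
      apply Polynomial.funext
      intro t
      rw [Polynomial.eval_zero, Polynomial.eval_finsetSum]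
      have h3 := hz (a + t • b)
      rw [exists_linear_lin_add, add_pow, Finset.sum_mul] at h3
      have h4 : Ideal.Quotient.mkₐ L I (∑ m ∈ Finset.range (k + 1 + 1),
          (t • y) ^ m * x ^ (k + 1 - m) * (((k + 1).choose m : ℕ) : MvPolynomial (Fin (n+1)) L) * z) = 0 :=
        Ideal.Quotient.eq_zero_iff_mem.mpr h3
      have h5 := congrArg φ h4
      rw [map_zero, map_sum, map_sum] at h5
      rw [← h5]
      refine Finset.sum_congr rfl fun m _ => ?_
      rw [Polynomial.eval_mul, Polynomial.eval_C, Polynomial.eval_pow, Polynomial.eval_X]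
      have h6 : (t • y) ^ m * x ^ (k + 1 - m) *
          (((k + 1).choose m : ℕ) : MvPolynomial (Fin (n+1)) L) * z =
          t ^ m • (y ^ m * x ^ (k + 1 - m) *
          (((k + 1).choose m : ℕ) : MvPolynomial (Fin (n+1)) L) * z) := by
        rw [smul_pow, smul_mul_assoc, smul_mul_assoc, smul_mul_assoc]
      rw [h6, map_smul, map_smul, smul_eq_mul, mul_comm]
    have h7 := congrArg (fun p => Polynomial.coeff p 1) h2
    simp only [Polynomial.finsetSum_coeff, Polynomial.coeff_C_mul, Polynomial.coeff_X_pow,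
      Polynomial.coeff_zero] at h7
    rw [Finset.sum_eq_single 1] at h7
    · simp only [if_true, mul_one] at h7
      have h8 : c 1 = φ (Ideal.Quotient.mkₐ L I
        (y * x ^ k * ((k + 1 : ℕ) : MvPolynomial (Fin (n+1)) L) * z)) := by
        simp only [c, pow_one, Nat.add_sub_cancel, Nat.choose_one_right]
      rw [← h8]
      exact h7
    · intro m _ hm
      rw [if_neg (Ne.symm hm), mul_zero]
    · intro hm
      exact absurd (Finset.mem_range.mpr (by omega)) hm
  have h9 := (Module.forall_dual_apply_eq_zero_iff L _).mp h1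
  have h10 : y * x ^ k * ((k + 1 : ℕ) : MvPolynomial (Fin (n+1)) L) * z ∈ I :=
    Ideal.Quotient.eq_zero_iff_mem.mp h9
  have h11 := I.mul_mem_left (C (((k + 1 : ℕ) : L)⁻¹)) h10
  have h12 : C (((k + 1 : ℕ) : L)⁻¹) * (y * x ^ k * ((k + 1 : ℕ) : MvPolynomial (Fin (n+1)) L) * z) =
      x ^ k * (y * z) := by
    have h13 : C (((k + 1 : ℕ) : L)⁻¹) * ((k + 1 : ℕ) : MvPolynomial (Fin (n+1)) L) = 1 := by
      have h14 : ((k + 1 : ℕ) : MvPolynomial (Fin (n+1)) L) = C ((k + 1 : ℕ) : L) := by
        rw [map_natCast]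
      rw [h14, ← map_mul, inv_mul_cancel₀ (by exact_mod_cast Nat.succ_ne_zero k), map_one]
    calc C (((k + 1 : ℕ) : L)⁻¹) * (y * x ^ k * ((k + 1 : ℕ) : MvPolynomial (Fin (n+1)) L) * z)
        = (C (((k + 1 : ℕ) : L)⁻¹) * ((k + 1 : ℕ) : MvPolynomial (Fin (n+1)) L)) *
          (x ^ k * (y * z)) := by ring
      _ = _ := by rw [h13, one_mul]
  rwa [h12] at h11

theorem exists_linear_X {L : Type*} [Field L] {n : ℕ} (i : Fin (n+1)) :
    exists_linear_lin (Pi.single i (1 : L)) = X i := by
  unfold exists_linear_lin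
  rw [Finset.sum_eq_single i]
  · simp
  · intro j _ hj
    rw [Pi.single_eq_of_ne hj, map_zero, zero_mul]
  · intro h
    exact absurd (Finset.mem_univ _) h

theorem exists_linear_all {L : Type*} [Field L] [CharZero L] {n : ℕ} (s : ℕ)
    (I : Ideal (MvPolynomial (Fin (n+1)) L))
    (h : ∀ a : Fin (n+1) → L, exists_linear_lin a ^ s ∈ I) :
    (Ideal.span (Set.range (X : Fin (n+1) → MvPolynomial (Fin (n+1)) L))) ^ s ≤ I := by
  -- the ideal of all `z` with `x ^ k * z ∈ I` for all linear forms `x`
  let Q : ℕ → Ideal (MvPolynomial (Fin (n+1)) L) := fun k =>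
    { carrier := {z | ∀ a : Fin (n+1) → L, exists_linear_lin a ^ k * z ∈ I}
      add_mem' := by
        intro z z' hz hz' a
        rw [mul_add]
        exact I.add_mem (hz a) (hz' a)
      zero_mem' := by
        intro a
        rw [mul_zero]
        exact I.zero_mem
      smul_mem' := by
        intro c z hz a
        rw [smul_eq_mul, mul_left_comm]
        exact I.mul_mem_left _ (hz a) }
  have hstep : ∀ k, Ideal.span (Set.range (X : Fin (n+1) → MvPolynomial (Fin (n+1)) L)) *
      Q (k + 1) ≤ Q k := by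
    intro k
    rw [Ideal.mul_le]
    intro r hr z hz
    have h1 : Ideal.span (Set.range (X : Fin (n+1) → MvPolynomial (Fin (n+1)) L)) ≤
        (Q k).colon ({z} : Set _) := by
      rw [Ideal.span_le]
      rintro _ ⟨i, rfl⟩
      rw [SetLike.mem_coe, Submodule.mem_colon_singleton]
      intro a
      rw [smul_eq_mul, ← exists_linear_X i]
      exact exists_linear_step k I z hz _ a
    have h2 := h1 hr
    rw [Submodule.mem_colon_singleton] at h2
    exact h2
  have hall : ∀ j, j ≤ s → (Ideal.span (Set.range (X : Fin (n+1) → MvPolynomial (Fin (n+1)) L))) ^ j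
      ≤ Q (s - j) := by
    intro j
    induction j with
    | zero =>
      intro _ z _ a
      exact I.mul_mem_right _ (h a)
    | succ j ih =>
      intro hj
      rw [pow_succ']
      have e1 : s - j = (s - (j + 1)) + 1 := by omega
      refine (Ideal.mul_mono le_rfl (ih (by omega))).trans ?_
      rw [e1]
      exact hstep _
  intro z hz
  have := hall s le_rfl hz
  rw [Nat.sub_self] at this
  have h2 := this 0
  rwa [pow_zero, one_mul] at h2

/-- a power of the ideal of the origin not contained in `I` gives a linear form `l <> 0` with `l^s` not in `I`; and `l` completes to parameters -/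
theorem exists_linear {L : Type*} [Field L] [CharZero L] {n : ℕ} (s : ℕ) (I : Ideal (MvPolynomial (Fin (n+1)) L))
    (hs : ¬ (Ideal.span (Set.range (X : Fin (n+1) → MvPolynomial (Fin (n+1)) L))) ^ s ≤ I) :
    ∃ l : MvPolynomial (Fin (n+1)) L, l ^ s ∉ I ∧ constantCoeff l = 0 ∧ l ≠ 0 ∧
      ∃ w : Fin (n+1) → MvPolynomial (Fin (n+1)) L, w 0 = l ∧ (∀ a, constantCoeff (w a) = 0) ∧
        (Matrix.of fun a i => constantCoeff (pderiv i (w a))).det ≠ 0 := by
  classical
  obtain ⟨a, ha, ha0⟩ : ∃ a : Fin (n+1) → L, exists_linear_lin a ^ s ∉ I ∧ a ≠ 0 := by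
    have h1 : ∃ a : Fin (n+1) → L, exists_linear_lin a ^ s ∉ I := by
      by_contra hcon
      push Not at hcon
      exact hs (exists_linear_all s I hcon)
    obtain ⟨a, ha⟩ := h1
    by_cases h0 : a = 0
    · subst h0
      have h2 : exists_linear_lin (0 : Fin (n+1) → L) = 0 := by
        simp [exists_linear_lin]
      rw [h2] at ha
      have hs0 : s = 0 := by
        by_contra hne
        rw [zero_pow hne] at ha
        exact ha I.zero_mem
      subst hs0
      refine ⟨Pi.single 0 1, by simpa using ha, ?_⟩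
      intro h3
      have := congrFun h3 0
      simp at this
    · exact ⟨a, ha, h0⟩
  obtain ⟨i0, hi0⟩ : ∃ i, a i ≠ 0 := by
    by_contra hcon
    push Not at hcon
    exact ha0 (funext hcon)
  have hcc : ∀ b : Fin (n+1) → L, constantCoeff (exists_linear_lin b) = 0 := by
    intro b
    simp [exists_linear_lin]
  have hpd : ∀ (b : Fin (n+1) → L) (i : Fin (n+1)),
      constantCoeff (pderiv i (exists_linear_lin b)) = b i := by
    intro b i
    unfold exists_linear_lin
    rw [map_sum, map_sum, Finset.sum_eq_single i]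
    · simp
    · intro j _ hj
      rw [pderiv_C_mul, pderiv_X_of_ne hj]
      simp
    · intro h
      exact absurd (Finset.mem_univ _) h
  let N : Matrix (Fin (n+1)) (Fin (n+1)) L := (1 : Matrix (Fin (n+1)) (Fin (n+1)) L).updateRow i0 a
  have hN : N.det = a i0 := by
    have h1 : a = ∑ k, a k • (1 : Matrix (Fin (n+1)) (Fin (n+1)) L) k := by
      funext j
      rw [Finset.sum_apply, Finset.sum_eq_single j]
      · simp
      · intro k _ hk
        simp [Matrix.one_apply_ne hk]
      · intro h
        exact absurd (Finset.mem_univ _) h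
    have h2 := Matrix.det_updateRow_sum (1 : Matrix (Fin (n+1)) (Fin (n+1)) L) i0 a
    rw [← h1] at h2
    rw [show N.det = _ from h2]
    simp
  let M : Matrix (Fin (n+1)) (Fin (n+1)) L := N.submatrix (Equiv.swap 0 i0) id
  have hM : M.det ≠ 0 := by
    have h1 : M.det = _ := Matrix.det_permute (Equiv.swap 0 i0) N
    rw [h1, hN]
    apply mul_ne_zero _ hi0
    exact_mod_cast (Int.cast_ne_zero.mpr (Units.ne_zero _))
  refine ⟨exists_linear_lin a, ha, hcc a, ?_, fun j => exists_linear_lin (M j), ?_, fun j => hcc _, ?_⟩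
  · intro h
    apply hi0
    rw [← hpd a i0, h]
    simp
  · show exists_linear_lin (M 0) = exists_linear_lin a
    congr 1
    funext j
    simp [M, N]
  · have h1 : (Matrix.of fun j i => constantCoeff (pderiv i (exists_linear_lin (M j)))) = M := by
      ext j i
      rw [Matrix.of_apply, hpd]
    rw [h1]
    exact hM

end H693RF
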