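import Pool.Agent.Helper693.RF.Defs

namespace H693RF

open MvPolynomial

section aux

variable {L : Type*} [Field L]

theorem efr_step {n k : ℕ} {g : Fin k → MvPolynomial (Fin n) L} {N : ℕ}
    (hN : mI n L ^ N ≤ Ideal.span (Set.range g) ⊔ mI n L ^ (N+1)) (s : ℕ) :
    mI n L ^ N ≤ Ideal.span (Set.range g) ⊔ mI n L ^ (N + s) := by
  induction s with
  | zero => exact le_sup_right
  | succ s ih =>
    have h1 : mI n L ^ (N + s) ≤ Ideal.span (Set.range g) ⊔ mI n L ^ (N + (s + 1)) := by
      rw [pow_add]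
      refine (Ideal.mul_mono_left hN).trans ?_
      rw [Ideal.sup_mul]
      refine sup_le_sup Ideal.mul_le_left (le_of_eq ?_)
      rw [← pow_add]
      congr 1
      ring
    exact ih.trans (sup_le le_sup_left h1)

theorem efr_stepT {n k : ℕ} {g : Fin k → MvPolynomial (Fin n) L} {N : ℕ}
    (hN : mI n L ^ N ≤ Ideal.span (Set.range g) ⊔ mI n L ^ (N+1)) (T : ℕ) :
    mI n L ^ N ≤ Ideal.span (Set.range g) ⊔ mI n L ^ T := by
  rcases le_total T N with h | h
  · exact (Ideal.pow_le_pow_right h).trans le_sup_right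
  · obtain ⟨s, rfl⟩ := Nat.exists_eq_add_of_le h
    exact efr_step hN s

theorem efr_pow {n k : ℕ} {g : Fin k → MvPolynomial (Fin n) L} {N : ℕ}
    (hN : mI n L ^ N ≤ Ideal.span (Set.range g) ⊔ mI n L ^ (N+1)) (j T : ℕ) :
    mI n L ^ (N * j) ≤ Ideal.span (Set.range g) ^ j ⊔ mI n L ^ T := by
  induction j with
  | zero => simp
  | succ j ih =>
    rw [Nat.mul_succ, pow_add]
    refine (Ideal.mul_mono ih (efr_stepT hN T)).trans ?_
    rw [Ideal.sup_mul, Ideal.mul_sup]
    refine sup_le (sup_le ?_ ?_) ?_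
    · rw [← pow_succ]; exact le_sup_left
    · exact le_trans Ideal.mul_le_right le_sup_right
    · exact le_trans Ideal.mul_le_left le_sup_right

theorem efr_form_mem {n k : ℕ} (g : Fin k → MvPolynomial (Fin n) L) {d : ℕ}
    {G : MvPolynomial (Fin k) L} (hG : G.IsHomogeneous d) :
    aeval g G ∈ Ideal.span (Set.range g) ^ d := by
  rw [G.as_sum, map_sum]
  refine Ideal.sum_mem _ fun v hv => ?_
  rw [aeval_monomial]
  refine Ideal.mul_mem_left _ _ ?_
  have hd : ∑ i ∈ v.support, v i = d := by
    have h2 : v.degree = d := by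
      rw [Finsupp.degree_eq_weight_one]
      exact hG (mem_support_iff.1 hv)
    rw [← h2, Finsupp.degree_apply]
  rw [← hd, ← Finset.prod_pow_eq_pow_sum]
  refine Ideal.prod_mem_prod fun i _ => ?_
  exact Ideal.pow_mem_pow (Ideal.subset_span (Set.mem_range_self i)) _

theorem efr_monomial_mem {n : ℕ} (M : ℕ) (v : Fin n →₀ ℕ) (c : L) (i : Fin n) (h : M ≤ v i) :
    monomial v c ∈ mI n L ^ M := by
  have e : monomial v c = monomial (v - Finsupp.single i M) c * (X i) ^ M := by
    rw [X_pow_eq_monomial, monomial_mul, mul_one, tsub_add_cancel_of_le]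
    rwa [Finsupp.single_le_iff]
  rw [e]
  exact Ideal.mul_mem_left _ _ (Ideal.pow_mem_pow (Ideal.subset_span (Set.mem_range_self i)) _)

/-- exponent vectors -/
noncomputable def efr_ex {n M : ℕ} (α : Fin n → Fin M) : Fin n →₀ ℕ :=
  Finsupp.equivFunOnFinite.symm (fun i => (α i : ℕ))

theorem efr_ex_apply {n M : ℕ} (α : Fin n → Fin M) (i : Fin n) : efr_ex α i = α i := rfl

theorem efr_ex_inj {n M : ℕ} {α β : Fin n → Fin M} (h : efr_ex α = efr_ex β) : α = β := by
  funext i
  apply Fin.ext
  rw [← efr_ex_apply, ← efr_ex_apply, h]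

theorem efr_mem_of_coeff {n : ℕ} (M : ℕ) (p : MvPolynomial (Fin n) L)
    (h : ∀ β : Fin n → Fin M, coeff (efr_ex β) p = 0) : p ∈ mI n L ^ M := by
  rw [p.as_sum]
  refine Ideal.sum_mem _ fun v hv => ?_
  by_cases hM : ∃ i, M ≤ v i
  · obtain ⟨i, hi⟩ := hM
    exact efr_monomial_mem M v _ i hi
  · push Not at hM
    have h1 := h (fun i => ⟨v i, hM i⟩)
    have h2 : efr_ex (fun i => (⟨v i, hM i⟩ : Fin M)) = v := by
      ext i
      rfl
    rw [h2] at h1
    exact absurd h1 (mem_support_iff.1 hv)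

theorem efr_const {n : ℕ} {c : L} (h : C c ∈ mI n L) : c = 0 := by
  have h1 : mI n L ≤ RingHom.ker (constantCoeff (R := L) (σ := Fin n)) := by
    unfold mI
    rw [Ideal.span_le]
    rintro _ ⟨i, rfl⟩
    simp [RingHom.mem_ker]
  have h2 := h1 h
  rw [RingHom.mem_ker] at h2
  simpa using h2

/-- the polynomial with given coefficients -/
noncomputable def efr_F (k e : ℕ) : ((Fin k → Fin (e + 1)) → L) →ₗ[L] MvPolynomial (Fin k) L :=
  ∑ α : Fin k → Fin (e + 1), (monomial (efr_ex α)).comp (LinearMap.proj α)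

theorem efr_F_apply (k e : ℕ) (c : (Fin k → Fin (e + 1)) → L) :
    efr_F k e c = ∑ α : Fin k → Fin (e + 1), monomial (efr_ex α) (c α) := by
  simp [efr_F]

theorem efr_F_coeff (k e : ℕ) (c : (Fin k → Fin (e + 1)) → L) (α : Fin k → Fin (e + 1)) :
    coeff (efr_ex α) (efr_F k e c) = c α := by
  classical
  rw [efr_F_apply, coeff_sum, Finset.sum_eq_single α]
  · rw [coeff_monomial, if_pos rfl]
  · intro β _ hβ
    rw [coeff_monomial, if_neg (fun h => hβ (efr_ex_inj h))]
  · intro h; exact absurd (Finset.mem_univ _) h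

theorem efr_F_deg (k e : ℕ) (c : (Fin k → Fin (e + 1)) → L) :
    (efr_F k e c).totalDegree ≤ k * e := by
  rw [efr_F_apply]
  refine totalDegree_finsetSum_le fun α _ => ?_
  refine (totalDegree_monomial_le _ _).trans ?_
  rw [Finsupp.sum_fintype _ _ (fun _ => rfl)]
  calc ∑ i, efr_ex α i ≤ ∑ i : Fin k, e := Finset.sum_le_sum fun i _ => by
        rw [efr_ex_apply]; have := (α i).2; omega
    _ = k * e := by simp

theorem efr_exists {n k : ℕ} (hnk : n < k) (g : Fin k → MvPolynomial (Fin n) L) (N : ℕ) :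
    ∃ (E : ℕ) (F : MvPolynomial (Fin k) L), F ≠ 0 ∧ F.totalDegree ≤ E ∧
      aeval g F ∈ mI n L ^ (N * (E + 1)) := by
  set e := (N * k) ^ n with he
  set M := N * (k * e + 1) with hM
  let Ψ : ((Fin k → Fin (e + 1)) → L) →ₗ[L] ((Fin n → Fin M) → L) :=
    LinearMap.pi fun β => (lcoeff L (efr_ex β)).comp ((aeval g).toLinearMap.comp (efr_F k e))
  have hlt : Module.finrank L ((Fin n → Fin M) → L) <
      Module.finrank L ((Fin k → Fin (e + 1)) → L) := by
    rw [Module.finrank_fintype_fun_eq_card, Module.finrank_fintype_fun_eq_card, Fintype.card_fun,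
      Fintype.card_fun, Fintype.card_fin, Fintype.card_fin, Fintype.card_fin, Fintype.card_fin]
    have h1 : M ≤ (N * k) * (e + 1) := by
      rw [hM, mul_assoc]
      refine Nat.mul_le_mul_left _ ?_
      rw [mul_add, mul_one]
      omega
    calc M ^ n ≤ ((N * k) * (e + 1)) ^ n := Nat.pow_le_pow_left h1 _
      _ = e * (e + 1) ^ n := by rw [mul_pow]
      _ < (e + 1) * (e + 1) ^ n := by
        refine Nat.mul_lt_mul_of_pos_right (Nat.lt_succ_self _) (by positivity)
      _ = (e + 1) ^ (n + 1) := by rw [pow_succ, mul_comm]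
      _ ≤ (e + 1) ^ k := Nat.pow_le_pow_right (by omega) hnk
  have hker := LinearMap.ker_ne_bot_of_finrank_lt (f := Ψ) hlt
  obtain ⟨c, hc, hc0⟩ := (Submodule.ne_bot_iff _).1 hker
  refine ⟨k * e, efr_F k e c, ?_, efr_F_deg k e c, ?_⟩
  · intro h
    apply hc0
    funext α
    rw [← efr_F_coeff k e c α, h, coeff_zero]
    rfl
  · refine efr_mem_of_coeff _ _ fun β => ?_
    exact congrFun (LinearMap.mem_ker.1 hc) β

end aux

/-- more than `n` generators of an ideal primary to the origin satisfy a homogeneous relation over `L` modulo `m I^D` -/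
theorem exists_form_relation {L : Type*} [Field L] {n k : ℕ} (hnk : n < k)
    (g : Fin k → MvPolynomial (Fin n) L) (hg : ∀ i, g i ∈ mI n L) (N : ℕ)
    (hN : mI n L ^ N ≤ Ideal.span (Set.range g) ⊔ mI n L ^ (N+1)) :
    ∃ D : ℕ, 1 ≤ D ∧ ∃ G : MvPolynomial (Fin k) L, G ≠ 0 ∧ G.IsHomogeneous D ∧
      ∀ T : ℕ, aeval g G ∈ mI n L * Ideal.span (Set.range g) ^ D ⊔ mI n L ^ T := by
  classical
  obtain ⟨E, F, hF0, hFE, hF⟩ := efr_exists (L := L) hnk g N
  have hI : Ideal.span (Set.range g) ≤ mI n L := by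
    rw [Ideal.span_le]
    rintro _ ⟨i, rfl⟩
    exact hg i
  -- the lowest component
  have hex : ∃ d, homogeneousComponent d F ≠ 0 := by
    by_contra hn
    push Not at hn
    apply hF0
    rw [← sum_homogeneousComponent F]
    exact Finset.sum_eq_zero fun d _ => hn d
  set D := Nat.find hex with hD
  have hD0 : homogeneousComponent D F ≠ 0 := Nat.find_spec hex
  have hDE : D ≤ F.totalDegree := by
    by_contra hlt
    push Not at hlt
    exact hD0 (homogeneousComponent_eq_zero _ _ hlt)
  have key : ∀ T : ℕ, aeval g (homogeneousComponent D F) ∈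
      mI n L * Ideal.span (Set.range g) ^ D ⊔ mI n L ^ T := by
    intro T
    have h1 : Ideal.span (Set.range g) ^ (D + 1) ≤ mI n L * Ideal.span (Set.range g) ^ D := by
      rw [pow_succ']
      exact Ideal.mul_mono_left hI
    have h2 : aeval g F ∈ Ideal.span (Set.range g) ^ (D + 1) ⊔ mI n L ^ T := by
      have := efr_pow hN (E + 1) T hF
      have hle : Ideal.span (Set.range g) ^ (E + 1) ⊔ mI n L ^ T ≤
          Ideal.span (Set.range g) ^ (D + 1) ⊔ mI n L ^ T :=
        sup_le_sup (Ideal.pow_le_pow_right (show D + 1 ≤ E + 1 by omega)) le_rfl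
      exact hle this
    have h3 : aeval g F = aeval g (homogeneousComponent D F) +
        ∑ d ∈ (Finset.range (F.totalDegree + 1)).erase D, aeval g (homogeneousComponent d F) := by
      rw [Finset.add_sum_erase _ (fun d => aeval g (homogeneousComponent d F))
        (Finset.mem_range.2 (by omega)), ← map_sum, sum_homogeneousComponent]
    have h4 : ∑ d ∈ (Finset.range (F.totalDegree + 1)).erase D,
        aeval g (homogeneousComponent d F) ∈ Ideal.span (Set.range g) ^ (D + 1) := by
      refine Ideal.sum_mem _ fun d hd => ?_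
      rcases lt_or_gt_of_ne (Finset.ne_of_mem_erase hd) with h | h
      · have : homogeneousComponent d F = 0 := by
          by_contra hne
          exact Nat.find_min hex h hne
        rw [this, map_zero]
        exact Ideal.zero_mem _
      · exact Ideal.pow_le_pow_right (show D + 1 ≤ d from h)
          (efr_form_mem g (homogeneousComponent_isHomogeneous d F))
    have h5 : aeval g (homogeneousComponent D F) ∈
        Ideal.span (Set.range g) ^ (D + 1) ⊔ mI n L ^ T := by
      have : aeval g (homogeneousComponent D F) = aeval g F -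
        ∑ d ∈ (Finset.range (F.totalDegree + 1)).erase D,
          aeval g (homogeneousComponent d F) := by rw [h3, add_sub_cancel_right]
      rw [this]
      exact Ideal.sub_mem _ h2 (Ideal.mem_sup_left h4)
    have hle : Ideal.span (Set.range g) ^ (D + 1) ⊔ mI n L ^ T ≤
        mI n L * Ideal.span (Set.range g) ^ D ⊔ mI n L ^ T := sup_le_sup h1 le_rfl
    exact hle h5
  refine ⟨D, ?_, homogeneousComponent D F, hD0, homogeneousComponent_isHomogeneous D F, key⟩
  by_contra hlt
  have hD00 : D = 0 := by omega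
  have h1 := key 1
  rw [hD00, homogeneousComponent_zero, pow_zero, pow_one, mul_one, sup_idem] at h1
  rw [aeval_C] at h1
  have h2 := efr_const (n := n) (L := L) (c := coeff 0 F) h1
  apply hD0
  rw [hD00, homogeneousComponent_zero, h2, C_0]

end H693RF
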