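import Pool.Agent.Helper693.RF.Defs

namespace H693RF

open MvPolynomial

theorem mI_eq (n : ℕ) (L : Type*) [Field L] : mI n L = idealOfVars (Fin n) L := rfl

theorem trunc_sub_mem {L : Type*} [Field L] {n : ℕ} (M : ℕ) (f : MvPolynomial (Fin n) L) :
    f - MvPowerSeries.truncTotal M (f : MvPowerSeries (Fin n) L) ∈ mI n L ^ M := by
  rw [mI_eq, mem_pow_idealOfVars_iff']
  intro x hx
  rw [coeff_sub, MvPowerSeries.coeff_truncTotal _ hx, coeff_coe, sub_self]

/-- truncation: polynomial of degree `< M` congruent to `f` modulo `m^M` -/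
theorem exists_trunc {L : Type*} [Field L] {n : ℕ} (M : ℕ) (hM : 0 < M) (f : MvPolynomial (Fin n) L) (hf : f ∈ mI n L) :
    ∃ h : MvPolynomial (Fin n) L, h.totalDegree < M ∧ f - h ∈ mI n L ^ M ∧ constantCoeff h = 0 := by
  refine ⟨MvPowerSeries.truncTotal M (f : MvPowerSeries (Fin n) L),
    MvPowerSeries.totalDegree_truncTotal_lt _ hM.ne', trunc_sub_mem M f, ?_⟩
  rw [constantCoeff_eq, MvPowerSeries.coeff_truncTotal _ (by simpa using hM), coeff_coe]
  rw [mI_eq, ← pow_one (idealOfVars (Fin n) L), mem_pow_idealOfVars_iff'] at hf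
  exact hf 0 (by simp)

/-- the quotient by an ideal containing a power of the ideal of the origin is finite dimensional -/
theorem finite_quot {L : Type*} [Field L] {n : ℕ} (N : ℕ) (I : Ideal (MvPolynomial (Fin n) L)) (hI : mI n L ^ N ≤ I) :
    FiniteDimensional L (MvPolynomial (Fin n) L ⧸ I) := by
  classical
  have hfin : {x : Fin n →₀ ℕ | x.degree < N}.Finite := Finsupp.finite_of_degree_lt N
  refine ⟨⟨hfin.toFinset.image (fun x => Ideal.Quotient.mk I (monomial x (1 : L))), ?_⟩⟩
  rw [eq_top_iff]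
  rintro r -
  obtain ⟨f, rfl⟩ := Ideal.Quotient.mk_surjective r
  set h : MvPolynomial (Fin n) L := MvPowerSeries.truncTotal N (f : MvPowerSeries (Fin n) L) with hh
  have e : Ideal.Quotient.mk I f = Ideal.Quotient.mk I h :=
    Ideal.Quotient.eq.2 (hI (trunc_sub_mem N f))
  rw [e, h.as_sum, map_sum]
  refine Submodule.sum_mem _ (fun x hx => ?_)
  have hxN : x.degree < N := by
    by_contra hcon
    rw [mem_support_iff, hh, MvPowerSeries.coeff_truncTotal_eq_zero _ (not_lt.1 hcon)] at hx
    exact hx rfl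
  have e2 : Ideal.Quotient.mk I (monomial x (coeff x h)) =
      coeff x h • Ideal.Quotient.mk I (monomial x (1 : L)) := by
    rw [← Ideal.Quotient.mkₐ_eq_mk L, ← map_smul, smul_monomial, smul_eq_mul, mul_one]
  rw [e2]
  refine Submodule.smul_mem _ _ (Submodule.subset_span ?_)
  rw [Finset.coe_image]
  exact ⟨x, by simpa using hxN, rfl⟩

/-- finite dimensionality of the quotient by `g` when the polynomial ring is finite free over `L[g]` -/
theorem finite_quot_of_basis {L : Type*} [Field L] {n : ℕ} (g : Fin n → MvPolynomial (Fin n) L)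
    {ι : Type*} [Fintype ι]
    (b : Module.Basis ι (aeval g : MvPolynomial (Fin n) L →ₐ[L] MvPolynomial (Fin n) L).range (MvPolynomial (Fin n) L)) :
    FiniteDimensional L (MvPolynomial (Fin n) L ⧸ Ideal.span (Set.range g)) := by
  classical
  set I : Ideal (MvPolynomial (Fin n) L) := Ideal.span (Set.range g) with hI
  refine ⟨⟨Finset.univ.image (fun i => Ideal.Quotient.mk I (b i)), ?_⟩⟩
  rw [eq_top_iff]
  rintro r -
  obtain ⟨f, rfl⟩ := Ideal.Quotient.mk_surjective r
  rw [← b.sum_repr f, map_sum]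
  refine Submodule.sum_mem _ (fun i _ => ?_)
  obtain ⟨p, hp⟩ := (b.repr f i).2
  have hz : ∀ p : MvPolynomial (Fin n) L, Ideal.Quotient.mkₐ L I (aeval g p) =
      algebraMap L _ (constantCoeff p) := by
    intro p
    have h1 : (Ideal.Quotient.mkₐ L I).comp (aeval g) = aeval (fun _ => 0) := by
      ext j
      simp only [AlgHom.comp_apply, aeval_X]
      exact Ideal.Quotient.eq_zero_iff_mem.2 (Ideal.subset_span ⟨j, rfl⟩)
    have h2 := congrArg (fun φ => φ p) h1
    simp only [AlgHom.comp_apply] at h2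
    rw [h2, aeval_zero']
  have e : Ideal.Quotient.mk I (b.repr f i • b i) =
      constantCoeff p • Ideal.Quotient.mk I (b i) := by
    have e3 : constantCoeff p • Ideal.Quotient.mk I (b i) =
        Ideal.Quotient.mk I (C (constantCoeff p)) * Ideal.Quotient.mk I (b i) := by
      rw [← map_mul, ← smul_eq_C_mul]
      rfl
    have e4 : Ideal.Quotient.mk I (aeval g p) = Ideal.Quotient.mk I (C (constantCoeff p)) := hz p
    have hp' : (aeval g p : MvPolynomial (Fin n) L) = ↑((b.repr f) i) := hp
    rw [Subalgebra.smul_def, ← hp', smul_eq_mul, map_mul, e3, e4]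
  rw [e]
  refine Submodule.smul_mem _ _ (Submodule.subset_span ?_)
  rw [Finset.coe_image]
  exact ⟨i, by simp, rfl⟩

end H693RF
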