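import Pool.Agent.Helper693.RF.Defs

namespace H693RF

open MvPolynomial

/-- extension of a derivation to the fraction field -/
theorem exists_extend {R K : Type*} [CommRing R] [IsDomain R] [Field K] [Algebra R K] [IsFractionRing R K]
    (D : Derivation ℤ R R) : ∃ D' : Derivation ℤ K K, ∀ r, D' (algebraMap R K r) = algebraMap R K (D r) := by
  have := Algebra.FormallyEtale.of_isLocalization (Rₘ := K) (nonZeroDivisors R)
  let D1 : Derivation ℤ R K := (Algebra.linearMap R K).compDer D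
  let l1 : (Ω[R⁄ℤ]) →ₗ[R] K := D1.liftKaehlerDifferential
  let l2 : TensorProduct R K (Ω[R⁄ℤ]) →ₗ[K] K := l1.liftBaseChange K
  let l3 : (Ω[K⁄ℤ]) →ₗ[K] K := l2.comp (KaehlerDifferential.tensorKaehlerEquivOfFormallyEtale ℤ R K).symm.toLinearMap
  refine ⟨l3.compDer (KaehlerDifferential.D ℤ K), fun r => ?_⟩
  have h : l3 (KaehlerDifferential.D ℤ K (algebraMap R K r)) = algebraMap R K (D r) := by
    simp only [l3, LinearMap.comp_apply, LinearEquiv.coe_coe]
    rw [KaehlerDifferential.tensorKaehlerEquivOfFormallyEtale_symm_D_algebraMap]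
    simp only [l2, LinearMap.liftBaseChange_tmul, one_smul, l1, Derivation.liftKaehlerDifferential_comp_D]
    rfl
  exact h

theorem exists_extend' {R K : Type*} [CommRing R] [IsDomain R] [Field K] [Algebra R K] [IsFractionRing R K]
    (a : Algebra ℤ K)
    (D : Derivation ℤ R R) : ∃ D' : @Derivation ℤ K K _ _ _ a _ _, ∀ r, D' (algebraMap R K r) = algebraMap R K (D r) := by
  have h : a = Ring.toIntAlgebra K := Subsingleton.elim _ _
  subst h
  exact exists_extend D

/-- level ideals -/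
noncomputable def lvl {R K : Type*} [CommRing R] [Field K] [Algebra R K]
    (v : AddValuation K (WithTop ℤ)) (hv0 : ∀ r : R, 0 ≤ v (algebraMap R K r)) (q : WithTop ℤ) : Ideal R where
  carrier := {r | q ≤ v (algebraMap R K r)}
  add_mem' := by
    intro a b ha hb
    simp only [Set.mem_ofPred_eq, map_add] at *
    exact v.map_le_add ha hb
  zero_mem' := by simp
  smul_mem' := by
    intro c x hx
    simp only [Set.mem_ofPred_eq, smul_eq_mul, map_mul, AddValuation.map_mul] at *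
    calc q = 0 + q := (zero_add _).symm
      _ ≤ _ := add_le_add (hv0 c) hx

theorem mem_lvl {R K : Type*} [CommRing R] [Field K] [Algebra R K]
    (v : AddValuation K (WithTop ℤ)) (hv0 : ∀ r : R, 0 ≤ v (algebraMap R K r)) (q : WithTop ℤ) (r : R) :
    r ∈ lvl v hv0 q ↔ q ≤ v (algebraMap R K r) := Iff.rfl

theorem pow_le_lvl {R K : Type*} [CommRing R] [Field K] [Algebra R K]
    (v : AddValuation K (WithTop ℤ)) (hv0 : ∀ r : R, 0 ≤ v (algebraMap R K r)) (m : Ideal R)
    (hm : m ≤ lvl v hv0 1) (T : ℕ) : m ^ T ≤ lvl v hv0 (((T : ℤ)) : WithTop ℤ) := by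
  induction T with
  | zero =>
    intro r _
    rw [mem_lvl]
    simpa using hv0 r
  | succ T ih =>
    rw [pow_succ]
    refine Ideal.mul_le.2 ?_
    intro r hr s hs
    have h1 := ih hr
    have h2 := hm hs
    rw [mem_lvl] at *
    rw [map_mul, AddValuation.map_mul]
    push_cast
    exact add_le_add h1 h2

theorem iter {R : Type*} [CommRing R] (m J : Ideal R) (N : ℕ) (h : m ^ N ≤ J ⊔ m ^ (N+1)) (t : ℕ) :
    m ^ N ≤ J ⊔ m ^ (N + t) := by
  induction t with
  | zero => exact le_sup_right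
  | succ t ih =>
    refine ih.trans (sup_le le_sup_left ?_)
    calc m ^ (N + t) = m ^ N * m ^ t := pow_add _ _ _
      _ ≤ (J ⊔ m ^ (N+1)) * m ^ t := Ideal.mul_mono_left h
      _ = J * m ^ t ⊔ m ^ (N+1) * m ^ t := Ideal.sup_mul _ _ _
      _ ≤ J ⊔ m ^ (N + (t + 1)) := by
        refine sup_le_sup (fun x hx => (Ideal.mul_le_inf hx).1) ?_
        rw [← pow_add]
        exact le_of_eq (by congr 1; omega)

theorem der_pow {R : Type*} [CommRing R] (m : Ideal R) (D : Derivation ℤ R R) (T : ℕ) :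
    ∀ r ∈ m ^ (T + 1), D r ∈ m ^ T := by
  induction T with
  | zero => intro r _; simp
  | succ T ih =>
    intro r hr
    rw [pow_succ m (T+1)] at hr
    refine Submodule.mul_induction_on hr ?_ ?_
    · intro a ha b hb
      rw [Derivation.leibniz]
      refine Ideal.add_mem _ ?_ ?_
      · exact Ideal.mul_mem_right _ _ ha
      · rw [smul_eq_mul, mul_comm, pow_succ]
        exact Ideal.mul_mem_mul (ih a ha) hb
    · intro a b ha hb
      rw [map_add]
      exact Ideal.add_mem _ ha hb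

/-- part (b): derivations of the polynomial ring and the valuation -/
theorem part_b {L : Type*} [Field L] {n k : ℕ} (hnk : n + 1 ≤ k)
    (v : AddValuation (FractionRing (MvPolynomial (Fin (n+1)) L)) (WithTop ℤ))
    (hv0 : ∀ r : MvPolynomial (Fin (n+1)) L, 0 ≤ v (algebraMap _ _ r))
    (hvX : ∀ i : Fin (n+1), 0 < v (algebraMap _ _ (X i : MvPolynomial (Fin (n+1)) L)))
    (q : ℤ)
    (g : Fin (n+1) → MvPolynomial (Fin (n+1)) L) (hg : ∀ i, v (algebraMap _ _ (g i)) = (q : WithTop ℤ))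
    (hBL : ∀ D : Derivation ℤ (FractionRing (MvPolynomial (Fin (n+1)) L)) (FractionRing (MvPolynomial (Fin (n+1)) L)),
      (∀ c : L, 0 ≤ v (D (algebraMap _ _ (C c : MvPolynomial (Fin (n+1)) L)))) →
      (∀ i, (q : WithTop ℤ) ≤ v (D (algebraMap _ _ (g i)))) → ∀ x, v x ≤ v (D x))
    (f : Fin k → MvPolynomial (Fin (n+1)) L) (N M : ℕ) (hMN : N < M)
    (hN : mI (n+1) L ^ N ≤ Ideal.span (Set.range f) ⊔ mI (n+1) L ^ (N+1))
    (N' : ℕ) (hMN' : N' < M)
    (hN' : mI (n+1) L ^ N' ≤ Ideal.span (f '' {i : Fin k | i.val < n + 1}) ⊔ mI (n+1) L ^ (N'+1))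
    (hfg : ∀ i : Fin (n+1), f (Fin.castLE hnk i) - g i ∈ mI (n+1) L ^ M)
    (hred : (∀ i : Fin k, i.val < n + 1 → (q : WithTop ℤ) ≤ v (algebraMap _ _ (f i))) →
      ∀ i : Fin k, (q : WithTop ℤ) ≤ v (algebraMap _ _ (f i))) :
    (∀ r ∈ Ideal.span (Set.range f) ⊔ mI (n+1) L ^ N, (q : WithTop ℤ) ≤ v (algebraMap _ _ r)) ∧
    ∀ D : Derivation ℤ (MvPolynomial (Fin (n+1)) L) (MvPolynomial (Fin (n+1)) L),
      (∀ i : Fin k, i.val < n + 1 → D (f i) ∈ Ideal.span (Set.range f) ⊔ mI (n+1) L ^ N) →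
      ∀ j, (q : WithTop ℤ) ≤ v (algebraMap _ _ (D (f j))) := by
  set m := mI (n+1) L with hmdef
  have hm1 : m ≤ lvl v hv0 1 := by
    rw [hmdef, mI, Ideal.span_le]
    rintro _ ⟨i, rfl⟩
    show _ ∈ lvl v hv0 1
    rw [mem_lvl]
    have h := hvX i
    generalize v (algebraMap _ _ (X i : MvPolynomial (Fin (n+1)) L)) = w at h
    induction w using WithTop.recTopCoe with
    | top => exact le_top
    | coe a =>
      have h1 : (0:ℤ) < a := by exact_mod_cast h
      have h2 : (1:ℤ) ≤ a := h1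
      exact_mod_cast h2
  have hpow : ∀ T : ℕ, m ^ T ≤ lvl v hv0 (((T : ℤ)) : WithTop ℤ) := pow_le_lvl v hv0 m hm1
  -- high powers are in level q
  have hbig : ∀ N0 : ℕ, m ^ (N0 + q.toNat) ≤ lvl v hv0 (q : WithTop ℤ) := by
    intro N0 r hr
    have h := hpow _ hr
    rw [mem_lvl] at *
    refine le_trans ?_ h
    have : q ≤ ((N0 + q.toNat : ℕ) : ℤ) := by omega
    exact_mod_cast this
  have hG : Ideal.span (Set.range g) ≤ lvl v hv0 (q : WithTop ℤ) := by
    rw [Ideal.span_le]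
    rintro _ ⟨i, rfl⟩
    show _ ∈ lvl v hv0 _
    rw [mem_lvl, hg i]
  have hJ' : Ideal.span (f '' {i : Fin k | i.val < n + 1}) ≤ Ideal.span (Set.range g) ⊔ m ^ (N'+1) := by
    rw [Ideal.span_le]
    rintro _ ⟨i, hi, rfl⟩
    have hi' : i.val < n + 1 := hi
    have e : f i = g ⟨i.val, hi'⟩ + (f i - g ⟨i.val, hi'⟩) := by ring
    show f i ∈ Ideal.span (Set.range g) ⊔ m ^ (N'+1)
    rw [e]
    refine Submodule.add_mem_sup (Ideal.subset_span ⟨_, rfl⟩) ?_
    have h1 := hfg ⟨i.val, hi'⟩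
    exact Ideal.pow_le_pow_right (by omega) h1
  have hN'' : m ^ N' ≤ Ideal.span (Set.range g) ⊔ m ^ (N'+1) :=
    hN'.trans (sup_le hJ' le_sup_right)
  have hN'q : m ^ N' ≤ lvl v hv0 (q : WithTop ℤ) :=
    (iter m _ N' hN'' q.toNat).trans (sup_le hG (hbig N'))
  have hMq : m ^ M ≤ lvl v hv0 (q : WithTop ℤ) :=
    (Ideal.pow_le_pow_right hMN'.le).trans hN'q
  have hf1 : ∀ i : Fin k, i.val < n + 1 → (q : WithTop ℤ) ≤ v (algebraMap _ _ (f i)) := by
    intro i hi
    have e : f i = g ⟨i.val, hi⟩ + (f i - g ⟨i.val, hi⟩) := by ring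
    have h1 : f i ∈ lvl v hv0 (q : WithTop ℤ) := by
      rw [e]
      refine Ideal.add_mem _ (hG (Ideal.subset_span ⟨_, rfl⟩)) (hMq ?_)
      exact hfg ⟨i.val, hi⟩
    exact h1
  have hf := hred hf1
  have hJ : Ideal.span (Set.range f) ≤ lvl v hv0 (q : WithTop ℤ) := by
    rw [Ideal.span_le]
    rintro _ ⟨i, rfl⟩
    exact hf i
  have hNq : m ^ N ≤ lvl v hv0 (q : WithTop ℤ) :=
    (iter m _ N hN q.toNat).trans (sup_le hJ (hbig N))
  have hI : Ideal.span (Set.range f) ⊔ m ^ N ≤ lvl v hv0 (q : WithTop ℤ) := sup_le hJ hNq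
  refine ⟨fun r hr => hI hr, ?_⟩
  intro D hD j
  obtain ⟨D', hD'⟩ := exists_extend' (K := FractionRing (MvPolynomial (Fin (n+1)) L)) OreLocalization.instAlgebra D
  have h := hBL D' ?_ ?_ (algebraMap _ _ (f j))
  · rw [hD'] at h
    exact (hf j).trans h
  · intro c
    rw [hD']
    exact hv0 _
  · intro i
    rw [hD']
    have h1 := hD (Fin.castLE hnk i) (by simpa using i.2)
    have h2 : D (f (Fin.castLE hnk i) - g i) ∈ m ^ N := by
      obtain ⟨M', rfl⟩ : ∃ M', M = M' + 1 := ⟨M - 1, by omega⟩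
      exact Ideal.pow_le_pow_right (by omega) (der_pow m D M' _ (hfg i))
    have e : D (g i) = D (f (Fin.castLE hnk i)) - D (f (Fin.castLE hnk i) - g i) := by
      rw [map_sub]; ring
    have h3 : D (g i) ∈ lvl v hv0 (q : WithTop ℤ) := by
      rw [e]
      exact Ideal.sub_mem _ (hI h1) (hI (le_sup_right (a := Ideal.span (Set.range f)) h2))
    exact h3

end H693RF
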