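import Pool.Agent.Helper693.RF.Defs

namespace H693RF

open MvPolynomial

/-! auxiliary lemmas -/

section gen
variable {R : Type*} [CommRing R]

theorem aux_pow_split (I : Ideal R) (y : R) (D : ℕ) :
    (I ⊔ Ideal.span {y}) ^ (D + 1) ≤
      I * (I ⊔ Ideal.span {y}) ^ D ⊔ Ideal.span {y ^ (D + 1)} := by
  induction D with
  | zero => simp
  | succ D ih =>
    set J := I ⊔ Ideal.span {y} with hJ
    have h1 : J ^ (D + 1 + 1) = I * J ^ (D + 1) ⊔ Ideal.span {y} * J ^ (D + 1) := by
      rw [pow_succ' J (D + 1)]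
      conv_lhs => rw [hJ]
      rw [Ideal.sup_mul]
    rw [h1]
    refine sup_le le_sup_left ?_
    refine (Ideal.mul_mono_right ih).trans ?_
    rw [Ideal.mul_sup]
    refine sup_le ?_ ?_
    · refine le_trans ?_ le_sup_left
      calc Ideal.span {y} * (I * J ^ D) ≤ J * (I * J ^ D) :=
            Ideal.mul_mono_left (by rw [hJ]; exact le_sup_right)
        _ = I * J ^ (D + 1) := by rw [pow_succ']; ring
    · refine le_trans ?_ le_sup_right
      rw [Ideal.span_singleton_mul_span_singleton, ← pow_succ']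

theorem aux_iter1 (m I : Ideal R) (N : ℕ) (h : m ^ N ≤ I ⊔ m ^ (N + 1)) (T : ℕ) :
    m ^ N ≤ I ⊔ m ^ (N + T) := by
  induction T with
  | zero => exact le_sup_right
  | succ T ih =>
    refine ih.trans (sup_le le_sup_left ?_)
    calc m ^ (N + T) = m ^ T * m ^ N := by rw [← pow_add, add_comm]
      _ ≤ m ^ T * (I ⊔ m ^ (N + 1)) := Ideal.mul_mono_right h
      _ = m ^ T * I ⊔ m ^ T * m ^ (N + 1) := Ideal.mul_sup _ _ _
      _ ≤ I ⊔ m ^ (N + (T + 1)) := by
        refine sup_le_sup Ideal.mul_le_right (le_of_eq ?_)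
        rw [← pow_add]; congr 1; ring

theorem aux_iter2 (m I J : Ideal R) (h : ∀ T : ℕ, J ≤ I ⊔ (m * J ⊔ m ^ T)) (T : ℕ) :
    J ≤ I ⊔ m ^ T := by
  have key : ∀ s : ℕ, J ≤ I ⊔ (m ^ s * J ⊔ m ^ T) := by
    intro s
    induction s with
    | zero =>
      rw [pow_zero, one_mul]
      exact le_sup_of_le_right le_sup_left
    | succ s ih =>
      refine ih.trans (sup_le le_sup_left (sup_le ?_ (le_sup_of_le_right le_sup_right)))
      calc m ^ s * J ≤ m ^ s * (I ⊔ (m * J ⊔ m ^ T)) := Ideal.mul_mono_right (h T)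
        _ = m ^ s * I ⊔ (m ^ s * (m * J) ⊔ m ^ s * m ^ T) := by
          rw [Ideal.mul_sup, Ideal.mul_sup]
        _ ≤ I ⊔ (m ^ (s + 1) * J ⊔ m ^ T) := by
          refine sup_le_sup Ideal.mul_le_right (sup_le_sup (le_of_eq ?_) Ideal.mul_le_right)
          rw [← mul_assoc, ← pow_succ]
  refine (key T).trans (sup_le le_sup_left (sup_le ?_ le_sup_right))
  exact le_sup_of_le_right Ideal.mul_le_left

theorem aux_sup_pow (I M : Ideal R) (D : ℕ) : (I ⊔ M) ^ D ≤ I ^ D ⊔ M := by
  induction D with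
  | zero => simp
  | succ D ih =>
    calc (I ⊔ M) ^ (D + 1) = (I ⊔ M) ^ D * (I ⊔ M) := pow_succ _ _
      _ ≤ (I ^ D ⊔ M) * (I ⊔ M) := Ideal.mul_mono_left ih
      _ = (I ^ D * I ⊔ M * I) ⊔ (I ^ D * M ⊔ M * M) := by
        rw [Ideal.mul_sup, Ideal.sup_mul, Ideal.sup_mul]
      _ ≤ I ^ (D + 1) ⊔ M := by
        rw [← pow_succ]
        exact sup_le (sup_le le_sup_left (le_sup_of_le_right Ideal.mul_le_left))
          (sup_le (le_sup_of_le_right Ideal.mul_le_right) (le_sup_of_le_right Ideal.mul_le_left))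

/-- comparison of two products of `m` factors -/
structure Cmp (I J : Ideal R) (m : ℕ) (A B : R) : Prop where
  a : A ∈ J ^ m
  b : B ∈ J ^ m
  d : A - B ∈ I * J ^ (m - 1)
  z : m = 0 → A = B

theorem Cmp.one (I J : Ideal R) : Cmp I J 0 1 1 :=
  ⟨by simp, by simp, by simp, fun _ => rfl⟩

theorem Cmp.mul {I J : Ideal R} {m m' : ℕ} {A B A' B' : R} (h : Cmp I J m A B)
    (h' : Cmp I J m' A' B') : Cmp I J (m + m') (A * A') (B * B') := by
  refine ⟨?_, ?_, ?_, ?_⟩
  · rw [pow_add]; exact Ideal.mul_mem_mul h.a h'.a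
  · rw [pow_add]; exact Ideal.mul_mem_mul h.b h'.b
  · have e : A * A' - B * B' = (A - B) * A' + B * (A' - B') := by ring
    rw [e]
    rcases Nat.eq_zero_or_pos m with hm | hm
    · subst hm
      rw [h.z rfl, sub_self, zero_mul, zero_add, zero_add]
      exact Ideal.mul_mem_left _ _ h'.d
    rcases Nat.eq_zero_or_pos m' with hm' | hm'
    · subst hm'
      rw [h'.z rfl, sub_self, mul_zero, add_zero, add_zero]
      exact Ideal.mul_mem_right _ _ h.d
    refine Ideal.add_mem _ ?_ ?_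
    · have h1 := Ideal.mul_mem_mul h.d h'.a
      have e2 : I * J ^ (m - 1) * J ^ m' = I * J ^ (m + m' - 1) := by
        rw [mul_assoc, ← pow_add]; congr 2; omega
      rwa [e2] at h1
    · have h1 := Ideal.mul_mem_mul h.b h'.d
      have e2 : J ^ m * (I * J ^ (m' - 1)) = I * J ^ (m + m' - 1) := by
        rw [mul_left_comm, ← pow_add]; congr 2; omega
      rwa [e2] at h1
  · intro hm
    rw [h.z (by omega), h'.z (by omega)]

theorem Cmp.pow {I J : Ideal R} {A B : R} (h : Cmp I J 1 A B) (e : ℕ) :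
    Cmp I J e (A ^ e) (B ^ e) := by
  induction e with
  | zero => simpa using Cmp.one I J
  | succ e ih => rw [pow_succ, pow_succ]; exact ih.mul h

theorem Cmp.prod {I J : Ideal R} {ι : Type*} (s : Finset ι) (d : ι → ℕ) (A B : ι → R)
    (h : ∀ i, Cmp I J 1 (A i) (B i)) :
    Cmp I J (∑ i ∈ s, d i) (∏ i ∈ s, A i ^ d i) (∏ i ∈ s, B i ^ d i) := by
  classical
  induction s using Finset.induction_on with
  | empty => simpa using Cmp.one I J
  | insert a s ha ih =>
    rw [Finset.sum_insert ha, Finset.prod_insert ha, Finset.prod_insert ha]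
    exact ((h a).pow (d a)).mul ih

end gen

/-- valuation ideal -/
def VI {L : Type*} [Field L] {n : ℕ} (v : AddValuation (MvPolynomial (Fin n) L) (WithTop ℤ))
    (hv : ∀ r, 0 ≤ v r) (b : ℤ) : Ideal (MvPolynomial (Fin n) L) where
  carrier := {x | (b : WithTop ℤ) ≤ v x}
  add_mem' := by
    intro x y hx hy
    exact le_trans (le_min hx hy) (v.map_add x y)
  zero_mem' := by
    show _ ≤ v 0
    rw [v.map_zero]; exact le_top
  smul_mem' := by
    intro c x hx
    show _ ≤ v (c • x)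
    rw [smul_eq_mul, v.map_mul]
    calc (b : WithTop ℤ) = 0 + b := (zero_add _).symm
      _ ≤ v c + v x := add_le_add (hv c) hx

theorem mem_VI {L : Type*} [Field L] {n : ℕ}
    {v : AddValuation (MvPolynomial (Fin n) L) (WithTop ℤ)} {hv : ∀ r, 0 ≤ v r} {b : ℤ}
    {x : MvPolynomial (Fin n) L} : x ∈ VI v hv b ↔ (b : WithTop ℤ) ≤ v x := Iff.rfl

theorem VI_mul {L : Type*} [Field L] {n : ℕ}
    {v : AddValuation (MvPolynomial (Fin n) L) (WithTop ℤ)} {hv : ∀ r, 0 ≤ v r} {a b : ℤ}
    {I J : Ideal (MvPolynomial (Fin n) L)} (hI : I ≤ VI v hv a) (hJ : J ≤ VI v hv b) :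
    I * J ≤ VI v hv (a + b) := by
  rw [Ideal.mul_le]
  intro x hx y hy
  rw [mem_VI, v.map_mul]
  push_cast
  exact add_le_add (hI hx) (hJ hy)

theorem VI_pow {L : Type*} [Field L] {n : ℕ}
    {v : AddValuation (MvPolynomial (Fin n) L) (WithTop ℤ)} {hv : ∀ r, 0 ≤ v r} {a : ℤ}
    {I : Ideal (MvPolynomial (Fin n) L)} (hI : I ≤ VI v hv a) (D : ℕ) :
    I ^ D ≤ VI v hv (D * a) := by
  induction D with
  | zero =>
    intro x _
    rw [mem_VI]
    simpa using hv x
  | succ D ih =>
    rw [pow_succ]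
    have := VI_mul ih hI
    have e : ((D + 1 : ℕ) : ℤ) * a = D * a + a := by push_cast; ring
    rw [e]; exact this

theorem VI_anti {L : Type*} [Field L] {n : ℕ}
    {v : AddValuation (MvPolynomial (Fin n) L) (WithTop ℤ)} {hv : ∀ r, 0 ≤ v r} {a b : ℤ}
    (h : a ≤ b) : VI v hv b ≤ VI v hv a := by
  intro x hx
  rw [mem_VI] at hx ⊢
  exact le_trans (by exact_mod_cast h) hx

theorem reduction_step {L : Type*} [Field L] [CharZero L] {n : ℕ}
    (hform : ∀ (k : ℕ), n < k → ∀ (g : Fin k → MvPolynomial (Fin n) L), (∀ i, g i ∈ mI n L) → ∀ (N : ℕ),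
      mI n L ^ N ≤ Ideal.span (Set.range g) ⊔ mI n L ^ (N+1) →
      ∃ D : ℕ, 1 ≤ D ∧ ∃ G : MvPolynomial (Fin k) L, G ≠ 0 ∧ G.IsHomogeneous D ∧
        ∀ T : ℕ, aeval g G ∈ mI n L * Ideal.span (Set.range g) ^ D ⊔ mI n L ^ T)
    {k : ℕ} (g : Fin k → MvPolynomial (Fin n) L) (hg : ∀ i, g i ∈ mI n L)
    (S : Finset (Fin k)) (hS : n < S.card) (N : ℕ)
    (hN : mI n L ^ N ≤ Ideal.span (g '' (S : Set (Fin k))) ⊔ mI n L ^ (N+1))
    (hval : ∀ v : AddValuation (MvPolynomial (Fin n) L) (WithTop ℤ), (∀ r, 0 ≤ v r) →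
      (∀ i, 0 < v (X i)) → ∀ q : ℤ, (∀ i ∈ S, (q : WithTop ℤ) ≤ v (g i)) →
        ∀ i : Fin k, (q : WithTop ℤ) ≤ v (g i)) :
    ∃ i0 ∈ S, ∃ u : Fin k → L, u i0 = 0 ∧ ∃ N' : ℕ,
      (mI n L ^ N' ≤ Ideal.span ((fun i => g i - C (u i) * g i0) '' (S.erase i0 : Finset (Fin k))) ⊔
        mI n L ^ (N'+1)) ∧
      ∀ v : AddValuation (MvPolynomial (Fin n) L) (WithTop ℤ), (∀ r, 0 ≤ v r) →
      (∀ i, 0 < v (X i)) → ∀ q : ℤ, (∀ i ∈ S.erase i0, (q : WithTop ℤ) ≤ v (g i - C (u i) * g i0)) →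
        ∀ i : Fin k, (q : WithTop ℤ) ≤ v (g i - C (u i) * g i0) := by
  classical
  set m := mI n L with hm
  let e := S.equivFin
  set g' : Fin S.card → MvPolynomial (Fin n) L := fun l => g (e.symm l) with hg'
  have hrange : Set.range g' = g '' (S : Set (Fin k)) := by
    ext x; constructor
    · rintro ⟨l, rfl⟩; exact ⟨_, (e.symm l).2, rfl⟩
    · rintro ⟨i, hi, rfl⟩; exact ⟨e ⟨i, hi⟩, by simp [g']⟩
  obtain ⟨D, hD, G, hG0, hGh, hGT⟩ := hform S.card hS g' (fun l => hg _) N (by rw [hrange]; exact hN)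
  obtain ⟨c, hc⟩ : ∃ c, eval c G ≠ 0 := by
    by_contra h
    push Not at h
    exact hG0 (MvPolynomial.funext (fun x => by simp [h x]))
  obtain ⟨l0, hl0⟩ : ∃ l0, c l0 ≠ 0 := by
    by_contra h
    push Not at h
    apply hc
    have h1 : c = 0 := funext h
    rw [h1, MvPolynomial.eval_zero, MvPolynomial.constantCoeff_eq]
    apply hGh.coeff_eq_zero
    simp only [map_zero]
    omega
  set i0 : Fin k := (e.symm l0 : S).1 with hi0
  have hi0S : i0 ∈ S := (e.symm l0).2
  set t := c l0 with ht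
  set u : Fin k → L := fun i => if h : i ∈ S ∧ i ≠ i0 then c (e ⟨i, h.1⟩) / t else 0 with hu
  have hu0 : u i0 = 0 := by simp [hu]
  set y := g i0 with hy
  set h : Fin k → MvPolynomial (Fin n) L := fun i => g i - C (u i) * y with hh
  set I2 := Ideal.span (h '' (S.erase i0 : Finset (Fin k))) with hI2
  set I1 := Ideal.span (g '' (S : Set (Fin k))) with hI1
  have hyI1 : y ∈ I1 := Ideal.subset_span ⟨i0, hi0S, rfl⟩
  have hhI2 : ∀ i ∈ S, i ≠ i0 → h i ∈ I2 := by
    intro i hi hne
    exact Ideal.subset_span ⟨i, by simp [hi, hne], rfl⟩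
  have hI : I1 = I2 ⊔ Ideal.span {y} := by
    apply le_antisymm
    · rw [hI1, Ideal.span_le]
      rintro _ ⟨i, hi, rfl⟩
      by_cases hne : i = i0
      · rw [hne]
        exact Ideal.mem_sup_right (Ideal.mem_span_singleton_self y)
      · have e1 : g i = h i + C (u i) * y := by simp [hh]
        rw [e1]
        exact Ideal.add_mem _ (Ideal.mem_sup_left (hhI2 i hi hne))
          (Ideal.mem_sup_right (Ideal.mul_mem_left _ _ (Ideal.mem_span_singleton_self y)))
    · refine sup_le ?_ ?_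
      · rw [hI2, Ideal.span_le]
        rintro _ ⟨i, hi, rfl⟩
        have hi' : i ∈ S := Finset.mem_of_mem_erase hi
        exact Ideal.sub_mem _ (Ideal.subset_span ⟨i, hi', rfl⟩) (Ideal.mul_mem_left _ _ hyI1)
      · rw [Ideal.span_singleton_le_iff_mem]; exact hyI1
  have hI21 : I2 ≤ I1 := by rw [hI]; exact le_sup_left
  -- comparison of the values of the form
  have hcmp : ∀ l, Cmp I2 I1 1 (g' l) (C (c l / t) * y) := by
    intro l
    refine ⟨?_, ?_, ?_, fun h => absurd h one_ne_zero⟩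
    · rw [pow_one]; exact Ideal.subset_span ⟨_, (e.symm l).2, rfl⟩
    · rw [pow_one]; exact Ideal.mul_mem_left _ _ hyI1
    · rw [Nat.sub_self, pow_zero, Ideal.one_eq_top, Ideal.mul_top]
      by_cases hl : l = l0
      · subst hl
        have e1 : g' l - C (c l / t) * y = 0 := by
          rw [ht, div_self hl0, C_1, one_mul]
          exact sub_self _
        rw [e1]; exact Ideal.zero_mem _
      · have hne : ((e.symm l : S) : Fin k) ≠ i0 := by
          intro h1
          apply hl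
          have h2 : e.symm l = e.symm l0 := Subtype.ext h1
          exact e.symm.injective h2
        have e1 : u (e.symm l) = c l / t := by
          simp only [hu]
          rw [dif_pos ⟨(e.symm l).2, hne⟩]
          simp
        have h3 := hhI2 _ (e.symm l).2 hne
        have e2 : h (e.symm l) = g' l - C (c l / t) * y := by
          simp only [hh, hg']
          rw [e1]
        rwa [e2] at h3
  set γ : L := eval c G / t ^ D with hγ
  have hγ0 : γ ≠ 0 := div_ne_zero hc (pow_ne_zero _ hl0)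
  have hA : aeval g' G - C γ * y ^ D ∈ I2 * I1 ^ (D - 1) := by
    have e1 : aeval g' G = ∑ d ∈ G.support, C (coeff d G) * ∏ l, g' l ^ d l := by
      rw [aeval_def, eval₂_eq']; rfl
    have e2 : C γ * y ^ D = ∑ d ∈ G.support, C (coeff d G) * ∏ l, (C (c l / t) * y) ^ d l := by
      have e3 : ∀ d ∈ G.support, C (coeff d G) * ∏ l, (C (c l / t) * y) ^ d l =
          C (coeff d G * (∏ l, c l ^ d l)) * (C ((t ^ D)⁻¹) * y ^ D) := by
        intro d hd
        have hdeg : ∑ l, d l = D := by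
          have h1 := hGh (mem_support_iff.1 hd)
          rw [Finsupp.weight_apply, Finsupp.sum_fintype _ _ (by simp)] at h1
          simpa using h1
        have e4 : ∏ l, (C (c l / t) * y) ^ d l = (∏ l, C (c l ^ d l)) * ((∏ l, C (t⁻¹ ^ d l)) * ∏ l, y ^ d l) := by
          rw [← Finset.prod_mul_distrib, ← Finset.prod_mul_distrib]
          apply Finset.prod_congr rfl
          intro l _
          rw [mul_pow, ← C_pow, div_eq_mul_inv, mul_pow, C_mul]; ring
        have e5 : (∏ l, y ^ d l) = y ^ D := by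
          rw [Finset.prod_pow_eq_pow_sum, hdeg]
        have e6 : (∏ l, C (t⁻¹ ^ d l) : MvPolynomial (Fin n) L) = C ((t ^ D)⁻¹) := by
          rw [← map_prod, Finset.prod_pow_eq_pow_sum, hdeg, inv_pow]
        rw [e4, e5, e6, ← map_prod, C_mul]
        ring
      rw [Finset.sum_congr rfl e3, ← Finset.sum_mul, ← map_sum, ← mul_assoc, ← C_mul]
      congr 2
      rw [hγ, div_eq_mul_inv]
      congr 1
      rw [eval_eq']
    rw [e1, e2, ← Finset.sum_sub_distrib]
    apply Ideal.sum_mem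
    intro d hd
    rw [← mul_sub]
    apply Ideal.mul_mem_left
    have hdeg : ∑ l, d l = D := by
      have h1 := hGh (mem_support_iff.1 hd)
      rw [Finsupp.weight_apply, Finsupp.sum_fintype _ _ (by simp)] at h1
      simpa using h1
    have h2 := (Cmp.prod Finset.univ (fun l => d l) g' (fun l => C (c l / t) * y) hcmp).d
    rwa [hdeg] at h2
  have hB : ∀ T : ℕ, y ^ D ∈ I2 * I1 ^ (D - 1) ⊔ (m * I1 ^ D ⊔ m ^ T) := by
    intro T
    have h1 := hGT T
    rw [hrange] at h1
    have h2 : C γ * y ^ D ∈ I2 * I1 ^ (D - 1) ⊔ (m * I1 ^ D ⊔ m ^ T) := by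
      have e1 : C γ * y ^ D = aeval g' G - (aeval g' G - C γ * y ^ D) := by ring
      rw [e1]
      exact Ideal.sub_mem _ (Ideal.mem_sup_right h1) (Ideal.mem_sup_left hA)
    have e2 : y ^ D = C γ⁻¹ * (C γ * y ^ D) := by
      rw [← mul_assoc, ← C_mul, inv_mul_cancel₀ hγ0, C_1, one_mul]
    rw [e2]
    exact Ideal.mul_mem_left _ _ h2
  obtain ⟨D', rfl⟩ : ∃ D', D = D' + 1 := ⟨D - 1, by omega⟩
  have hC : ∀ T : ℕ, I1 ^ (D' + 1) ≤ I2 ⊔ (m * I1 ^ (D' + 1) ⊔ m ^ T) := by
    intro T
    have h1 := aux_pow_split I2 y D'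
    rw [← hI] at h1
    refine h1.trans (sup_le (le_sup_of_le_left Ideal.mul_le_left) ?_)
    rw [Ideal.span_singleton_le_iff_mem]
    have hle : I2 * I1 ^ (D' + 1 - 1) ⊔ (m * I1 ^ (D' + 1) ⊔ m ^ T) ≤
        I2 ⊔ (m * I1 ^ (D' + 1) ⊔ m ^ T) := sup_le_sup_right Ideal.mul_le_left _
    exact hle (hB T)
  have hC2 := aux_iter2 m I2 (I1 ^ (D' + 1)) hC
  refine ⟨i0, hi0S, u, hu0, N * (D' + 1), ?_, ?_⟩
  · have h1 := aux_iter1 m I1 N hN (N * (D' + 1) + 1)
    calc m ^ (N * (D' + 1)) = (m ^ N) ^ (D' + 1) := pow_mul _ _ _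
      _ ≤ (I1 ⊔ m ^ (N + (N * (D' + 1) + 1))) ^ (D' + 1) := Ideal.pow_right_mono h1 _
      _ ≤ I1 ^ (D' + 1) ⊔ m ^ (N + (N * (D' + 1) + 1)) := aux_sup_pow _ _ _
      _ ≤ I2 ⊔ m ^ (N * (D' + 1) + 1) :=
        sup_le (hC2 _) (le_sup_of_le_right (Ideal.pow_le_pow_right (by omega)))
  · intro v hv hvX q hq
    have hmv : m ≤ VI v hv 1 := by
      rw [hm, mI, Ideal.span_le]
      rintro _ ⟨i, rfl⟩
      show ((1 : ℤ) : WithTop ℤ) ≤ v (X i)
      have h1 := hvX i
      cases hvi : v (X i) with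
      | top => exact le_top
      | coe a =>
        rw [hvi] at h1
        have h2 : (0 : ℤ) < a := by exact_mod_cast h1
        exact_mod_cast h2
    have hyq : (q : WithTop ℤ) ≤ v y := by
      by_contra hlt
      rw [not_le] at hlt
      cases hvy : v y with
      | top => rw [hvy] at hlt; exact absurd hlt (not_lt.2 le_top)
      | coe a =>
        rw [hvy] at hlt
        have haq : a < q := by exact_mod_cast hlt
        have ha0 : 0 ≤ a := by
          have h1 := hv y
          rw [hvy] at h1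
          exact_mod_cast h1
        have h2v : I2 ≤ VI v hv q := by
          rw [hI2, Ideal.span_le]
          rintro _ ⟨i, hi, rfl⟩
          exact hq i hi
        have h1v : I1 ≤ VI v hv a := by
          rw [hI]
          refine sup_le (h2v.trans (VI_anti haq.le)) ?_
          rw [Ideal.span_singleton_le_iff_mem, mem_VI, hvy]
        have h3 := hB (((D' + 1 : ℕ) * a + 1).toNat)
        have h4 : I2 * I1 ^ (D' + 1 - 1) ⊔ (m * I1 ^ (D' + 1) ⊔ m ^ (((D' + 1 : ℕ) * a + 1).toNat)) ≤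
            VI v hv ((D' + 1 : ℕ) * a + 1) := by
          refine sup_le ?_ (sup_le ?_ ?_)
          · refine (VI_mul h2v (VI_pow h1v _)).trans (VI_anti ?_)
            rw [Nat.add_sub_cancel]; push_cast
            linarith
          · refine (VI_mul hmv (VI_pow h1v _)).trans (VI_anti ?_)
            linarith
          · refine (VI_pow hmv _).trans (VI_anti ?_)
            rw [mul_one, Int.toNat_of_nonneg (by positivity)]
        have h5 := h4 h3
        rw [mem_VI, v.map_pow, hvy] at h5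
        have h6 : ((D' + 1) • (a : WithTop ℤ)) = (((D' + 1 : ℕ) * a : ℤ) : WithTop ℤ) := by
          rw [← WithTop.coe_nsmul, nsmul_eq_mul]
        rw [h6] at h5
        have h7 : ((D' + 1 : ℕ) * a + 1 : ℤ) ≤ (D' + 1 : ℕ) * a := by exact_mod_cast h5
        linarith
    have hyv : y ∈ VI v hv q := hyq
    have hgall := hval v hv hvX q (by
      intro i hi
      by_cases hne : i = i0
      · rw [hne]; exact hyq
      · have e1 : g i = h i + C (u i) * y := by simp [hh]
        rw [e1]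
        have h1 : h i ∈ VI v hv q := hq i (by simp [hi, hne])
        exact Ideal.add_mem _ h1 (Ideal.mul_mem_left _ _ hyv))
    intro i
    have h1 : g i ∈ VI v hv q := hgall i
    exact Ideal.sub_mem _ h1 (Ideal.mul_mem_left _ _ hyv)

/-- existence of a reduction with `n` generators, in valuative form -/
theorem reduction_exists {L : Type*} [Field L] [CharZero L] {n : ℕ}
    (hform : ∀ (k : ℕ), n < k → ∀ (g : Fin k → MvPolynomial (Fin n) L), (∀ i, g i ∈ mI n L) → ∀ (N : ℕ),
      mI n L ^ N ≤ Ideal.span (Set.range g) ⊔ mI n L ^ (N+1) →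
      ∃ D : ℕ, 1 ≤ D ∧ ∃ G : MvPolynomial (Fin k) L, G ≠ 0 ∧ G.IsHomogeneous D ∧
        ∀ T : ℕ, aeval g G ∈ mI n L * Ideal.span (Set.range g) ^ D ⊔ mI n L ^ T)
    {k : ℕ} (hnk : n ≤ k)
    (f : Fin k → MvPolynomial (Fin n) L) (hf : ∀ i, f i ∈ mI n L) (N : ℕ)
    (hN : mI n L ^ N ≤ Ideal.span (Set.range f) ⊔ mI n L ^ (N+1)) :
    ∃ Cm : Matrix (Fin k) (Fin k) L, IsUnit Cm.det ∧ ∃ N' : ℕ,
      (mI n L ^ N' ≤ Ideal.span ((fun i => ∑ j, C (Cm i j) * f j) '' {i : Fin k | i.val < n}) ⊔ mI n L ^ (N'+1)) ∧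
      ∀ v : AddValuation (MvPolynomial (Fin n) L) (WithTop ℤ), (∀ r, 0 ≤ v r) → (∀ i, 0 < v (X i)) →
        ∀ q : ℤ, (∀ i : Fin k, i.val < n → (q : WithTop ℤ) ≤ v (∑ j, C (Cm i j) * f j)) →
          ∀ i : Fin k, (q : WithTop ℤ) ≤ v (∑ j, C (Cm i j) * f j) := by
  classical
  have main : ∀ j : ℕ, n + j ≤ k → ∃ S : Finset (Fin k), S.card = k - j ∧
      ∃ Cm : Matrix (Fin k) (Fin k) L, IsUnit Cm.det ∧ ∃ N' : ℕ,
      (mI n L ^ N' ≤ Ideal.span ((fun i => ∑ j, C (Cm i j) * f j) '' (S : Set (Fin k))) ⊔ mI n L ^ (N'+1)) ∧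
      ∀ v : AddValuation (MvPolynomial (Fin n) L) (WithTop ℤ), (∀ r, 0 ≤ v r) → (∀ i, 0 < v (X i)) →
        ∀ q : ℤ, (∀ i ∈ S, (q : WithTop ℤ) ≤ v (∑ j, C (Cm i j) * f j)) →
          ∀ i : Fin k, (q : WithTop ℤ) ≤ v (∑ j, C (Cm i j) * f j) := by
    intro j
    induction j with
    | zero =>
      intro _
      have e : (fun i => ∑ j, C ((1 : Matrix (Fin k) (Fin k) L) i j) * f j) = f := by
        funext i
        rw [Finset.sum_eq_single i]
        · simp
        · intro b _ hb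
          rw [Matrix.one_apply_ne (Ne.symm hb)]; simp
        · intro h; exact absurd (Finset.mem_univ i) h
      refine ⟨Finset.univ, by simp, 1, by simp, N, ?_, ?_⟩
      · rw [e]
        simpa using hN
      · intro v _ _ q hq i
        exact hq i (Finset.mem_univ i)
    | succ j ih =>
      intro hj
      obtain ⟨S, hS, Cm, hdet, N', hN', hval⟩ := ih (by omega)
      set g : Fin k → MvPolynomial (Fin n) L := fun i => ∑ j, C (Cm i j) * f j with hg
      have hgm : ∀ i, g i ∈ mI n L := fun i =>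
        Ideal.sum_mem _ fun j _ => Ideal.mul_mem_left _ _ (hf j)
      obtain ⟨i0, hi0, u, hu0, N2, h1, h2⟩ := reduction_step hform g hgm S (by omega) N' hN' hval
      have e : ∀ i, ∑ j, C (Cm i j - u i * Cm i0 j) * f j = g i - C (u i) * g i0 := by
        intro i
        simp only [hg, Finset.mul_sum]
        rw [← Finset.sum_sub_distrib]
        apply Finset.sum_congr rfl
        intro j _
        rw [C_sub, C_mul]; ring
      refine ⟨S.erase i0, by rw [Finset.card_erase_of_mem hi0, hS]; omega,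
        Matrix.of (fun i j => Cm i j - u i * Cm i0 j), ?_, N2, ?_, ?_⟩
      · have e2 : (Matrix.of (fun i j => Cm i j - u i * Cm i0 j)).det = Cm.det := by
          apply Matrix.det_eq_of_forall_row_eq_smul_add_const (fun i => - u i) i0
          · simp [hu0]
          · intro i j
            simp only [Matrix.of_apply]
            ring
        rw [e2]; exact hdet
      · simp only [Matrix.of_apply, e]
        exact h1
      · intro v hv hvX q hq i
        simp only [Matrix.of_apply, e] at hq ⊢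
        exact h2 v hv hvX q hq i
  obtain ⟨S, hS, Cm, hdet, N', hN', hval⟩ := main (k - n) (by omega)
  have hcard : Fintype.card {i : Fin k // i.val < n} = Fintype.card {i : Fin k // i ∈ S} := by
    rw [Fintype.card_coe, hS, Fintype.card_subtype]
    have : (Finset.univ.filter fun i : Fin k => i.val < n).card = n := by
      rcases Nat.lt_or_ge n k with h | h
      · have e1 : (Finset.univ.filter fun i : Fin k => i.val < n) = Finset.Iio (⟨n, h⟩ : Fin k) := by
          ext i; simp [Fin.lt_def]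
        rw [e1, Fin.card_Iio]
      · have e1 : n = k := le_antisymm hnk h
        subst e1
        simp
    rw [this]; omega
  let σ : Equiv.Perm (Fin k) := (Fintype.equivOfCardEq hcard).extendSubtype
  have hσ : ∀ i : Fin k, i.val < n ↔ σ i ∈ S := by
    intro i
    constructor
    · intro hi; exact Equiv.extendSubtype_mem _ i hi
    · intro hi
      by_contra hni
      exact Equiv.extendSubtype_not_mem (Fintype.equivOfCardEq hcard) i hni hi
  have himg : (fun i => ∑ j, C ((Cm.submatrix σ id) i j) * f j) '' {i : Fin k | i.val < n} =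
      (fun i => ∑ j, C (Cm i j) * f j) '' (S : Set (Fin k)) := by
    ext x
    constructor
    · rintro ⟨i, hi, rfl⟩
      exact ⟨σ i, (hσ i).1 hi, rfl⟩
    · rintro ⟨i, hi, rfl⟩
      refine ⟨σ.symm i, (hσ _).2 (by rw [Equiv.apply_symm_apply]; exact hi), ?_⟩
      simp
  refine ⟨Cm.submatrix σ id, ?_, N', ?_, ?_⟩
  · rw [Matrix.det_permute]
    refine IsUnit.mul ?_ hdet
    exact (Int.isUnit_iff.1 (Equiv.Perm.sign σ).isUnit |> fun h => by
      rcases h with h | h <;> simp [h])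
  · rw [himg]; exact hN'
  · intro v hv hvX q hq i
    have h1 := hval v hv hvX q (by
      intro i hi
      have h2 := hq (σ.symm i) ((hσ _).2 (by rw [Equiv.apply_symm_apply]; exact hi))
      simpa using h2)
    exact h1 (σ i)

end H693RF
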