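import Mathlib

namespace H693RF

open MvPolynomial

theorem fdn_add {K : Type*} [Field K] (v : AddValuation K (WithTop ℤ)) (D : Derivation ℤ K K)
    (g : WithTop ℤ) (x y : K) (hx : g ≤ v x ∧ g ≤ v (D x)) (hy : g ≤ v y ∧ g ≤ v (D y)) :
    g ≤ v (x + y) ∧ g ≤ v (D (x + y)) := by
  refine ⟨v.map_le_add hx.1 hy.1, ?_⟩
  rw [map_add]
  exact v.map_le_add hx.2 hy.2

theorem fdn_mul {K : Type*} [Field K] (v : AddValuation K (WithTop ℤ)) (D : Derivation ℤ K K)
    (g h : WithTop ℤ) (x y : K) (hx : g ≤ v x ∧ g ≤ v (D x)) (hy : h ≤ v y ∧ h ≤ v (D y)) :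
    g + h ≤ v (x * y) ∧ g + h ≤ v (D (x * y)) := by
  refine ⟨?_, ?_⟩
  · rw [v.map_mul]
    exact add_le_add hx.1 hy.1
  · rw [D.leibniz, smul_eq_mul, smul_eq_mul]
    refine v.map_le_add ?_ ?_
    · rw [v.map_mul]
      exact add_le_add hx.1 hy.2
    · rw [v.map_mul, add_comm]
      exact add_le_add hy.1 hx.2

/-- values of derivatives of fractions of polynomials in elements of value at least `q` -/
theorem frac_deriv_nonneg {L K : Type*} [Field L] [Field K] {n : ℕ} (φ : MvPolynomial (Fin n) L →+* K)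
    (v : AddValuation K (WithTop ℤ)) (q : ℤ) (hq : 0 < q) (D : Derivation ℤ K K)
    (h0 : ∀ c : L, 0 ≤ v (φ (C c))) (h1 : ∀ c : L, 0 ≤ v (D (φ (C c))))
    (h2 : ∀ i, (q : WithTop ℤ) ≤ v (φ (X i))) (h3 : ∀ i, (q : WithTop ℤ) ≤ v (D (φ (X i)))) :
    (∀ (e : ℕ) (a : MvPolynomial (Fin n) L), a ∈ (Ideal.span (Set.range (X : Fin n → MvPolynomial (Fin n) L))) ^ e →
      ((q * e : ℤ) : WithTop ℤ) ≤ v (φ a) ∧ ((q * e : ℤ) : WithTop ℤ) ≤ v (D (φ a))) ∧
    (∀ (e : ℕ) (a b : MvPolynomial (Fin n) L), a ∈ (Ideal.span (Set.range (X : Fin n → MvPolynomial (Fin n) L))) ^ e →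
      b ∈ (Ideal.span (Set.range (X : Fin n → MvPolynomial (Fin n) L))) ^ e →
      v (φ b) = ((q * e : ℤ) : WithTop ℤ) → 0 ≤ v (D (φ a / φ b))) := by
  have hq0 : (0 : WithTop ℤ) ≤ (q : WithTop ℤ) := by exact_mod_cast hq.le
  have hall : ∀ a : MvPolynomial (Fin n) L, (0 : WithTop ℤ) ≤ v (φ a) ∧ (0 : WithTop ℤ) ≤ v (D (φ a)) := by
    intro a
    induction a using MvPolynomial.induction_on with
    | C c => exact ⟨h0 c, h1 c⟩
    | add p r hp hr =>
      rw [map_add]
      exact fdn_add v D 0 _ _ hp hr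
    | mul_X p i hp =>
      rw [map_mul]
      have := fdn_mul v D 0 0 (φ p) (φ (X i)) hp ⟨hq0.trans (h2 i), hq0.trans (h3 i)⟩
      rwa [add_zero] at this
  have hI : ∀ a ∈ Ideal.span (Set.range (X : Fin n → MvPolynomial (Fin n) L)),
      (q : WithTop ℤ) ≤ v (φ a) ∧ (q : WithTop ℤ) ≤ v (D (φ a)) := by
    intro a ha
    induction ha using Submodule.span_induction with
    | mem x hx =>
      obtain ⟨i, rfl⟩ := hx
      exact ⟨h2 i, h3 i⟩
    | zero => simp
    | add x y _ _ hx hy =>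
      rw [map_add]
      exact fdn_add v D _ _ _ hx hy
    | smul r x _ hx =>
      rw [smul_eq_mul, map_mul]
      have := fdn_mul v D 0 q _ _ (hall r) hx
      rwa [zero_add] at this
  have part1 : ∀ (e : ℕ) (a : MvPolynomial (Fin n) L),
      a ∈ (Ideal.span (Set.range (X : Fin n → MvPolynomial (Fin n) L))) ^ e →
      ((q * e : ℤ) : WithTop ℤ) ≤ v (φ a) ∧ ((q * e : ℤ) : WithTop ℤ) ≤ v (D (φ a)) := by
    intro e
    induction e with
    | zero =>
      intro a _
      simpa using hall a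
    | succ e ih =>
      intro a ha
      rw [pow_succ] at ha
      have hc : ((q * ((e + 1 : ℕ) : ℤ) : ℤ) : WithTop ℤ) = ((q * e : ℤ) : WithTop ℤ) + (q : WithTop ℤ) := by
        rw [← WithTop.coe_add]
        congr 1
        push_cast
        ring
      rw [hc]
      induction ha using Submodule.mul_induction_on' with
      | mem_mul_mem m hm k hk =>
        rw [map_mul]
        exact fdn_mul v D _ _ _ _ (ih m hm) (hI k hk)
      | add x _ y _ hx hy =>
        rw [map_add]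
        exact fdn_add v D _ _ _ hx hy
  refine ⟨part1, ?_⟩
  intro e a b ha hb hvb
  have hb0 : φ b ≠ 0 := by
    intro h
    rw [h, v.map_zero] at hvb
    exact absurd hvb.symm (WithTop.coe_ne_top)
  have hA := part1 e a ha
  have hB := part1 e b hb
  set z : K := φ a / φ b with hz
  have hxz : φ a = z * φ b := by rw [hz, div_mul_cancel₀ _ hb0]
  have hD : D (φ a) = z * D (φ b) + φ b * D z := by
    conv_lhs => rw [hxz]
    rw [D.leibniz, smul_eq_mul, smul_eq_mul]
  have key : φ b * (φ b * D z) = φ b * D (φ a) + (-(φ a)) * D (φ b) := by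
    rw [hD, hxz]; ring
  have h4 : ((q * e : ℤ) : WithTop ℤ) + ((q * e : ℤ) : WithTop ℤ) ≤ v (φ b * (φ b * D z)) := by
    rw [key]
    refine v.map_le_add ?_ ?_
    · rw [v.map_mul]
      exact add_le_add hB.1 hA.2
    · rw [v.map_mul, v.map_neg]
      exact add_le_add hA.1 hB.2
  rw [v.map_mul, v.map_mul, hvb] at h4
  generalize v (D z) = w at h4 ⊢
  induction w using WithTop.recTopCoe with
  | top => exact le_top
  | coe w =>
    rw [← WithTop.coe_add, ← WithTop.coe_add, ← WithTop.coe_add, WithTop.coe_le_coe] at h4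
    rw [← WithTop.coe_zero, WithTop.coe_le_coe]
    linarith

end H693RF
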