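import Mathlib

namespace H693RF

section aux
variable {K : Type*} [Field K] (v : AddValuation K (WithTop ℤ))

theorem ld_mul {x y : K} {a b : ℤ} (hx : (a : WithTop ℤ) ≤ v x) (hy : (b : WithTop ℤ) ≤ v y) :
    ((a + b : ℤ) : WithTop ℤ) ≤ v (x * y) := by
  rw [v.map_mul, WithTop.coe_add]
  exact add_le_add hx hy

theorem ld_cancel {c y : K} {k a : ℤ} (hc : v c = (k : WithTop ℤ))
    (h : (a : WithTop ℤ) ≤ v (c * y)) : ((a - k : ℤ) : WithTop ℤ) ≤ v y := by
  rw [v.map_mul, hc] at h
  cases hy : v y with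
  | top => exact le_top
  | coe b =>
    rw [hy, ← WithTop.coe_add, WithTop.coe_le_coe] at h
    rw [WithTop.coe_le_coe]
    linarith

theorem ld_mono {y : K} {a b : ℤ} (h : (a : WithTop ℤ) ≤ v y) (hb : b ≤ a) :
    (b : WithTop ℤ) ≤ v y := (WithTop.coe_le_coe.mpr hb).trans h

theorem ld_zpow {τ : K} (hτ : v τ = ((1 : ℤ) : WithTop ℤ)) (j : ℤ) :
    v (τ ^ j) = (j : WithTop ℤ) := by
  have hpow : ∀ n : ℕ, v (τ ^ n) = ((n : ℤ) : WithTop ℤ) := by
    intro n
    induction n with
    | zero => simp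
    | succ n ih =>
      rw [pow_succ, v.map_mul, ih, hτ, ← WithTop.coe_add]
      push_cast
      rfl
  have hτ0 : τ ≠ 0 := by
    rintro rfl
    rw [v.map_zero] at hτ
    exact WithTop.coe_ne_top hτ.symm
  cases j with
  | ofNat n => exact (congrArg v (zpow_natCast τ n)).trans (hpow n)
  | negSucc n =>
    have h1 : v (τ ^ (n + 1)) + v (τ ^ (Int.negSucc n)) = 0 := by
      rw [← v.map_mul, zpow_negSucc, mul_inv_cancel₀ (pow_ne_zero _ hτ0), v.map_one]
    rw [hpow] at h1
    cases hy : v (τ ^ (Int.negSucc n)) with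
    | top =>
      rw [hy] at h1
      simp at h1
    | coe b =>
      rw [hy, ← WithTop.coe_add, ← WithTop.coe_zero, WithTop.coe_inj] at h1
      rw [WithTop.coe_inj]
      rw [Int.negSucc_eq]
      push_cast at h1
      linarith

theorem ld_int (hnat : ∀ m : ℕ, m ≠ 0 → v (m : K) = 0) (j : ℤ) :
    ((0 : ℤ) : WithTop ℤ) ≤ v ((j : ℤ) : K) := by
  by_cases hj : j = 0
  · subst hj
    rw [Int.cast_zero, v.map_zero]
    exact le_top
  · have h0 : j.natAbs ≠ 0 := Int.natAbs_ne_zero.mpr hj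
    have h1 : v ((j : ℤ) : K) = 0 := by
      rcases Int.natAbs_eq j with h | h
      · rw [h, Int.cast_natCast]
        exact hnat _ h0
      · rw [h, Int.cast_neg, Int.cast_natCast, v.map_neg]
        exact hnat _ h0
    rw [h1]
    rfl

theorem ld_eval (D : Derivation ℤ K K) (p : Polynomial K) (x : K) :
    D (p.eval x) = (p.sum fun i c => D c * x ^ i) + p.derivative.eval x * D x := by
  induction p using Polynomial.induction_on' with
  | add p q hp hq =>
    rw [Polynomial.eval_add, map_add, hp, hq, Polynomial.sum_add_index, Polynomial.derivative_add,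
      Polynomial.eval_add]
    · ring
    · intro i
      simp
    · intro i a b
      rw [map_add, add_mul]
  | monomial n a =>
    rw [Polynomial.eval_monomial, D.leibniz, D.leibniz_pow, Polynomial.sum_monomial_index _ _ (by simp),
      Polynomial.derivative_monomial, Polynomial.eval_monomial]
    simp only [smul_eq_mul, nsmul_eq_mul]
    ring

end aux

/-- log-derivation lemma -/
theorem log_derivation
    {K : Type*} [Field K] (v : AddValuation K (WithTop ℤ))
    (D : Derivation ℤ K K)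
    (hnat : ∀ m : ℕ, m ≠ 0 → v (m : K) = 0)
    (hunif : ∃ τ : K, v τ = ((1 : ℤ) : WithTop ℤ))
    (O₀ : Subring K)
    (hO₀ : ∀ x ∈ O₀, 0 ≤ v x)
    (hD0 : ∀ x ∈ O₀, 0 ≤ v (D x))
    (t : K) (q : ℤ) (hq : 0 < q) (htq : v t = (q : WithTop ℤ))
    (hDt : (q : WithTop ℤ) ≤ v (D t))
    (halg : ∀ x : K, 0 ≤ v x → ∃ p : Polynomial K, (∀ i, p.coeff i ∈ O₀) ∧
      0 < v (p.eval x) ∧ v (p.derivative.eval x) = 0)
    (hbd : ∃ C : ℤ, ∀ x : K, v x + (C : WithTop ℤ) ≤ v (D x)) :
    ∀ x, v x ≤ v (D x) := by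
  obtain ⟨τ, hτ⟩ := hunif
  obtain ⟨C, hC⟩ := hbd
  have hτ0 : τ ≠ 0 := by
    rintro rfl
    rw [v.map_zero] at hτ
    exact WithTop.coe_ne_top hτ.symm
  have base : ∀ x, ∀ a : ℤ, (a : WithTop ℤ) ≤ v x →
      ((a - ((-C).toNat : ℤ) : ℤ) : WithTop ℤ) ≤ v (D x) := by
    intro x a hx
    have h1 : ((a + C : ℤ) : WithTop ℤ) ≤ v (D x) := by
      rw [WithTop.coe_add]
      exact (add_le_add hx le_rfl).trans (hC x)
    refine ld_mono v h1 ?_
    have := Int.self_le_toNat (-C)
    linarith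
  have step : ∀ P : ℕ, (∀ x, ∀ a : ℤ, (a : WithTop ℤ) ≤ v x →
      ((a - ((P + 1 : ℕ) : ℤ) : ℤ) : WithTop ℤ) ≤ v (D x)) →
      (∀ x, ∀ a : ℤ, (a : WithTop ℤ) ≤ v x → ((a - (P : ℤ) : ℤ) : WithTop ℤ) ≤ v (D x)) := by
    intro P hP
    have c1 : ∀ x, 0 ≤ v x → ((-(P : ℤ) : ℤ) : WithTop ℤ) ≤ v (D x) := by
      intro x hx
      obtain ⟨p, hp1, hp2, hp3⟩ := halg x hx
      have hp2' : ((1 : ℤ) : WithTop ℤ) ≤ v (p.eval x) := by
        cases hy : v (p.eval x) with
        | top => exact le_top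
        | coe b =>
          rw [hy, ← WithTop.coe_zero, WithTop.coe_lt_coe] at hp2
          rw [WithTop.coe_le_coe]
          linarith
      have h1 := hP _ 1 hp2'
      have h2 : ((0 : ℤ) : WithTop ℤ) ≤ v (p.sum fun i c => D c * x ^ i) := by
        rw [Polynomial.sum_def]
        refine v.map_le_sum fun i _ => ?_
        have e1 : ((0 : ℤ) : WithTop ℤ) ≤ v (D (p.coeff i)) := hD0 _ (hp1 i)
        have e2 : ((0 : ℤ) : WithTop ℤ) ≤ v (x ^ i) := by
          rw [v.map_pow]
          exact nsmul_nonneg hx i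
        have := ld_mul v e1 e2
        simpa using this
      have h3 : p.derivative.eval x * D x =
          D (p.eval x) - (p.sum fun i c => D c * x ^ i) := by
        rw [ld_eval D p x]
        ring
      have h4 : ((-(P : ℤ) : ℤ) : WithTop ℤ) ≤ v (p.derivative.eval x * D x) := by
        rw [h3]
        refine v.map_le_sub (ld_mono v h1 ?_) (ld_mono v h2 ?_)
        · push_cast; linarith
        · linarith [Int.natCast_nonneg P]
      have h5 := ld_cancel v (k := 0) hp3 h4
      simpa using h5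
    have c2 : ((1 - (P : ℤ) : ℤ) : WithTop ℤ) ≤ v (D τ) := by
      set w : K := t * τ ^ (-q) with hw
      have hvw : v w = ((0 : ℤ) : WithTop ℤ) := by
        rw [hw, v.map_mul, htq, ld_zpow v hτ, ← WithTop.coe_add]
        congr 1
        ring
      have htw : t = w * τ ^ q := by
        rw [hw, mul_assoc, ← zpow_add₀ hτ0]
        simp
      have hDe : (w * τ ^ (q - 1) * (q : K)) * D τ = D t - τ ^ q * D w := by
        conv_rhs => rw [htw, D.leibniz, D.leibniz_zpow]
        simp only [smul_eq_mul, zsmul_eq_mul]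
        ring
      have hvq : v ((q : ℤ) : K) = ((0 : ℤ) : WithTop ℤ) := by
        obtain ⟨n, rfl⟩ := Int.eq_ofNat_of_zero_le hq.le
        rw [Int.cast_natCast]
        exact hnat n (by rintro rfl; simp at hq)
      have hvc : v (w * τ ^ (q - 1) * (q : K)) = ((q - 1 : ℤ) : WithTop ℤ) := by
        rw [v.map_mul, v.map_mul, hvw, hvq, ld_zpow v hτ, ← WithTop.coe_add, ← WithTop.coe_add]
        congr 1
        ring
      have h1 : ((q - (P : ℤ) : ℤ) : WithTop ℤ) ≤ v ((w * τ ^ (q - 1) * (q : K)) * D τ) := by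
        rw [hDe]
        refine v.map_le_sub (ld_mono v hDt (by linarith [Int.natCast_nonneg P])) ?_
        exact ld_mul v (ld_zpow v hτ q).ge (c1 w hvw.ge)
      exact ld_mono v (ld_cancel v hvc h1) (by linarith)
    intro x a hx
    cases hy : v x with
    | top =>
      have : x = 0 := v.top_iff.mp hy
      rw [this, map_zero, v.map_zero]
      exact le_top
    | coe j =>
      rw [hy, WithTop.coe_le_coe] at hx
      set w : K := x * τ ^ (-j) with hw
      have hvw : v w = ((0 : ℤ) : WithTop ℤ) := by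
        rw [hw, v.map_mul, hy, ld_zpow v hτ, ← WithTop.coe_add]
        congr 1
        ring
      have hxw : x = w * τ ^ j := by
        rw [hw, mul_assoc, ← zpow_add₀ hτ0]
        simp
      have hDe : D x = (w * τ ^ (j - 1) * (j : K)) * D τ + τ ^ j * D w := by
        conv_lhs => rw [hxw, D.leibniz, D.leibniz_zpow]
        simp only [smul_eq_mul, zsmul_eq_mul]
        ring
      have h1 : ((0 + (j - 1) + 0 + (1 - (P : ℤ)) : ℤ) : WithTop ℤ) ≤
          v ((w * τ ^ (j - 1) * (j : K)) * D τ) :=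
        ld_mul v (ld_mul v (ld_mul v hvw.ge (ld_zpow v hτ (j - 1)).ge) (ld_int v hnat j)) c2
      have h2 : ((j + -(P : ℤ) : ℤ) : WithTop ℤ) ≤ v (τ ^ j * D w) :=
        ld_mul v (ld_zpow v hτ j).ge (c1 w hvw.ge)
      rw [hDe]
      exact v.map_le_add (ld_mono v h1 (by linarith)) (ld_mono v h2 (by linarith))
  have all : ∀ P : ℕ, (∀ x, ∀ a : ℤ, (a : WithTop ℤ) ≤ v x →
      ((a - (P : ℤ) : ℤ) : WithTop ℤ) ≤ v (D x)) →
      (∀ x, ∀ a : ℤ, (a : WithTop ℤ) ≤ v x → ((a - ((0 : ℕ) : ℤ) : ℤ) : WithTop ℤ) ≤ v (D x)) := by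
    intro P
    induction P with
    | zero => exact fun h => h
    | succ P ih => exact fun h => ih (step P h)
  have fin := all _ base
  intro x
  cases hy : v x with
  | top =>
    have : x = 0 := v.top_iff.mp hy
    rw [this, map_zero, v.map_zero]
  | coe j =>
    have := fin x j hy.ge
    simpa using this

end H693RF
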