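import Mathlib

namespace H693RF

open MvPolynomial

/-- order of vanishing at the origin -/
noncomputable def od {L : Type*} [Field L] {σ : Type*} (p : MvPolynomial σ L) : ℕ∞ :=
  (p : MvPowerSeries σ L).order

section
variable {L : Type*} [Field L] {σ : Type*}

theorem od_mul (p q : MvPolynomial σ L) : od (p * q) = od p + od q := by
  rw [od, MvPolynomial.coe_mul, MvPowerSeries.order_mul]; rfl

theorem od_add (p q : MvPolynomial σ L) : min (od p) (od q) ≤ od (p + q) := by
  rw [od, od, od, MvPolynomial.coe_add]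
  exact MvPowerSeries.min_order_le_add

theorem od_zero : od (0 : MvPolynomial σ L) = ⊤ := by
  rw [od, MvPolynomial.coe_zero, MvPowerSeries.order_zero]

theorem od_eq_top (p : MvPolynomial σ L) : od p = ⊤ ↔ p = 0 := by
  rw [od, MvPowerSeries.order_eq_top_iff, MvPolynomial.coe_eq_zero_iff]

theorem od_one : od (1 : MvPolynomial σ L) = 0 := by
  have h := od_mul (1 : MvPolynomial σ L) 1
  rw [mul_one] at h
  have h2 : od (1 : MvPolynomial σ L) ≠ ⊤ := fun h3 => one_ne_zero ((od_eq_top _).1 h3)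
  generalize od (1 : MvPolynomial σ L) = k at h h2
  lift k to ℕ using h2
  norm_cast at h ⊢
  omega

theorem od_neg (p : MvPolynomial σ L) : od (-p) = od p := by
  have h1 : od (-1 : MvPolynomial σ L) = 0 := by
    have h := od_mul (-1 : MvPolynomial σ L) (-1)
    rw [neg_mul_neg, mul_one, od_one] at h
    exact (add_eq_zero.1 h.symm).1
  rw [← neg_one_mul, od_mul, h1, zero_add]

theorem od_mem (e : ℕ) (p : MvPolynomial σ L) :
    p ∈ Ideal.span (Set.range (X : σ → MvPolynomial σ L)) ^ e ↔ (e : ℕ∞) ≤ od p := by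
  rw [MvPolynomial.mem_pow_idealOfVars_iff']
  constructor
  · intro h
    refine MvPowerSeries.nat_le_order fun d hd => ?_
    rw [MvPolynomial.coeff_coe]
    exact h d hd
  · intro h x hx
    rw [← MvPolynomial.coeff_coe]
    refine MvPowerSeries.coeff_of_lt_order (lt_of_lt_of_le ?_ h)
    exact_mod_cast hx

theorem od_X (i : σ) : od (X i : MvPolynomial σ L) = 1 := by
  classical
  rw [od, show ((X i : MvPolynomial σ L) : MvPowerSeries σ L) =
    MvPowerSeries.monomial (Finsupp.single i 1) 1 from ?_,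
    MvPowerSeries.order_monomial_of_ne_zero one_ne_zero]
  · simp
  · rw [MvPolynomial.X, MvPolynomial.coe_monomial]

theorem od_X_pow (i : σ) (k : ℕ) : od ((X i : MvPolynomial σ L) ^ k) = k := by
  induction k with
  | zero => rw [pow_zero, od_one]; rfl
  | succ k ih => rw [pow_succ, od_mul, ih, od_X]; push_cast; rfl

theorem od_eq_zero (p : MvPolynomial σ L) : od p = 0 ↔ constantCoeff p ≠ 0 := by
  rw [← not_iff_not, not_not, ← ne_eq, od, MvPowerSeries.order_ne_zero_iff_constCoeff_eq_zero]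
  rw [← MvPowerSeries.coeff_zero_eq_constantCoeff_apply, MvPolynomial.coeff_coe]
  rfl

variable {F : Type*} [Field F] [Algebra (MvPolynomial σ L) F]
  [IsFractionRing (MvPolynomial σ L) F]

theorem od_div (a b : MvPolynomial σ L) (hb : b ≠ 0) (a' b' : MvPolynomial σ L) (hb' : b' ≠ 0)
    (h : algebraMap _ F a / algebraMap _ F b = algebraMap _ F a' / algebraMap _ F b')
    (hle : od b' ≤ od a') : od b ≤ od a := by
  have hb1 : algebraMap (MvPolynomial σ L) F b ≠ 0 :=
    (map_ne_zero_iff _ (IsFractionRing.injective (MvPolynomial σ L) F)).2 hb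
  have hb2 : algebraMap (MvPolynomial σ L) F b' ≠ 0 :=
    (map_ne_zero_iff _ (IsFractionRing.injective (MvPolynomial σ L) F)).2 hb'
  rw [div_eq_div_iff hb1 hb2, ← map_mul, ← map_mul] at h
  have h1 := IsFractionRing.injective (MvPolynomial σ L) F h
  have h2 := congrArg od h1
  rw [od_mul, od_mul] at h2
  have h3 : od b ≠ ⊤ := fun h => hb ((od_eq_top _).1 h)
  have h4 : od b' ≠ ⊤ := fun h => hb' ((od_eq_top _).1 h)
  generalize od b = β at *
  generalize od b' = β' at *
  generalize od a = α at *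
  generalize od a' = α' at *
  lift β to ℕ using h3
  lift β' to ℕ using h4
  rcases eq_or_ne α ⊤ with rfl | hα
  · exact le_top
  · lift α to ℕ using hα
    rcases eq_or_ne α' ⊤ with rfl | hα'
    · exfalso
      rw [top_add] at h2
      exact absurd h2 (by exact_mod_cast ENat.natCast_ne_top (α + β'))
    · lift α' to ℕ using hα'
      norm_cast at h2 hle ⊢
      omega

/-- the valuation ring -/
def OO (F : Type*) [Field F] [Algebra (MvPolynomial σ L) F]
    [IsFractionRing (MvPolynomial σ L) F] : Subring F where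
  carrier := {x | ∃ a b : MvPolynomial σ L, b ≠ 0 ∧ od b ≤ od a ∧
    x = algebraMap _ F a / algebraMap _ F b}
  zero_mem' := ⟨0, 1, one_ne_zero, by rw [od_zero]; exact le_top, by simp⟩
  one_mem' := ⟨1, 1, one_ne_zero, le_rfl, by simp⟩
  neg_mem' := by
    rintro _ ⟨a, b, hb, h, rfl⟩
    exact ⟨-a, b, hb, by rw [od_neg]; exact h, by rw [map_neg, neg_div]⟩
  mul_mem' := by
    rintro _ _ ⟨a, b, hb, h, rfl⟩ ⟨a', b', hb', h', rfl⟩
    exact ⟨a * a', b * b', mul_ne_zero hb hb', by rw [od_mul, od_mul]; exact add_le_add h h',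
      by rw [map_mul, map_mul, div_mul_div_comm]⟩
  add_mem' := by
    rintro _ _ ⟨a, b, hb, h, rfl⟩ ⟨a', b', hb', h', rfl⟩
    have hb1 : algebraMap (MvPolynomial σ L) F b ≠ 0 :=
      (map_ne_zero_iff _ (IsFractionRing.injective (MvPolynomial σ L) F)).2 hb
    have hb2 : algebraMap (MvPolynomial σ L) F b' ≠ 0 :=
      (map_ne_zero_iff _ (IsFractionRing.injective (MvPolynomial σ L) F)).2 hb'
    refine ⟨a * b' + b * a', b * b', mul_ne_zero hb hb', ?_, ?_⟩
    · refine le_trans ?_ (od_add _ _)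
      rw [od_mul, od_mul, od_mul]
      exact le_min (add_le_add h le_rfl) (add_le_add le_rfl h')
    · rw [map_add, map_mul, map_mul, map_mul, div_add_div _ _ hb1 hb2]

theorem mem_OO (x : F) : x ∈ (OO (L := L) (σ := σ) F) ↔ ∃ a b : MvPolynomial σ L, b ≠ 0 ∧
    od b ≤ od a ∧ x = algebraMap _ F a / algebraMap _ F b := Iff.rfl

theorem div_mem_OO (a b : MvPolynomial σ L) (hb : b ≠ 0) :
    algebraMap _ F a / algebraMap _ F b ∈ (OO (L := L) (σ := σ) F) ↔ od b ≤ od a := by
  constructor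
  · rintro ⟨a', b', hb', h, he⟩
    exact od_div a b hb a' b' hb' he h
  · intro h
    exact ⟨a, b, hb, h, rfl⟩

theorem alg_mem_OO (p : MvPolynomial σ L) : algebraMap _ F p ∈ (OO (L := L) (σ := σ) F) := by
  have h := (div_mem_OO (F := F) p 1 one_ne_zero).2 (by rw [od_one]; exact zero_le)
  rwa [map_one, div_one] at h

theorem isUnit_OO (x : (OO (L := L) (σ := σ) F)) (a b : MvPolynomial σ L) (ha : a ≠ 0)
    (hb : b ≠ 0)
    (hx : (x : F) = algebraMap _ F a / algebraMap _ F b) : IsUnit x ↔ od a = od b := by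
  have hb1 : algebraMap (MvPolynomial σ L) F b ≠ 0 :=
    (map_ne_zero_iff _ (IsFractionRing.injective (MvPolynomial σ L) F)).2 hb
  have ha1 : algebraMap (MvPolynomial σ L) F a ≠ 0 :=
    (map_ne_zero_iff _ (IsFractionRing.injective (MvPolynomial σ L) F)).2 ha
  have h1 : od b ≤ od a := by
    rw [← div_mem_OO (F := F) a b hb, ← hx]
    exact x.2
  constructor
  · rintro ⟨u, rfl⟩
    have h2 : ((u⁻¹ : (OO (L := L) (σ := σ) F)ˣ) : (OO (L := L) (σ := σ) F)).1 =
        algebraMap _ F b / algebraMap _ F a := by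
      have h3 : (u : (OO (L := L) (σ := σ) F)).1 *
          ((u⁻¹ : (OO (L := L) (σ := σ) F)ˣ) : (OO (L := L) (σ := σ) F)).1 = 1 :=
        congrArg Subtype.val u.mul_inv
      rw [hx] at h3
      field_simp at h3 ⊢
      exact h3
    have h4 := ((u⁻¹ : (OO (L := L) (σ := σ) F)ˣ) : (OO (L := L) (σ := σ) F)).2
    rw [h2, div_mem_OO (F := F) b a ha] at h4
    exact le_antisymm h4 h1
  · intro h
    refine IsUnit.of_mul_eq_one ⟨algebraMap _ F b / algebraMap _ F a,
      (div_mem_OO (F := F) b a ha).2 h.le⟩ ?_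
    apply Subtype.ext
    show (x : F) * (algebraMap _ F b / algebraMap _ F a) = 1
    rw [hx]
    field_simp

end

/-- the discrete valuation ring of the order of vanishing at the origin in the field of rational functions -/
theorem order_dvr {L : Type*} [Field L] {n : ℕ} (F : Type*) [Field F]
    [Algebra (MvPolynomial (Fin (n+1)) L) F] [IsFractionRing (MvPolynomial (Fin (n+1)) L) F] :
    ∃ (O : Subring F), IsDiscreteValuationRing O ∧ IsFractionRing O F ∧
      (∃ hmem : ∀ p : MvPolynomial (Fin (n+1)) L, algebraMap _ F p ∈ O,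
        Irreducible (⟨algebraMap _ F (X 0 : MvPolynomial (Fin (n+1)) L), hmem _⟩ : O) ∧
        (∀ p, (⟨algebraMap _ F p, hmem p⟩ : O) ∈ nonunits O ↔ constantCoeff p = 0)) ∧
      (∀ x : F, x ∈ O ↔ ∃ (e : ℕ) (a b : MvPolynomial (Fin (n+1)) L),
        a ∈ Ideal.span (Set.range (X : Fin (n+1) → MvPolynomial (Fin (n+1)) L)) ^ e ∧
        b ∈ Ideal.span (Set.range (X : Fin (n+1) → MvPolynomial (Fin (n+1)) L)) ^ e ∧
        b ∉ Ideal.span (Set.range (X : Fin (n+1) → MvPolynomial (Fin (n+1)) L)) ^ (e+1) ∧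
        x = algebraMap _ F a / algebraMap _ F b) ∧
      (∀ (e : ℕ) (b : MvPolynomial (Fin (n+1)) L),
        b ∈ Ideal.span (Set.range (X : Fin (n+1) → MvPolynomial (Fin (n+1)) L)) ^ e →
        b ∉ Ideal.span (Set.range (X : Fin (n+1) → MvPolynomial (Fin (n+1)) L)) ^ (e+1) →
        algebraMap _ F b / algebraMap _ F (X 0 : MvPolynomial (Fin (n+1)) L) ^ e ∈ O ∧ algebraMap _ F (X 0 : MvPolynomial (Fin (n+1)) L) ^ e / algebraMap _ F b ∈ O) := by
  have hinj := IsFractionRing.injective (MvPolynomial (Fin (n+1)) L) F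
  have hX0 : (X 0 : MvPolynomial (Fin (n+1)) L) ≠ 0 := X_ne_zero 0
  have hord : ∀ (e : ℕ) (b : MvPolynomial (Fin (n+1)) L),
      b ∈ Ideal.span (Set.range (X : Fin (n+1) → MvPolynomial (Fin (n+1)) L)) ^ e →
      b ∉ Ideal.span (Set.range (X : Fin (n+1) → MvPolynomial (Fin (n+1)) L)) ^ (e+1) →
      od b = e := by
    intro e b h1 h2
    rw [od_mem] at h1 h2
    have h3 : od b ≠ ⊤ := by
      intro h
      rw [h] at h2
      exact h2 le_top
    generalize od b = β at *
    lift β to ℕ using h3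
    push Not at h2
    norm_cast at h1 h2 ⊢
    omega
  have hirr : Irreducible (⟨algebraMap _ F (X 0 : MvPolynomial (Fin (n+1)) L),
      alg_mem_OO _⟩ : (OO (L := L) (σ := Fin (n+1)) F)) := by
    constructor
    · rw [isUnit_OO _ (X 0) 1 hX0 one_ne_zero (by simp), od_X, od_one]
      exact one_ne_zero
    · rintro ⟨x, a, b, hb, hab, hx⟩ ⟨y, a', b', hb', hab', hy⟩ hxy
      have hb1 : algebraMap (MvPolynomial (Fin (n+1)) L) F b ≠ 0 := (map_ne_zero_iff _ hinj).2 hb
      have hb2 : algebraMap (MvPolynomial (Fin (n+1)) L) F b' ≠ 0 :=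
        (map_ne_zero_iff _ hinj).2 hb'
      have h1 : algebraMap _ F (X 0 : MvPolynomial (Fin (n+1)) L) = x * y :=
        congrArg Subtype.val hxy
      rw [hx, hy, div_mul_div_comm, eq_div_iff (mul_ne_zero hb1 hb2), ← map_mul, ← map_mul,
        ← map_mul] at h1
      have h2 := hinj h1
      have hne : a * a' ≠ 0 := by
        rw [← h2]
        exact mul_ne_zero hX0 (mul_ne_zero hb hb')
      have ha : a ≠ 0 := left_ne_zero_of_mul hne
      have ha' : a' ≠ 0 := right_ne_zero_of_mul hne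
      rw [isUnit_OO _ a b ha hb hx, isUnit_OO _ a' b' ha' hb' hy]
      have h3 := congrArg od h2
      rw [od_mul, od_mul, od_mul, od_X] at h3
      have t1 : od a ≠ ⊤ := fun h => ha ((od_eq_top _).1 h)
      have t2 : od b ≠ ⊤ := fun h => hb ((od_eq_top _).1 h)
      have t3 : od a' ≠ ⊤ := fun h => ha' ((od_eq_top _).1 h)
      have t4 : od b' ≠ ⊤ := fun h => hb' ((od_eq_top _).1 h)
      clear hxy h1
      generalize od a = α at *
      generalize od b = β at *
      generalize od a' = α' at *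
      generalize od b' = β' at *
      lift α to ℕ using t1
      lift β to ℕ using t2
      lift α' to ℕ using t3
      lift β' to ℕ using t4
      norm_cast at *
      omega
  have hfr : IsFractionRing (OO (L := L) (σ := Fin (n+1)) F) F := by
    refine IsFractionRing.of_field _ _ fun z => ?_
    obtain ⟨a, b, _, rfl⟩ := IsFractionRing.div_surjective (A := MvPolynomial (Fin (n+1)) L) z
    exact ⟨⟨_, alg_mem_OO a⟩, ⟨_, alg_mem_OO b⟩, rfl⟩
  refine ⟨OO (L := L) (σ := Fin (n+1)) F, ?_, hfr, ⟨alg_mem_OO, hirr, ?_⟩, ?_, ?_⟩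
  · refine IsDiscreteValuationRing.ofHasUnitMulPowIrreducibleFactorization ⟨_, hirr, ?_⟩
    rintro ⟨x, a, b, hb, hab, hx⟩ hx0
    have ha : a ≠ 0 := by
      rintro rfl
      apply hx0
      apply Subtype.ext
      show x = 0
      rw [hx]; simp
    have t1 : od a ≠ ⊤ := fun h => ha ((od_eq_top _).1 h)
    have t2 : od b ≠ ⊤ := fun h => hb ((od_eq_top _).1 h)
    obtain ⟨α, hα⟩ := ENat.ne_top_iff_exists.1 t1
    obtain ⟨β, hβ⟩ := ENat.ne_top_iff_exists.1 t2
    have hle : β ≤ α := by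
      rw [← hα, ← hβ] at hab
      exact_mod_cast hab
    have hXn : (X 0 : MvPolynomial (Fin (n+1)) L) ^ (α - β) ≠ 0 := pow_ne_zero _ hX0
    have hod : od (b * X 0 ^ (α - β)) = od a := by
      rw [od_mul, od_X_pow, ← hα, ← hβ]
      norm_cast
      omega
    have hbX : b * X 0 ^ (α - β) ≠ 0 := mul_ne_zero hb hXn
    have hu : IsUnit (⟨algebraMap _ F a / algebraMap _ F (b * X 0 ^ (α - β)),
        (div_mem_OO (F := F) a _ hbX).2 hod.le⟩ : (OO (L := L) (σ := Fin (n+1)) F)) :=
      (isUnit_OO _ a _ ha hbX rfl).2 hod.symm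
    refine ⟨α - β, hu.unit, ?_⟩
    apply Subtype.ext
    show algebraMap _ F (X 0 : MvPolynomial (Fin (n+1)) L) ^ (α - β) *
      (algebraMap _ F a / algebraMap _ F (b * X 0 ^ (α - β))) = x
    have hb1 : algebraMap (MvPolynomial (Fin (n+1)) L) F b ≠ 0 := (map_ne_zero_iff _ hinj).2 hb
    have hX1 : algebraMap (MvPolynomial (Fin (n+1)) L) F (X 0) ≠ 0 :=
      (map_ne_zero_iff _ hinj).2 hX0
    rw [hx, map_mul, map_pow]
    have hX2 : algebraMap (MvPolynomial (Fin (n+1)) L) F (X 0) ^ (α - β) ≠ 0 := pow_ne_zero _ hX1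
    generalize algebraMap (MvPolynomial (Fin (n+1)) L) F (X 0) ^ (α - β) = ξ at hX2
    field_simp
  · intro p
    rw [mem_nonunits_iff]
    rcases eq_or_ne p 0 with rfl | hp
    · have h0 : (⟨algebraMap _ F (0 : MvPolynomial (Fin (n+1)) L), alg_mem_OO _⟩ :
          (OO (L := L) (σ := Fin (n+1)) F)) = 0 := Subtype.ext (map_zero _)
      rw [h0]
      simp
    · rw [isUnit_OO _ p 1 hp one_ne_zero (by simp), od_one, od_eq_zero, not_not]
  · intro x
    constructor
    · rintro ⟨a, b, hb, hab, hx⟩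
      have t2 : od b ≠ ⊤ := fun h => hb ((od_eq_top _).1 h)
      obtain ⟨β, hβ⟩ := ENat.ne_top_iff_exists.1 t2
      refine ⟨β, a, b, ?_, ?_, ?_, hx⟩
      · rw [od_mem, hβ]; exact hab
      · rw [od_mem, hβ]
      · rw [od_mem, ← hβ]
        norm_cast
        omega
    · rintro ⟨e, a, b, ha, hb1, hb2, rfl⟩
      have hob := hord e b hb1 hb2
      have hb : b ≠ 0 := by
        rintro rfl
        exact hb2 (Ideal.zero_mem _)
      rw [div_mem_OO a b hb, hob]
      exact (od_mem e a).1 ha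
  · intro e b hb1 hb2
    have hob := hord e b hb1 hb2
    have hb : b ≠ 0 := by
      rintro rfl
      exact hb2 (Ideal.zero_mem _)
    rw [← map_pow, div_mem_OO b _ (pow_ne_zero _ hX0), div_mem_OO _ b hb, od_X_pow, hob]
    exact ⟨le_rfl, le_rfl⟩

end H693RF
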