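import Mathlib

namespace H693RF

open MvPolynomial TensorProduct

/-- difference quotients in the tensor product over a subalgebra -/
theorem diff_quot_11606 {L : Type*} [Field L] {n : ℕ}
    (P : Subalgebra L (MvPolynomial (Fin n) L)) (f : MvPolynomial (Fin n) L) :
    ∃ t : Fin n → MvPolynomial (Fin n) L ⊗[P] MvPolynomial (Fin n) L,
      (f ⊗ₜ[P] (1 : MvPolynomial (Fin n) L)) - (1 : MvPolynomial (Fin n) L) ⊗ₜ[P] f =
        ∑ j, t j * ((X j : MvPolynomial (Fin n) L) ⊗ₜ[P] (1 : MvPolynomial (Fin n) L) -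
          (1 : MvPolynomial (Fin n) L) ⊗ₜ[P] (X j : MvPolynomial (Fin n) L)) ∧
      ∀ j, Algebra.TensorProduct.lmul' P (t j) = pderiv j f := by
  induction f using MvPolynomial.induction_on with
  | C a =>
    refine ⟨0, ?_, ?_⟩
    · have h1 : ((C a : MvPolynomial (Fin n) L)) ⊗ₜ[P] (1 : MvPolynomial (Fin n) L) =
          (1 : MvPolynomial (Fin n) L) ⊗ₜ[P] (C a : MvPolynomial (Fin n) L) := by
        have h2 : (C a : MvPolynomial (Fin n) L) = (algebraMap L P a) • (1 : MvPolynomial (Fin n) L) := by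
          rw [Algebra.smul_def, mul_one]
          rfl
        rw [h2, TensorProduct.smul_tmul]
      rw [h1, sub_self]
      simp
    · intro j
      simp
  | add p q hp hq =>
    obtain ⟨t, ht, ht'⟩ := hp
    obtain ⟨s, hs, hs'⟩ := hq
    refine ⟨t + s, ?_, ?_⟩
    · rw [TensorProduct.add_tmul, TensorProduct.tmul_add, add_sub_add_comm, ht, hs,
        ← Finset.sum_add_distrib]
      apply Finset.sum_congr rfl
      intro j _
      rw [Pi.add_apply, add_mul]
    · intro j
      rw [Pi.add_apply, map_add, ht', hs', map_add]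
  | mul_X p i hp =>
    obtain ⟨t, ht, ht'⟩ := hp
    refine ⟨fun j => t j * ((X i : MvPolynomial (Fin n) L) ⊗ₜ[P] (1 : MvPolynomial (Fin n) L)) +
      (if j = i then (1 : MvPolynomial (Fin n) L) ⊗ₜ[P] p else 0), ?_, ?_⟩
    · have e1 : (p * X i) ⊗ₜ[P] (1 : MvPolynomial (Fin n) L) =
          (p ⊗ₜ[P] (1 : MvPolynomial (Fin n) L)) *
          ((X i : MvPolynomial (Fin n) L) ⊗ₜ[P] (1 : MvPolynomial (Fin n) L)) := by
        rw [Algebra.TensorProduct.tmul_mul_tmul, mul_one]
      have e2 : (1 : MvPolynomial (Fin n) L) ⊗ₜ[P] (p * X i) =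
          ((1 : MvPolynomial (Fin n) L) ⊗ₜ[P] p) *
          ((1 : MvPolynomial (Fin n) L) ⊗ₜ[P] (X i : MvPolynomial (Fin n) L)) := by
        rw [Algebra.TensorProduct.tmul_mul_tmul, mul_one]
      have e3 : (p ⊗ₜ[P] (1 : MvPolynomial (Fin n) L)) *
          ((X i : MvPolynomial (Fin n) L) ⊗ₜ[P] (1 : MvPolynomial (Fin n) L)) -
          ((1 : MvPolynomial (Fin n) L) ⊗ₜ[P] p) *
          ((1 : MvPolynomial (Fin n) L) ⊗ₜ[P] (X i : MvPolynomial (Fin n) L)) =
          (p ⊗ₜ[P] (1 : MvPolynomial (Fin n) L) - (1 : MvPolynomial (Fin n) L) ⊗ₜ[P] p) *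
          ((X i : MvPolynomial (Fin n) L) ⊗ₜ[P] (1 : MvPolynomial (Fin n) L)) +
          ((1 : MvPolynomial (Fin n) L) ⊗ₜ[P] p) *
          ((X i : MvPolynomial (Fin n) L) ⊗ₜ[P] (1 : MvPolynomial (Fin n) L) -
          (1 : MvPolynomial (Fin n) L) ⊗ₜ[P] (X i : MvPolynomial (Fin n) L)) := by ring
      rw [e1, e2, e3, ht, Finset.sum_mul]
      have e4 : ∀ j, (t j * ((X i : MvPolynomial (Fin n) L) ⊗ₜ[P] (1 : MvPolynomial (Fin n) L)) +
          (if j = i then (1 : MvPolynomial (Fin n) L) ⊗ₜ[P] p else 0)) *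
          ((X j : MvPolynomial (Fin n) L) ⊗ₜ[P] (1 : MvPolynomial (Fin n) L) -
          (1 : MvPolynomial (Fin n) L) ⊗ₜ[P] (X j : MvPolynomial (Fin n) L)) =
          t j * ((X j : MvPolynomial (Fin n) L) ⊗ₜ[P] (1 : MvPolynomial (Fin n) L) -
          (1 : MvPolynomial (Fin n) L) ⊗ₜ[P] (X j : MvPolynomial (Fin n) L)) *
          ((X i : MvPolynomial (Fin n) L) ⊗ₜ[P] (1 : MvPolynomial (Fin n) L)) +
          (if j = i then ((1 : MvPolynomial (Fin n) L) ⊗ₜ[P] p) *
          ((X i : MvPolynomial (Fin n) L) ⊗ₜ[P] (1 : MvPolynomial (Fin n) L) -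
          (1 : MvPolynomial (Fin n) L) ⊗ₜ[P] (X i : MvPolynomial (Fin n) L)) else 0) := by
        intro j
        split_ifs with h
        · subst h; ring
        · ring
      simp only [e4]
      rw [Finset.sum_add_distrib, Finset.sum_ite_eq' Finset.univ i]
      simp
    · intro j
      rw [map_add, map_mul, ht', Algebra.TensorProduct.lmul'_apply_tmul, mul_one,
        Derivation.leibniz, pderiv_X]
      by_cases h : j = i
      · subst h
        rw [if_pos rfl, Algebra.TensorProduct.lmul'_apply_tmul, Pi.single_eq_same, one_mul,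
          smul_eq_mul, smul_eq_mul, mul_one]
        ring
      · rw [if_neg h, map_zero, Pi.single_eq_of_ne (fun h' => h h'.symm), smul_zero, smul_eq_mul]
        ring

/-- Scheja-Storch element: for the subalgebra `P = L[g_1..g_n]` of `R = L[u]`, there is an element of `R ⊗_P R` killed by all
`x ⊗ 1 - 1 ⊗ x` whose image under multiplication is the Jacobian determinant. -/
theorem scheja_storch {L : Type*} [Field L] {n : ℕ} (g : Fin n → MvPolynomial (Fin n) L) :
    ∃ Δ : MvPolynomial (Fin n) L ⊗[(aeval g : MvPolynomial (Fin n) L →ₐ[L] MvPolynomial (Fin n) L).range] MvPolynomial (Fin n) L,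
      (∀ x : MvPolynomial (Fin n) L, (x ⊗ₜ 1) * Δ = (1 ⊗ₜ x) * Δ) ∧
      Algebra.TensorProduct.lmul' (aeval g : MvPolynomial (Fin n) L →ₐ[L] MvPolynomial (Fin n) L).range Δ =
        (Matrix.of fun i j => pderiv j (g i)).det := by
  set P := (aeval g : MvPolynomial (Fin n) L →ₐ[L] MvPolynomial (Fin n) L).range with hP
  have h := fun i => diff_quot_11606 P (g i)
  choose t ht ht' using h
  set M : Matrix (Fin n) (Fin n) (MvPolynomial (Fin n) L ⊗[P] MvPolynomial (Fin n) L) :=
    Matrix.of t with hM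
  set v : Fin n → MvPolynomial (Fin n) L ⊗[P] MvPolynomial (Fin n) L := fun j =>
    (X j : MvPolynomial (Fin n) L) ⊗ₜ[P] (1 : MvPolynomial (Fin n) L) -
      (1 : MvPolynomial (Fin n) L) ⊗ₜ[P] (X j : MvPolynomial (Fin n) L) with hv
  have hg : ∀ i, (g i) ⊗ₜ[P] (1 : MvPolynomial (Fin n) L) =
      (1 : MvPolynomial (Fin n) L) ⊗ₜ[P] (g i) := by
    intro i
    have hgi : g i ∈ P := ⟨X i, by simp⟩
    have h2 : g i = (⟨g i, hgi⟩ : P) • (1 : MvPolynomial (Fin n) L) := by
      rw [Algebra.smul_def, mul_one]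
      rfl
    conv_lhs => rw [h2]
    rw [TensorProduct.smul_tmul, ← h2]
  have hMv : M.mulVec v = 0 := by
    funext i
    have h3 := ht i
    rw [hg i, sub_self] at h3
    exact h3.symm
  have hdet : ∀ j, M.det * v j = 0 := by
    intro j
    have h4 : (M.adjugate * M).mulVec v = 0 := by
      rw [← Matrix.mulVec_mulVec, hMv, Matrix.mulVec_zero]
    rw [Matrix.adjugate_mul, Matrix.smul_mulVec, Matrix.one_mulVec] at h4
    exact congrFun h4 j
  refine ⟨M.det, ?_, ?_⟩
  · intro x
    rw [← sub_eq_zero, ← sub_mul]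
    obtain ⟨s, hs, -⟩ := diff_quot_11606 P x
    rw [hs, Finset.sum_mul]
    apply Finset.sum_eq_zero
    intro j _
    have h5 : s j * v j * M.det = s j * (M.det * v j) := by ring
    exact h5.trans (by rw [hdet j, mul_zero])
  · rw [AlgHom.map_det]
    congr 1
    ext1 i j
    exact ht' i j

/-- trace identity -/
theorem trace_identity {P R : Type*} [CommRing P] [CommRing R] [Algebra P R] {ι : Type*} [Fintype ι] [DecidableEq ι]
    (b : Module.Basis ι P R) (Δ : R ⊗[P] R) (hΔ : ∀ x : R, (x ⊗ₜ 1) * Δ = (1 ⊗ₜ x) * Δ) :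
    ∃ α : ι → R, ∀ z : R, z * Algebra.TensorProduct.lmul' P Δ = ∑ l, Algebra.trace P R (z * α l) • b l := by
  have hex : ∀ D : R ⊗[P] R, ∃ α : ι → R, D = ∑ l, α l ⊗ₜ[P] b l := by
    intro D
    induction D using TensorProduct.induction_on with
    | zero => exact ⟨0, by simp⟩
    | tmul x y =>
      refine ⟨fun l => (b.repr y l) • x, ?_⟩
      conv_lhs => rw [← b.sum_repr y]
      rw [TensorProduct.tmul_sum]
      apply Finset.sum_congr rfl
      intro l _
      rw [TensorProduct.smul_tmul]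
    | add D1 D2 h1 h2 =>
      obtain ⟨α1, e1⟩ := h1
      obtain ⟨α2, e2⟩ := h2
      refine ⟨α1 + α2, ?_⟩
      rw [e1, e2, ← Finset.sum_add_distrib]
      apply Finset.sum_congr rfl
      intro l _
      rw [Pi.add_apply, TensorProduct.add_tmul]
  obtain ⟨α, hα⟩ := hex Δ
  refine ⟨α, fun z => ?_⟩
  -- the twisted element
  set D : R ⊗[P] R := (z ⊗ₜ[P] (1 : R)) * Δ with hD
  have hDsum : D = ∑ l, (z * α l) ⊗ₜ[P] b l := by
    rw [hD, hα, Finset.mul_sum]
    apply Finset.sum_congr rfl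
    intro l _
    rw [Algebra.TensorProduct.tmul_mul_tmul, one_mul]
  have hDk : ∀ x : R, (x ⊗ₜ[P] (1 : R)) * D = ((1 : R) ⊗ₜ[P] x) * D := by
    intro x
    rw [hD, mul_left_comm, hΔ x, mul_left_comm]
  let Φ : ι → (R ⊗[P] R →ₗ[P] R) := fun m =>
    (TensorProduct.lid P R).toLinearMap ∘ₗ LinearMap.rTensor R (b.coord m)
  have hΦ : ∀ m (x y : R), Φ m (x ⊗ₜ[P] y) = (b.repr x m) • y := by
    intro m x y
    show (TensorProduct.lid P R) (LinearMap.rTensor R (b.coord m) (x ⊗ₜ[P] y)) = _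
    rw [LinearMap.rTensor_tmul, TensorProduct.lid_tmul, Module.Basis.coord_apply]
  have htr : ∀ y : R, Algebra.trace P R y = ∑ m, b.repr (y * b m) m := by
    intro y
    rw [Algebra.trace_eq_matrix_trace b y, Matrix.trace]
    apply Finset.sum_congr rfl
    intro m _
    rw [Matrix.diag_apply, Algebra.leftMulMatrix_eq_repr_mul]
  have hL : z * Algebra.TensorProduct.lmul' P Δ = ∑ l, (z * α l) * b l := by
    rw [hα, map_sum, Finset.mul_sum]
    apply Finset.sum_congr rfl
    intro l _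
    rw [Algebra.TensorProduct.lmul'_apply_tmul, mul_assoc]
  rw [hL]
  symm
  calc ∑ l, Algebra.trace P R (z * α l) • b l
      = ∑ l, ∑ m, b.repr (z * α l * b m) m • b l := by
        apply Finset.sum_congr rfl
        intro l _
        rw [htr, Finset.sum_smul]
    _ = ∑ m, ∑ l, b.repr (z * α l * b m) m • b l := Finset.sum_comm
    _ = ∑ m, Φ m ((b m ⊗ₜ[P] (1 : R)) * D) := by
        apply Finset.sum_congr rfl
        intro m _
        rw [hDsum, Finset.mul_sum, map_sum]
        apply Finset.sum_congr rfl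
        intro l _
        rw [Algebra.TensorProduct.tmul_mul_tmul, hΦ, one_mul, mul_comm (b m)]
    _ = ∑ m, Φ m (((1 : R) ⊗ₜ[P] b m) * D) := by
        apply Finset.sum_congr rfl
        intro m _
        rw [hDk]
    _ = ∑ m, ∑ l, b.repr (z * α l) m • (b m * b l) := by
        apply Finset.sum_congr rfl
        intro m _
        rw [hDsum, Finset.mul_sum, map_sum]
        apply Finset.sum_congr rfl
        intro l _
        rw [Algebra.TensorProduct.tmul_mul_tmul, hΦ, one_mul]
    _ = ∑ l, ∑ m, b.repr (z * α l) m • (b m * b l) := Finset.sum_comm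
    _ = ∑ l, (z * α l) * b l := by
        apply Finset.sum_congr rfl
        intro l _
        conv_rhs => rw [← b.sum_repr (z * α l)]
        rw [Finset.sum_mul]
        apply Finset.sum_congr rfl
        intro m _
        rw [smul_mul_assoc]

end H693RF
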