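import Mathlib

namespace H693RF
open nonZeroDivisors

theorem skoda_abs {P R F K ι : Type*} [CommRing P] [IsDomain P] [CommRing R] [IsDomain R] [Field F] [Field K]
    [Algebra P R] [Algebra P F] [Algebra R K] [Algebra P K] [Algebra F K] [IsScalarTower P R K] [IsScalarTower P F K]
    [IsFractionRing P F] [IsFractionRing R K] [FaithfulSMul P R] [Fintype ι] [DecidableEq ι] (b : Module.Basis ι P R)
    (Jac : R) (hJ : Jac ≠ 0) (α : ι → R) (hα : ∀ z : R, z * Jac = ∑ l, Algebra.trace P R (z * α l) • b l)
    (mO : P → Prop) (V : K → Prop) (hV : ∀ y, V y → ∀ r : R, V (y * algebraMap R K r))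
    (htr : ∀ y, V y → ∀ c : P, algebraMap P F c = Algebra.trace F K y → mO c)
    (r : R) (hr : V (algebraMap R K r / algebraMap R K Jac)) : ∀ l, mO (b.repr r l) := by
  classical
  have : Module.Finite P R := Module.Finite.of_basis b
  have : Module.Free P R := Module.Free.of_basis b
  have : Algebra.IsAlgebraic P R := inferInstance
  have hloc : IsLocalization (Algebra.algebraMapSubmonoid R P⁰) K := inferInstance
  intro l
  refine htr (algebraMap R K r / algebraMap R K Jac * algebraMap R K (α l)) (hV _ hr _) _ ?_
  -- write r / Jac = r' / p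
  obtain ⟨⟨r', ⟨_, p, hp, rfl⟩⟩, hrp⟩ := IsLocalization.surj (Algebra.algebraMapSubmonoid R P⁰)
    (algebraMap R K r / algebraMap R K Jac)
  have hJ' : algebraMap R K Jac ≠ 0 := by
    simpa using hJ
  have hp0 : p ≠ 0 := nonZeroDivisors.ne_zero hp
  have hpF : algebraMap P F p ≠ 0 := by simpa using hp0
  have e1 : algebraMap R K r * algebraMap R K (algebraMap P R p) = algebraMap R K r' * algebraMap R K Jac := by
    have : algebraMap R K r / algebraMap R K Jac * algebraMap R K (algebraMap P R p) = algebraMap R K r' := hrp
    rw [← this]; field_simp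
  have e2 : r * algebraMap P R p = r' * Jac := by
    apply IsFractionRing.injective R K
    simpa using e1
  have e3 : p • r = ∑ l, Algebra.trace P R (r' * α l) • b l := by
    rw [← hα, ← e2, Algebra.smul_def, mul_comm]
  have e4 : p * b.repr r l = Algebra.trace P R (r' * α l) := by
    have h1 : b.repr (p • r) l = p * b.repr r l := by simp
    rw [← h1, e3]
    rw [map_sum]
    simp [Finsupp.single_apply]
  have e5 : algebraMap F K (algebraMap P F p) * (algebraMap R K r / algebraMap R K Jac * algebraMap R K (α l))
      = algebraMap R K (r' * α l) := by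
    have : algebraMap R K r / algebraMap R K Jac * algebraMap R K (algebraMap P R p) = algebraMap R K r' := hrp
    rw [map_mul, ← this, ← IsScalarTower.algebraMap_apply P F K, IsScalarTower.algebraMap_apply P R K]
    ring
  have e6 : algebraMap P F p * Algebra.trace F K (algebraMap R K r / algebraMap R K Jac * algebraMap R K (α l)) =
      algebraMap P F (Algebra.trace P R (r' * α l)) := by
    rw [← Algebra.trace_localization P P⁰ (Rₘ := F) (Sₘ := K) (r' * α l), ← e5, ← Algebra.smul_def (R := F) (A := K),
      LinearMap.map_smul, smul_eq_mul]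
  rw [← e4, RingHom.map_mul] at e6
  exact (mul_left_cancel₀ hpF e6).symm

end H693RF
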