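import Mathlib

namespace H693RF

/-- order reversing map from the multiplicative to the additive value group -/
noncomputable def eavF (a : WithZero (Multiplicative ℤ)) : WithTop ℤ :=
  if a = 0 then ⊤ else ((-(WithZero.log a) : ℤ) : WithTop ℤ)

theorem eavF_zero : eavF 0 = ⊤ := by simp [eavF]

theorem eavF_of_ne {a : WithZero (Multiplicative ℤ)} (h : a ≠ 0) :
    eavF a = ((-(WithZero.log a) : ℤ) : WithTop ℤ) := by simp [eavF, h]

theorem eavF_mul (a b : WithZero (Multiplicative ℤ)) : eavF (a * b) = eavF a + eavF b := by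
  by_cases ha : a = 0
  · subst ha; simp [eavF_zero]
  · by_cases hb : b = 0
    · subst hb; simp [eavF_zero]
    · rw [eavF_of_ne ha, eavF_of_ne hb, eavF_of_ne (mul_ne_zero ha hb), WithZero.log_mul ha hb,
        ← WithTop.coe_add]
      congr 1
      ring

theorem eavF_le {a b : WithZero (Multiplicative ℤ)} : eavF b ≤ eavF a ↔ a ≤ b := by
  by_cases ha : a = 0
  · subst ha; simp [eavF_zero]
  · by_cases hb : b = 0
    · subst hb
      rw [eavF_zero, eavF_of_ne ha]
      simp [ha]
    · rw [eavF_of_ne ha, eavF_of_ne hb, WithTop.coe_le_coe, neg_le_neg_iff,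
        WithZero.log_le_log ha hb]

theorem eavF_one : eavF 1 = 0 := by
  rw [eavF_of_ne one_ne_zero, WithZero.log_one, neg_zero]; rfl

theorem eavF_nonneg {a : WithZero (Multiplicative ℤ)} : 0 ≤ eavF a ↔ a ≤ 1 := by
  rw [← eavF_one, eavF_le]

theorem eavF_pos {a : WithZero (Multiplicative ℤ)} : 0 < eavF a ↔ a < 1 := by
  rw [← eavF_one, lt_iff_not_ge, lt_iff_not_ge, eavF_le]

theorem eavF_add {a b c : WithZero (Multiplicative ℤ)} (h : c ≤ max a b) :
    min (eavF a) (eavF b) ≤ eavF c := by
  rcases le_max_iff.1 h with h | h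
  · exact (min_le_left _ _).trans (eavF_le.2 h)
  · exact (min_le_right _ _).trans (eavF_le.2 h)

/-- the additive discrete valuation of a nonzero prime of a Dedekind domain -/
theorem exists_addValuation {S K : Type*} [CommRing S] [IsDedekindDomain S] [Field K]
    [Algebra S K] [IsFractionRing S K] (E : Ideal S) (hE : E.IsPrime) (hE0 : E ≠ ⊥) :
    ∃ v : AddValuation K (WithTop ℤ), (∀ x : S, 0 ≤ v (algebraMap S K x)) ∧
      (∀ x : S, x ∈ E ↔ 0 < v (algebraMap S K x)) ∧
      (∃ τ : S, v (algebraMap S K τ) = ((1 : ℤ) : WithTop ℤ)) ∧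
      (∀ x : K, 0 ≤ v x → ∃ a b : S, b ∉ E ∧ x = algebraMap S K a / algebraMap S K b) := by
  let w : IsDedekindDomain.HeightOneSpectrum S := ⟨E, hE, hE0⟩
  let u := w.valuation K
  refine ⟨AddValuation.of (fun x => eavF (u x)) (by simp only [map_zero]; exact eavF_zero)
    (by simp only [map_one]; exact eavF_one)
    (fun x y => eavF_add (u.map_add x y)) (fun x y => by rw [map_mul, eavF_mul]), ?_, ?_, ?_, ?_⟩
  · intro x
    rw [AddValuation.of_apply, eavF_nonneg]
    exact w.valuation_le_one x
  · intro x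
    rw [AddValuation.of_apply, eavF_pos]
    exact (w.valuation_lt_one_iff_mem (K := K) x).symm
  · obtain ⟨τ, hτ⟩ := w.intValuation_exists_uniformizer
    refine ⟨τ, ?_⟩
    rw [AddValuation.of_apply]
    have h1 : u (algebraMap S K τ) = WithZero.exp (-1 : ℤ) := by
      change w.valuation K (algebraMap S K τ) = _
      rw [w.valuation_of_algebraMap, hτ]
    rw [h1, eavF_of_ne WithZero.exp_ne_zero, WithZero.log_exp, neg_neg]
  · intro x hx
    rw [AddValuation.of_apply, eavF_nonneg] at hx
    obtain ⟨n, d, h⟩ := w.exists_primeCompl_mul_eq_of_integer x hx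
    refine ⟨n, d, d.2, ?_⟩
    have hd0 : (d : S) ≠ 0 := by
      intro h0
      apply d.2
      change (d : S) ∈ E
      rw [h0]
      exact E.zero_mem
    have hd : algebraMap S K d ≠ 0 := by
      intro h0
      exact hd0 ((IsFractionRing.injective S K) (by rw [h0, map_zero]))
    rw [← h, mul_div_cancel_right₀ _ hd]

end H693RF
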