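import Mathlib

namespace H693RF

section basic12082

/-- valuations of integers are nonnegative -/
theorem vnat12082 {K : Type*} [Field K] (v : AddValuation K (WithTop ℤ)) (n : ℕ) : 0 ≤ v (n : K) := by
  induction n with
  | zero => simp
  | succ k ih =>
    rw [Nat.cast_succ]
    exact v.map_le_add ih (by simp)

/-- a valuation of a quotient -/
theorem vdiv12082 {K : Type*} [Field K] (v : AddValuation K (WithTop ℤ)) (a b : K) (hb : v b = 0) :
    v (a / b) = v a := by
  have hb0 : b ≠ 0 := by
    rintro rfl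
    simp at hb
  have h := v.map_mul (a / b) b
  rw [div_mul_cancel₀ a hb0, hb, add_zero] at h
  exact h.symm

/-- polynomial difference estimate -/
theorem vpoly12082 {K : Type*} [Field K] (v : AddValuation K (WithTop ℤ)) (p : Polynomial K)
    (hp : ∀ i, 0 ≤ v (p.coeff i)) (x s : K) (hx : 0 ≤ v x) (hs : 0 ≤ v s) :
    v (x - s) ≤ v (p.eval x - p.eval s) := by
  have hpow : ∀ n : ℕ, v (x - s) ≤ v (x ^ n - s ^ n) := by
    intro n
    induction n with
    | zero => simp
    | succ k ih =>
      have e : x ^ (k + 1) - s ^ (k + 1) = x * (x ^ k - s ^ k) + (x - s) * s ^ k := by ring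
      rw [e]
      apply v.map_le_add
      · rw [v.map_mul]
        exact le_trans ih (le_add_of_nonneg_left hx)
      · rw [v.map_mul, v.map_pow]
        exact le_add_of_nonneg_right (nsmul_nonneg hs k)
  rw [Polynomial.eval_eq_sum_range, Polynomial.eval_eq_sum_range, ← Finset.sum_sub_distrib]
  apply v.map_le_sum
  intro i _
  rw [← mul_sub, v.map_mul]
  exact le_trans (hpow i) (le_add_of_nonneg_left (hp i))

/-- cancellation in the value group -/
theorem cancel12082 (a b : WithTop ℤ) (c : ℤ) (h : (c : WithTop ℤ) + a ≤ (c : WithTop ℤ) + b) : a ≤ b := by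
  induction b using WithTop.recTopCoe with
  | top => exact le_top
  | coe b =>
    induction a using WithTop.recTopCoe with
    | top =>
      exfalso
      rw [← WithTop.coe_add, WithTop.add_top, top_le_iff] at h
      exact WithTop.coe_ne_top h
    | coe a =>
      rw [← WithTop.coe_add, ← WithTop.coe_add, WithTop.coe_le_coe] at h
      rw [WithTop.coe_le_coe]
      omega

/-- the log bound -/
theorem hbd12082 {K : Type*} [Field K] (v : AddValuation K (WithTop ℤ)) (D : Derivation ℤ K K) (R : Set K)
    (C0 : ℤ) (hC0 : ∀ x ∈ R, (C0 : WithTop ℤ) ≤ v (D x))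
    (hfrac : ∀ x : K, 0 ≤ v x → ∃ a ∈ R, ∃ b ∈ R, v b = 0 ∧ x = a / b)
    (τ : K) (hτ : v τ = ((1 : ℤ) : WithTop ℤ)) :
    ∃ C : ℤ, ∀ x : K, v x + (C : WithTop ℤ) ≤ v (D x) := by
  have hcoe1 : ((1 : ℤ) : WithTop ℤ) ≠ ⊤ := WithTop.coe_ne_top
  have hpos : ∀ x : K, 0 ≤ v x → (C0 : WithTop ℤ) ≤ v (D x) := by
    intro x hx
    obtain ⟨a, ha, b, hb, hvb, hxab⟩ := hfrac x hx
    have hb0 : b ≠ 0 := by
      rintro rfl
      simp at hvb
    have e : a = b * x := by rw [hxab]; field_simp
    have e2 : b * D x = D a - x * D b := by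
      rw [e, Derivation.leibniz]
      simp only [smul_eq_mul]
      ring
    have e3 : v (b * D x) = v (D x) := by rw [v.map_mul, hvb, zero_add]
    rw [← e3, e2]
    apply v.map_le_sub (hC0 a ha)
    rw [v.map_mul]
    exact le_trans (hC0 b hb) (le_add_of_nonneg_left hx)
  have hτD : (C0 : WithTop ℤ) ≤ v (D τ) := by
    apply hpos
    rw [hτ]
    exact_mod_cast (by norm_num : (0 : ℤ) ≤ 1)
  refine ⟨C0 - 1, ?_⟩
  -- multiplication by τ
  have hxτ : ∀ x : K, v (τ * x) + ((C0 - 1 : ℤ) : WithTop ℤ) ≤ v (x * D τ) := by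
    intro x
    rw [v.map_mul, v.map_mul, hτ]
    refine le_trans (le_of_eq ?_) (add_le_add_right hτD (v x))
    rw [add_comm ((1 : ℤ) : WithTop ℤ) (v x), add_assoc, ← WithTop.coe_add]
    congr 2
    ring
  have hup : ∀ x : K, v x + ((C0 - 1 : ℤ) : WithTop ℤ) ≤ v (D x) →
      v (τ * x) + ((C0 - 1 : ℤ) : WithTop ℤ) ≤ v (D (τ * x)) := by
    intro x hx
    rw [Derivation.leibniz]
    simp only [smul_eq_mul]
    apply v.map_le_add
    · rw [v.map_mul, v.map_mul, add_assoc]
      exact add_le_add_right hx (v τ)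
    · exact hxτ x
  have hdown : ∀ x : K, v (τ * x) + ((C0 - 1 : ℤ) : WithTop ℤ) ≤ v (D (τ * x)) →
      v x + ((C0 - 1 : ℤ) : WithTop ℤ) ≤ v (D x) := by
    intro x hx
    have e : τ * D x = D (τ * x) - x * D τ := by
      rw [Derivation.leibniz]
      simp only [smul_eq_mul]
      ring
    apply cancel12082 _ _ 1
    rw [← hτ, ← v.map_mul, e, ← add_assoc, ← v.map_mul]
    exact v.map_le_sub hx (hxτ x)
  have hupn : ∀ (n : ℕ) (x : K), v x + ((C0 - 1 : ℤ) : WithTop ℤ) ≤ v (D x) →
      v (τ ^ n * x) + ((C0 - 1 : ℤ) : WithTop ℤ) ≤ v (D (τ ^ n * x)) := by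
    intro n
    induction n with
    | zero => intro x hx; simpa using hx
    | succ k ih =>
      intro x hx
      have := hup _ (ih x hx)
      rwa [← mul_assoc, ← pow_succ'] at this
  have hdownn : ∀ (n : ℕ) (x : K), v (τ ^ n * x) + ((C0 - 1 : ℤ) : WithTop ℤ) ≤ v (D (τ ^ n * x)) →
      v x + ((C0 - 1 : ℤ) : WithTop ℤ) ≤ v (D x) := by
    intro n
    induction n with
    | zero => intro x hx; simpa using hx
    | succ k ih =>
      intro x hx
      apply ih
      apply hdown
      rwa [← mul_assoc, ← pow_succ']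
  have hunit : ∀ x : K, v x = 0 → v x + ((C0 - 1 : ℤ) : WithTop ℤ) ≤ v (D x) := by
    intro x hx
    refine le_trans ?_ (hpos x hx.ge)
    rw [hx, zero_add, WithTop.coe_le_coe]
    omega
  have hτ0 : τ ≠ 0 := by
    rintro rfl
    rw [v.map_zero] at hτ
    exact hcoe1 hτ.symm
  intro x
  by_cases hx0 : x = 0
  · subst hx0
    simp
  have hvx : v x ≠ ⊤ := by rw [Ne, v.top_iff]; exact hx0
  obtain ⟨n, hn⟩ := WithTop.ne_top_iff_exists.mp hvx
  rcases le_total 0 n with h | h
  · obtain ⟨k, rfl⟩ := Int.eq_ofNat_of_zero_le h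
    have hw : x = τ ^ k * (x / τ ^ k) := by
      field_simp
    have hvw : v (x / τ ^ k) = 0 := by
      have h1 := v.map_mul (τ ^ k) (x / τ ^ k)
      rw [← hw, v.map_pow, hτ, ← hn] at h1
      have h2 : v (x / τ ^ k) ≠ ⊤ := by
        rw [Ne, v.top_iff]
        exact div_ne_zero hx0 (pow_ne_zero _ hτ0)
      obtain ⟨m, hm⟩ := WithTop.ne_top_iff_exists.mp h2
      rw [← hm] at h1 ⊢
      rw [← WithTop.coe_nsmul, ← WithTop.coe_add, WithTop.coe_inj] at h1
      simp at h1
      rw [h1]
      rfl
    rw [hw]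
    exact hupn k _ (hunit _ hvw)
  · obtain ⟨k, hk⟩ := Int.eq_ofNat_of_zero_le (neg_nonneg.mpr h)
    apply hdownn k
    apply hunit
    rw [v.map_mul, v.map_pow, hτ, ← hn, ← WithTop.coe_nsmul, ← WithTop.coe_add]
    have : k • (1 : ℤ) + n = 0 := by
      simp
      omega
    rw [this]
    rfl

end basic12082

section poly12082

open Polynomial in
/-- polynomial with unit leading coefficient of minimal degree in the ideal -/
theorem minpoly12082 {O S : Type*} [CommRing O] [IsDomain O] [CommRing S] [Algebra O S]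
    (hres : ∀ m : ℕ, m ≠ 0 → IsUnit (m : O)) (E : Ideal S) (hE : E ≠ ⊤) (s : S) (hs : IsIntegral O s) :
    ∃ p : O[X], aeval s p ∈ E ∧ aeval s (derivative p) ∉ E := by
  classical
  have hex : ∃ n : ℕ, ∃ p : O[X], p.natDegree = n ∧ IsUnit p.leadingCoeff ∧ aeval s p ∈ E := by
    obtain ⟨p, hp, hps⟩ := hs
    refine ⟨p.natDegree, p, rfl, ?_, ?_⟩
    · rw [hp.leadingCoeff]
      exact isUnit_one
    · have : aeval s p = 0 := by rw [aeval_def]; exact hps
      rw [this]
      exact E.zero_mem
  obtain ⟨p, hpn, hpu, hpE⟩ := Nat.find_spec hex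
  have hmin : ∀ m, m < Nat.find hex → ¬ ∃ p : O[X], p.natDegree = m ∧ IsUnit p.leadingCoeff ∧ aeval s p ∈ E :=
    fun m hm => Nat.find_min hex hm
  have hn0 : p.natDegree ≠ 0 := by
    intro h0
    rw [Polynomial.natDegree_eq_zero] at h0
    obtain ⟨c, rfl⟩ := h0
    rw [Polynomial.leadingCoeff_C] at hpu
    rw [Polynomial.aeval_C] at hpE
    exact hE (Ideal.eq_top_of_isUnit_mem _ hpE (hpu.map _))
  refine ⟨p, hpE, fun hd => ?_⟩
  have hcoef : (derivative p).coeff (p.natDegree - 1) = p.leadingCoeff * (p.natDegree : O) := by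
    rw [Polynomial.coeff_derivative]
    have e : p.natDegree - 1 + 1 = p.natDegree := by omega
    rw [e, ← Polynomial.leadingCoeff]
    congr 1
    rw [← Nat.cast_succ]
    congr 1
  have hu : IsUnit ((derivative p).coeff (p.natDegree - 1)) := by
    rw [hcoef]
    exact hpu.mul (hres _ hn0)
  have hle : (derivative p).natDegree ≤ p.natDegree - 1 := Polynomial.natDegree_derivative_le p
  have hge : p.natDegree - 1 ≤ (derivative p).natDegree := Polynomial.le_natDegree_of_ne_zero hu.ne_zero
  have heq : (derivative p).natDegree = p.natDegree - 1 := le_antisymm hle hge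
  apply hmin (p.natDegree - 1) (by omega)
  refine ⟨derivative p, heq, ?_, hd⟩
  rw [Polynomial.leadingCoeff, heq]
  exact hu

end poly12082

section alg12082

open Polynomial in
/-- residual separability -/
theorem halg12082 {O K : Type*} [CommRing O] [IsDomain O] [Field K] [Algebra O K]
    (hres : ∀ m : ℕ, m ≠ 0 → IsUnit (m : O)) (E : Ideal (integralClosure O K)) (hEmax : E.IsMaximal)
    (v : AddValuation K (WithTop ℤ)) (hv0 : ∀ x : integralClosure O K, 0 ≤ v x)
    (hvE : ∀ x : integralClosure O K, x ∈ E ↔ 0 < v x)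
    (hfrac : ∀ x : K, 0 ≤ v x → ∃ a b : integralClosure O K, b ∉ E ∧ x = (a : K) / (b : K))
    (x : K) (hx : 0 ≤ v x) :
    ∃ p : Polynomial K, (∀ i, p.coeff i ∈ (algebraMap O K).range) ∧
        0 < v (p.eval x) ∧ v (p.derivative.eval x) = 0 := by
  obtain ⟨a, b, hb, hxab⟩ := hfrac x hx
  obtain ⟨c, i, hi, hci⟩ := hEmax.exists_inv hb
  obtain ⟨p, hp1, hp2⟩ := minpoly12082 hres E hEmax.ne_top (a * c) (integralClosure.isIntegral (a * c))
  have hb0 : (b : K) ≠ 0 := by
    intro h
    apply hb
    have : b = 0 := Subtype.ext h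
    rw [this]
    exact E.zero_mem
  have hdiff : x - ((a * c : integralClosure O K) : K) = x * (i : K) := by
    have hci' : (c : K) * (b : K) + (i : K) = 1 := by
      have := congrArg (fun z : integralClosure O K => (z : K)) hci
      simpa using this
    have : (i : K) = 1 - (c : K) * (b : K) := by rw [← hci']; ring
    rw [this, hxab]
    push_cast
    field_simp
  have hdiffpos : 0 < v (x - ((a * c : integralClosure O K) : K)) := by
    rw [hdiff, v.map_mul]
    exact lt_of_lt_of_le ((hvE i).mp hi) (le_add_of_nonneg_left hx)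
  have hcoef : ∀ (q : O[X]) (i : ℕ), (q.map (algebraMap O K)).coeff i ∈ (algebraMap O K).range := by
    intro q i
    rw [Polynomial.coeff_map]
    exact ⟨_, rfl⟩
  have hO : ∀ z ∈ (algebraMap O K).range, 0 ≤ v z := by
    rintro z ⟨o, rfl⟩
    have := hv0 (algebraMap O (integralClosure O K) o)
    exact this
  have heval : ∀ q : O[X], (q.map (algebraMap O K)).eval ((a * c : integralClosure O K) : K) =
      ((aeval (a * c) q : integralClosure O K) : K) := by
    intro q
    rw [Polynomial.eval_map_algebraMap]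
    exact (Polynomial.aeval_algebraMap_apply K (a * c) q)
  refine ⟨p.map (algebraMap O K), hcoef p, ?_, ?_⟩
  · have h1 := vpoly12082 v (p.map (algebraMap O K)) (fun i => hO _ (hcoef p i)) x
      ((a * c : integralClosure O K) : K) hx (hv0 _)
    have h2 : 0 < v ((p.map (algebraMap O K)).eval ((a * c : integralClosure O K) : K)) := by
      rw [heval]
      exact (hvE _).mp hp1
    have h3 := v.map_lt_add (lt_of_lt_of_le hdiffpos h1) h2
    simpa using h3
  · rw [Polynomial.derivative_map]
    have h1 := vpoly12082 v ((derivative p).map (algebraMap O K)) (fun i => hO _ (hcoef _ i)) x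
      ((a * c : integralClosure O K) : K) hx (hv0 _)
    have h2 : v (((derivative p).map (algebraMap O K)).eval ((a * c : integralClosure O K) : K)) = 0 := by
      rw [heval]
      refine le_antisymm ?_ (hv0 _)
      by_contra hc
      push Not at hc
      exact hp2 ((hvE _).mpr hc)
    have h3 : v (((derivative p).map (algebraMap O K)).eval ((a * c : integralClosure O K) : K)) <
        v (((derivative p).map (algebraMap O K)).eval x -
          ((derivative p).map (algebraMap O K)).eval ((a * c : integralClosure O K) : K)) := by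
      rw [h2]
      exact lt_of_lt_of_le hdiffpos h1
    have h4 := v.map_add_eq_of_lt_left h3
    rw [add_sub_cancel] at h4
    rw [h4, h2]

/-- bounded below on the integral closure -/
theorem hC12082 {O K : Type*} [CommRing O] [IsDomain O] [Field K] [Algebra O K]
    [Module.Finite O (integralClosure O K)]
    (v : AddValuation K (WithTop ℤ)) (hv0 : ∀ x : integralClosure O K, 0 ≤ v x)
    (D : Derivation ℤ K K) (hD : ∀ x : O, 0 ≤ v (D (algebraMap O K x))) :
    ∃ C0 : ℤ, ∀ x : integralClosure O K, (C0 : WithTop ℤ) ≤ v (D (x : K)) := by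
  classical
  obtain ⟨G, hG⟩ := (Module.Finite.fg_top : (⊤ : Submodule O (integralClosure O K)).FG)
  have hex : ∀ G : Finset (integralClosure O K), ∃ C0 : ℤ, C0 ≤ 0 ∧ ∀ g ∈ G, (C0 : WithTop ℤ) ≤ v (D (g : K)) := by
    intro G
    induction G using Finset.induction_on with
    | empty => exact ⟨0, le_rfl, by simp⟩
    | insert g G _ ih =>
      obtain ⟨C, hC, h⟩ := ih
      have hg : ∃ c : ℤ, (c : WithTop ℤ) ≤ v (D (g : K)) := by
        by_cases htop : v (D (g : K)) = ⊤
        · exact ⟨0, by rw [htop]; exact le_top⟩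
        · obtain ⟨n, hn⟩ := WithTop.ne_top_iff_exists.mp htop
          exact ⟨n, by rw [hn]⟩
      obtain ⟨c, hc⟩ := hg
      refine ⟨min C c, le_trans (min_le_left _ _) hC, ?_⟩
      intro g' hg'
      rw [Finset.mem_insert] at hg'
      rcases hg' with rfl | hg'
      · exact le_trans (WithTop.coe_le_coe.mpr (min_le_right _ _)) hc
      · exact le_trans (WithTop.coe_le_coe.mpr (min_le_left _ _)) (h g' hg')
  obtain ⟨C, hC, h⟩ := hex G
  refine ⟨C, fun x => ?_⟩
  have hx : x ∈ Submodule.span O (G : Set (integralClosure O K)) := by rw [hG]; trivial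
  induction hx using Submodule.span_induction with
  | mem y hy => exact h y hy
  | zero => simp
  | add y z _ _ hy hz =>
    push_cast
    rw [map_add]
    exact v.map_le_add hy hz
  | smul o y _ hy =>
    have e : ((o • y : integralClosure O K) : K) = algebraMap O K o * (y : K) := by
      rw [Algebra.smul_def]
      rfl
    rw [e, Derivation.leibniz]
    simp only [smul_eq_mul]
    apply v.map_le_add
    · rw [v.map_mul]
      exact le_trans hy (le_add_of_nonneg_left (hv0 (algebraMap O (integralClosure O K) o)))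
    · rw [v.map_mul]
      have h1 : 0 ≤ v (y : K) + v (D (algebraMap O K o)) := add_nonneg (hv0 y) (hD o)
      exact le_trans (by exact_mod_cast hC) h1

end alg12082

section trace12082

/-- y lies in the integral closure and t is nilpotent mod π -/
theorem mem12082 {O K : Type*} [CommRing O] [IsDomain O] [Field K] [Algebra O K]
    [IsFractionRing (integralClosure O K) K]
    (y : K)
    (h : ∀ E : Ideal (integralClosure O K), E.IsPrime → E ≠ ⊥ → ∃ a b : integralClosure O K, b ∉ E ∧ y = (a : K) / (b : K)) :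
    ∃ t : integralClosure O K, (t : K) = y := by
  let J : Ideal (integralClosure O K) :=
    { carrier := {s | ∃ t : integralClosure O K, (t : K) = (s : K) * y}
      add_mem' := by
        rintro a b ⟨t, ht⟩ ⟨u, hu⟩
        exact ⟨t + u, by push_cast; rw [ht, hu]; ring⟩
      zero_mem' := ⟨0, by simp⟩
      smul_mem' := by
        rintro c s ⟨t, ht⟩
        exact ⟨c * t, by rw [smul_eq_mul]; push_cast; rw [ht]; ring⟩ }
  have hJmem : ∀ s : integralClosure O K, s ∈ J ↔ ∃ t : integralClosure O K, (t : K) = (s : K) * y := fun s => Iff.rfl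
  have hJtop : J = ⊤ := by
    by_contra hJ
    obtain ⟨E, hE, hJE⟩ := Ideal.exists_le_maximal J hJ
    have hfr : ∃ a b : integralClosure O K, b ∈ nonZeroDivisors (integralClosure O K) ∧ y = (a : K) / (b : K) := by
      obtain ⟨a, b, hb, h⟩ := IsFractionRing.div_surjective (A := integralClosure O K) y
      exact ⟨a, b, hb, h.symm⟩
    have hEbot : E ≠ ⊥ := by
      rintro rfl
      obtain ⟨a, b, hb, hab⟩ := hfr
      have hb0 : b ≠ 0 := nonZeroDivisors.ne_zero hb
      have hbK : (b : K) ≠ 0 := fun h => hb0 (Subtype.ext h)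
      have : b ∈ J := by
        rw [hJmem]
        exact ⟨a, by rw [hab]; field_simp⟩
      exact hb0 (by simpa using hJE this)
    obtain ⟨a, b, hb, hab⟩ := h E hE.isPrime hEbot
    have hb0 : b ≠ 0 := fun h => hb (by rw [h]; exact E.zero_mem)
    have hbK : (b : K) ≠ 0 := fun h => hb0 (Subtype.ext h)
    apply hb
    apply hJE
    rw [hJmem]
    exact ⟨a, by rw [hab]; field_simp⟩
  have h1 : (1 : integralClosure O K) ∈ J := by rw [hJtop]; trivial
  rw [hJmem] at h1
  obtain ⟨t, ht⟩ := h1
  exact ⟨t, by simpa using ht⟩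

/-- trace of a nilpotent mod π element -/
theorem trace12082 {O F K : Type*} [CommRing O] [IsDomain O] [IsDiscreteValuationRing O] [Field F] [Field K]
    [CharZero F] [Algebra O F] [IsFractionRing O F] [Algebra F K] [FiniteDimensional F K]
    [Algebra O K] [IsScalarTower O F K] (π : O) (hπ : Irreducible π)
    (t : integralClosure O K) (k : ℕ) (ht : t ^ k ∈ Ideal.span {algebraMap O (integralClosure O K) π}) :
    ∃ z : O, z ∈ IsLocalRing.maximalIdeal O ∧ algebraMap O F z = Algebra.trace F K (t : K) := by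
  have hinj : Function.Injective (algebraMap O K) := by
    rw [IsScalarTower.algebraMap_eq O F K]
    exact (algebraMap F K).injective.comp (IsFractionRing.injective O F)
  have htf : Module.IsTorsionFree O K := Module.isTorsionFree_iff_algebraMap_injective.mpr hinj
  have h1 : IsDedekindDomain (integralClosure O K) := integralClosure.isDedekindDomain O F K
  have h2 : IsFractionRing (integralClosure O K) K := integralClosure.isFractionRing_of_finite_extension F K
  have h3 : Module.Finite O (integralClosure O K) := IsIntegralClosure.finite O F K (integralClosure O K)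
  have h4 : Module.Free O (integralClosure O K) := IsIntegralClosure.module_free O F K (integralClosure O K)
  refine ⟨Algebra.trace O (integralClosure O K) t, ?_, ?_⟩
  · have hnil : IsNilpotent (Ideal.Quotient.mk (Ideal.map (algebraMap O (integralClosure O K)) (IsLocalRing.maximalIdeal O)) t) := by
      refine ⟨k, ?_⟩
      rw [← map_pow, Ideal.Quotient.eq_zero_iff_mem]
      have : Ideal.map (algebraMap O (integralClosure O K)) (IsLocalRing.maximalIdeal O) =
          Ideal.span {algebraMap O (integralClosure O K) π} := by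
        rw [hπ.maximalIdeal_eq, Ideal.map_span, Set.image_singleton]
      rw [this]
      exact ht
    have h5 := Algebra.trace_quotient_mk (R := O) (S := integralClosure O K) t
    have h6 := Algebra.isNilpotent_trace_of_isNilpotent (R := O ⧸ IsLocalRing.maximalIdeal O) hnil
    rw [h5] at h6
    rw [← Ideal.Quotient.eq_zero_iff_mem]
    exact h6.eq_zero
  · have h := Algebra.intTrace_eq_trace (A := O) (B := integralClosure O K)
    have h' := Algebra.algebraMap_intTrace (A := O) (K := F) (L := K) (B := integralClosure O K) t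
    rw [h] at h'
    exact h'

end trace12082

section main12082

/-- the nonzero primes of the integral closure: finitely many, at least one, maximal, containing π -/
theorem primes12082 {O F K : Type*} [CommRing O] [IsDomain O] [IsDiscreteValuationRing O] [Field F] [Field K]
    [CharZero F] [Algebra O F] [IsFractionRing O F] [Algebra F K] [FiniteDimensional F K]
    [Algebra O K] [IsScalarTower O F K] (π : O) (hπ : Irreducible π) :
    {E : Ideal (integralClosure O K) | E.IsPrime ∧ E ≠ ⊥}.Finite ∧
    {E : Ideal (integralClosure O K) | E.IsPrime ∧ E ≠ ⊥}.Nonempty ∧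
    (∀ E : Ideal (integralClosure O K), E.IsPrime → E ≠ ⊥ → E.IsMaximal ∧ algebraMap O (integralClosure O K) π ∈ E) := by
  have hinj : Function.Injective (algebraMap O K) := by
    rw [IsScalarTower.algebraMap_eq O F K]
    exact (algebraMap F K).injective.comp (IsFractionRing.injective O F)
  have htf : Module.IsTorsionFree O K := Module.isTorsionFree_iff_algebraMap_injective.mpr hinj
  have h1 : IsDedekindDomain (integralClosure O K) := integralClosure.isDedekindDomain O F K
  have h3 : Module.Finite O (integralClosure O K) := IsIntegralClosure.finite O F K (integralClosure O K)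
  have hinjS : Function.Injective (algebraMap O (integralClosure O K)) := by
    intro a b hab
    apply hinj
    exact congrArg (fun z : integralClosure O K => (z : K)) hab
  have hπS : algebraMap O (integralClosure O K) π ≠ 0 := by
    intro h
    exact hπ.ne_zero (hinjS (by rw [h, map_zero]))
  have hmem : ∀ E : Ideal (integralClosure O K), E.IsPrime → E ≠ ⊥ →
      E.IsMaximal ∧ algebraMap O (integralClosure O K) π ∈ E := by
    intro E hE hE0
    refine ⟨hE.isMaximal hE0, ?_⟩
    have hc : E.comap (algebraMap O (integralClosure O K)) ≠ ⊥ := by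
      obtain ⟨x, hx, hx0⟩ := Submodule.exists_mem_ne_zero_of_ne_bot hE0
      exact Ideal.comap_ne_bot_of_integral_mem hx0 hx (integralClosure.isIntegral x)
    have hcp : (E.comap (algebraMap O (integralClosure O K))).IsPrime := Ideal.comap_isPrime _ _
    have hcm : (E.comap (algebraMap O (integralClosure O K))).IsMaximal := hcp.isMaximal hc
    have heq := IsLocalRing.eq_maximalIdeal hcm
    have : π ∈ E.comap (algebraMap O (integralClosure O K)) := by
      rw [heq, hπ.maximalIdeal_eq]
      exact Ideal.mem_span_singleton_self π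
    exact this
  refine ⟨?_, ?_, hmem⟩
  · apply Set.Finite.subset (Ideal.finite_minimalPrimes_of_isNoetherianRing (integralClosure O K)
      (Ideal.span {algebraMap O (integralClosure O K) π}))
    rintro E ⟨hE, hE0⟩
    refine ⟨⟨hE, ?_⟩, ?_⟩
    · rw [Ideal.span_singleton_le_iff_mem]
      exact (hmem E hE hE0).2
    · rintro J ⟨hJ, hJπ⟩ hJE
      have hJ0 : J ≠ ⊥ := by
        rintro rfl
        rw [Ideal.span_singleton_le_iff_mem] at hJπ
        exact hπS (by simpa using hJπ)
      have hJm := (hmem J hJ hJ0).1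
      exact (hJm.eq_of_le hE.ne_top hJE).ge
  · obtain ⟨Q, hQ, hQm⟩ := Ideal.exists_ideal_over_maximal_of_isIntegral (S := integralClosure O K)
      (IsLocalRing.maximalIdeal O) (by
        rw [(RingHom.ker_eq_bot_iff_eq_zero _).mpr]
        · exact bot_le
        · intro x hx
          exact hinjS (by rw [hx, map_zero]))
    refine ⟨Q, hQ.isPrime, ?_⟩
    rintro rfl
    have : π ∈ Ideal.comap (algebraMap O (integralClosure O K)) ⊥ := by
      rw [hQm, hπ.maximalIdeal_eq]
      exact Ideal.mem_span_singleton_self π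
    rw [Ideal.mem_comap] at this
    exact hπS (by simpa using this)

end main12082

/-- extensions of a discrete valuation ring of residue characteristic zero to a finite extension: integrality, units,
log-derivation property and trace -/
theorem dvr_ext_package {O F K : Type*} [CommRing O] [IsDomain O] [IsDiscreteValuationRing O] [Field F] [Field K]
    [CharZero F] [Algebra O F] [IsFractionRing O F] [Algebra F K] [FiniteDimensional F K]
    [Algebra O K] [IsScalarTower O F K]
    (hres : ∀ m : ℕ, m ≠ 0 → IsUnit (m : O)) (π : O) (hπ : Irreducible π)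
    -- VB1 applied to the integral closure of O in K
    (hval : ∀ (E : Ideal (integralClosure O K)), E.IsPrime → E ≠ ⊥ →
      ∃ v : AddValuation K (WithTop ℤ), (∀ x : integralClosure O K, 0 ≤ v x) ∧
        (∀ x : integralClosure O K, x ∈ E ↔ 0 < v x) ∧
        (∃ τ : integralClosure O K, v τ = ((1 : ℤ) : WithTop ℤ)) ∧
        (∀ x : K, 0 ≤ v x → ∃ a b : integralClosure O K, b ∉ E ∧ x = (a : K) / (b : K)))
    -- the log-derivation lemma
    (hlog : ∀ (v : AddValuation K (WithTop ℤ)) (D : Derivation ℤ K K)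
      (_ : ∀ m : ℕ, m ≠ 0 → v (m : K) = 0) (_ : ∃ τ : K, v τ = ((1 : ℤ) : WithTop ℤ))
      (O₀ : Subring K) (_ : ∀ x ∈ O₀, 0 ≤ v x) (_ : ∀ x ∈ O₀, 0 ≤ v (D x))
      (t : K) (q : ℤ) (_ : 0 < q) (_ : v t = (q : WithTop ℤ)) (_ : (q : WithTop ℤ) ≤ v (D t))
      (_ : ∀ x : K, 0 ≤ v x → ∃ p : Polynomial K, (∀ i, p.coeff i ∈ O₀) ∧
        0 < v (p.eval x) ∧ v (p.derivative.eval x) = 0)
      (_ : ∃ C : ℤ, ∀ x : K, v x + (C : WithTop ℤ) ≤ v (D x)), ∀ x, v x ≤ v (D x)) :
    ∃ (m : ℕ) (_ : 0 < m) (v : Fin m → AddValuation K (WithTop ℤ)) (q : Fin m → ℤ),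
      (∀ e, 0 < q e) ∧ (∀ e, v e (algebraMap O K π) = (q e : WithTop ℤ)) ∧
      (∀ e x, IsIntegral O x → 0 ≤ v e x) ∧
      (∀ e (x : O), IsUnit x → v e (algebraMap O K x) = 0) ∧
      (∀ e (D : Derivation ℤ K K), (∀ x : O, 0 ≤ v e (D (algebraMap O K x))) →
        (q e : WithTop ℤ) ≤ v e (D (algebraMap O K π)) → ∀ x, v e x ≤ v e (D x)) ∧
      (∀ y : K, (∀ e, 0 < v e y) →
        ∃ z : O, z ∈ IsLocalRing.maximalIdeal O ∧ algebraMap O F z = Algebra.trace F K y) := by
  classical
  have hinj : Function.Injective (algebraMap O K) := by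
    rw [IsScalarTower.algebraMap_eq O F K]
    exact (algebraMap F K).injective.comp (IsFractionRing.injective O F)
  have htf : Module.IsTorsionFree O K := Module.isTorsionFree_iff_algebraMap_injective.mpr hinj
  have h1 : IsDedekindDomain (integralClosure O K) := integralClosure.isDedekindDomain O F K
  have h2 : IsFractionRing (integralClosure O K) K := integralClosure.isFractionRing_of_finite_extension F K
  have h3 : Module.Finite O (integralClosure O K) := IsIntegralClosure.finite O F K (integralClosure O K)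
  obtain ⟨hfin, hne, hmem⟩ := primes12082 (F := F) (K := K) π hπ
  have hfin' : Finite {E : Ideal (integralClosure O K) | E.IsPrime ∧ E ≠ ⊥} := hfin
  have hne' : Nonempty {E : Ideal (integralClosure O K) | E.IsPrime ∧ E ≠ ⊥} := hne.to_subtype
  obtain ⟨m, ⟨e⟩⟩ := Finite.exists_equiv_fin {E : Ideal (integralClosure O K) | E.IsPrime ∧ E ≠ ⊥}
  have hm : 0 < m := by
    obtain ⟨E⟩ := hne'
    exact lt_of_le_of_lt (Nat.zero_le _) (e E).isLt
  -- choose valuations
  have hch : ∀ i : Fin m, ∃ v : AddValuation K (WithTop ℤ), ∃ q : ℤ, 0 < q ∧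
      v (algebraMap O K π) = (q : WithTop ℤ) ∧ (∀ x : integralClosure O K, 0 ≤ v x) ∧
        (∀ x : integralClosure O K, x ∈ (e.symm i).1 ↔ 0 < v x) ∧
        (∃ τ : integralClosure O K, v τ = ((1 : ℤ) : WithTop ℤ)) ∧
        (∀ x : K, 0 ≤ v x → ∃ a b : integralClosure O K, b ∉ (e.symm i).1 ∧ x = (a : K) / (b : K)) := by
    intro i
    obtain ⟨v, hv0, hvE, hτ, hfr⟩ := hval (e.symm i).1 (e.symm i).2.1 (e.symm i).2.2
    have hπ0 : v (algebraMap O K π) ≠ ⊤ := by
      rw [Ne, v.top_iff]
      intro h
      exact hπ.ne_zero (hinj (by rw [h, map_zero]))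
    obtain ⟨q, hq⟩ := WithTop.ne_top_iff_exists.mp hπ0
    refine ⟨v, q, ?_, hq.symm, hv0, hvE, hτ, hfr⟩
    have h5 := (hvE _).mp (hmem (e.symm i).1 (e.symm i).2.1 (e.symm i).2.2).2
    have h6 : (((algebraMap O (integralClosure O K) π : integralClosure O K)) : K) = algebraMap O K π := rfl
    rw [h6, ← hq] at h5
    exact_mod_cast h5
  choose v q hq0 hvπ hv0 hvE hτ hfr using hch
  have hunit : ∀ i (x : O), IsUnit x → v i (algebraMap O K x) = 0 := by
    rintro i x ⟨u, rfl⟩
    have ha := hv0 i (algebraMap O (integralClosure O K) (u : O))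
    have hb := hv0 i (algebraMap O (integralClosure O K) ((u⁻¹ : Oˣ) : O))
    have hab : v i (algebraMap O K (u : O)) + v i (algebraMap O K ((u⁻¹ : Oˣ) : O)) = 0 := by
      rw [← (v i).map_mul, ← map_mul, Units.mul_inv, map_one, (v i).map_one]
    refine le_antisymm ?_ ha
    calc v i (algebraMap O K (u : O)) ≤ v i (algebraMap O K (u : O)) + v i (algebraMap O K ((u⁻¹ : Oˣ) : O)) :=
          le_add_of_nonneg_right hb
      _ = 0 := hab
  refine ⟨m, hm, v, q, hq0, hvπ, ?_, hunit, ?_, ?_⟩
  · intro i x hx
    exact hv0 i ⟨x, hx⟩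
  · intro i D hD hDπ
    obtain ⟨C0, hC0⟩ := hC12082 (v i) (hv0 i) D hD
    obtain ⟨τ, hτi⟩ := hτ i
    refine hlog (v i) D ?_ ⟨τ, hτi⟩ (algebraMap O K).range ?_ ?_ (algebraMap O K π) (q i) (hq0 i) (hvπ i) hDπ ?_ ?_
    · intro n hn
      have := hunit i (n : O) (hres n hn)
      rwa [map_natCast] at this
    · rintro x ⟨o, rfl⟩
      exact hv0 i (algebraMap O (integralClosure O K) o)
    · rintro x ⟨o, rfl⟩
      exact hD o
    · intro x hx
      exact halg12082 hres (e.symm i).1 (hmem (e.symm i).1 (e.symm i).2.1 (e.symm i).2.2).1 (v i) (hv0 i)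
        (hvE i) (hfr i) x hx
    · apply hbd12082 (v i) D (Set.range (fun s : integralClosure O K => (s : K))) C0 _ _ (τ : K) hτi
      · rintro x ⟨s, rfl⟩
        exact hC0 s
      · intro x hx
        obtain ⟨a, b, hb, hab⟩ := hfr i x hx
        refine ⟨a, ⟨a, rfl⟩, b, ⟨b, rfl⟩, ?_, hab⟩
        refine le_antisymm ?_ (hv0 i b)
        by_contra hc
        push Not at hc
        exact hb ((hvE i b).mpr hc)
  · intro y hy
    have hyE : ∀ E : Ideal (integralClosure O K), E.IsPrime → E ≠ ⊥ →
        ∃ a b : integralClosure O K, b ∉ E ∧ y = (a : K) / (b : K) := by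
      intro E hE hE0
      have := hfr (e ⟨E, hE, hE0⟩) y (hy _).le
      simpa using this
    obtain ⟨t, ht⟩ := mem12082 y hyE
    have htE : ∀ E : Ideal (integralClosure O K), E.IsPrime → E ≠ ⊥ → t ∈ E := by
      intro E hE hE0
      have h7 := (hvE (e ⟨E, hE, hE0⟩) t).mpr (by rw [ht]; exact hy _)
      simpa using h7
    have htr : t ∈ (Ideal.span {algebraMap O (integralClosure O K) π}).radical := by
      rw [Ideal.radical_eq_sInf, Ideal.mem_sInf]
      rintro J ⟨hJπ, hJ⟩
      apply htE J hJ
      rintro rfl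
      rw [Ideal.span_singleton_le_iff_mem] at hJπ
      have h8 : algebraMap O (integralClosure O K) π = 0 := by simpa using hJπ
      exact hπ.ne_zero (hinj (by
        rw [map_zero]
        exact congrArg (fun z : integralClosure O K => (z : K)) h8))
    obtain ⟨k, hk⟩ := htr
    obtain ⟨z, hz1, hz2⟩ := trace12082 (F := F) π hπ t k hk
    exact ⟨z, hz1, by rw [hz2, ht]⟩

end H693RF
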