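import Pool.Agent.Helper693.RF.FreeBasis
import Pool.Agent.Helper693.RF.SchejaStorch
import Pool.Agent.Helper693.RF.OrderDvr
import Pool.Agent.Helper693.RF.VB1
import Pool.Agent.Helper693.RF.VB2
import Pool.Agent.Helper693.RF.LogDer
import Pool.Agent.Helper693.RF.SkodaAbs
import Pool.Agent.Helper693.RF.FracDeriv

namespace H693RF

open MvPolynomial nonZeroDivisors

/-- the package for a discrete valuation ring and a finite extension, inputs discharged -/
theorem dvr_pkg {O F K : Type*} [CommRing O] [IsDomain O] [IsDiscreteValuationRing O] [Field F] [Field K]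
    [CharZero F] [Algebra O F] [IsFractionRing O F] [Algebra F K] [FiniteDimensional F K]
    [Algebra O K] [IsScalarTower O F K]
    (hres : ∀ m : ℕ, m ≠ 0 → IsUnit (m : O)) (π : O) (hπ : Irreducible π) :
    ∃ (m : ℕ) (_ : 0 < m) (v : Fin m → AddValuation K (WithTop ℤ)) (q : Fin m → ℤ),
      (∀ e, 0 < q e) ∧ (∀ e, v e (algebraMap O K π) = (q e : WithTop ℤ)) ∧
      (∀ e x, IsIntegral O x → 0 ≤ v e x) ∧
      (∀ e (x : O), IsUnit x → v e (algebraMap O K x) = 0) ∧
      (∀ e (D : Derivation ℤ K K), (∀ x : O, 0 ≤ v e (D (algebraMap O K x))) →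
        (q e : WithTop ℤ) ≤ v e (D (algebraMap O K π)) → ∀ x, v e x ≤ v e (D x)) ∧
      (∀ y : K, (∀ e, 0 < v e y) →
        ∃ z : O, z ∈ IsLocalRing.maximalIdeal O ∧ algebraMap O F z = Algebra.trace F K y) := by
  have : CharZero K := charZero_of_injective_algebraMap (algebraMap F K).injective
  have : IsDedekindDomain (integralClosure O K) := integralClosure.isDedekindDomain O F K
  have : IsFractionRing (integralClosure O K) K := IsIntegralClosure.isFractionRing_of_finite_extension O F K _
  refine dvr_ext_package (F := F) hres π hπ ?_ ?_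
  · intro E hE hE0
    exact exists_addValuation E hE hE0
  · intro v D hnat hunif O₀ hO₀ hD0 t q hq htq hDt halg hbd
    exact log_derivation v D hnat hunif O₀ hO₀ hD0 t q hq htq hDt halg hbd

theorem pkg_core {L P R F K ι : Type*} [Field L] [CharZero L] {n : ℕ} [CommRing P] [IsDomain P] [CommRing R] [IsDomain R]
    [Field F] [Field K] [Algebra P R] [Algebra P F] [Algebra R K] [Algebra P K] [Algebra F K] [IsScalarTower P R K]
    [IsScalarTower P F K]
    [IsFractionRing P F] [IsFractionRing R K] [FaithfulSMul P R] [Fintype ι] [DecidableEq ι] (b : Module.Basis ι P R)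
    [Algebra (MvPolynomial (Fin (n+1)) L) F] [IsFractionRing (MvPolynomial (Fin (n+1)) L) F]
    (ψ : MvPolynomial (Fin (n+1)) L ≃+* P)
    (hψ : ∀ p, algebraMap (MvPolynomial (Fin (n+1)) L) F p = algebraMap P F (ψ p))
    (Jac : R) (hJ : Jac ≠ 0) (α : ι → R) (hα : ∀ z : R, z * Jac = ∑ l, Algebra.trace P R (z * α l) • b l) :
    ∃ (m : ℕ) (v : Fin m → AddValuation K (WithTop ℤ)) (q : Fin m → ℤ),
      (∀ e, 0 < q e) ∧
      (∀ e (r : R), 0 ≤ v e (algebraMap R K r)) ∧
      (∀ e i, v e (algebraMap P K (ψ (X i))) = (q e : WithTop ℤ)) ∧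
      (∀ e (c : L), c ≠ 0 → v e (algebraMap P K (ψ (C c))) = 0) ∧
      (∀ e (D : Derivation ℤ K K),
        (∀ c : L, 0 ≤ v e (D (algebraMap P K (ψ (C c))))) →
        (∀ i, (q e : WithTop ℤ) ≤ v e (D (algebraMap P K (ψ (X i))))) → ∀ x, v e x ≤ v e (D x)) ∧
      (∀ r : R, (∀ e, v e (algebraMap R K Jac) < v e (algebraMap R K r)) →
        ∀ l, constantCoeff (ψ.symm (b.repr r l)) = 0) := by
  classical
  have : Module.Finite P R := Module.Finite.of_basis b
  have : Module.Free P R := Module.Free.of_basis b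
  have : Algebra.IsAlgebraic P R := inferInstance
  have : IsLocalization (Algebra.algebraMapSubmonoid R P⁰) K := inferInstance
  have hfd : FiniteDimensional F K := Module.Finite.of_isLocalization P R P⁰
  have hinj : Function.Injective (algebraMap (MvPolynomial (Fin (n+1)) L) F) := IsFractionRing.injective _ F
  have : CharZero F := charZero_of_injective_algebraMap hinj
  obtain ⟨O, hdvr, hfrac, ⟨hmem, hirr, hnon⟩, hmemO, hval⟩ := order_dvr (L := L) (n := n) F
  have hOK : ∀ (p : MvPolynomial (Fin (n+1)) L), algebraMap O K ⟨algebraMap _ F p, hmem p⟩ = algebraMap P K (ψ p) := by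
    intro p
    have h1 : algebraMap O K ⟨algebraMap _ F p, hmem p⟩ = algebraMap F K (algebraMap _ F p) := rfl
    rw [h1, hψ, ← IsScalarTower.algebraMap_apply P F K]
  have hres : ∀ m : ℕ, m ≠ 0 → IsUnit (m : O) := by
    intro m hm
    by_contra hcon
    have h1 : ((m : O)) = (⟨algebraMap _ F (m : MvPolynomial (Fin (n+1)) L), hmem _⟩ : O) := by
      apply Subtype.ext
      simp
    have h2 : (⟨algebraMap _ F (m : MvPolynomial (Fin (n+1)) L), hmem _⟩ : O) ∈ nonunits O := by
      rw [← h1]; exact hcon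
    rw [hnon] at h2
    simp at h2
    exact hm h2
  obtain ⟨m, hm, v, q, hq, hvπ, hint, hunit, hBL, htr⟩ := dvr_pkg (F := F) (K := K) hres _ hirr
  -- nonnegativity on `O`
  have hO0 : ∀ e (x : O), 0 ≤ v e (algebraMap O K x) := fun e x => hint e _ isIntegral_algebraMap
  -- value of `ψ b`
  have hvb : ∀ e (d : ℕ) (b : MvPolynomial (Fin (n+1)) L),
      b ∈ Ideal.span (Set.range (X : Fin (n+1) → MvPolynomial (Fin (n+1)) L)) ^ d →
      b ∉ Ideal.span (Set.range (X : Fin (n+1) → MvPolynomial (Fin (n+1)) L)) ^ (d+1) →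
      v e (algebraMap P K (ψ b)) = ((q e * d : ℤ) : WithTop ℤ) := by
    intro e d b hb1 hb2
    obtain ⟨h1, h2⟩ := hval d b hb1 hb2
    have hX0 : v e (algebraMap P K (ψ (X 0))) = (q e : WithTop ℤ) := by
      rw [← hOK]; exact hvπ e
    have hX0d : v e (algebraMap P K (ψ (X 0)) ^ d) = ((q e * d : ℤ) : WithTop ℤ) := by
      rw [AddValuation.map_pow, hX0, ← WithTop.coe_nsmul, nsmul_eq_mul, mul_comm]
    have hX0F : algebraMap (MvPolynomial (Fin (n+1)) L) F (X 0) ≠ 0 := by
      intro h
      have : (X 0 : MvPolynomial (Fin (n+1)) L) = 0 := hinj (by rw [h, map_zero])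
      exact X_ne_zero 0 this
    have hb0 : algebraMap (MvPolynomial (Fin (n+1)) L) F b ≠ 0 := by
      intro h
      have : b = 0 := hinj (by rw [h, map_zero])
      exact hb2 (by rw [this]; exact Ideal.zero_mem _)
    have h1' := hO0 e ⟨_, h1⟩
    have h2' := hO0 e ⟨_, h2⟩
    have h1k : algebraMap O K ⟨_, h1⟩ * algebraMap P K (ψ (X 0)) ^ d = algebraMap P K (ψ b) := by
      have : algebraMap O K ⟨_, h1⟩ = algebraMap F K (algebraMap _ F b / algebraMap _ F (X 0 : MvPolynomial (Fin (n+1)) L) ^ d) := rfl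
      rw [this, ← hOK, ← hOK]
      have e1 : algebraMap O K ⟨algebraMap _ F (X 0), hmem (X 0)⟩ = algebraMap F K (algebraMap _ F (X 0 : MvPolynomial (Fin (n+1)) L)) := rfl
      have e2 : algebraMap O K ⟨algebraMap _ F b, hmem b⟩ = algebraMap F K (algebraMap _ F b) := rfl
      rw [e1, e2, ← map_pow (algebraMap F K), ← map_mul (algebraMap F K)]
      congr 1
      field_simp
    have h2k : algebraMap O K ⟨_, h2⟩ * algebraMap P K (ψ b) = algebraMap P K (ψ (X 0)) ^ d := by
      have : algebraMap O K ⟨_, h2⟩ = algebraMap F K (algebraMap _ F (X 0 : MvPolynomial (Fin (n+1)) L) ^ d / algebraMap _ F b) := rfl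
      rw [this, ← hOK, ← hOK]
      have e1 : algebraMap O K ⟨algebraMap _ F (X 0), hmem (X 0)⟩ = algebraMap F K (algebraMap _ F (X 0 : MvPolynomial (Fin (n+1)) L)) := rfl
      have e2 : algebraMap O K ⟨algebraMap _ F b, hmem b⟩ = algebraMap F K (algebraMap _ F b) := rfl
      rw [e1, e2, ← map_pow (algebraMap F K), ← map_mul (algebraMap F K)]
      congr 1
      field_simp
    have k1 := congrArg (v e) h1k
    have k2 := congrArg (v e) h2k
    rw [AddValuation.map_mul, hX0d] at k1
    rw [AddValuation.map_mul, hX0d] at k2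
    apply le_antisymm
    · rw [← k2]
      exact le_add_of_nonneg_left h2'
    · rw [← k1]
      exact le_add_of_nonneg_left h1'
  have hXval : ∀ e i, v e (algebraMap P K (ψ (X i))) = (q e : WithTop ℤ) := by
    intro e i
    have := hvb e 1 (X i) (by rw [pow_one]; exact Ideal.subset_span ⟨i, rfl⟩) (by
      intro hcon
      rw [od_mem, od_X] at hcon
      exact absurd hcon (by norm_num))
    simpa using this
  have hCval : ∀ e (c : L), c ≠ 0 → v e (algebraMap P K (ψ (C c))) = 0 := by
    intro e c hc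
    rw [← hOK]
    apply hunit
    by_contra hcon
    have h2 : (⟨algebraMap _ F (C c : MvPolynomial (Fin (n+1)) L), hmem _⟩ : O) ∈ nonunits O := hcon
    rw [hnon] at h2
    simp at h2
    exact hc h2
  refine ⟨m, v, q, hq, ?_, hXval, hCval, ?_, ?_⟩
  · -- nonnegativity on R
    intro e r
    apply hint
    have hr : IsIntegral P r := Algebra.IsIntegral.isIntegral r
    have hPO : ∀ p : P, algebraMap P F p ∈ O := by
      intro p
      have := hmem (ψ.symm p)
      rwa [hψ, RingEquiv.apply_symm_apply] at this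
    let φ : P →+* O := (algebraMap P F).codRestrict O hPO
    refine IsIntegral.map_of_comp_eq φ (algebraMap R K) ?_ hr
    apply RingHom.ext
    intro p
    have h1 : (algebraMap O K).comp φ p = algebraMap F K (algebraMap P F p) := rfl
    rw [h1, ← IsScalarTower.algebraMap_apply P F K, RingHom.comp_apply, ← IsScalarTower.algebraMap_apply P R K]
  · -- log derivation
    intro e D hD1 hD2
    refine hBL e D ?_ ?_
    · intro x
      obtain ⟨d, a, b, ha, hb, hb', hx⟩ := (hmemO x).1 x.2
      have hfd := (frac_deriv_nonneg ((algebraMap P K).comp (ψ : MvPolynomial (Fin (n+1)) L →+* P)) (v e) (q e) (hq e) D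
        (fun c => by
          by_cases hc : c = 0
          · subst hc; simp
          · exact (hCval e c hc).ge) hD1 (fun i => (hXval e i).ge) hD2).2 d a b ha hb (hvb e d b hb hb')
      have hx' : algebraMap O K x = algebraMap P K (ψ a) / algebraMap P K (ψ b) := by
        have e0 : algebraMap O K x = algebraMap F K (x : F) := rfl
        rw [e0, hx, map_div₀, hψ, hψ, ← IsScalarTower.algebraMap_apply P F K, ← IsScalarTower.algebraMap_apply P F K]
      rw [hx']
      exact hfd
    · rw [hOK]; exact hD2 0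
  · -- Skoda
    intro r hr
    have hJK : algebraMap R K Jac ≠ 0 := by simpa using hJ
    refine skoda_abs (F := F) (K := K) b Jac hJ α hα (fun c => constantCoeff (ψ.symm c) = 0) (fun y => ∀ e, 0 < v e y) ?_ ?_ r ?_
    · intro y hy r e
      rw [AddValuation.map_mul]
      have h0 : 0 ≤ v e (algebraMap R K r) := by
        apply hint
        have hr : IsIntegral P r := Algebra.IsIntegral.isIntegral r
        have hPO : ∀ p : P, algebraMap P F p ∈ O := by
          intro p
          have := hmem (ψ.symm p)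
          rwa [hψ, RingEquiv.apply_symm_apply] at this
        let φ : P →+* O := (algebraMap P F).codRestrict O hPO
        refine IsIntegral.map_of_comp_eq φ (algebraMap R K) ?_ hr
        apply RingHom.ext
        intro p
        have h1 : (algebraMap O K).comp φ p = algebraMap F K (algebraMap P F p) := rfl
        rw [h1, ← IsScalarTower.algebraMap_apply P F K, RingHom.comp_apply, ← IsScalarTower.algebraMap_apply P R K]
      exact lt_of_lt_of_le (hy e) (le_add_of_nonneg_right h0)
    · intro y hy c hc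
      obtain ⟨z, hz, hzt⟩ := htr y hy
      have hz' : z = (⟨algebraMap _ F (ψ.symm c), hmem _⟩ : O) := by
        apply IsFractionRing.injective O F
        rw [hzt, ← hc]
        show _ = algebraMap _ F (ψ.symm c)
        rw [hψ, RingEquiv.apply_symm_apply]
      rw [hz'] at hz
      exact (hnon _).1 hz
    · intro e
      by_contra hcon
      rw [not_lt] at hcon
      have h1 : algebraMap R K r = algebraMap R K r / algebraMap R K Jac * algebraMap R K Jac := by
        field_simp
      have h2 := hr e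
      rw [h1, AddValuation.map_mul] at h2
      have h3 : v e (algebraMap R K r / algebraMap R K Jac) + v e (algebraMap R K Jac) ≤ v e (algebraMap R K Jac) := by
        calc _ ≤ 0 + v e (algebraMap R K Jac) := add_le_add_left hcon _
          _ = _ := zero_add _
      exact absurd h2 (not_lt.mpr h3)

theorem exists_derivation_int {K : Type*} [Field K] (f : K → K) (hadd : ∀ x y, f (x+y) = f x + f y)
    (hmul : ∀ x y, f (x*y) = x * f y + y * f x) : ∃ D : Derivation ℤ K K, ∀ x, D x = f x := by
  let F : K →+ K := AddMonoidHom.mk' f hadd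
  exact ⟨Derivation.mk' F.toIntLinearMap (fun x y => hmul x y), fun x => rfl⟩

theorem pkg_abs {L P R K ι : Type*} [Field L] [CharZero L] {n : ℕ} [CommRing P] [IsDomain P] [CommRing R] [IsDomain R]
    [Field K] [Algebra P R] [Algebra R K] [Algebra P K] [IsScalarTower P R K]
    [IsFractionRing R K] [FaithfulSMul P R] [Fintype ι] [DecidableEq ι] (b : Module.Basis ι P R)
    (ψ : MvPolynomial (Fin (n+1)) L ≃+* P)
    (Jac : R) (hJ : Jac ≠ 0) (α : ι → R) (hα : ∀ z : R, z * Jac = ∑ l, Algebra.trace P R (z * α l) • b l) :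
    ∃ (m : ℕ) (v : Fin m → AddValuation K (WithTop ℤ)) (q : Fin m → ℤ),
      (∀ e, 0 < q e) ∧
      (∀ e (r : R), 0 ≤ v e (algebraMap R K r)) ∧
      (∀ e i, v e (algebraMap P K (ψ (X i))) = (q e : WithTop ℤ)) ∧
      (∀ e (c : L), c ≠ 0 → v e (algebraMap P K (ψ (C c))) = 0) ∧
      (∀ e (D : Derivation ℤ K K),
        (∀ c : L, 0 ≤ v e (D (algebraMap P K (ψ (C c))))) →
        (∀ i, (q e : WithTop ℤ) ≤ v e (D (algebraMap P K (ψ (X i))))) → ∀ x, v e x ≤ v e (D x)) ∧
      (∀ r : R, (∀ e, v e (algebraMap R K Jac) < v e (algebraMap R K r)) →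
        ∀ l, constantCoeff (ψ.symm (b.repr r l)) = 0) := by
  classical
  have : FaithfulSMul P K := by
    rw [faithfulSMul_iff_algebraMap_injective, IsScalarTower.algebraMap_eq P R K]
    exact (IsFractionRing.injective R K).comp (FaithfulSMul.algebraMap_injective P R)
  let iFK : Algebra (FractionRing P) K := FractionRing.liftAlgebra P K
  let iQF : Algebra (MvPolynomial (Fin (n+1)) L) (FractionRing P) :=
    ((algebraMap P (FractionRing P)).comp (ψ : MvPolynomial (Fin (n+1)) L →+* P)).toAlgebra
  have hQF : ∀ p, algebraMap (MvPolynomial (Fin (n+1)) L) (FractionRing P) p = algebraMap P (FractionRing P) (ψ p) :=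
    fun _ => rfl
  have hQFinj : Function.Injective (algebraMap (MvPolynomial (Fin (n+1)) L) (FractionRing P)) := by
    intro x y hxy
    rw [hQF, hQF] at hxy
    exact ψ.injective (IsFractionRing.injective P (FractionRing P) hxy)
  have hfs : FaithfulSMul (MvPolynomial (Fin (n+1)) L) (FractionRing P) :=
    (faithfulSMul_iff_algebraMap_injective _ _).mpr hQFinj
  have hfrQ : IsFractionRing (MvPolynomial (Fin (n+1)) L) (FractionRing P) := by
    refine IsFractionRing.of_field _ _ fun z => ?_
    obtain ⟨x, y, -, hz⟩ := IsFractionRing.div_surjective (A := P) z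
    refine ⟨ψ.symm x, ψ.symm y, ?_⟩
    rw [hQF, hQF, RingEquiv.apply_symm_apply, RingEquiv.apply_symm_apply, hz]
  exact pkg_core (F := FractionRing P) b ψ hQF Jac hJ α hα

/-- the valuation package -/
theorem valuation_package {L : Type*} [Field L] [CharZero L] {n : ℕ} (M : ℕ) (hM : 0 < M)
    (g h : Fin (n+1) → MvPolynomial (Fin (n+1)) L) (hh : ∀ i, (h i).totalDegree < M)
    (hg : ∀ i, g i = h i + X i ^ M) :
    ∃ (m : ℕ) (v : Fin m → AddValuation (FractionRing (MvPolynomial (Fin (n+1)) L)) (WithTop ℤ))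
      (q : Fin m → ℤ),
      (∀ e, 0 < q e) ∧
      (∀ e (r : MvPolynomial (Fin (n+1)) L), 0 ≤ v e (algebraMap _ _ r)) ∧
      (∀ e i, v e (algebraMap _ _ (g i)) = (q e : WithTop ℤ)) ∧
      (∀ e (c : L), c ≠ 0 → v e (algebraMap _ _ (C c : MvPolynomial (Fin (n+1)) L)) = 0) ∧
      (∀ e (D : Derivation ℤ (FractionRing (MvPolynomial (Fin (n+1)) L)) (FractionRing (MvPolynomial (Fin (n+1)) L))),
        (∀ c : L, 0 ≤ v e (D (algebraMap _ _ (C c : MvPolynomial (Fin (n+1)) L)))) →
        (∀ i, (q e : WithTop ℤ) ≤ v e (D (algebraMap _ _ (g i)))) → ∀ x, v e x ≤ v e (D x)) ∧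
      (∀ r : MvPolynomial (Fin (n+1)) L,
        (∀ e, v e (algebraMap _ _ ((Matrix.of fun i j => pderiv j (g i)).det)) < v e (algebraMap _ _ r)) →
        r ∈ Ideal.span (Set.range g)) := by
  classical
  obtain ⟨hinj, b, hb⟩ := free_basis M hM g h hh hg
  obtain ⟨Δ, hΔ, hΔJ⟩ := scheja_storch g
  obtain ⟨α, hα⟩ := trace_identity b Δ hΔ
  have hJ0 := jac_ne_zero M hM g h hh hg
  rw [hΔJ] at hα
  have key := pkg_abs (K := FractionRing (MvPolynomial (Fin (n+1)) L)) b
    (AlgEquiv.ofInjective (aeval g : MvPolynomial (Fin (n+1)) L →ₐ[L] MvPolynomial (Fin (n+1)) L) hinj).toRingEquiv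
    _ hJ0 α hα
  obtain ⟨m, v, q, hq, h0, hX, hC, hBL, hSk⟩ := key
  have hψ : ∀ p : MvPolynomial (Fin (n+1)) L,
      algebraMap (aeval g : MvPolynomial (Fin (n+1)) L →ₐ[L] MvPolynomial (Fin (n+1)) L).range
      (FractionRing (MvPolynomial (Fin (n+1)) L))
        ((AlgEquiv.ofInjective (aeval g : MvPolynomial (Fin (n+1)) L →ₐ[L] MvPolynomial (Fin (n+1)) L) hinj).toRingEquiv p) =
      algebraMap _ _ (aeval g p) := fun p => rfl
  refine ⟨m, v, q, hq, h0, ?_, ?_, ?_, ?_⟩
  · intro e i
    have := hX e i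
    rwa [hψ, aeval_X] at this
  · intro e c hc
    have := hC e c hc
    rwa [hψ, aeval_C] at this
  · intro e D h1 h2
    obtain ⟨D', hD'⟩ := exists_derivation_int (K := FractionRing (MvPolynomial (Fin (n+1)) L)) (fun x => D x)
      (fun x y => map_add D x y) (fun x y => D.leibniz x y)
    intro x
    have hx : D x = D' x := (hD' x).symm
    rw [hx]
    clear hx
    revert x
    refine hBL e D' ?_ ?_
    · intro c
      rw [hψ, aeval_C, hD']
      exact h1 c
    · intro i
      rw [hψ, aeval_X, hD']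
      exact h2 i
  · intro r hr
    have h1 := hSk r hr
    rw [← b.sum_repr r]
    refine Ideal.sum_mem _ fun l _ => ?_
    rw [Algebra.smul_def]
    refine Ideal.mul_mem_right _ _ ?_
    have h2 := h1 l
    set p := (AlgEquiv.ofInjective (aeval g : MvPolynomial (Fin (n+1)) L →ₐ[L] MvPolynomial (Fin (n+1)) L) hinj).toRingEquiv.symm
      (b.repr r l) with hp
    have h3 : (algebraMap (aeval g : MvPolynomial (Fin (n+1)) L →ₐ[L] MvPolynomial (Fin (n+1)) L).range
        (MvPolynomial (Fin (n+1)) L) (b.repr r l)) = aeval g p := by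
      have h4 : (b.repr r l) = (AlgEquiv.ofInjective (aeval g : MvPolynomial (Fin (n+1)) L →ₐ[L] MvPolynomial (Fin (n+1)) L) hinj).toRingEquiv p := by
        rw [hp, RingEquiv.apply_symm_apply]
      rw [h4]
      rfl
    rw [h3]
    have h5 : p ∈ Ideal.span (Set.range (X : Fin (n+1) → MvPolynomial (Fin (n+1)) L)) ^ 1 := by
      rw [od_mem]
      rw [Nat.cast_one, Order.one_le_iff_ne_zero]
      intro hcon
      exact (od_eq_zero p).1 hcon h2
    rw [pow_one] at h5
    have h6 : aeval g p ∈ (Ideal.span (Set.range (X : Fin (n+1) → MvPolynomial (Fin (n+1)) L))).map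
        (aeval g : MvPolynomial (Fin (n+1)) L →ₐ[L] MvPolynomial (Fin (n+1)) L) := Ideal.mem_map_of_mem _ h5
    rw [Ideal.map_span, ← Set.range_comp] at h6
    have h7 : (⇑(aeval g : MvPolynomial (Fin (n+1)) L →ₐ[L] MvPolynomial (Fin (n+1)) L) ∘ X) = g := by
      funext i
      simp
    rwa [h7] at h6

end H693RF
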