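import Pool.Agent.Helper693.RF.Defs
import Pool.Agent.Helper693.RF.ValPack
import Pool.Agent.Helper693.RF.ExLin
import Pool.Agent.Helper693.RF.Centred
import Pool.Agent.Helper693.RF.PartB
import Pool.Agent.Helper693.RF.EndCount
import Pool.Agent.Helper693.RF.Misc
import Pool.Agent.Helper693.RF.FormRel
import Pool.Agent.Helper693.RF.Reduction
import Pool.Agent.Helper693.RF.DetIneq
import Pool.Agent.Helper693.RF.Count

namespace H693RF

open MvPolynomial

/-- the span is unchanged by an invertible matrix of constants -/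
theorem span_matrix {L : Type*} [Field L] {n k : ℕ} (f : Fin k → MvPolynomial (Fin n) L)
    (Cm : Matrix (Fin k) (Fin k) L) (hC : IsUnit Cm.det) :
    Ideal.span (Set.range (fun i => ∑ j, C (Cm i j) * f j)) = Ideal.span (Set.range f) := by
  apply le_antisymm
  · rw [Ideal.span_le]
    rintro _ ⟨i, rfl⟩
    exact Ideal.sum_mem _ fun j _ => Ideal.mul_mem_left _ _ (Ideal.subset_span ⟨j, rfl⟩)
  · rw [Ideal.span_le]
    rintro _ ⟨i, rfl⟩
    have h1 : f i = ∑ j, C (Cm⁻¹ i j) * (∑ l, C (Cm j l) * f l) := by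
      have h2 : Cm⁻¹ * Cm = 1 := Matrix.nonsing_inv_mul Cm hC
      calc f i = ∑ l, C ((1 : Matrix (Fin k) (Fin k) L) i l) * f l := by
            simp [Matrix.one_apply]
        _ = ∑ l, C ((Cm⁻¹ * Cm) i l) * f l := by rw [h2]
        _ = _ := by
            simp only [Matrix.mul_apply, map_sum, map_mul, Finset.sum_mul, Finset.mul_sum]
            rw [Finset.sum_comm]
            simp only [mul_assoc]
    show f i ∈ _
    rw [h1]
    exact Ideal.sum_mem _ fun j _ => Ideal.mul_mem_left _ _ (Ideal.subset_span ⟨j, rfl⟩)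

/-- the valuation ideal -/
def valIdeal {R K : Type*} [CommRing R] [Field K] [Algebra R K] (v : AddValuation K (WithTop ℤ))
    (hv0 : ∀ r : R, 0 ≤ v (algebraMap R K r)) (q : ℤ) : Ideal R where
  carrier := {r | (q : WithTop ℤ) ≤ v (algebraMap R K r)}
  zero_mem' := by simp
  add_mem' := by
    intro a b ha hb
    simp only [Set.mem_setOf_eq] at *
    rw [map_add]
    exact le_trans (le_min ha hb) (v.map_add _ _)
  smul_mem' := by
    intro c a ha
    simp only [Set.mem_setOf_eq, smul_eq_mul] at *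
    rw [map_mul, AddValuation.map_mul]
    exact le_trans ha (le_add_of_nonneg_left (hv0 c))

theorem local_theorem_succ {L : Type*} [Field L] [CharZero L] {n k : ℕ} (hnk : n + 1 ≤ k)
    (f : Fin k → MvPolynomial (Fin (n+1)) L) (hf : ∀ i, f i ∈ mI (n+1) L)
    (N : ℕ) (hN : mI (n+1) L ^ N ≤ Ideal.span (Set.range f) ⊔ mI (n+1) L ^ (N+1))
    (s : ℕ) (hs : ¬ mI (n+1) L ^ s ≤ Ideal.span (Set.range f) ⊔ mI (n+1) L ^ N) :
    FiniteDimensional L ((Fin k → MvPolynomial (Fin (n+1)) L) ⧸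
      (derSub (Ideal.span (Set.range f) ⊔ mI (n+1) L ^ N) f).restrictScalars L) ∧
    (k - (n+1)) * (s + 1) ≤ Module.finrank L ((Fin k → MvPolynomial (Fin (n+1)) L) ⧸
      (derSub (Ideal.span (Set.range f) ⊔ mI (n+1) L ^ N) f).restrictScalars L) := by
  classical
  obtain ⟨Cm, hC, N', hN', hred⟩ := reduction_exists
    (fun k hk g hg N hN => exists_form_relation hk g hg N hN) hnk f hf N hN
  set f' : Fin k → MvPolynomial (Fin (n+1)) L := fun i => ∑ j, C (Cm i j) * f j with hf'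
  have hspan : Ideal.span (Set.range f') = Ideal.span (Set.range f) := span_matrix f Cm hC
  have hf'm : ∀ i, f' i ∈ mI (n+1) L := fun i =>
    Ideal.sum_mem _ fun j _ => Ideal.mul_mem_left _ _ (hf j)
  have hN0 : mI (n+1) L ^ N ≤ Ideal.span (Set.range f') ⊔ mI (n+1) L ^ (N+1) := by rw [hspan]; exact hN
  set I : Ideal (MvPolynomial (Fin (n+1)) L) := Ideal.span (Set.range f) ⊔ mI (n+1) L ^ N with hI
  have hI' : Ideal.span (Set.range f') ⊔ mI (n+1) L ^ N = I := by rw [hspan]
  -- truncations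
  set M := N + N' + 1 with hM
  choose h hh1 hh2 hh3 using fun i : Fin (n+1) => exists_trunc M (by omega) (f' (Fin.castLE hnk i)) (hf'm _)
  let g : Fin (n+1) → MvPolynomial (Fin (n+1)) L := fun i => h i + X i ^ M
  have hXM : ∀ i, (X i : MvPolynomial (Fin (n+1)) L) ^ M ∈ mI (n+1) L ^ M := fun i =>
    Ideal.pow_mem_pow (Ideal.subset_span (Set.mem_range_self i)) M
  have hfg : ∀ i : Fin (n+1), f' (Fin.castLE hnk i) - g i ∈ mI (n+1) L ^ M := by
    intro i
    have : f' (Fin.castLE hnk i) - g i = (f' (Fin.castLE hnk i) - h i) - X i ^ M := by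
      simp only [g]; ring
    rw [this]
    exact Ideal.sub_mem _ (hh2 i) (hXM i)
  have hMN : mI (n+1) L ^ M ≤ mI (n+1) L ^ N := Ideal.pow_le_pow_right (by omega)
  have hgI : ∀ i, g i ∈ I := by
    intro i
    have h1 : g i = f' (Fin.castLE hnk i) - (f' (Fin.castLE hnk i) - g i) := by ring
    rw [h1]
    refine Ideal.sub_mem _ ?_ ?_
    · rw [← hI']
      exact Ideal.mem_sup_left (Ideal.subset_span ⟨_, rfl⟩)
    · exact Ideal.mem_sup_right (hMN (hfg i))
  obtain ⟨m, v, q, hq, hv0, hvg, hvL, hBL, hSk⟩ := valuation_package M (by omega) g h hh1 (fun i => rfl)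
  have hJ0 := jac_ne_zero M (by omega) g h hh1 (fun i => rfl)
  obtain ⟨-, b, -⟩ := free_basis M (by omega) g h hh1 (fun i => rfl)
  have hfin := finite_quot_of_basis g b
  obtain ⟨l, hls, hl0, hlne, w, hw0, hwc, hwdet⟩ := exists_linear s I hs
  obtain ⟨e, hcent, hle⟩ := exists_centred g hfin m v hv0 (fun e i => by
    rw [hvg e i]; exact_mod_cast hq e) _ hJ0 hSk N I hgI le_sup_right _ hls
  -- integers
  have hlK : algebraMap _ (FractionRing (MvPolynomial (Fin (n+1)) L)) l ≠ 0 := by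
    simpa using hlne
  have hJK : algebraMap _ (FractionRing (MvPolynomial (Fin (n+1)) L)) ((Matrix.of fun i j => pderiv j (g i)).det) ≠ 0 := by
    simpa using hJ0
  obtain ⟨bb, hbb⟩ := WithTop.ne_top_iff_exists.1 ((AddValuation.ne_top_iff (v e)).2 hlK)
  obtain ⟨J, hJ⟩ := WithTop.ne_top_iff_exists.1 ((AddValuation.ne_top_iff (v e)).2 hJK)
  have hsb : (s : ℤ) * bb ≤ J := by
    rw [map_pow, AddValuation.map_pow, ← hbb, ← hJ, ← WithTop.coe_nsmul] at hle
    have := WithTop.coe_le_coe.1 hle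
    simpa using this
  have hcount := count_lemma (v e) (hv0 e) hcent (hvL e) (q e) (hq e) bb J s l hl0 hbb.symm
    ⟨w, hw0, hwc, hwdet⟩ hsb (by
      intro w' hw'0 hw'c hw'det
      rw [hJ]
      exact det_ineq (v e) (hv0 e) hcent (hvL e) g (q e) (hvg e) hJ0 (hBL e) w' hw'det)
    (valIdeal (v e) (hv0 e) (q e)) (fun r => Iff.rfl)
  have hpb := part_b hnk (v e) (hv0 e) hcent (q e) g (hvg e) (hBL e) f' N M (by omega) hN0 N' (by omega) hN' hfg
    (hred ((v e).comap (algebraMap _ _)) (hv0 e) hcent (q e))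
  obtain ⟨hpb1, hpb2⟩ := hpb
  have hfinI : FiniteDimensional L (MvPolynomial (Fin (n+1)) L ⧸ I) := finite_quot N I le_sup_right
  have hend := end_count (L := L) hnk f' I (valIdeal (v e) (hv0 e) (q e)) (fun r hr => hpb1 r (by rw [hI']; exact hr)) hfinI
    (fun D hD j => hpb2 D (fun i hi => by rw [hI']; exact hD i hi) j) s hcount.2
  obtain ⟨E⟩ := derSub_equiv f I (fun i => Ideal.mem_sup_left (Ideal.subset_span ⟨i, rfl⟩)) Cm hC
  obtain ⟨hend1, hend2⟩ := hend
  refine ⟨Module.Finite.equiv E, ?_⟩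
  rw [← LinearEquiv.finrank_eq E]
  exact hend2

/-- LOCAL THEOREM -/
theorem local_theorem {L : Type*} [Field L] [CharZero L] {n k : ℕ} (hn : 0 < n) (hnk : n ≤ k)
    (f : Fin k → MvPolynomial (Fin n) L) (hf : ∀ i, f i ∈ mI n L)
    (N : ℕ) (hN : mI n L ^ N ≤ Ideal.span (Set.range f) ⊔ mI n L ^ (N+1))
    (s : ℕ) (hs : ¬ mI n L ^ s ≤ Ideal.span (Set.range f) ⊔ mI n L ^ N) :
    FiniteDimensional L ((Fin k → MvPolynomial (Fin n) L) ⧸
      (derSub (Ideal.span (Set.range f) ⊔ mI n L ^ N) f).restrictScalars L) ∧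
    (k - n) * (s + 1) ≤ Module.finrank L ((Fin k → MvPolynomial (Fin n) L) ⧸
      (derSub (Ideal.span (Set.range f) ⊔ mI n L ^ N) f).restrictScalars L) := by
  obtain ⟨n', rfl⟩ := Nat.exists_eq_succ_of_ne_zero hn.ne'
  exact local_theorem_succ hnk f hf N hN s hs

end H693RF
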