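import Pool.Agent.Helper693.RF.Defs

namespace H693RF

open MvPolynomial

theorem ev_smul {𝕜 : Type*} [Field 𝕜] {m : ℕ} {φ : MvPolynomial (Fin m) 𝕜} {d : ℕ}
    (h : φ.IsHomogeneous d) (t : 𝕜) (x : Fin m → 𝕜) : eval (t • x) φ = t ^ d * eval x φ := by
  rw [eval_eq', eval_eq', Finset.mul_sum]
  refine Finset.sum_congr rfl (fun e he => ?_)
  have h1 := h (mem_support_iff.1 he)
  have h2 : ∑ i, e i = d := by
    rw [← h1, Finsupp.weight_apply, Finsupp.sum_fintype]
    · simp
    · simp
  simp only [Pi.smul_apply, smul_eq_mul, mul_pow, Finset.prod_mul_distrib,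
    Finset.prod_pow_eq_pow_sum, h2]
  ring

/-- H1a -/
theorem coneData_of_variety {𝕜 : Type*} [Field 𝕜] [IsAlgClosed 𝕜] [CharZero 𝕜] {r n q : ℕ} (hq : n + q = r)
    (P : Ideal (MvPolynomial (Fin (r+1)) 𝕜)) (hP : IsSmoothProjectiveVariety 𝕜 r n P) : ConeData 𝕜 r n q P := by
  refine ⟨hq, hP.homogeneous, ?_, hP.isPrime.ne_top⟩
  intro G hG c
  set D := (Matrix.of fun i j => pderiv (c j) (G i)).det with hD
  have key : ∀ x : Fin (r+1) → 𝕜, x ≠ 0 → (∀ F ∈ P, eval x F = 0) → eval x D = 0 := by
    intro x hx0 hx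
    have h1 := hP.smooth x hx0 hx
    set W := Submodule.span 𝕜 {v : Fin (r+1) → 𝕜 | ∃ F ∈ P, v = fun j => eval x (pderiv j F)} with hW
    have h2 : Module.finrank 𝕜 W = q := by omega
    let w : Fin (q+1) → W := fun i => ⟨fun j => eval x (pderiv j (G i)),
      Submodule.subset_span ⟨G i, hG i, rfl⟩⟩
    have h3 : ¬ LinearIndependent 𝕜 w := by
      intro hli
      have := hli.fintype_card_le_finrank
      rw [h2, Fintype.card_fin] at this
      omega
    obtain ⟨g, hg, i0, hi0⟩ := Fintype.not_linearIndependent_iff.1 h3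
    rw [hD, RingHom.map_det]
    apply Matrix.exists_vecMul_eq_zero_iff.1
    refine ⟨g, fun h => hi0 (by rw [h]; rfl), ?_⟩
    funext j
    have h4 := congrArg (fun u : W => (u : Fin (r+1) → 𝕜) (c j)) hg
    simp only [Submodule.coe_sum, Submodule.coe_smul, Finset.sum_apply, Pi.smul_apply,
      smul_eq_mul, Submodule.coe_zero, Pi.zero_apply] at h4
    simp only [Matrix.vecMul, dotProduct, RingHom.mapMatrix_apply, Matrix.map_apply,
      Matrix.of_apply, Pi.zero_apply]
    exact h4
  have hzero : eval (0 : Fin (r+1) → 𝕜) D = 0 := by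
    obtain ⟨x1, hx1, hz1⟩ := hP.nonempty
    let p : Polynomial 𝕜 := aeval (fun j => Polynomial.C (x1 j) * Polynomial.X) D
    have hp : ∀ t : 𝕜, p.eval t = eval (t • x1) D := by
      intro t
      show Polynomial.eval t (aeval (fun j => Polynomial.C (x1 j) * Polynomial.X) D) = _
      rw [← Polynomial.coe_evalRingHom, aeval_def, MvPolynomial.hom_eval₂, eval, coe_eval₂Hom]
      congr 1
      · ext a; simp
      · funext j
        show Polynomial.eval t (Polynomial.C (x1 j) * Polynomial.X) = t * x1 j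
        rw [Polynomial.eval_mul, Polynomial.eval_C, Polynomial.eval_X, mul_comm]
    have hroot : ∀ t : 𝕜, t ≠ 0 → p.eval t = 0 := by
      intro t ht
      rw [hp]
      apply key
      · intro h
        exact hx1 ((smul_eq_zero.1 h).resolve_left ht)
      · intro F hF
        rw [← sum_homogeneousComponent F, map_sum]
        refine Finset.sum_eq_zero (fun d _ => ?_)
        rw [ev_smul (homogeneousComponent_isHomogeneous d F), hz1 _ (hP.homogeneous F hF d),
          mul_zero]
    have hp0 : p = 0 := by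
      apply Polynomial.eq_zero_of_infinite_isRoot
      refine Set.Infinite.mono (s := {t : 𝕜 | t ≠ 0}) (fun t ht => hroot t ht) ?_
      have : {t : 𝕜 | t ≠ 0} = ({0} : Set 𝕜)ᶜ := by ext; simp
      rw [this]
      exact (Set.finite_singleton (0 : 𝕜)).infinite_compl
    have h5 := hp 0
    rw [hp0, Polynomial.eval_zero, zero_smul] at h5
    exact h5.symm
  have hvan : D ∈ vanishingIdeal 𝕜 (zeroLocus 𝕜 P) := by
    rw [mem_vanishingIdeal_iff]
    intro x hx
    rw [mem_zeroLocus_iff] at hx
    rw [aeval_eq_eval]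
    by_cases hx0 : x = 0
    · rw [hx0]; exact hzero
    · exact key x hx0 (fun F hF => by
        have := hx F hF
        rwa [aeval_eq_eval] at this)
  rw [vanishingIdeal_zeroLocus_eq_radical, hP.isPrime.radical] at hvan
  exact hvan

end H693RF
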