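import Pool.Agent.Helper693.RF.Defs

namespace H693RF

open MvPolynomial

theorem smoothAt_minor {𝕜 : Type*} [Field 𝕜] {q s : ℕ} (M : Fin q → (Fin s → 𝕜))
    (hM : LinearIndependent 𝕜 M) :
    ∃ c : Fin q → Fin s, (Matrix.of fun i j => M i (c j)).det ≠ 0 := by
  have h1 : (Matrix.of M).rank = q := by
    have := LinearIndependent.rank_matrix (M := Matrix.of M) hM
    simpa using this
  rw [Matrix.rank_eq_finrank_span_cols] at h1
  obtain ⟨f, h2, _, h3⟩ := Submodule.exists_fun_fin_finrank_span_eq 𝕜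
    (Set.range (Matrix.of M).col)
  choose c hc using h2
  refine ⟨fun j => c (Fin.cast h1.symm j), ?_⟩
  have h4 : LinearIndependent 𝕜 (Matrix.of fun i j => M i (c (Fin.cast h1.symm j))).col := by
    have h5 : (Matrix.of fun i j => M i (c (Fin.cast h1.symm j))).col =
        f ∘ (Fin.cast h1.symm) := by
      funext j
      rw [Function.comp_apply, ← hc]
      rfl
    rw [h5]
    exact h3.comp _ (Fin.cast_injective _)
  rw [Matrix.linearIndependent_cols_iff_isUnit, Matrix.isUnit_iff_isUnit_det] at h4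
  exact h4.ne_zero

theorem smoothAt_grad {𝕜 : Type*} [Field 𝕜] {r n q : ℕ} (hq : n + q = r)
    (P : Ideal (MvPolynomial (Fin (r+1)) 𝕜)) (hP : IsSmoothProjectiveVariety 𝕜 r n P)
    (x : Fin (r+1) → 𝕜) (hx : x ≠ 0) (hxP : ∀ F ∈ P, eval x F = 0) :
    ∃ (G : Fin q → MvPolynomial (Fin (r+1)) 𝕜) (c : Fin q → Fin (r+1)), (∀ i, G i ∈ P) ∧
      (Matrix.of fun i j => eval x (pderiv (c j) (G i))).det ≠ 0 := by
  have h1 := hP.smooth x hx hxP
  obtain ⟨f, h2, _, h3⟩ := Submodule.exists_fun_fin_finrank_span_eq 𝕜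
    {v : Fin (r+1) → 𝕜 | ∃ F ∈ P, v = fun j => eval x (pderiv j F)}
  have hfr : Module.finrank 𝕜 (Submodule.span 𝕜
    {v : Fin (r+1) → 𝕜 | ∃ F ∈ P, v = fun j => eval x (pderiv j F)}) = q := by omega
  choose G hG1 hG2 using h2
  have h4 : LinearIndependent 𝕜 (f ∘ (Fin.cast hfr.symm)) := h3.comp _ (Fin.cast_injective _)
  obtain ⟨c, hc⟩ := smoothAt_minor _ h4
  refine ⟨fun i => G (Fin.cast hfr.symm i), c, fun i => hG1 _, ?_⟩
  have h5 : (Matrix.of fun i j => eval x (pderiv (c j) (G (Fin.cast hfr.symm i)))) =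
      Matrix.of fun i j => (f ∘ (Fin.cast hfr.symm)) i (c j) := by
    ext i j
    simp only [Matrix.of_apply, Function.comp_apply]
    rw [hG2]
  rw [h5]
  exact hc

/-- H1b -/
theorem smoothAt_of_variety {𝕜 L : Type*} [Field 𝕜] [IsAlgClosed 𝕜] [CharZero 𝕜] [Field L] [Algebra 𝕜 L] {r n q : ℕ}
    (hq : n + q = r)
    (P : Ideal (MvPolynomial (Fin (r+1)) 𝕜)) (hP : IsSmoothProjectiveVariety 𝕜 r n P) : SmoothAt L q P := by
  intro y hy hyP
  by_contra hcon
  push Not at hcon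
  obtain ⟨D, hD⟩ : ∃ D : Set (MvPolynomial (Fin (r+1)) 𝕜), D =
    {p | ∃ (G : Fin q → MvPolynomial (Fin (r+1)) 𝕜) (c : Fin q → Fin (r+1)), (∀ i, G i ∈ P) ∧
      p = (Matrix.of fun i j => pderiv (c j) (G i)).det} := ⟨_, rfl⟩
  obtain ⟨J, hJ⟩ : ∃ J, J = P ⊔ Ideal.span D := ⟨_, rfl⟩
  -- the zero locus of `J` is contained in the origin
  have hzero : ∀ x : Fin (r+1) → 𝕜, x ∈ zeroLocus 𝕜 J → x = 0 := by
    intro x hx
    by_contra hx0
    obtain ⟨G, c, hG, hdet⟩ := smoothAt_grad hq P hP x hx0 (by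
      intro F hF
      have := hx F (by rw [hJ]; exact Ideal.mem_sup_left hF)
      rw [← this, ← coe_aeval_eq_eval]
      rfl)
    apply hdet
    have h1 : (Matrix.of fun i j => pderiv (c j) (G i)).det ∈ J := by
      rw [hJ]
      apply Ideal.mem_sup_right
      apply Ideal.subset_span
      rw [hD]
      exact ⟨G, c, hG, rfl⟩
    have h2 := hx _ h1
    rw [AlgHom.map_det] at h2
    rw [← h2]
    congr 1
  have hker : ∀ p ∈ J, aeval y p = 0 := by
    have hle : J ≤ RingHom.ker (aeval y : MvPolynomial (Fin (r+1)) 𝕜 →ₐ[𝕜] L) := by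
      rw [hJ]
      apply sup_le
      · intro F hF
        exact hyP F hF
      · rw [Ideal.span_le, hD]
        rintro p ⟨G, c, hG, rfl⟩
        show aeval y _ = 0
        rw [AlgHom.map_det, ← hcon G c hG]
        congr 1
    intro p hp
    exact hle hp
  obtain ⟨m, hm⟩ := Function.ne_iff.mp hy
  have hrad : (X m : MvPolynomial (Fin (r+1)) 𝕜) ∈ J.radical := by
    rw [← vanishingIdeal_zeroLocus_eq_radical (K := 𝕜) J, mem_vanishingIdeal_iff]
    intro x hx
    rw [hzero x hx, aeval_X]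
    rfl
  obtain ⟨T, hT⟩ := hrad
  have h3 := hker _ hT
  rw [map_pow, aeval_X] at h3
  exact hm (eq_zero_of_pow_eq_zero h3)

end H693RF
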