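import Pool.Agent.Helper693.RF.Defs

namespace H693RF

open MvPolynomial

/-- H2c: full rank is a nonempty open condition -/
theorem exists_rank_poly {𝕜 : Type*} [Field 𝕜] {r K : ℕ} (hK : K ≤ r + 1) :
    ∃ Φ : MvPolynomial (Fin K × Fin (r+1)) 𝕜, Φ ≠ 0 ∧
      ∀ H : Fin K → Fin (r+1) → 𝕜, eval (fun ij => H ij.1 ij.2) Φ ≠ 0 → LinearIndependent 𝕜 H := by
  classical
  let M : Matrix (Fin K) (Fin K) (MvPolynomial (Fin K × Fin (r+1)) 𝕜) :=
    Matrix.of fun i j => X (i, Fin.castLE hK j)
  have hev : ∀ H : Fin K → Fin (r+1) → 𝕜, eval (fun ij : Fin K × Fin (r+1) => H ij.1 ij.2) M.det =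
      (Matrix.of fun i j : Fin K => H i (Fin.castLE hK j)).det := by
    intro H
    rw [RingHom.map_det]
    congr 1
    ext i j
    simp [M]
  refine ⟨M.det, ?_, ?_⟩
  · intro h0
    have h1 := hev (fun i j => if j = Fin.castLE hK i then 1 else 0)
    rw [h0, map_zero] at h1
    have h2 : (Matrix.of fun i j : Fin K => (if Fin.castLE hK j = Fin.castLE hK i then (1 : 𝕜) else 0))
        = 1 := by
      ext i j
      by_cases hij : i = j
      · subst hij; simp
      · have : ¬ j = i := fun h => hij h.symm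
        simp [hij, this, Matrix.one_apply]
    rw [h2, Matrix.det_one] at h1
    exact zero_ne_one h1
  · intro H hH
    rw [hev] at hH
    have h1 := Matrix.linearIndependent_rows_of_det_ne_zero hH
    refine LinearIndependent.of_comp (LinearMap.funLeft 𝕜 𝕜 (Fin.castLE hK)) ?_
    exact h1

end H693RF
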