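import Pool.Agent.Helper693.RF.Defs

namespace H693RF

open MvPolynomial

/-- H2d: from monomials of degree `d+1` to all polynomials -/
theorem reduce_all {𝕜 : Type*} [Field 𝕜] {r : ℕ} (I : Ideal (MvPolynomial (Fin (r+1)) 𝕜)) (d : ℕ)
    (hmon : ∀ α : Fin (r+1) →₀ ℕ, α.degree = d + 1 → ∃ g' : MvPolynomial (Fin (r+1)) 𝕜, g'.totalDegree ≤ d ∧
      monomial α 1 - g' ∈ I) :
    ∀ g : MvPolynomial (Fin (r+1)) 𝕜, ∃ g' : MvPolynomial (Fin (r+1)) 𝕜, g'.totalDegree ≤ d ∧ g - g' ∈ I := by
  classical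
  have hdeg : ∀ α : Fin (r+1) →₀ ℕ, (α.sum fun _ e => e) = α.degree := fun α => rfl
  -- closure properties
  have hsmul : ∀ (c : 𝕜) (g : MvPolynomial (Fin (r+1)) 𝕜),
      (∃ g' : MvPolynomial (Fin (r+1)) 𝕜, g'.totalDegree ≤ d ∧ g - g' ∈ I) →
      ∃ g' : MvPolynomial (Fin (r+1)) 𝕜, g'.totalDegree ≤ d ∧ C c * g - g' ∈ I := by
    rintro c g ⟨g', h1, h2⟩
    refine ⟨C c * g', ?_, ?_⟩
    · refine (totalDegree_mul _ _).trans ?_
      rw [totalDegree_C, zero_add]
      exact h1
    · rw [← mul_sub]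
      exact I.mul_mem_left _ h2
  have hsum : ∀ (s : Finset (Fin (r+1) →₀ ℕ)) (f : (Fin (r+1) →₀ ℕ) → MvPolynomial (Fin (r+1)) 𝕜),
      (∀ α ∈ s, ∃ g' : MvPolynomial (Fin (r+1)) 𝕜, g'.totalDegree ≤ d ∧ f α - g' ∈ I) →
      ∃ g' : MvPolynomial (Fin (r+1)) 𝕜, g'.totalDegree ≤ d ∧ (∑ α ∈ s, f α) - g' ∈ I := by
    intro s f
    induction s using Finset.induction_on with
    | empty => intro _; exact ⟨0, by simp, by simp⟩
    | insert a s ha ih =>
      intro h
      obtain ⟨g1, h1, h1'⟩ := h a (Finset.mem_insert_self _ _)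
      obtain ⟨g2, h2, h2'⟩ := ih (fun α hα => h α (Finset.mem_insert_of_mem hα))
      refine ⟨g1 + g2, (totalDegree_add _ _).trans (max_le h1 h2), ?_⟩
      rw [Finset.sum_insert ha]
      have : f a + ∑ α ∈ s, f α - (g1 + g2) = (f a - g1) + (∑ α ∈ s, f α - g2) := by ring
      rw [this]
      exact I.add_mem h1' h2'
  have hfin : ∀ g : MvPolynomial (Fin (r+1)) 𝕜,
      (∀ α ∈ g.support, ∃ g' : MvPolynomial (Fin (r+1)) 𝕜, g'.totalDegree ≤ d ∧ monomial α 1 - g' ∈ I) →
      ∃ g' : MvPolynomial (Fin (r+1)) 𝕜, g'.totalDegree ≤ d ∧ g - g' ∈ I := by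
    intro g h
    have h1 := hsum g.support (fun α => monomial α (coeff α g)) (by
      intro α hα
      have h2 := hsmul (coeff α g) _ (h α hα)
      rw [C_mul_monomial, mul_one] at h2
      exact h2)
    rw [support_sum_monomial_coeff] at h1
    exact h1
  have hlow : ∀ α : Fin (r+1) →₀ ℕ, α.degree ≤ d + 1 →
      ∃ g' : MvPolynomial (Fin (r+1)) 𝕜, g'.totalDegree ≤ d ∧ monomial α 1 - g' ∈ I := by
    intro α hα
    rcases Nat.lt_or_ge d α.degree with h | h
    · exact hmon α (by omega)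
    · refine ⟨monomial α 1, ?_, by simp⟩
      rw [totalDegree_monomial _ one_ne_zero, hdeg]
      exact h
  have hA : ∀ g : MvPolynomial (Fin (r+1)) 𝕜, g.totalDegree ≤ d + 1 →
      ∃ g' : MvPolynomial (Fin (r+1)) 𝕜, g'.totalDegree ≤ d ∧ g - g' ∈ I := by
    intro g hg
    apply hfin
    intro α hα
    apply hlow
    rw [← hdeg]
    exact (le_totalDegree hα).trans hg
  have hB : ∀ (e : ℕ) (α : Fin (r+1) →₀ ℕ), α.degree = e →
      ∃ g' : MvPolynomial (Fin (r+1)) 𝕜, g'.totalDegree ≤ d ∧ monomial α 1 - g' ∈ I := by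
    intro e
    induction e with
    | zero =>
      intro α hα
      exact hlow α (by omega)
    | succ e ih =>
      intro α hα
      have hne : α ≠ 0 := by
        rintro rfl
        simp at hα
      obtain ⟨j, hj⟩ : ∃ j, α j ≠ 0 := by
        by_contra hc
        push Not at hc
        exact hne (Finsupp.ext hc)
      have hdec : α = Finsupp.single j 1 + (α - Finsupp.single j 1) := by
        rw [add_tsub_cancel_of_le]
        rw [Finsupp.single_le_iff]
        omega
      have hβ : (α - Finsupp.single j 1).degree = e := by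
        have := congrArg Finsupp.degree hdec
        rw [map_add, Finsupp.degree_single, hα] at this
        omega
      obtain ⟨g', h1, h2⟩ := ih _ hβ
      have h3 : (X j * g' : MvPolynomial (Fin (r+1)) 𝕜).totalDegree ≤ d + 1 := by
        refine (totalDegree_mul _ _).trans ?_
        rw [totalDegree_X]
        omega
      obtain ⟨g'', h4, h5⟩ := hA _ h3
      refine ⟨g'', h4, ?_⟩
      have h6 : (monomial α 1 : MvPolynomial (Fin (r+1)) 𝕜) = X j * monomial (α - Finsupp.single j 1) 1 := by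
        rw [X, monomial_mul, mul_one, ← hdec]
      have h7 : (monomial α 1 : MvPolynomial (Fin (r+1)) 𝕜) - g'' =
          X j * (monomial (α - Finsupp.single j 1) 1 - g') + (X j * g' - g'') := by
        rw [h6]; ring
      rw [h7]
      exact I.add_mem (I.mul_mem_left _ h2) h5
  intro g
  exact hfin g (fun α _ => hB _ α rfl)

end H693RF
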