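import Pool.Agent.Helper693.RF.Defs

namespace H693RF

open MvPolynomial

universe u

/-- coefficientwise application of a map -/
noncomputable def descend_field_R {σ L₀ L : Type*} [Field L₀] [Field L] (ρ : L → L₀)
    (u : MvPolynomial σ L) : MvPolynomial σ L₀ :=
  ∑ m ∈ u.support, monomial m (ρ (coeff m u))

theorem descend_field_coeff {σ L₀ L : Type*} [Field L₀] [Field L] (ρ : L → L₀) (h0 : ρ 0 = 0)
    (u : MvPolynomial σ L) (m : σ →₀ ℕ) : coeff m (descend_field_R ρ u) = ρ (coeff m u) := by
  classical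
  unfold descend_field_R
  rw [coeff_sum]
  simp only [coeff_monomial]
  by_cases hm : m ∈ u.support
  · rw [Finset.sum_eq_single m (fun b _ hb => if_neg hb) (fun h => absurd hm h), if_pos rfl]
  · rw [Finset.sum_eq_zero]
    · rw [notMem_support_iff.1 hm, h0]
    · intro b hb
      rw [if_neg]
      rintro rfl
      exact hm hb

/-- the ideal over the big field is the extension -/
theorem descend_field_map {𝕜 L₀ L : Type*} [Field 𝕜] [Field L₀] [Field L] [Algebra 𝕜 L₀]
    [Algebra 𝕜 L] [Algebra L₀ L] [IsScalarTower 𝕜 L₀ L] {r K : ℕ}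
    (P : Ideal (MvPolynomial (Fin (r+1)) 𝕜)) (a : Fin K → Fin (r+1) → L₀) (p : Fin K → L₀) :
    fibI L P (fun l j => algebraMap L₀ L (a l j)) (fun l => algebraMap L₀ L (p l))
      = (fibI L₀ P a p).map (MvPolynomial.map (algebraMap L₀ L)) := by
  unfold fibI extI
  rw [Ideal.map_sup, Ideal.map_map, Ideal.map_span]
  congr 1
  · congr 1
    refine MvPolynomial.ringHom_ext ?_ ?_
    · intro c
      simp [← IsScalarTower.algebraMap_apply]
    · intro i
      simp
  · congr 1
    rw [← Set.range_comp]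
    congr 1
    funext l
    simp

/-- H2desc: descend a reduction from an extension field to the field -/
theorem descend_field {𝕜 L₀ L : Type*} [Field 𝕜] [Field L₀] [Field L] [Algebra 𝕜 L₀] [Algebra 𝕜 L] [Algebra L₀ L]
    [IsScalarTower 𝕜 L₀ L] {r K : ℕ} (P : Ideal (MvPolynomial (Fin (r+1)) 𝕜))
    (a : Fin K → Fin (r+1) → L₀) (p : Fin K → L₀) (d : ℕ) (g : MvPolynomial (Fin (r+1)) L₀)
    (g' : MvPolynomial (Fin (r+1)) L) (hd : g'.totalDegree ≤ d)
    (hg : map (algebraMap L₀ L) g - g' ∈ fibI L P (fun l j => algebraMap L₀ L (a l j)) (fun l => algebraMap L₀ L (p l))) :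
    ∃ g'' : MvPolynomial (Fin (r+1)) L₀, g''.totalDegree ≤ d ∧ g - g'' ∈ fibI L₀ P a p := by
  classical
  obtain ⟨ρ, hρ⟩ := LinearMap.exists_leftInverse_of_injective (Algebra.linearMap L₀ L)
    (LinearMap.ker_eq_bot.2 (algebraMap L₀ L).injective)
  have hρ1 : ∀ c : L₀, ρ (algebraMap L₀ L c) = c := fun c => by
    have := LinearMap.congr_fun hρ c
    simpa using this
  have h0 : ρ 0 = 0 := map_zero ρ
  let R : MvPolynomial (Fin (r+1)) L → MvPolynomial (Fin (r+1)) L₀ := descend_field_R ρ
  have hR : ∀ u m, coeff m (R u) = ρ (coeff m u) := fun u m => descend_field_coeff ρ h0 u m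
  have hRadd : ∀ u v, R (u + v) = R u + R v := by
    intro u v
    ext m
    rw [coeff_add, hR, hR, hR, coeff_add, map_add]
  have hRsub : ∀ u v, R (u - v) = R u - R v := by
    intro u v
    ext m
    rw [coeff_sub, hR, hR, hR, coeff_sub, map_sub]
  have hRmap : ∀ f, R (map (algebraMap L₀ L) f) = f := by
    intro f
    ext m
    rw [hR, coeff_map, hρ1]
  have hRmul : ∀ f u, R (u * map (algebraMap L₀ L) f) = R u * f := by
    intro f u
    ext m
    rw [hR, coeff_mul, coeff_mul, map_sum]
    refine Finset.sum_congr rfl fun x _ => ?_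
    rw [coeff_map, hR, mul_comm (coeff x.1 u), ← Algebra.smul_def, map_smul, smul_eq_mul, mul_comm]
  have hI : ∀ x ∈ (fibI L₀ P a p).map (MvPolynomial.map (algebraMap L₀ L)), ∀ u,
      R (u * x) ∈ fibI L₀ P a p := by
    intro x hx
    refine Submodule.span_induction (p := fun x _ => ∀ u, R (u * x) ∈ fibI L₀ P a p)
      ?_ ?_ ?_ ?_ hx
    · rintro _ ⟨f, hf, rfl⟩ u
      have hf' : f ∈ fibI L₀ P a p := hf
      have e : R (u * map (algebraMap L₀ L) f) = R u * f := hRmul f u
      rw [e]
      exact Ideal.mul_mem_left _ _ hf'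
    · intro u
      have e : R (u * 0) = 0 := by
        ext m
        rw [hR, mul_zero, coeff_zero, coeff_zero, h0]
      rw [e]
      exact Ideal.zero_mem _
    · intro x y _ _ h1 h2 u
      rw [mul_add, hRadd]
      exact Ideal.add_mem _ (h1 u) (h2 u)
    · intro b x _ h1 u
      rw [smul_eq_mul, ← mul_assoc]
      exact h1 _
  rw [descend_field_map] at hg
  refine ⟨R g', ?_, ?_⟩
  · refine le_trans ?_ hd
    unfold totalDegree
    refine Finset.sup_mono fun m hm => ?_
    rw [mem_support_iff] at hm ⊢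
    intro h
    apply hm
    rw [hR, h, h0]
  · have h1 := hI _ hg 1
    rw [one_mul, hRsub, hRmap] at h1
    exact h1

end H693RF
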