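import Pool.Agent.Helper693.RF.Defs

namespace H693RF

open MvPolynomial

universe u

/-- H2gen: a generic member of a Zariski dense family -/
theorem exists_generic_field {𝕜 B : Type u} [Field 𝕜] {ι : Type*} (H : B → ι → 𝕜)
    (hdense : ∀ Φ : MvPolynomial ι 𝕜, Φ ≠ 0 → ∃ b, eval (H b) Φ ≠ 0) :
    ∃ (L : Type u) (_ : Field L) (_ : Algebra 𝕜 L) (θ : (B → 𝕜) →ₐ[𝕜] L), Function.Surjective θ ∧
      AlgebraicIndependent 𝕜 (fun i => θ (fun b => H b i)) ∧
      (∀ S : Finset (B → 𝕜), (∀ e ∈ S, θ e = 0) → ∃ b, ∀ e ∈ S, e b = 0) := by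
  classical
  let S : Submonoid (B → 𝕜) :=
    { carrier := {f | ∃ Φ : MvPolynomial ι 𝕜, Φ ≠ 0 ∧ f = fun b => eval (H b) Φ}
      one_mem' := ⟨1, one_ne_zero, by funext b; simp⟩
      mul_mem' := by
        rintro _ _ ⟨Φ, hΦ, rfl⟩ ⟨Ψ, hΨ, rfl⟩
        exact ⟨Φ * Ψ, mul_ne_zero hΦ hΨ, by funext b; simp⟩ }
  have h0S : (0 : B → 𝕜) ∉ S := by
    rintro ⟨Φ, hΦ, h⟩
    obtain ⟨b, hb⟩ := hdense Φ hΦ
    exact hb (congrFun h b).symm
  obtain ⟨Q, hQ, -, hdis⟩ := Ideal.exists_le_prime_disjoint (⊥ : Ideal (B → 𝕜)) S (by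
    rw [Set.disjoint_left]
    intro x hx hxS
    have hx0 : x = 0 := by simpa using hx
    rw [hx0] at hxS
    exact h0S hxS)
  have hmax : Q.IsMaximal := by
    rw [Ideal.Quotient.maximal_ideal_iff_isField_quotient]
    refine ⟨⟨0, 1, zero_ne_one⟩, mul_comm, ?_⟩
    intro a ha
    obtain ⟨a', rfl⟩ := Ideal.Quotient.mk_surjective a
    refine ⟨Ideal.Quotient.mk Q (a'⁻¹), ?_⟩
    have h1 : a' * (a' * a'⁻¹ - 1) = 0 := by
      funext b
      simp only [Pi.mul_apply, Pi.sub_apply, Pi.inv_apply, Pi.one_apply, Pi.zero_apply]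
      by_cases hb : a' b = 0
      · rw [hb, zero_mul]
      · rw [mul_inv_cancel₀ hb, sub_self, mul_zero]
    have h2 := congrArg (Ideal.Quotient.mk Q) h1
    rw [map_mul, map_sub, map_mul, map_one, map_zero] at h2
    rcases mul_eq_zero.1 h2 with h3 | h3
    · exact absurd h3 ha
    · exact sub_eq_zero.1 h3
  let hfield : Field ((B → 𝕜) ⧸ Q) := Ideal.Quotient.field Q
  refine ⟨(B → 𝕜) ⧸ Q, hfield, inferInstance, Ideal.Quotient.mkₐ 𝕜 Q,
    Ideal.Quotient.mkₐ_surjective 𝕜 Q, ?_, ?_⟩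
  · rw [algebraicIndependent_iff]
    intro Φ hΦ
    by_contra hne
    have e1 : aeval (fun i => Ideal.Quotient.mkₐ 𝕜 Q (fun b => H b i)) Φ =
        Ideal.Quotient.mkₐ 𝕜 Q (aeval (fun i => (fun b => H b i : B → 𝕜)) Φ) :=
      (comp_aeval_apply (f := fun i => (fun b => H b i : B → 𝕜)) (Ideal.Quotient.mkₐ 𝕜 Q) Φ).symm
    have e2 : aeval (fun i => (fun b => H b i : B → 𝕜)) Φ = fun b => eval (H b) Φ := by
      funext b
      have h3 := comp_aeval_apply (f := fun i => (fun b => H b i : B → 𝕜))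
        (Pi.evalAlgHom 𝕜 (fun _ : B => 𝕜) b) Φ
      have h4 : aeval (fun i => Pi.evalAlgHom 𝕜 (fun _ : B => 𝕜) b (fun b => H b i)) Φ =
          eval (H b) Φ := by
        rw [← coe_aeval_eq_eval]
        rfl
      rw [← h4, ← h3]
      rfl
    have e3 : Ideal.Quotient.mkₐ 𝕜 Q (fun b => eval (H b) Φ) = 0 := by
      rw [← e2, ← e1]
      exact hΦ
    have hmem : (fun b => eval (H b) Φ) ∈ Q := Ideal.Quotient.eq_zero_iff_mem.1 e3
    exact Set.disjoint_left.1 hdis hmem ⟨Φ, hne, rfl⟩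
  · intro T hT
    by_contra hcon
    push Not at hcon
    choose g hg hg0 using hcon
    have h1 : ∑ e ∈ T, e * (fun b => if g b = e then (e b)⁻¹ else 0) = (1 : B → 𝕜) := by
      funext b
      rw [Finset.sum_apply, Finset.sum_eq_single (g b)]
      · simp only [Pi.mul_apply, if_true, Pi.one_apply]
        exact mul_inv_cancel₀ (hg0 b)
      · intro e _ he
        simp only [Pi.mul_apply]
        rw [if_neg (Ne.symm he), mul_zero]
      · intro h
        exact absurd (hg b) h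
    have h2 := congrArg (Ideal.Quotient.mkₐ 𝕜 Q) h1
    rw [map_sum, map_one] at h2
    have h3 : ∑ e ∈ T, Ideal.Quotient.mkₐ 𝕜 Q (e * (fun b => if g b = e then (e b)⁻¹ else 0)) = 0 := by
      refine Finset.sum_eq_zero fun e he => ?_
      rw [map_mul]
      have h4 : Ideal.Quotient.mkₐ 𝕜 Q e = 0 := hT e he
      rw [h4, zero_mul]
    rw [h3] at h2
    exact zero_ne_one h2

end H693RF
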