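import Pool.Agent.Helper693.RF.Defs

namespace H693RF

open MvPolynomial

universe u

theorem spec_lift {A L : Type*} [CommRing A] [CommRing L] (θ : A →+* L)
    (hθ : Function.Surjective θ) {n : ℕ} (q : MvPolynomial (Fin n) L) :
    ∃ Q : MvPolynomial (Fin n) A, map θ Q = q ∧ Q.totalDegree ≤ q.totalDegree := by
  choose σ hσ using hθ
  refine ⟨∑ s ∈ q.support, monomial s (σ (coeff s q)), ?_, ?_⟩
  · rw [map_sum]
    simp only [map_monomial, hσ]
    exact q.support_sum_monomial_coeff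
  · refine totalDegree_finsetSum_le fun s hs => ?_
    refine (totalDegree_monomial_le _ _).trans ?_
    exact le_totalDegree hs

/-- H2spec: specialise a reduction from the generic field to a member of the family -/
theorem specialise {𝕜 B L : Type*} [Field 𝕜] [Field L] [Algebra 𝕜 L] (θ : (B → 𝕜) →ₐ[𝕜] L) (hθ : Function.Surjective θ)
    (hcommon : ∀ S : Finset (B → 𝕜), (∀ e ∈ S, θ e = 0) → ∃ b, ∀ e ∈ S, e b = 0)
    {r K : ℕ} (P : Ideal (MvPolynomial (Fin (r+1)) 𝕜))
    (H : B → Fin K → Fin (r+1) → 𝕜) (p : B → Fin K → 𝕜) (d : ℕ) (g : MvPolynomial (Fin (r+1)) 𝕜)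
    (g' : MvPolynomial (Fin (r+1)) L) (hd : g'.totalDegree ≤ d)
    (hg : map (algebraMap 𝕜 L) g - g' ∈ fibI L P (fun l j => θ (fun b => H b l j)) (fun l => θ (fun b => p b l))) :
    ∃ b, ∃ g'' : MvPolynomial (Fin (r+1)) 𝕜, g''.totalDegree ≤ d ∧ g - g'' ∈ fibI 𝕜 P (H b) (p b) := by
  classical
  let J : Ideal (MvPolynomial (Fin (r+1)) (B → 𝕜)) :=
    P.map (MvPolynomial.map (algebraMap 𝕜 (B → 𝕜))) ⊔
      Ideal.span (Set.range fun l : Fin K => (∑ j, C (fun b => H b l j) * X j) - C (fun b => p b l))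
  have hJL : J.map (MvPolynomial.map (θ : (B → 𝕜) →+* L)) =
      fibI L P (fun l j => θ (fun b => H b l j)) (fun l => θ (fun b => p b l)) := by
    unfold fibI extI
    rw [Ideal.map_sup, Ideal.map_map, Ideal.map_span]
    congr 1
    · congr 1
      refine RingHom.ext fun f => ?_
      rw [RingHom.comp_apply, map_map]
      have : (θ : (B → 𝕜) →+* L).comp (algebraMap 𝕜 (B → 𝕜)) = algebraMap 𝕜 L := θ.comp_algebraMap
      rw [this]
    · congr 1
      rw [← Set.range_comp]
      congr 1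
      funext l
      simp [map_sum]
  obtain ⟨G', hG'1, hG'2⟩ := spec_lift (θ : (B → 𝕜) →+* L) hθ g'
  have hsurj : Function.Surjective (MvPolynomial.map (σ := Fin (r+1)) (θ : (B → 𝕜) →+* L)) :=
    map_surjective _ hθ
  rw [← hJL, Ideal.mem_map_iff_of_surjective _ hsurj] at hg
  obtain ⟨x, hxJ, hx⟩ := hg
  set E : MvPolynomial (Fin (r+1)) (B → 𝕜) := map (algebraMap 𝕜 (B → 𝕜)) g - G' - x with hE
  have hE0 : map (θ : (B → 𝕜) →+* L) E = 0 := by
    rw [hE, map_sub, map_sub, hx, hG'1, map_map]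
    have : (θ : (B → 𝕜) →+* L).comp (algebraMap 𝕜 (B → 𝕜)) = algebraMap 𝕜 L := θ.comp_algebraMap
    rw [this, sub_self]
  obtain ⟨b, hb⟩ := hcommon (E.support.image fun s => coeff s E) (by
    intro e he
    obtain ⟨s, -, rfl⟩ := Finset.mem_image.1 he
    have h1 := congrArg (coeff s) hE0
    rw [coeff_map, coeff_zero] at h1
    exact h1)
  have hEb : map (Pi.evalRingHom (fun _ : B => 𝕜) b) E = 0 := by
    ext s
    rw [coeff_map, coeff_zero]
    by_cases hs : s ∈ E.support
    · exact hb _ (Finset.mem_image_of_mem _ hs)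
    · rw [notMem_support_iff.1 hs, map_zero]
  have hid : (Pi.evalRingHom (fun _ : B => 𝕜) b).comp (algebraMap 𝕜 (B → 𝕜)) = RingHom.id 𝕜 := by
    ext c
    rfl
  have hJb : J.map (MvPolynomial.map (Pi.evalRingHom (fun _ : B => 𝕜) b)) =
      fibI 𝕜 P (H b) (p b) := by
    unfold fibI extI
    rw [Ideal.map_sup, Ideal.map_map, Ideal.map_span]
    congr 1
    · congr 1
      refine RingHom.ext fun f => ?_
      rw [RingHom.comp_apply, map_map, hid, Algebra.algebraMap_self]
    · congr 1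
      rw [← Set.range_comp]
      congr 1
      funext l
      simp [map_sum]
  refine ⟨b, map (Pi.evalRingHom (fun _ : B => 𝕜) b) G', ?_, ?_⟩
  · refine le_trans ?_ (hG'2.trans hd)
    exact Finset.sup_mono (support_map_subset _ _)
  · rw [← hJb]
    have h1 := Ideal.mem_map_of_mem (MvPolynomial.map (Pi.evalRingHom (fun _ : B => 𝕜) b)) hxJ
    have h2 : g - map (Pi.evalRingHom (fun _ : B => 𝕜) b) G' =
        map (Pi.evalRingHom (fun _ : B => 𝕜) b) x := by
      rw [hE, map_sub, map_sub, map_map, hid, map_id] at hEb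
      exact sub_eq_zero.1 hEb
    rw [h2]
    exact h1

end H693RF
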