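import Pool.Agent.Helper693.RF.Defs

namespace H693RF

open MvPolynomial

section aux

variable {𝕜 : Type*} [Field 𝕜] {r K : ℕ}

theorem j14323_lin_hom (a : Fin (r+1) → 𝕜) : (linForm a).IsHomogeneous 1 := by
  unfold linForm
  refine IsHomogeneous.sum _ _ _ fun j _ => ?_
  have := (isHomogeneous_C (Fin (r+1)) (a j)).mul (isHomogeneous_X 𝕜 j)
  simpa using this

theorem j14323_lin_mem (a : Fin (r+1) → 𝕜) : linForm a ∈ mI (r+1) 𝕜 := by
  unfold linForm mI
  exact Ideal.sum_mem _ fun j _ => Ideal.mul_mem_left _ _ (Ideal.subset_span ⟨j, rfl⟩)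

theorem j14323_comp_lin_mul (a : Fin (r+1) → 𝕜) (w : MvPolynomial (Fin (r+1)) 𝕜) (i : ℕ) :
    homogeneousComponent (i+1) (linForm a * w) = linForm a * homogeneousComponent i w := by
  have h1 : ∀ j, (linForm a * homogeneousComponent j w) ∈
      homogeneousSubmodule (Fin (r+1)) 𝕜 (1 + j) := fun j =>
    (j14323_lin_hom a).mul (homogeneousComponent_isHomogeneous j w)
  conv_lhs => rw [← sum_homogeneousComponent w, Finset.mul_sum, map_sum]
  rw [Finset.sum_congr rfl fun j _ => homogeneousComponent_of_mem (m := i + 1) (h1 j)]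
  by_cases hi : i ∈ Finset.range (w.totalDegree + 1)
  · rw [Finset.sum_eq_single i]
    · rw [if_pos (by omega)]
    · intro j _ hj
      rw [if_neg (by omega)]
    · intro h
      exact absurd hi h
  · rw [Finset.sum_eq_zero]
    · rw [homogeneousComponent_eq_zero i w (by
        rw [Finset.mem_range] at hi
        omega), mul_zero]
    · intro j hj
      rw [if_neg]
      rintro h
      exact hi (by rwa [show i = j by omega])

theorem j14323_comp_zero (a : Fin (r+1) → 𝕜) (w : MvPolynomial (Fin (r+1)) 𝕜) :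
    homogeneousComponent 0 (linForm a * w) = 0 := by
  have h1 : ∀ j, (linForm a * homogeneousComponent j w) ∈
      homogeneousSubmodule (Fin (r+1)) 𝕜 (1 + j) := fun j =>
    (j14323_lin_hom a).mul (homogeneousComponent_isHomogeneous j w)
  conv_lhs => rw [← sum_homogeneousComponent w, Finset.mul_sum, map_sum]
  refine Finset.sum_eq_zero fun j _ => ?_
  rw [homogeneousComponent_of_mem (m := 0) (h1 j), if_neg (by omega)]

attribute [local instance] MvPolynomial.gradedAlgebra in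
theorem j14323_J_hom (P : Ideal (MvPolynomial (Fin (r+1)) 𝕜))
    (hhom : ∀ F ∈ P, ∀ d, homogeneousComponent d F ∈ P)
    (H : Fin K → Fin (r+1) → 𝕜) (p : Fin K → 𝕜) :
    ∀ F ∈ fiberIdeal P H p, ∀ d, homogeneousComponent d F ∈ fiberIdeal P H p := by
  have hde : ∀ (F : MvPolynomial (Fin (r+1)) 𝕜) (i : ℕ),
      ((DirectSum.decompose (homogeneousSubmodule (Fin (r+1)) 𝕜) F) i :
        MvPolynomial (Fin (r+1)) 𝕜) = homogeneousComponent i F := fun F i =>
    decomposition.decompose'_apply F i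
  have h1 : P.IsHomogeneous (homogeneousSubmodule (Fin (r+1)) 𝕜) := by
    intro i F hF
    rw [hde]
    exact hhom F hF i
  have h2 : (Ideal.span {F | ∃ i j, F = C (p i) * linForm (H j) -
      C (p j) * linForm (H i)}).IsHomogeneous (homogeneousSubmodule (Fin (r+1)) 𝕜) := by
    refine Ideal.homogeneous_span _ _ ?_
    rintro F ⟨i, j, rfl⟩
    refine ⟨1, ?_⟩
    refine Submodule.sub_mem _ ?_ ?_
    · have := (isHomogeneous_C (Fin (r+1)) (p i)).mul (j14323_lin_hom (H j))
      simpa using this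
    · have := (isHomogeneous_C (Fin (r+1)) (p j)).mul (j14323_lin_hom (H i))
      simpa using this
  have h3 := h1.sup h2
  intro F hF d
  have h4 := h3 d hF
  rw [hde] at h4
  exact h4

theorem j14323_extI (P : Ideal (MvPolynomial (Fin (r+1)) 𝕜)) : extI 𝕜 P = P := by
  unfold extI
  have : (MvPolynomial.map (algebraMap 𝕜 𝕜) :
      MvPolynomial (Fin (r+1)) 𝕜 →+* MvPolynomial (Fin (r+1)) 𝕜) = RingHom.id _ := by
    ext <;> simp
  rw [this, Ideal.map_id]

theorem j14323_fibI_eq (P : Ideal (MvPolynomial (Fin (r+1)) 𝕜))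
    (H : Fin K → Fin (r+1) → 𝕜) (p : Fin K → 𝕜) (i₀ : Fin K) (hp : p i₀ = 1) :
    fibI 𝕜 P H p = fiberIdeal P H p ⊔ Ideal.span {linForm (H i₀) - 1} := by
  unfold fibI fiberIdeal
  rw [j14323_extI]
  apply le_antisymm
  · refine sup_le (le_sup_of_le_left le_sup_left) ?_
    rw [Ideal.span_le]
    rintro _ ⟨l, rfl⟩
    show linForm (H l) - C (p l) ∈ _
    have e : linForm (H l) - C (p l) = (C (p i₀) * linForm (H l) - C (p l) * linForm (H i₀)) +
        C (p l) * (linForm (H i₀) - 1) := by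
      rw [hp, C_1]; ring
    rw [e]
    refine Ideal.add_mem _ ?_ ?_
    · exact Ideal.mem_sup_left (Ideal.mem_sup_right (Ideal.subset_span ⟨i₀, l, rfl⟩))
    · exact Ideal.mem_sup_right (Ideal.mul_mem_left _ _ (Ideal.subset_span rfl))
  · refine sup_le (sup_le le_sup_left ?_) ?_
    · rw [Ideal.span_le]
      rintro _ ⟨i, j, rfl⟩
      have e : C (p i) * linForm (H j) - C (p j) * linForm (H i) =
        C (p i) * (linForm (H j) - C (p j)) - C (p j) * (linForm (H i) - C (p i)) := by ring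
      rw [e]
      refine Ideal.mem_sup_right ?_
      exact Ideal.sub_mem _ (Ideal.mul_mem_left _ _ (Ideal.subset_span ⟨j, rfl⟩))
        (Ideal.mul_mem_left _ _ (Ideal.subset_span ⟨i, rfl⟩))
    · rw [Ideal.span_singleton_le_iff_mem]
      refine Ideal.mem_sup_right (Ideal.subset_span ⟨i₀, ?_⟩)
      show linForm (H i₀) - C (p i₀) = linForm (H i₀) - 1
      rw [hp, C_1]

theorem j14323_pow_mul_mem (J : Ideal (MvPolynomial (Fin (r+1)) 𝕜))
    (hJ : ∀ F ∈ J, ∀ d, homogeneousComponent d F ∈ J) (a : Fin (r+1) → 𝕜) (e : ℕ)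
    (F : MvPolynomial (Fin (r+1)) 𝕜) (hF : F ∈ homogeneousSubmodule (Fin (r+1)) 𝕜 e)
    (h : F ∈ J ⊔ Ideal.span {linForm a - 1}) :
    ∃ N, linForm a ^ N * F ∈ J := by
  obtain ⟨j, hj, y, hy, hjy⟩ := Submodule.mem_sup.1 h
  obtain ⟨w, rfl⟩ := Ideal.mem_span_singleton'.1 hy
  have hcomp : ∀ i, homogeneousComponent i w = homogeneousComponent i j +
      homogeneousComponent i (linForm a * w) - homogeneousComponent i F := by
    intro i
    have e1 : w = j + linForm a * w - F := by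
      rw [← hjy]; ring
    conv_lhs => rw [e1]
    rw [map_sub, map_add]
  have h0 : ∀ i, i < e → homogeneousComponent i w ∈ J := by
    intro i
    induction i with
    | zero =>
      intro h0
      rw [hcomp 0, homogeneousComponent_of_mem hF, if_neg (by omega), j14323_comp_zero, add_zero,
        sub_zero]
      exact hJ j hj 0
    | succ i ih =>
      intro h0
      rw [hcomp (i+1), homogeneousComponent_of_mem hF, if_neg (by omega), j14323_comp_lin_mul,
        sub_zero]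
      exact J.add_mem (hJ j hj _) (J.mul_mem_left _ (ih (by omega)))
  have h1 : ∀ k, homogeneousComponent (e+k) w + linForm a ^ k * F ∈ J := by
    intro k
    induction k with
    | zero =>
      rw [show e + 0 = e from rfl, pow_zero, one_mul]
      rcases e with _ | e
      · rw [hcomp 0, homogeneousComponent_of_mem hF, if_pos rfl, j14323_comp_zero, add_zero,
          sub_add_cancel]
        exact hJ j hj 0
      · rw [hcomp (e+1), homogeneousComponent_of_mem hF, if_pos rfl, j14323_comp_lin_mul,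
          sub_add_cancel]
        exact J.add_mem (hJ j hj _) (J.mul_mem_left _ (h0 e (by omega)))
    | succ k ih =>
      rw [← Nat.add_assoc, hcomp (e+k+1), homogeneousComponent_of_mem hF, if_neg (by omega),
        j14323_comp_lin_mul, sub_zero, pow_succ']
      have e2 : homogeneousComponent (e + k + 1) j + linForm a * homogeneousComponent (e + k) w +
          linForm a * linForm a ^ k * F = homogeneousComponent (e + k + 1) j +
          linForm a * (homogeneousComponent (e + k) w + linForm a ^ k * F) := by ring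
      rw [e2]
      exact J.add_mem (hJ j hj _) (J.mul_mem_left _ ih)
  refine ⟨w.totalDegree + 1, ?_⟩
  have h2 := h1 (w.totalDegree + 1)
  rwa [homogeneousComponent_eq_zero _ w (by omega), zero_add] at h2

theorem j14323_nst [IsAlgClosed 𝕜] (P : Ideal (MvPolynomial (Fin (r+1)) 𝕜))
    (H : Fin K → Fin (r+1) → 𝕜)
    (hcen : ∀ x : Fin (r+1) → 𝕜, x ≠ 0 → (∀ F ∈ P, eval x F = 0) → ∃ i, eval x (linForm (H i)) ≠ 0)
    (p : Fin K → 𝕜) (i₀ : Fin K) (hp : p i₀ = 1) :
    mI (r+1) 𝕜 ≤ (fiberIdeal P H p ⊔ Ideal.span {linForm (H i₀)}).radical := by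
  rw [← vanishingIdeal_zeroLocus_eq_radical (K := 𝕜)]
  unfold mI
  rw [Ideal.span_le]
  rintro _ ⟨j, rfl⟩
  rw [SetLike.mem_coe, mem_vanishingIdeal_iff]
  intro x hx
  rw [mem_zeroLocus_iff] at hx
  have hev : ∀ F, aeval x F = eval x F := fun F => by rw [aeval_eq_eval]
  have hx0 : x = 0 := by
    by_contra hne
    obtain ⟨l, hl⟩ := hcen x hne (fun F hF => by
      rw [← hev]
      exact hx F (Ideal.mem_sup_left (Ideal.mem_sup_left hF)))
    apply hl
    have h1 := hx _ (Ideal.mem_sup_right (Ideal.subset_span rfl))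
    have h2 := hx (C (p i₀) * linForm (H l) - C (p l) * linForm (H i₀))
      (Ideal.mem_sup_left (Ideal.mem_sup_right (Ideal.subset_span ⟨i₀, l, rfl⟩)))
    rw [hev] at h1 h2
    rw [map_sub, map_mul, map_mul, h1, hp, eval_C, one_mul, mul_zero, sub_zero] at h2
    exact h2
  rw [hx0]
  simp

theorem j14323_sat_iff [IsAlgClosed 𝕜] (P : Ideal (MvPolynomial (Fin (r+1)) 𝕜))
    (hhom : ∀ F ∈ P, ∀ d, homogeneousComponent d F ∈ P)
    (H : Fin K → Fin (r+1) → 𝕜)
    (hcen : ∀ x : Fin (r+1) → 𝕜, x ≠ 0 → (∀ F ∈ P, eval x F = 0) → ∃ i, eval x (linForm (H i)) ≠ 0)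
    (p : Fin K → 𝕜) (i₀ : Fin K) (hp : p i₀ = 1) (e : ℕ)
    (F : MvPolynomial (Fin (r+1)) 𝕜) (hF : F ∈ homogeneousSubmodule (Fin (r+1)) 𝕜 e) :
    F ∈ saturation (fiberIdeal P H p) ↔ F ∈ fibI 𝕜 P H p := by
  rw [j14323_fibI_eq P H p i₀ hp]
  constructor
  · rintro ⟨N, hN⟩
    have h1 := hN (linForm (H i₀) ^ N) (Ideal.pow_mem_pow (j14323_lin_mem _) N)
    have h2 : (linForm (H i₀) ^ N - 1) * F ∈
        fiberIdeal P H p ⊔ Ideal.span {linForm (H i₀) - 1} := by
      refine Ideal.mul_mem_right _ _ (Ideal.mem_sup_right ?_)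
      rw [Ideal.mem_span_singleton]
      have := sub_dvd_pow_sub_pow (linForm (H i₀)) 1 N
      rwa [one_pow] at this
    have h3 : F = linForm (H i₀) ^ N * F - (linForm (H i₀) ^ N - 1) * F := by ring
    rw [h3]
    exact Ideal.sub_mem _ (Ideal.mem_sup_left h1) h2
  · intro h
    obtain ⟨N, hN⟩ := j14323_pow_mul_mem _ (j14323_J_hom P hhom H p) (H i₀) e F hF h
    have hfg : (mI (r+1) 𝕜).FG := by
      unfold mI
      exact (Submodule.fg_def).2 ⟨_, Set.finite_range _, rfl⟩
    obtain ⟨T, hT⟩ := Ideal.exists_pow_le_of_le_radical_of_fg (j14323_nst P H hcen p i₀ hp) hfg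
    refine ⟨T * (1 + N), fun G hG => ?_⟩
    have h1 : G ∈ fiberIdeal P H p ⊔ Ideal.span {linForm (H i₀) ^ N} := by
      have h2 : mI (r+1) 𝕜 ^ (T * (1 + N)) ≤
          (fiberIdeal P H p ⊔ Ideal.span {linForm (H i₀)}) ^ (1 + N) := by
        rw [pow_mul]
        exact Ideal.pow_right_mono hT _
      have h3 := Ideal.sup_pow_add_le_pow_sup_pow (h2 hG)
      rwa [pow_one, Ideal.span_singleton_pow] at h3
    obtain ⟨j, hj, y, hy, rfl⟩ := Submodule.mem_sup.1 h1
    obtain ⟨c, rfl⟩ := Ideal.mem_span_singleton'.1 hy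
    have e1 : (j + c * linForm (H i₀) ^ N) * F = F * j + c * (linForm (H i₀) ^ N * F) := by ring
    rw [e1]
    exact Ideal.add_mem _ (Ideal.mul_mem_left _ _ hj) (Ideal.mul_mem_left _ _ hN)

theorem j14323_finrank {V A B : Type*} [AddCommGroup V] [Module 𝕜 V] [AddCommGroup A]
    [Module 𝕜 A] [AddCommGroup B] [Module 𝕜 B] (f : V →ₗ[𝕜] A) (g : V →ₗ[𝕜] B)
    (q : Submodule 𝕜 V) (h : ∀ x ∈ q, f x = 0 ↔ g x = 0) :
    Module.finrank 𝕜 (q.map f) = Module.finrank 𝕜 (q.map g) := by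
  have h1 : q.map f = LinearMap.range (f.comp q.subtype) := by
    rw [LinearMap.range_comp, Submodule.range_subtype]
  have h2 : q.map g = LinearMap.range (g.comp q.subtype) := by
    rw [LinearMap.range_comp, Submodule.range_subtype]
  rw [h1, h2]
  have hk : LinearMap.ker (f.comp q.subtype) = LinearMap.ker (g.comp q.subtype) := by
    ext ⟨x, hx⟩
    simp [h x hx]
  exact ((f.comp q.subtype).quotKerEquivRange.symm.trans
    ((Submodule.quotEquivOfEq _ _ hk).trans (g.comp q.subtype).quotKerEquivRange)).finrank_eq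

theorem j14323_hilb [IsAlgClosed 𝕜] (P : Ideal (MvPolynomial (Fin (r+1)) 𝕜))
    (hhom : ∀ F ∈ P, ∀ d, homogeneousComponent d F ∈ P)
    (H : Fin K → Fin (r+1) → 𝕜)
    (hcen : ∀ x : Fin (r+1) → 𝕜, x ≠ 0 → (∀ F ∈ P, eval x F = 0) → ∃ i, eval x (linForm (H i)) ≠ 0)
    (p : Fin K → 𝕜) (i₀ : Fin K) (hp : p i₀ = 1) (d : ℕ)
    (hred : ∀ g : MvPolynomial (Fin (r+1)) 𝕜, ∃ g' : MvPolynomial (Fin (r+1)) 𝕜,
      g'.totalDegree ≤ d ∧ g - g' ∈ fibI 𝕜 P H p) (e : ℕ) (he : d ≤ e) :
    hilb (fiberIdeal P H p) e =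
      Module.finrank 𝕜 (MvPolynomial (Fin (r+1)) 𝕜 ⧸ fibI 𝕜 P H p) := by
  unfold hilb
  rw [j14323_finrank _ (Ideal.Quotient.mkₐ 𝕜 (fibI 𝕜 P H p)).toLinearMap]
  · have htop : Submodule.map (Ideal.Quotient.mkₐ 𝕜 (fibI 𝕜 P H p)).toLinearMap
        (homogeneousSubmodule (Fin (r+1)) 𝕜 e) = ⊤ := by
      rw [eq_top_iff]
      intro y _
      obtain ⟨g, rfl⟩ := Ideal.Quotient.mk_surjective y
      obtain ⟨g', hg', hgg⟩ := hred g
      refine ⟨∑ j ∈ Finset.range (g'.totalDegree + 1),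
        linForm (H i₀) ^ (e - j) * homogeneousComponent j g', ?_, ?_⟩
      · refine Submodule.sum_mem _ fun j hj => ?_
        rw [Finset.mem_range] at hj
        have h1 := ((j14323_lin_hom (H i₀)).pow (e - j)).mul
          (homogeneousComponent_isHomogeneous j g')
        rw [one_mul, Nat.sub_add_cancel (by omega)] at h1
        exact h1
      · show Ideal.Quotient.mk _ _ = Ideal.Quotient.mk _ _
        have hg : Ideal.Quotient.mk (fibI 𝕜 P H p) g = Ideal.Quotient.mk (fibI 𝕜 P H p) g' :=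
          (Ideal.Quotient.eq).2 hgg
        rw [hg]
        conv_rhs => rw [← sum_homogeneousComponent g']
        rw [map_sum, map_sum]
        refine Finset.sum_congr rfl fun j _ => ?_
        have h1 : Ideal.Quotient.mk (fibI 𝕜 P H p) (linForm (H i₀)) = 1 := by
          rw [← map_one (Ideal.Quotient.mk (fibI 𝕜 P H p)), Ideal.Quotient.eq,
            j14323_fibI_eq P H p i₀ hp]
          exact Ideal.mem_sup_right (Ideal.subset_span rfl)
        rw [map_mul, map_pow, h1, one_pow, one_mul]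
    rw [htop, finrank_top]
  · intro x hx
    have h1 := j14323_sat_iff P hhom H hcen p i₀ hp e x hx
    show Ideal.Quotient.mk _ x = 0 ↔ Ideal.Quotient.mk _ x = 0
    rw [Ideal.Quotient.eq_zero_iff_mem, Ideal.Quotient.eq_zero_iff_mem]
    exact h1

end aux

/-- H3: the three conclusions for a point with coordinate `p i₀ = 1` -/
theorem fibre_conclusions {𝕜 : Type*} [Field 𝕜] [IsAlgClosed 𝕜] {r K : ℕ} (P : Ideal (MvPolynomial (Fin (r+1)) 𝕜))
    (hhom : ∀ F ∈ P, ∀ d, homogeneousComponent d F ∈ P)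
    (H : Fin K → Fin (r+1) → 𝕜)
    (hcen : ∀ x : Fin (r+1) → 𝕜, x ≠ 0 → (∀ F ∈ P, eval x F = 0) → ∃ i, eval x (linForm (H i)) ≠ 0)
    (p : Fin K → 𝕜) (i₀ : Fin K) (hp : p i₀ = 1) (d : ℕ)
    (hred : ∀ g : MvPolynomial (Fin (r+1)) 𝕜, ∃ g' : MvPolynomial (Fin (r+1)) 𝕜, g'.totalDegree ≤ d ∧ g - g' ∈ fibI 𝕜 P H p) :
    (∃ δ, IsFiniteOfDegree (fiberIdeal P H p) δ) ∧
    {m | 1 ≤ m ∧ ImposesIndependentConditions (fiberIdeal P H p) (m - 1)}.Nonempty ∧
    reg (fiberIdeal P H p) ≤ d + 1 := by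
  have key := j14323_hilb P hhom H hcen p i₀ hp d hred
  have h1 : IsFiniteOfDegree (fiberIdeal P H p)
      (Module.finrank 𝕜 (MvPolynomial (Fin (r+1)) 𝕜 ⧸ fibI 𝕜 P H p)) := ⟨d, fun e he => key e he⟩
  have h2 : d + 1 ∈ {m | 1 ≤ m ∧ ImposesIndependentConditions (fiberIdeal P H p) (m - 1)} :=
    ⟨Nat.le_add_left _ _, _, h1, by rw [Nat.add_sub_cancel]; exact key d le_rfl⟩
  exact ⟨⟨_, h1⟩, ⟨_, h2⟩, Nat.sInf_le h2⟩

/-- scaling the point -/
theorem fiberIdeal_smul {𝕜 : Type*} [Field 𝕜] {r K : ℕ} (P : Ideal (MvPolynomial (Fin (r+1)) 𝕜))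
    (H : Fin K → Fin (r+1) → 𝕜) (p : Fin K → 𝕜) (t : 𝕜) (ht : t ≠ 0) :
    fiberIdeal P H (fun i => t * p i) = fiberIdeal P H p := by
  unfold fiberIdeal
  congr 1
  apply le_antisymm
  · rw [Ideal.span_le]
    rintro _ ⟨i, j, rfl⟩
    have e : C (t * p i) * linForm (H j) - C (t * p j) * linForm (H i) =
      C t * (C (p i) * linForm (H j) - C (p j) * linForm (H i)) := by
      rw [C_mul, C_mul]; ring
    rw [e]
    exact Ideal.mul_mem_left _ _ (Ideal.subset_span ⟨i, j, rfl⟩)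
  · rw [Ideal.span_le]
    rintro _ ⟨i, j, rfl⟩
    have e : C (p i) * linForm (H j) - C (p j) * linForm (H i) =
      C t⁻¹ * (C (t * p i) * linForm (H j) - C (t * p j) * linForm (H i)) := by
      have h1 : (C t⁻¹ * C t : MvPolynomial (Fin (r+1)) 𝕜) = 1 := by
        rw [← C_mul, inv_mul_cancel₀ ht, C_1]
      rw [C_mul, C_mul]
      linear_combination (-(C (p i) * linForm (H j) - C (p j) * linForm (H i))) * h1
    rw [e]
    exact Ideal.mul_mem_left _ _ (Ideal.subset_span ⟨i, j, rfl⟩)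

end H693RF
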