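import Pool.Agent.Helper693.RF.Defs
import Pool.Agent.Helper693.RF.H1a
import Pool.Agent.Helper693.RF.H1b
import Pool.Agent.Helper693.RF.H2gen
import Pool.Agent.Helper693.RF.H2desc
import Pool.Agent.Helper693.RF.H2spec
import Pool.Agent.Helper693.RF.H2c
import Pool.Agent.Helper693.RF.H2d
import Pool.Agent.Helper693.RF.H3
import Pool.Agent.Helper26.RG.Final
import Pool.Agent.Helper26.RG.Centre

namespace H693RF

open MvPolynomial

universe u

theorem aeval_family {𝕜 B L σ : Type*} [Field 𝕜] [Field L] [Algebra 𝕜 L] (θ : (B → 𝕜) →ₐ[𝕜] L) (f : σ → B → 𝕜)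
    (F : MvPolynomial σ 𝕜) : aeval (fun i => θ (f i)) F = θ (fun b => eval (fun i => f i b) F) := by
  have h1 : aeval (fun i => θ (f i)) F = θ (aeval f F) := by
    rw [← MvPolynomial.comp_aeval_apply]
  rw [h1]
  congr 1
  funext b
  have h2 : (aeval f F) b = (Pi.evalAlgHom 𝕜 (fun _ : B => 𝕜) b) (aeval f F) := rfl
  rw [h2, MvPolynomial.comp_aeval_apply]
  rfl

theorem exists_algClosed (𝕜 L₀ : Type u) [Field 𝕜] [Field L₀] [Algebra 𝕜 L₀] :
    ∃ (L : Type u) (_ : Field L) (_ : Algebra L₀ L) (_ : Algebra 𝕜 L), IsScalarTower 𝕜 L₀ L ∧ IsAlgClosed L :=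
  ⟨AlgebraicClosure L₀, inferInstance, inferInstance, inferInstance, inferInstance, inferInstance⟩

theorem ai_map {𝕜 L₀ L ι : Type*} [Field 𝕜] [Field L₀] [Field L] [Algebra 𝕜 L₀] [Algebra 𝕜 L] (x : ι → L₀)
    (hx : AlgebraicIndependent 𝕜 x) (φ : L₀ →ₐ[𝕜] L) : AlgebraicIndependent 𝕜 (fun i => φ (x i)) := by
  rw [algebraicIndependent_iff] at hx ⊢
  intro F hF
  apply hx
  apply φ.toRingHom.injective
  rw [map_zero, ← hF]
  exact MvPolynomial.comp_aeval_apply (f := x) φ F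

/-- descent of the generic theorem to the generic member -/
theorem generic_descent {𝕜 L₀ : Type u} [Field 𝕜] [IsAlgClosed 𝕜] [CharZero 𝕜] [Field L₀] [Algebra 𝕜 L₀]
    {r n c d : ℕ} (hc : 1 ≤ c) (hr : n ≤ r)
    (hd : n < c * (d + 1))
    (P : Ideal (MvPolynomial (Fin (r+1)) 𝕜)) (hP : IsSmoothProjectiveVariety 𝕜 r n P)
    (a : Fin (n+c+1) → Fin (r+1) → L₀)
    (ha : AlgebraicIndependent 𝕜 (fun ij : Fin (n+c+1) × Fin (r+1) => a ij.1 ij.2))
    (p : Fin (n+c+1) → L₀) (hp : p ≠ 0) (g : MvPolynomial (Fin (r+1)) L₀) :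
    ∃ g' : MvPolynomial (Fin (r+1)) L₀, g'.totalDegree ≤ d ∧ g - g' ∈ fibI L₀ P a p := by
  obtain ⟨L, _, _, _, _, _⟩ := exists_algClosed 𝕜 L₀
  have hcd := coneData_of_variety (q := r - n) (by omega) P hP
  have hsm := smoothAt_of_variety (L := L) (q := r - n) (by omega) P hP
  have hai' : AlgebraicIndependent 𝕜 (fun ij : Fin (n+c+1) × Fin (r+1) => algebraMap L₀ L (a ij.1 ij.2)) :=
    ai_map (fun ij : Fin (n+c+1) × Fin (r+1) => a ij.1 ij.2) ha (IsScalarTower.toAlgHom 𝕜 L₀ L)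
  have hp0 : (fun l => algebraMap L₀ L (p l)) ≠ 0 := by
    intro h
    apply hp
    funext l
    have := congrFun h l
    simpa using this
  obtain ⟨g', hg'1, hg'2⟩ := generic_theorem (L := L) hc P hcd hsm
    (fun l j => algebraMap L₀ L (a l j)) hai' (fun l => algebraMap L₀ L (p l)) hp0 d hd (map (algebraMap L₀ L) g)
  exact descend_field (L₀ := L₀) (L := L) P a p d g g' hg'1 hg'2

theorem eval_mul_homogeneous {𝕜 : Type*} [Field 𝕜] {r : ℕ} (t : 𝕜) (x : Fin (r+1) → 𝕜) (e : ℕ)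
    (F : MvPolynomial (Fin (r+1)) 𝕜) (hF : F.IsHomogeneous e) :
    eval (fun m => t * x m) F = t ^ e * eval x F := by
  rw [eval_eq, eval_eq, Finset.mul_sum]
  apply Finset.sum_congr rfl
  intro α hα
  have h1 : α.degree = e := by
    have := hF (mem_support_iff.1 hα)
    rw [← this, Finsupp.degree_eq_weight_one]; rfl
  have h2 : ∏ i, (t * x i) ^ α i = t ^ e * ∏ i, x i ^ α i := by
    simp only [mul_pow]
    rw [Finset.prod_mul_distrib, Finset.prod_pow_eq_pow_sum, ← h1, Finsupp.degree_eq_sum]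
  have h3 : ∏ i ∈ α.support, (t * x i) ^ α i = ∏ i, (t * x i) ^ α i := by
    apply Finset.prod_subset (Finset.subset_univ _)
    intro i _ hi
    rw [Finsupp.notMem_support_iff.1 hi, pow_zero]
  have h4 : ∏ i ∈ α.support, x i ^ α i = ∏ i, x i ^ α i := by
    apply Finset.prod_subset (Finset.subset_univ _)
    intro i _ hi
    rw [Finsupp.notMem_support_iff.1 hi, pow_zero]
  rw [h3, h4, h2]
  ring

theorem centre_open {𝕜 : Type u} [Field 𝕜] [IsAlgClosed 𝕜] [CharZero 𝕜] {r n K : ℕ} (hK : n + 1 < K) (hr : n ≤ r)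
    (P : Ideal (MvPolynomial (Fin (r+1)) 𝕜)) (hP : IsSmoothProjectiveVariety 𝕜 r n P) (j : Fin (r+1)) :
    ∃ Φ : MvPolynomial (Fin K × Fin (r+1)) 𝕜, Φ ≠ 0 ∧
      ∀ H : Fin K → Fin (r+1) → 𝕜, eval (fun ij => H ij.1 ij.2) Φ ≠ 0 →
        ∀ x : Fin (r+1) → 𝕜, x j = 1 → (∀ F ∈ P, eval x F = 0) → ∃ i, eval x (linForm (H i)) ≠ 0 := by
  by_contra hcon
  push Not at hcon
  let B : Type u := {b : (Fin K → Fin (r+1) → 𝕜) × (Fin (r+1) → 𝕜) //
    b.2 j = 1 ∧ (∀ F ∈ P, eval b.2 F = 0) ∧ ∀ i, eval b.2 (linForm (b.1 i)) = 0}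
  obtain ⟨L, _, _, θ, hsurj, hai, hcommon⟩ := exists_generic_field (𝕜 := 𝕜) (B := B)
    (fun b (ij : Fin K × Fin (r+1)) => b.1.1 ij.1 ij.2) (by
      intro Φ hΦ
      obtain ⟨H, hH, x, hx1, hx2, hx3⟩ := hcon Φ hΦ
      exact ⟨⟨(H, x), hx1, hx2, hx3⟩, hH⟩)
  have hcd := coneData_of_variety (q := r - n) (by omega) P hP
  have hsm := smoothAt_of_variety (L := L) (q := r - n) (by omega) P hP
  have h0 := RG.centre_lemma hK P hcd hsm (fun i j' => θ (fun b : B => b.1.1 i j')) hai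
    (fun j' => θ (fun b : B => b.1.2 j')) (by
      intro F hF
      rw [aeval_family θ (fun j' (b : B) => b.1.2 j') F]
      have : (fun b : B => eval (fun j' => b.1.2 j') F) = 0 := by
        funext b
        exact b.2.2.1 F hF
      rw [this, map_zero]) (by
      intro l
      have h1 : (∑ j', θ (fun b : B => b.1.1 l j') * θ (fun b : B => b.1.2 j')) =
          θ (∑ j', (fun b : B => b.1.1 l j') * (fun b : B => b.1.2 j')) := by
        simp
      rw [h1]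
      have h2 : (∑ j', (fun b : B => b.1.1 l j') * (fun b : B => b.1.2 j')) = 0 := by
        funext b
        have := b.2.2.2 l
        simp only [linForm, map_sum, map_mul, eval_C, eval_X] at this
        simpa [Finset.sum_apply] using this
      rw [h2, map_zero])
  have h1 := congrFun h0 j
  have h2 : (fun b : B => b.1.2 j) = 1 := by
    funext b
    exact b.2.1
  simp only [h2, map_one, Pi.zero_apply] at h1
  exact one_ne_zero h1

theorem fibre_open {𝕜 : Type u} [Field 𝕜] [IsAlgClosed 𝕜] [CharZero 𝕜] {r n c d : ℕ} (hc : 1 ≤ c) (hr : n ≤ r)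
    (hd : n < c * (d + 1))
    (P : Ideal (MvPolynomial (Fin (r+1)) 𝕜)) (hP : IsSmoothProjectiveVariety 𝕜 r n P) (i₀ : Fin (n+c+1))
    (g : MvPolynomial (Fin (r+1)) 𝕜) :
    ∃ Φ : MvPolynomial (Fin (n+c+1) × Fin (r+1)) 𝕜, Φ ≠ 0 ∧
      ∀ H : Fin (n+c+1) → Fin (r+1) → 𝕜, eval (fun ij => H ij.1 ij.2) Φ ≠ 0 →
        ∀ p : Fin (n+c+1) → 𝕜, p i₀ = 1 → ∃ g' : MvPolynomial (Fin (r+1)) 𝕜, g'.totalDegree ≤ d ∧ g - g' ∈ fibI 𝕜 P H p := by
  by_contra hcon
  push Not at hcon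
  let B : Type u := {b : (Fin (n+c+1) → Fin (r+1) → 𝕜) × (Fin (n+c+1) → 𝕜) //
    b.2 i₀ = 1 ∧ ∀ g' : MvPolynomial (Fin (r+1)) 𝕜, g'.totalDegree ≤ d → g - g' ∉ fibI 𝕜 P b.1 b.2}
  obtain ⟨L₀, _, _, θ, hsurj, hai, hcommon⟩ := exists_generic_field (𝕜 := 𝕜) (B := B)
    (fun b (ij : Fin (n+c+1) × Fin (r+1)) => b.1.1 ij.1 ij.2) (by
      intro Φ hΦ
      obtain ⟨H, hH, p, hp1, hp2⟩ := hcon Φ hΦ
      exact ⟨⟨(H, p), hp1, hp2⟩, hH⟩)
  have hp0 : (fun l => θ (fun b : B => b.1.2 l)) ≠ 0 := by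
    intro h
    have h1 := congrFun h i₀
    have h2 : (fun b : B => b.1.2 i₀) = 1 := by
      funext b
      exact b.2.1
    simp only [h2, map_one, Pi.zero_apply] at h1
    exact one_ne_zero h1
  obtain ⟨g₁, hg₁1, hg₁2⟩ := generic_descent hc hr hd P hP (fun l j => θ (fun b : B => b.1.1 l j)) hai
    (fun l => θ (fun b : B => b.1.2 l)) hp0 (map (algebraMap 𝕜 L₀) g)
  obtain ⟨b, g₂, hg₂1, hg₂2⟩ := specialise θ hsurj hcommon P (fun b => b.1.1) (fun b => b.1.2) d g g₁ hg₁1 hg₁2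
  exact b.2.2 g₂ hg₂1 hg₂2

theorem result (𝕜 : Type u) [Field 𝕜] [IsAlgClosed 𝕜] [CharZero 𝕜] (r n c : ℕ) (hc : 1 ≤ c) (hr : n + c < r)
    (P : Ideal (MvPolynomial (Fin (r+1)) 𝕜)) (hP : IsSmoothProjectiveVariety 𝕜 r n P) :
    ∃ Φ : MvPolynomial (Fin (n+c+1) × Fin (r+1)) 𝕜, Φ ≠ 0 ∧
      ∀ H : Fin (n+c+1) → Fin (r+1) → 𝕜, eval (fun ij => H ij.1 ij.2) Φ ≠ 0 →
        LinearIndependent 𝕜 H ∧
        (∀ x : Fin (r+1) → 𝕜, x ≠ 0 → (∀ F ∈ P, eval x F = 0) → ∃ i, eval x (linForm (H i)) ≠ 0) ∧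
        ∀ p : Fin (n+c+1) → 𝕜, p ≠ 0 →
          (∃ δ, IsFiniteOfDegree (fiberIdeal P H p) δ) ∧
          {m | 1 ≤ m ∧ ImposesIndependentConditions (fiberIdeal P H p) (m - 1)}.Nonempty ∧
          ((reg (fiberIdeal P H p) : ℕ) : ℚ) ≤ (n : ℚ) / c + 1 := by
  classical
  obtain ⟨Φ₁, hΦ₁, hΦ₁'⟩ := exists_rank_poly (𝕜 := 𝕜) (r := r) (K := n+c+1) (by omega)
  choose Φ₂ hΦ₂ hΦ₂' using fun j => centre_open (K := n+c+1) (by omega) (by omega) P hP j
  have hd : n < c * (n / c + 1) := Nat.lt_mul_div_succ n (by omega)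
  choose Φ₃ hΦ₃ hΦ₃' using fun (i₀ : Fin (n+c+1)) (α : Fin (r+1) →₀ ℕ) =>
    fibre_open hc (by omega) hd P hP i₀ (monomial α 1)
  let S := Finset.finsuppAntidiag (Finset.univ : Finset (Fin (r+1))) (n / c + 1)
  refine ⟨Φ₁ * (∏ j, Φ₂ j) * ∏ i₀, ∏ α ∈ S, Φ₃ i₀ α, ?_, ?_⟩
  · refine mul_ne_zero (mul_ne_zero hΦ₁ ?_) ?_
    · exact Finset.prod_ne_zero_iff.2 fun j _ => hΦ₂ j
    · exact Finset.prod_ne_zero_iff.2 fun i _ => Finset.prod_ne_zero_iff.2 fun α _ => hΦ₃ i α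
  · intro H hH
    rw [map_mul, map_mul, map_prod, map_prod] at hH
    have h1 := left_ne_zero_of_mul (left_ne_zero_of_mul hH)
    have h2 := Finset.prod_ne_zero_iff.1 (right_ne_zero_of_mul (left_ne_zero_of_mul hH))
    have h3 := Finset.prod_ne_zero_iff.1 (right_ne_zero_of_mul hH)
    have hcen : ∀ x : Fin (r+1) → 𝕜, x ≠ 0 → (∀ F ∈ P, eval x F = 0) → ∃ i, eval x (linForm (H i)) ≠ 0 := by
      intro x hx hxP
      obtain ⟨j, hj⟩ : ∃ j, x j ≠ 0 := by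
        by_contra hcon
        push Not at hcon
        exact hx (funext hcon)
      obtain ⟨i, hi⟩ := hΦ₂' j H (h2 j (Finset.mem_univ _)) (fun m => (x j)⁻¹ * x m) (inv_mul_cancel₀ hj) (by
        intro F hF
        have hsum := MvPolynomial.sum_homogeneousComponent F
        rw [← hsum, map_sum]
        apply Finset.sum_eq_zero
        intro e _
        have h6 : eval (fun m => (x j)⁻¹ * x m) (homogeneousComponent e F) =
            (x j)⁻¹ ^ e * eval x (homogeneousComponent e F) :=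
          eval_mul_homogeneous (x j)⁻¹ x e _ (homogeneousComponent_isHomogeneous e F)
        rw [h6, hxP _ (hP.homogeneous F hF e), mul_zero])
      refine ⟨i, fun h0 => hi ?_⟩
      simp only [linForm, map_sum, map_mul, eval_C, eval_X] at h0 ⊢
      have h7 : ∑ m, H i m * ((x j)⁻¹ * x m) = (x j)⁻¹ * ∑ m, H i m * x m := by
        rw [Finset.mul_sum]
        exact Finset.sum_congr rfl fun m _ => by ring
      rw [h7, h0, mul_zero]
    refine ⟨hΦ₁' H h1, hcen, ?_⟩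
    intro p hp
    obtain ⟨i₀, hi₀⟩ : ∃ i, p i ≠ 0 := by
      by_contra hcon
      push Not at hcon
      exact hp (funext hcon)
    have hp' : (fun i => (p i₀)⁻¹ * p i) i₀ = 1 := inv_mul_cancel₀ hi₀
    have h4 := h3 i₀ (Finset.mem_univ _)
    rw [map_prod] at h4
    have h5 := Finset.prod_ne_zero_iff.1 h4
    have hred := reduce_all (fibI 𝕜 P H (fun i => (p i₀)⁻¹ * p i)) (n / c) (by
      intro α hα
      refine hΦ₃' i₀ α H (h5 α ?_) _ hp'
      rw [Finset.mem_finsuppAntidiag]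
      refine ⟨?_, Finset.subset_univ _⟩
      rw [← hα, Finsupp.degree_eq_sum])
    obtain ⟨k1, k2, k3⟩ := fibre_conclusions P hP.homogeneous H hcen _ i₀ hp' (n / c) hred
    rw [fiberIdeal_smul P H p _ (inv_ne_zero hi₀)] at k1 k2 k3
    refine ⟨k1, k2, ?_⟩
    have h6 : ((reg (fiberIdeal P H p) : ℕ) : ℚ) ≤ ((n / c + 1 : ℕ) : ℚ) := by exact_mod_cast k3
    refine h6.trans ?_
    push_cast
    have h7 : ((n / c : ℕ) : ℚ) ≤ (n : ℚ) / c := Nat.cast_div_le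
    linarith

end H693RF
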