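import Mathlib

namespace H693RF

open MvPolynomial

section aux

variable {L : Type*} [Field L] {n : ℕ}

/-- degree bound -/
def DLt (d : ℕ) (p : MvPolynomial (Fin n) L) : Prop := p = 0 ∨ p.totalDegree < d

theorem DLt.zero (d : ℕ) : DLt d (0 : MvPolynomial (Fin n) L) := Or.inl rfl

theorem DLt.mono {d e : ℕ} (h : d ≤ e) {p : MvPolynomial (Fin n) L} (hp : DLt d p) : DLt e p :=
  hp.imp_right (fun h' => h'.trans_le h)

theorem DLt.add {d : ℕ} {p q : MvPolynomial (Fin n) L} (hp : DLt d p) (hq : DLt d q) :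
    DLt d (p + q) := by
  rcases hp with rfl | hp
  · simpa using hq
  · rcases hq with rfl | hq
    · rw [add_zero]; exact Or.inr hp
    · exact Or.inr ((totalDegree_add p q).trans_lt (max_lt hp hq))

theorem DLt.smul {d : ℕ} {p : MvPolynomial (Fin n) L} (c : L) (hp : DLt d p) : DLt d (c • p) := by
  rcases hp with rfl | hp
  · rw [smul_zero]; exact DLt.zero d
  · exact Or.inr ((totalDegree_smul_le c p).trans_lt hp)

theorem DLt.sum {ι : Type*} (s : Finset ι) (f : ι → MvPolynomial (Fin n) L) {d : ℕ}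
    (h : ∀ i ∈ s, DLt d (f i)) : DLt d (∑ i ∈ s, f i) :=
  Finset.sum_induction f (DLt d) (fun _ _ => DLt.add) (DLt.zero d) h

theorem DLt.mul {d e : ℕ} {p q : MvPolynomial (Fin n) L} (hp : DLt d p) (hq : DLt (e + 1) q) :
    DLt (d + e) (p * q) := by
  rcases hp with rfl | hp
  · rw [zero_mul]; exact DLt.zero _
  · rcases hq with rfl | hq
    · rw [mul_zero]; exact DLt.zero _
    · right
      have := totalDegree_mul p q
      omega

theorem DLt.of_zero {p : MvPolynomial (Fin n) L} (hp : DLt 0 p) : p = 0 :=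
  hp.resolve_right (by omega)

theorem DLt.supp {d : ℕ} {p : MvPolynomial (Fin n) L} (hp : DLt d p) {m : Fin n →₀ ℕ}
    (hm : m ∈ p.support) : (m.sum fun _ e => e) < d := by
  rcases hp with rfl | hp
  · simp at hm
  · exact (le_totalDegree hm).trans_lt hp

/-- `f` has leading form `f0` in degree `d` -/
def Appr (d : ℕ) (f f0 : MvPolynomial (Fin n) L) : Prop := DLt (d + 1) f0 ∧ DLt d (f - f0)

theorem Appr.left {d : ℕ} {f f0 : MvPolynomial (Fin n) L} (h : Appr d f f0) : DLt (d + 1) f := by
  have : f = (f - f0) + f0 := by ring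
  rw [this]
  exact (h.2.mono (Nat.le_succ d)).add h.1

theorem Appr.mul {d e : ℕ} {f f0 g g0 : MvPolynomial (Fin n) L} (h : Appr d f f0)
    (k : Appr e g g0) : Appr (d + e) (f * g) (f0 * g0) := by
  constructor
  · exact (h.1.mul k.1).mono (by omega)
  · have e1 : f * g - f0 * g0 = (f - f0) * g + (g - g0) * f0 := by ring
    rw [e1]
    exact (h.2.mul k.left).add ((k.2.mul h.1).mono (by omega))

theorem Appr.refl {d : ℕ} {f : MvPolynomial (Fin n) L} (h : DLt (d + 1) f) : Appr d f f :=
  ⟨h, by rw [sub_self]; exact DLt.zero d⟩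

theorem Appr.one : Appr 0 (1 : MvPolynomial (Fin n) L) 1 :=
  Appr.refl (Or.inr (by simp))

theorem Appr.add {d : ℕ} {f f0 g g0 : MvPolynomial (Fin n) L} (h : Appr d f f0)
    (k : Appr d g g0) : Appr d (f + g) (f0 + g0) := by
  refine ⟨h.1.add k.1, ?_⟩
  have e1 : f + g - (f0 + g0) = (f - f0) + (g - g0) := by ring
  rw [e1]
  exact h.2.add k.2

theorem Appr.smul {d : ℕ} {f f0 : MvPolynomial (Fin n) L} (c : L) (h : Appr d f f0) :
    Appr d (c • f) (c • f0) := by
  refine ⟨h.1.smul c, ?_⟩
  rw [← smul_sub]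
  exact h.2.smul c

theorem Appr.sum {ι : Type*} (s : Finset ι) (f f0 : ι → MvPolynomial (Fin n) L) {d : ℕ}
    (h : ∀ i ∈ s, Appr d (f i) (f0 i)) : Appr d (∑ i ∈ s, f i) (∑ i ∈ s, f0 i) := by
  classical
  induction s using Finset.induction_on with
  | empty =>
    simp only [Finset.sum_empty]
    exact Appr.refl (DLt.zero _)
  | insert a s ha ih =>
    rw [Finset.sum_insert ha, Finset.sum_insert ha]
    exact (h a (Finset.mem_insert_self a s)).add
      (ih (fun i hi => h i (Finset.mem_insert_of_mem hi)))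

theorem Appr.prod {ι : Type*} (s : Finset ι) (d : ι → ℕ) (f f0 : ι → MvPolynomial (Fin n) L)
    (h : ∀ i ∈ s, Appr (d i) (f i) (f0 i)) :
    Appr (∑ i ∈ s, d i) (∏ i ∈ s, f i) (∏ i ∈ s, f0 i) := by
  classical
  induction s using Finset.induction_on with
  | empty =>
    simp only [Finset.sum_empty, Finset.prod_empty]
    exact Appr.one
  | insert a s ha ih =>
    rw [Finset.sum_insert ha, Finset.prod_insert ha, Finset.prod_insert ha]
    exact (h a (Finset.mem_insert_self a s)).mul
      (ih (fun i hi => h i (Finset.mem_insert_of_mem hi)))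

theorem Appr.pow {d : ℕ} {f f0 : MvPolynomial (Fin n) L} (h : Appr d f f0) (k : ℕ) :
    Appr (k * d) (f ^ k) (f0 ^ k) := by
  induction k with
  | zero => simpa using Appr.one
  | succ k ih =>
    rw [pow_succ, pow_succ, Nat.succ_mul]
    exact ih.mul h

theorem Appr.X_pow (i : Fin n) (k : ℕ) : Appr k (X i ^ k : MvPolynomial (Fin n) L) (X i ^ k) :=
  Appr.refl (Or.inr (by rw [totalDegree_X_pow]; omega))

theorem appr_g {M : ℕ} {g h : Fin n → MvPolynomial (Fin n) L}
    (hh : ∀ i, (h i).totalDegree < M) (hg : ∀ i, g i = h i + X i ^ M) (i : Fin n) :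
    Appr M (g i) (X i ^ M) := by
  refine ⟨(Appr.X_pow i M).1, ?_⟩
  rw [hg i, add_sub_cancel_right]
  exact Or.inr (hh i)

/-- the adapted family -/
noncomputable def ee (M : ℕ) (g : Fin n → MvPolynomial (Fin n) L) (a : Fin n →₀ ℕ) :
    MvPolynomial (Fin n) L :=
  (∏ i, X i ^ (a i % M)) * ∏ i, g i ^ (a i / M)

theorem monomial_prod (a : Fin n →₀ ℕ) :
    (monomial a 1 : MvPolynomial (Fin n) L) = ∏ i, X i ^ a i := by
  rw [monomial_eq, C_1, one_mul, Finsupp.prod_fintype _ _ (by simp)]

theorem ee_appr {M : ℕ} {g h : Fin n → MvPolynomial (Fin n) L}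
    (hh : ∀ i, (h i).totalDegree < M) (hg : ∀ i, g i = h i + X i ^ M) (a : Fin n →₀ ℕ) :
    Appr (a.sum fun _ e => e) (ee M g a) (monomial a 1) := by
  have h1 : Appr (∑ i, a i % M) (∏ i, (X i : MvPolynomial (Fin n) L) ^ (a i % M))
      (∏ i, X i ^ (a i % M)) := Appr.prod _ _ _ _ (fun i _ => Appr.X_pow i _)
  have h2 : Appr (∑ i, a i / M * M) (∏ i, g i ^ (a i / M)) (∏ i, (X i ^ M) ^ (a i / M)) :=
    Appr.prod _ _ _ _ (fun i _ => (appr_g hh hg i).pow _)
  have h3 := h1.mul h2
  have e1 : (∑ i, a i % M) + ∑ i, a i / M * M = a.sum fun _ e => e := by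
    rw [Finsupp.sum_fintype _ _ (by simp), ← Finset.sum_add_distrib]
    apply Finset.sum_congr rfl
    intro i _
    rw [mul_comm]
    exact Nat.mod_add_div _ _
  have e2 : (∏ i, (X i : MvPolynomial (Fin n) L) ^ (a i % M)) * ∏ i, (X i ^ M) ^ (a i / M) =
      monomial a 1 := by
    rw [monomial_prod, ← Finset.prod_mul_distrib]
    apply Finset.prod_congr rfl
    intro i _
    rw [← pow_mul, ← pow_add, Nat.mod_add_div]
  rw [e1, e2] at h3
  exact h3

/-- the triangular map -/
noncomputable def TT (M : ℕ) (g : Fin n → MvPolynomial (Fin n) L) :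
    MvPolynomial (Fin n) L →ₗ[L] MvPolynomial (Fin n) L :=
  (basisMonomials (Fin n) L).constr L (ee M g)

theorem TT_monomial (M : ℕ) (g : Fin n → MvPolynomial (Fin n) L) (a : Fin n →₀ ℕ) :
    TT M g (monomial a 1) = ee M g a := by
  have := (basisMonomials (Fin n) L).constr_basis L (ee M g) a
  rwa [coe_basisMonomials] at this

theorem sum_coeff (p : MvPolynomial (Fin n) L) :
    p = ∑ m ∈ p.support, coeff m p • (monomial m 1 : MvPolynomial (Fin n) L) := by
  conv_lhs => rw [p.as_sum]
  apply Finset.sum_congr rfl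
  intro m _
  rw [smul_monomial, smul_eq_mul, mul_one]

theorem TT_eq (M : ℕ) (g : Fin n → MvPolynomial (Fin n) L) (p : MvPolynomial (Fin n) L) :
    TT M g p = ∑ m ∈ p.support, coeff m p • ee M g m := by
  conv_lhs => rw [sum_coeff p, map_sum]
  apply Finset.sum_congr rfl
  intro m _
  rw [map_smul, TT_monomial]

theorem TT_sub {M : ℕ} {g h : Fin n → MvPolynomial (Fin n) L}
    (hh : ∀ i, (h i).totalDegree < M) (hg : ∀ i, g i = h i + X i ^ M)
    (p : MvPolynomial (Fin n) L) (d : ℕ) (hp : DLt (d + 1) p) : DLt d (TT M g p - p) := by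
  have e1 : TT M g p - p = ∑ m ∈ p.support, coeff m p • (ee M g m - monomial m 1) := by
    conv_lhs => rw [TT_eq]
    conv_lhs =>
      rhs
      rw [sum_coeff p]
    rw [← Finset.sum_sub_distrib]
    apply Finset.sum_congr rfl
    intro m _
    rw [smul_sub]
  rw [e1]
  apply DLt.sum
  intro m hm
  have h1 := hp.supp hm
  exact ((ee_appr hh hg m).2.mono (by omega)).smul _

theorem TT_surj {M : ℕ} {g h : Fin n → MvPolynomial (Fin n) L}
    (hh : ∀ i, (h i).totalDegree < M) (hg : ∀ i, g i = h i + X i ^ M) (d : ℕ) :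
    ∀ p : MvPolynomial (Fin n) L, DLt d p → ∃ q, TT M g q = p := by
  induction d with
  | zero =>
    intro p hp
    rw [hp.of_zero]
    exact ⟨0, map_zero _⟩
  | succ d ih =>
    intro p hp
    obtain ⟨q, hq⟩ := ih _ (TT_sub hh hg p d hp)
    refine ⟨p - q, ?_⟩
    rw [map_sub, hq]
    ring

theorem TT_surjective {M : ℕ} {g h : Fin n → MvPolynomial (Fin n) L}
    (hh : ∀ i, (h i).totalDegree < M) (hg : ∀ i, g i = h i + X i ^ M) :
    Function.Surjective (TT M g) :=
  fun p => TT_surj hh hg (p.totalDegree + 1) p (Or.inr (Nat.lt_succ_self _))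

theorem TT_inj {M : ℕ} {g h : Fin n → MvPolynomial (Fin n) L}
    (hh : ∀ i, (h i).totalDegree < M) (hg : ∀ i, g i = h i + X i ^ M) (d : ℕ) :
    ∀ p : MvPolynomial (Fin n) L, DLt d p → TT M g p = 0 → p = 0 := by
  induction d with
  | zero =>
    intro p hp _
    exact hp.of_zero
  | succ d ih =>
    intro p hp h0
    have h1 := TT_sub hh hg p d hp
    rw [h0, zero_sub] at h1
    have h2 : DLt d p := by
      have := h1.smul (-1 : L)
      simpa using this
    exact ih p h2 h0

theorem TT_injective {M : ℕ} {g h : Fin n → MvPolynomial (Fin n) L}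
    (hh : ∀ i, (h i).totalDegree < M) (hg : ∀ i, g i = h i + X i ^ M)
    (p : MvPolynomial (Fin n) L) (h0 : TT M g p = 0) : p = 0 :=
  TT_inj hh hg (p.totalDegree + 1) p (Or.inr (Nat.lt_succ_self _)) h0

/-- exponent vector -/
noncomputable def al {M : ℕ} (α : Fin n → Fin M) : Fin n →₀ ℕ :=
  Finsupp.equivFunOnFinite.symm (fun i => (α i).val)

theorem al_apply {M : ℕ} (α : Fin n → Fin M) (i : Fin n) : al α i = (α i).val := rfl

/-- `p(X) ↦ p(X^M) X^α` -/
noncomputable def Psi (L : Type*) [Field L] {M : ℕ} (α : Fin n → Fin M) :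
    MvPolynomial (Fin n) L →ₗ[L] MvPolynomial (Fin n) L :=
  (basisMonomials (Fin n) L).constr L (fun c => monomial (M • c + al α) 1)

theorem Psi_monomial {M : ℕ} (α : Fin n → Fin M) (c : Fin n →₀ ℕ) :
    Psi L α (monomial c 1) = monomial (M • c + al α) 1 := by
  have := (basisMonomials (Fin n) L).constr_basis L
    (fun c => (monomial (M • c + al α) 1 : MvPolynomial (Fin n) L)) c
  rwa [coe_basisMonomials] at this

/-- the monomials `u^α` -/
noncomputable def vv (L : Type*) [Field L] {M : ℕ} (α : Fin n → Fin M) : MvPolynomial (Fin n) L :=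
  ∏ i, X i ^ (α i).val

theorem ee_split {M : ℕ} (hM : 0 < M) (g : Fin n → MvPolynomial (Fin n) L) (α : Fin n → Fin M)
    (c : Fin n →₀ ℕ) : ee M g (M • c + al α) = aeval g (monomial c (1 : L)) * vv L α := by
  unfold ee vv
  rw [aeval_monomial, map_one, one_mul, Finsupp.prod_fintype _ _ (by simp), mul_comm]
  congr 1
  · apply Finset.prod_congr rfl
    intro i _
    rw [Finsupp.add_apply, Finsupp.smul_apply, smul_eq_mul, al_apply, Nat.mul_add_div hM,
      Nat.div_eq_of_lt (α i).2, add_zero]
  · apply Finset.prod_congr rfl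
    intro i _
    rw [Finsupp.add_apply, Finsupp.smul_apply, smul_eq_mul, al_apply, Nat.mul_add_mod,
      Nat.mod_eq_of_lt (α i).2]

theorem TT_Psi {M : ℕ} (hM : 0 < M) (g : Fin n → MvPolynomial (Fin n) L) (α : Fin n → Fin M)
    (p : MvPolynomial (Fin n) L) : TT M g (Psi L α p) = aeval g p * vv L α := by
  have h : (TT M g) ∘ₗ (Psi L α) =
      (LinearMap.mulRight L (vv L α)) ∘ₗ (aeval g : MvPolynomial (Fin n) L →ₐ[L] _).toLinearMap := by
    apply (basisMonomials (Fin n) L).ext
    intro c
    rw [coe_basisMonomials]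
    simp only [LinearMap.comp_apply, LinearMap.mulRight_apply, AlgHom.toLinearMap_apply]
    rw [Psi_monomial, TT_monomial, ee_split hM]
  exact LinearMap.congr_fun h p

theorem index_inj {M : ℕ} (hM : 0 < M) (α β : Fin n → Fin M) (c c' : Fin n →₀ ℕ) :
    M • c' + al β = M • c + al α ↔ c' = c ∧ β = α := by
  constructor
  · intro h
    have h1 : ∀ i, M * c' i + (β i).val = M * c i + (α i).val := by
      intro i
      have := DFunLike.congr_fun h i
      simpa [al_apply] using this
    constructor
    · ext i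
      have := congrArg (· / M) (h1 i)
      simpa [Nat.mul_add_div hM, Nat.div_eq_of_lt (α i).2, Nat.div_eq_of_lt (β i).2] using this
    · funext i
      apply Fin.ext
      have := congrArg (· % M) (h1 i)
      simpa [Nat.mul_add_mod, Nat.mod_eq_of_lt (α i).2, Nat.mod_eq_of_lt (β i).2] using this
  · rintro ⟨rfl, rfl⟩
    rfl

open Classical in
theorem coeff_Psi {M : ℕ} (hM : 0 < M) (α β : Fin n → Fin M) (c : Fin n →₀ ℕ)
    (p : MvPolynomial (Fin n) L) :
    coeff (M • c + al α) (Psi L β p) = if β = α then coeff c p else 0 := by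
  have h : (lcoeff (R := L) (M • c + al α)) ∘ₗ (Psi L β) =
      if β = α then lcoeff (R := L) c else 0 := by
    apply (basisMonomials (Fin n) L).ext
    intro c'
    rw [coe_basisMonomials]
    simp only [LinearMap.comp_apply]
    rw [Psi_monomial]
    by_cases hb : β = α
    · rw [if_pos hb]
      show coeff (M • c + al α) (monomial (M • c' + al β) (1 : L)) = coeff c (monomial c' (1 : L))
      rw [coeff_monomial, coeff_monomial]
      simp only [index_inj hM, hb, and_true]
    · rw [if_neg hb]
      show coeff (M • c + al α) (monomial (M • c' + al β) (1 : L)) = 0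
      rw [coeff_monomial]
      simp only [index_inj hM, hb, and_false, if_false]
  have h2 := LinearMap.congr_fun h p
  split_ifs at h2 ⊢ with hb
  · exact h2
  · exact h2

end aux

/-- `L[u]` is free over the subalgebra `L[g_1..g_n]`, `g_i = h_i + u_i^M`, `deg h_i < M`, with the monomial basis `u^α`, `α_i < M`. -/
theorem free_basis {L : Type*} [Field L] {n : ℕ} (M : ℕ) (hM : 0 < M)
    (g h : Fin n → MvPolynomial (Fin n) L) (hh : ∀ i, (h i).totalDegree < M)
    (hg : ∀ i, g i = h i + X i ^ M) :
    Function.Injective (aeval g : MvPolynomial (Fin n) L →ₐ[L] MvPolynomial (Fin n) L) ∧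
    ∃ b : Module.Basis (Fin n → Fin M) (aeval g : MvPolynomial (Fin n) L →ₐ[L] MvPolynomial (Fin n) L).range
        (MvPolynomial (Fin n) L),
      ∀ α, b α = ∏ i, X i ^ (α i).val := by
  classical
  have hinj : Function.Injective (aeval g : MvPolynomial (Fin n) L →ₐ[L] MvPolynomial (Fin n) L) := by
    rw [injective_iff_map_eq_zero]
    intro p hp
    let α : Fin n → Fin M := fun _ => ⟨0, hM⟩
    have h1 := TT_Psi hM g α p
    rw [hp, zero_mul] at h1
    have h2 := TT_injective hh hg _ h1
    ext c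
    have h3 := coeff_Psi hM α α c p
    rw [h2, if_pos rfl, coeff_zero] at h3
    rw [← h3, coeff_zero]
  refine ⟨hinj, ?_⟩
  have hli : LinearIndependent (aeval g : MvPolynomial (Fin n) L →ₐ[L] MvPolynomial (Fin n) L).range
      (fun α : Fin n → Fin M => vv L α) := by
    rw [Fintype.linearIndependent_iff]
    intro s hs α
    have hch : ∀ β : Fin n → Fin M, ∃ p : MvPolynomial (Fin n) L, aeval g p = (s β).1 := fun β => (s β).2
    choose p hp using hch
    have h1 : TT M g (∑ β, Psi L β (p β)) = 0 := by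
      rw [map_sum, ← hs]
      apply Finset.sum_congr rfl
      intro β _
      rw [TT_Psi hM, hp]
      rfl
    have h2 := TT_injective hh hg _ h1
    have h3 : p α = 0 := by
      ext c
      have h4 := congrArg (coeff (M • c + al α)) h2
      rw [coeff_sum, coeff_zero] at h4
      rw [coeff_zero, ← h4]
      rw [Finset.sum_eq_single α]
      · rw [coeff_Psi hM, if_pos rfl]
      · intro β _ hβ
        rw [coeff_Psi hM, if_neg hβ]
      · intro hα
        exact absurd (Finset.mem_univ _) hα
    apply Subtype.ext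
    rw [← hp α, h3, map_zero]
    rfl
  have hsp : ⊤ ≤ Submodule.span (aeval g : MvPolynomial (Fin n) L →ₐ[L] MvPolynomial (Fin n) L).range
      (Set.range (fun α : Fin n → Fin M => vv L α)) := by
    intro r _
    obtain ⟨q, hq⟩ := TT_surjective hh hg r
    rw [← hq, TT_eq]
    apply Submodule.sum_mem
    intro a _
    let α : Fin n → Fin M := fun i => ⟨a i % M, Nat.mod_lt _ hM⟩
    let c : Fin n →₀ ℕ := Finsupp.equivFunOnFinite.symm (fun i => a i / M)
    have ha : a = M • c + al α := by
      ext i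
      show a i = M * (a i / M) + a i % M
      rw [Nat.div_add_mod]
    have h1 : coeff a q • ee M g a = (⟨aeval g (monomial c (coeff a q)), ⟨_, rfl⟩⟩ :
        (aeval g : MvPolynomial (Fin n) L →ₐ[L] MvPolynomial (Fin n) L).range) • vv L α := by
      show coeff a q • ee M g a = aeval g (monomial c (coeff a q)) * vv L α
      have h2 : (monomial c (coeff a q) : MvPolynomial (Fin n) L) = coeff a q • monomial c 1 := by
        rw [smul_monomial, smul_eq_mul, mul_one]
      rw [h2, map_smul, smul_mul_assoc, ← ee_split hM, ← ha]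
    rw [h1]
    exact Submodule.smul_mem _ _ (Submodule.subset_span ⟨α, rfl⟩)
  refine ⟨Module.Basis.mk hli hsp, ?_⟩
  intro α
  rw [Module.Basis.mk_apply]
  rfl

theorem pderiv_lt {L : Type*} [Field L] {n : ℕ} (d : ℕ) (p : MvPolynomial (Fin n) L)
    (hp : DLt (d + 1) p) (j : Fin n) : DLt d (pderiv j p) := by
  have e1 : pderiv j p = ∑ m ∈ p.support, pderiv j (monomial m (coeff m p)) := by
    conv_lhs => rw [p.as_sum]
    rw [map_sum]
  rw [e1]
  apply DLt.sum
  intro m hm
  rw [pderiv_monomial]
  have h1 := hp.supp hm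
  rw [Finsupp.sum_fintype _ _ (by simp)] at h1
  by_cases hj : m j = 0
  · rw [hj, Nat.cast_zero, mul_zero, map_zero]
    exact DLt.zero _
  · right
    refine (totalDegree_monomial_le _ _).trans_lt ?_
    rw [Finsupp.sum_fintype _ _ (by simp)]
    have h2 : ∑ i, m i = ∑ i, (m - Finsupp.single j 1 : Fin n →₀ ℕ) i + 1 := by
      rw [← Finset.add_sum_erase _ _ (Finset.mem_univ j),
        ← Finset.add_sum_erase _ (fun i => (m - Finsupp.single j 1 : Fin n →₀ ℕ) i) (Finset.mem_univ j)]
      have h3 : ∑ x ∈ Finset.univ.erase j, m x =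
          ∑ x ∈ Finset.univ.erase j, (m - Finsupp.single j 1 : Fin n →₀ ℕ) x := by
        apply Finset.sum_congr rfl
        intro x hx
        have hxj : x ≠ j := (Finset.mem_erase.mp hx).1
        rw [Finsupp.tsub_apply, Finsupp.single_eq_of_ne hxj]
        simp
      rw [h3, Finsupp.tsub_apply, Finsupp.single_eq_same]
      omega
    simp only [id]
    omega

/-- the Jacobian determinant of `g` is nonzero -/
theorem jac_ne_zero {L : Type*} [Field L] [CharZero L] {n : ℕ} (M : ℕ) (hM : 0 < M)
    (g h : Fin n → MvPolynomial (Fin n) L) (hh : ∀ i, (h i).totalDegree < M)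
    (hg : ∀ i, g i = h i + X i ^ M) :
    (Matrix.of fun i j => pderiv j (g i)).det ≠ 0 := by
  classical
  obtain ⟨N, rfl⟩ : ∃ N, M = N + 1 := ⟨M - 1, by omega⟩
  let D : Fin n → MvPolynomial (Fin n) L := fun i => ((N : L) + 1) • X i ^ N
  have hD : ∀ i, DLt (N + 1) (D i) := fun i => (Appr.X_pow i N).1.smul _
  have hpd : ∀ i j, Appr N (pderiv j (g i)) (Matrix.diagonal D i j) := by
    intro i j
    have e1 : pderiv j (g i) = pderiv j (h i) + Matrix.diagonal D i j := by
      rw [hg i, map_add, pderiv_pow]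
      congr 1
      by_cases hij : i = j
      · subst hij
        rw [Matrix.diagonal_apply_eq, pderiv_X_self]
        simp only [D, Nat.add_sub_cancel, mul_one]
        rw [MvPolynomial.smul_eq_C_mul]
        push_cast
        simp
      · rw [Matrix.diagonal_apply_ne _ hij, pderiv_X_of_ne hij]
        simp
    constructor
    · by_cases hij : i = j
      · subst hij
        rw [Matrix.diagonal_apply_eq]
        exact hD i
      · rw [Matrix.diagonal_apply_ne _ hij]
        exact DLt.zero _
    · rw [e1, add_sub_cancel_right]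
      exact pderiv_lt N (h i) (Or.inr (hh i)) j
  have hdet : Appr (n * N) (Matrix.of fun i j => pderiv j (g i)).det (Matrix.diagonal D).det := by
    rw [Matrix.det_apply, Matrix.det_apply]
    apply Appr.sum
    intro σ _
    have h1 : Appr (∑ _i : Fin n, N) (∏ i, (Matrix.of fun i j => pderiv j (g i)) (σ i) i)
        (∏ i, Matrix.diagonal D (σ i) i) := Appr.prod _ _ _ _ (fun i _ => hpd (σ i) i)
    rw [Finset.sum_const, Finset.card_univ, Fintype.card_fin, smul_eq_mul] at h1
    rcases Int.units_eq_one_or (Equiv.Perm.sign σ) with hs | hs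
    · rw [hs, one_smul, one_smul]
      exact h1
    · rw [hs, Units.neg_smul, Units.neg_smul, one_smul, one_smul]
      have := h1.smul (-1 : L)
      simpa using this
  have hD0 : (Matrix.diagonal D).det = monomial (Finsupp.equivFunOnFinite.symm (fun _ => N))
      (((N : L) + 1) ^ n) := by
    rw [Matrix.det_diagonal]
    have e1 : (monomial (Finsupp.equivFunOnFinite.symm (fun _ : Fin n => N)) (((N : L) + 1) ^ n) :
        MvPolynomial (Fin n) L) = (((N : L) + 1) ^ n) • monomial (Finsupp.equivFunOnFinite.symm (fun _ => N)) 1 := by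
      rw [smul_monomial, smul_eq_mul, mul_one]
    rw [e1, monomial_prod]
    simp only [D, MvPolynomial.smul_eq_C_mul, Finset.prod_mul_distrib, Finset.prod_const,
      Finset.card_univ, Fintype.card_fin, map_pow]
    rfl
  have hc : ((N : L) + 1) ^ n ≠ 0 := pow_ne_zero _ (by exact_mod_cast Nat.succ_ne_zero N)
  intro h0
  have h1 := hdet.2
  rw [h0, hD0, zero_sub] at h1
  rcases h1 with h1 | h1
  · rw [neg_eq_zero, monomial_eq_zero] at h1
    exact hc h1
  · rw [totalDegree_neg, totalDegree_monomial _ hc, Finsupp.sum_fintype _ _ (by simp)] at h1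
    simp at h1

end H693RF
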