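import Pool.Agent.Helper693.RF.GrDefs
import Pool.Agent.Helper693.RF.Assembly

namespace H693RF

open MvPolynomial

/-- a linear form vanishing on the centre is a combination of the forms -/
theorem exists_coeffs {𝕜 : Type*} [Field 𝕜] {r K K' : ℕ} (H : Fin K → Fin (r+1) → 𝕜) (H' : Fin K' → Fin (r+1) → 𝕜)
    (h : centre H ≤ centre H') : ∃ A : Matrix (Fin K') (Fin K) 𝕜, ∀ i j, H' i j = ∑ l, A i l * H l j := by
  have key : ∀ i, ∃ a : Fin K → 𝕜, ∀ j, H' i j = ∑ l, a l * H l j := by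
    intro i
    have h1 : (Fintype.linearCombination 𝕜 (fun j : Fin (r+1) => H' i j) : (Fin (r+1) → 𝕜) →ₗ[𝕜] 𝕜) ∈
        Submodule.span 𝕜 (Set.range fun l : Fin K =>
          (Fintype.linearCombination 𝕜 (fun j : Fin (r+1) => H l j) : (Fin (r+1) → 𝕜) →ₗ[𝕜] 𝕜)) := by
      apply mem_span_of_iInf_ker_le_ker
      intro x hx
      rw [Submodule.mem_iInf] at hx
      have hx' : x ∈ centre H := by
        intro l
        have := hx l
        rw [LinearMap.mem_ker, Fintype.linearCombination_apply] at this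
        rw [← this]
        exact Finset.sum_congr rfl fun j _ => by rw [smul_eq_mul, mul_comm]
      have h2 := h hx' i
      rw [LinearMap.mem_ker, Fintype.linearCombination_apply, ← h2]
      exact Finset.sum_congr rfl fun j _ => by rw [smul_eq_mul, mul_comm]
    obtain ⟨a, ha⟩ := (Submodule.mem_span_range_iff_exists_fun 𝕜).1 h1
    refine ⟨a, fun j => ?_⟩
    have h3 := congrArg (fun f : (Fin (r+1) → 𝕜) →ₗ[𝕜] 𝕜 => f (Pi.single j 1)) ha
    simp [Fintype.linearCombination_apply, Pi.single_apply] at h3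
    rw [← h3]
  choose A hA using key
  exact ⟨A, hA⟩

/-- comparison of the fibre ideals under a change of coordinates on the target -/
theorem fiberIdeal_mul_le {𝕜 : Type*} [Field 𝕜] {r K : ℕ} (P : Ideal (MvPolynomial (Fin (r+1)) 𝕜))
    (H H' : Fin K → Fin (r+1) → 𝕜) (A : Matrix (Fin K) (Fin K) 𝕜) (hA : ∀ i j, H' i j = ∑ l, A i l * H l j)
    (p p' : Fin K → 𝕜) (hp : ∀ i, p' i = ∑ l, A i l * p l) : fiberIdeal P H' p' ≤ fiberIdeal P H p := by
  refine sup_le le_sup_left ?_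
  rw [Ideal.span_le]
  rintro _ ⟨i, j, rfl⟩
  have hl : ∀ i, linForm (H' i) = ∑ l, C (A i l) * linForm (H l) := by
    intro i
    simp only [linForm, Finset.mul_sum]
    rw [Finset.sum_comm]
    apply Finset.sum_congr rfl
    intro j _
    rw [hA, map_sum, Finset.sum_mul]
    exact Finset.sum_congr rfl fun l _ => by rw [map_mul, mul_assoc]
  have h1 : C (p' i) * linForm (H' j) - C (p' j) * linForm (H' i) =
      ∑ l, ∑ m, C (A i l * A j m) * (C (p l) * linForm (H m) - C (p m) * linForm (H l)) := by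
    have e1 : C (p' i) * linForm (H' j) = ∑ l, ∑ m, C (A i l * A j m) * (C (p l) * linForm (H m)) := by
      rw [hl, hp, map_sum, Finset.sum_mul_sum]
      refine Finset.sum_congr rfl fun l _ => Finset.sum_congr rfl fun m _ => ?_
      simp only [map_mul]; ring
    have e2 : C (p' j) * linForm (H' i) = ∑ l, ∑ m, C (A i l * A j m) * (C (p m) * linForm (H l)) := by
      rw [hl, hp, map_sum, Finset.sum_mul_sum, Finset.sum_comm]
      refine Finset.sum_congr rfl fun l _ => Finset.sum_congr rfl fun m _ => ?_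
      simp only [map_mul]; ring
    rw [e1, e2, ← Finset.sum_sub_distrib]
    refine Finset.sum_congr rfl fun l _ => ?_
    rw [← Finset.sum_sub_distrib]
    exact Finset.sum_congr rfl fun m _ => by ring
  show _ ∈ fiberIdeal P H p
  rw [h1]
  refine Ideal.sum_mem _ fun l _ => Ideal.sum_mem _ fun m _ => Ideal.mul_mem_left _ _ ?_
  exact Ideal.mem_sup_right (Ideal.subset_span ⟨l, m, rfl⟩)

theorem finrank_centre {𝕜 : Type*} [Field 𝕜] {r K : ℕ} (H : Fin K → Fin (r+1) → 𝕜) (hH : LinearIndependent 𝕜 H) :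
    Module.finrank 𝕜 (centre H) + K = r + 1 := by
  have h1 : centre H = LinearMap.ker (Matrix.mulVecLin (Matrix.of H)) := by
    ext x
    rw [LinearMap.mem_ker, Matrix.mulVecLin_apply]
    constructor
    · intro hx
      funext i
      exact hx i
    · intro hx i
      exact congrFun hx i
  have h2 := LinearMap.finrank_range_add_finrank_ker (Matrix.mulVecLin (Matrix.of H))
  have h3 : Module.finrank 𝕜 (LinearMap.range (Matrix.mulVecLin (Matrix.of H))) = K := by
    have : (Matrix.of H).rank = Fintype.card (Fin K) := LinearIndependent.rank_matrix hH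
    rw [Fintype.card_fin] at this
    exact this
  rw [h3] at h2
  rw [h1]
  simp only [Module.finrank_fintype_fun_eq_card, Fintype.card_fin] at h2
  omega

/-- the matrix with rows the combinations `A H` -/
def mulM {𝕜 : Type*} [Field 𝕜] {r K : ℕ} (A : Matrix (Fin K) (Fin K) 𝕜) (H : Fin K → Fin (r+1) → 𝕜) :
    Fin K → Fin (r+1) → 𝕜 := fun i j => ∑ l, A i l * H l j

theorem centre_le_mulM {𝕜 : Type*} [Field 𝕜] {r K : ℕ} (A : Matrix (Fin K) (Fin K) 𝕜) (H : Fin K → Fin (r+1) → 𝕜) :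
    centre H ≤ centre (mulM A H) := by
  intro x hx i
  have : ∑ j, mulM A H i j * x j = ∑ l, A i l * ∑ j, H l j * x j := by
    simp only [mulM, Finset.sum_mul, Finset.mul_sum]
    rw [Finset.sum_comm]
    exact Finset.sum_congr rfl fun l _ => Finset.sum_congr rfl fun j _ => by ring
  rw [this]
  exact Finset.sum_eq_zero fun l _ => by rw [hx l, mul_zero]

theorem li_of_mulM {𝕜 : Type*} [Field 𝕜] {r K : ℕ} (A : Matrix (Fin K) (Fin K) 𝕜) (H : Fin K → Fin (r+1) → 𝕜)
    (h : LinearIndependent 𝕜 (mulM A H)) : LinearIndependent 𝕜 H := by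
  rw [linearIndependent_iff_card_le_finrank_span]
  have h1 := linearIndependent_iff_card_le_finrank_span.1 h
  refine h1.trans ?_
  apply Submodule.finrank_mono
  rw [Submodule.span_le]
  rintro _ ⟨i, rfl⟩
  have : mulM A H i = ∑ l, A i l • H l := by
    funext j
    simp [mulM, Finset.sum_apply]
  show mulM A H i ∈ _
  rw [this]
  exact Submodule.sum_mem _ fun l _ => Submodule.smul_mem _ _ (Submodule.subset_span ⟨l, rfl⟩)

theorem mul_eq_one_of {𝕜 : Type*} [Field 𝕜] {r K : ℕ} (A B : Matrix (Fin K) (Fin K) 𝕜) (H H₀ : Fin K → Fin (r+1) → 𝕜)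
    (hA : ∀ i j, H i j = ∑ l, A i l * H₀ l j) (hB : ∀ i j, H₀ i j = ∑ l, B i l * H l j)
    (hli : LinearIndependent 𝕜 H₀) : B * A = 1 := by
  have h1 : ∀ i, ∑ m, ((B * A) i m - (1 : Matrix (Fin K) (Fin K) 𝕜) i m) • H₀ m = 0 := by
    intro i
    funext j
    simp only [Finset.sum_apply, Pi.smul_apply, smul_eq_mul, Pi.zero_apply, sub_mul, Finset.sum_sub_distrib]
    have e1 : ∑ m, (1 : Matrix (Fin K) (Fin K) 𝕜) i m * H₀ m j = H₀ i j := by
      simp [Matrix.one_apply]
    have e2 : ∑ m, (B * A) i m * H₀ m j = H₀ i j := by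
      rw [hB i j]
      simp only [Matrix.mul_apply, Finset.sum_mul]
      rw [Finset.sum_comm]
      refine Finset.sum_congr rfl fun l _ => ?_
      rw [hA l j, Finset.mul_sum]
      exact Finset.sum_congr rfl fun m _ => by ring
    rw [e1, e2, sub_self]
  ext i m
  have h2 := (Fintype.linearIndependent_iff.1 hli) _ (h1 i) m
  exact sub_eq_zero.1 h2

universe u

theorem result_gr (𝕜 : Type u) [Field 𝕜] [IsAlgClosed 𝕜] [CharZero 𝕜] (r n c : ℕ) (hc : 1 ≤ c) (hr : n + c < r)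
    (P : Ideal (MvPolynomial (Fin (r+1)) 𝕜)) (hP : IsSmoothProjectiveVariety 𝕜 r n P) :
    ∃ U : Set (Submodule 𝕜 (Fin (r+1) → 𝕜)), IsDenseOpen r (n+c+1) U ∧
      ∀ Λ ∈ U, (∀ x ∈ Λ, x ≠ 0 → ∃ F ∈ P, eval x F ≠ 0) ∧
        ∀ H : Fin (n+c+1) → Fin (r+1) → 𝕜, centre H = Λ → ∀ p : Fin (n+c+1) → 𝕜, p ≠ 0 →
          ∃ m : ℕ, IsRegularity (fiberIdeal P H p) m ∧ (m : ℚ) ≤ (n : ℚ) / c + 1 := by
  obtain ⟨Φ, hΦ, hmain⟩ := result 𝕜 r n c hc hr P hP
  refine ⟨{Λ | ∃ H : Fin (n+c+1) → Fin (r+1) → 𝕜, eval (fun ij => H ij.1 ij.2) Φ ≠ 0 ∧ centre H = Λ}, ⟨?_, ?_, ?_⟩, ?_⟩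
  · rintro Λ ⟨H, hH, rfl⟩
    exact finrank_centre H (hmain H hH).1
  · refine ⟨Set.range fun A : Matrix (Fin (n+c+1)) (Fin (n+c+1)) 𝕜 =>
      bind₁ (fun ij : Fin (n+c+1) × Fin (r+1) => ∑ l, C (A ij.1 l) * X (l, ij.2)) Φ, fun H => ?_⟩
    have hev : ∀ A : Matrix (Fin (n+c+1)) (Fin (n+c+1)) 𝕜,
        eval (fun ij => H ij.1 ij.2) (bind₁ (fun ij : Fin (n+c+1) × Fin (r+1) => ∑ l, C (A ij.1 l) * X (l, ij.2)) Φ) =
        eval (fun ij => mulM A H ij.1 ij.2) Φ := by
      intro A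
      rw [← MvPolynomial.coe_aeval_eq_eval]
      rw [RingHom.coe_coe, aeval_bind₁, ← MvPolynomial.coe_aeval_eq_eval, RingHom.coe_coe]
      congr 2
      funext ij
      simp [mulM]
    constructor
    · rintro ⟨hli, H₀, hH₀, hcen⟩
      obtain ⟨A, hA⟩ := exists_coeffs H H₀ hcen.ge
      refine ⟨_, ⟨A, rfl⟩, ?_⟩
      rw [hev]
      have : mulM A H = H₀ := by
        funext i j
        exact (hA i j).symm
      rw [this]
      exact hH₀
    · rintro ⟨_, ⟨A, rfl⟩, hA⟩
      simp only [hev] at hA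
      have hli := (hmain _ hA).1
      have hliH := li_of_mulM A H hli
      refine ⟨hliH, mulM A H, hA, ?_⟩
      symm
      apply Submodule.eq_of_le_of_finrank_eq (centre_le_mulM A H)
      have h1 := finrank_centre H hliH
      have h2 := finrank_centre _ hli
      omega
  · intro Ψ hΨ
    have h1 : Φ * Ψ ≠ 0 := mul_ne_zero hΦ hΨ
    obtain ⟨x, hx⟩ : ∃ x, eval x (Φ * Ψ) ≠ 0 := by
      by_contra hcon
      push Not at hcon
      exact h1 (MvPolynomial.funext fun x => by rw [hcon x, map_zero])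
    obtain ⟨H, hHx⟩ : ∃ H : Fin (n+c+1) → Fin (r+1) → 𝕜, (fun ij : Fin (n+c+1) × Fin (r+1) => H ij.1 ij.2) = x :=
      ⟨fun i j => x (i, j), by funext ij; rfl⟩
    rw [← hHx, map_mul] at hx
    have hx1 := left_ne_zero_of_mul hx
    have hx2 := right_ne_zero_of_mul hx
    exact ⟨H, (hmain H hx1).1, ⟨H, hx1, rfl⟩, hx2⟩
  · rintro Λ ⟨H₀, hH₀, rfl⟩
    obtain ⟨hli, hcen, hfib⟩ := hmain H₀ hH₀
    refine ⟨?_, ?_⟩
    · intro x hx hx0
      by_contra hcon
      push Not at hcon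
      obtain ⟨i, hi⟩ := hcen x hx0 hcon
      apply hi
      have := hx i
      simpa [linForm] using this
    · intro H hHΛ p hp
      obtain ⟨A, hA⟩ := exists_coeffs H₀ H hHΛ.ge
      obtain ⟨B, hB⟩ := exists_coeffs H H₀ hHΛ.le
      have hBA : B * A = 1 := mul_eq_one_of A B H H₀ hA hB hli
      have hAB : A * B = 1 := mul_eq_one_comm.1 hBA
      set p₀ : Fin (n+c+1) → 𝕜 := fun i => ∑ l, B i l * p l with hp₀
      have hp1 : ∀ i, p i = ∑ l, A i l * p₀ l := by
        intro i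
        have h1 : p i = ∑ m, (A * B) i m * p m := by
          rw [hAB]; simp [Matrix.one_apply]
        rw [h1]
        simp only [Matrix.mul_apply, Finset.sum_mul, hp₀, Finset.mul_sum]
        rw [Finset.sum_comm]
        exact Finset.sum_congr rfl fun l _ => Finset.sum_congr rfl fun m _ => by ring
      have hp₀0 : p₀ ≠ 0 := by
        intro h
        apply hp
        funext i
        rw [hp1 i, h]
        simp
      have hI : fiberIdeal P H p = fiberIdeal P H₀ p₀ :=
        le_antisymm (fiberIdeal_mul_le P H₀ H A hA p₀ p hp1) (fiberIdeal_mul_le P H H₀ B hB p p₀ (fun i => rfl))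
      obtain ⟨-, h2, h3⟩ := hfib p₀ hp₀0
      rw [hI]
      exact ⟨reg (fiberIdeal P H₀ p₀), ⟨Nat.sInf_mem h2, fun m hm => Nat.sInf_le hm⟩, h3⟩

end H693RF
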