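import Mathlib
import Pool.Agent.Helper693.RF.FibreDefs

namespace H693RF

open MvPolynomial

/-- The centre of the projection `x ↦ (H_0(x) : ... : H_{K-1}(x))`, as a vector subspace. -/
def centre {𝕜 : Type*} [Field 𝕜] {r K : ℕ} (H : Fin K → Fin (r+1) → 𝕜) : Submodule 𝕜 (Fin (r+1) → 𝕜) where
  carrier := {x | ∀ i, ∑ j, H i j * x j = 0}
  zero_mem' := fun i => by simp
  add_mem' := by
    intro a b ha hb i
    simp only [Pi.add_apply, mul_add, Finset.sum_add_distrib]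
    rw [ha i, hb i, add_zero]
  smul_mem' := by
    intro t a ha i
    simp only [Pi.smul_apply, smul_eq_mul]
    have : ∑ j, H i j * (t * a j) = t * ∑ j, H i j * a j := by
      rw [Finset.mul_sum]
      exact Finset.sum_congr rfl fun j _ => by ring
    rw [this, ha i, mul_zero]

/-- `U` is a dense Zariski-open subset of the Grassmannian of subspaces of codimension `K` of `𝕜^(r+1)`:
its elements have codimension `K`, the set of matrices of rank `K` with kernel in `U` is Zariski-open, and it is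
Zariski-dense. -/
def IsDenseOpen {𝕜 : Type*} [Field 𝕜] (r K : ℕ) (U : Set (Submodule 𝕜 (Fin (r+1) → 𝕜))) : Prop :=
  (∀ Λ ∈ U, Module.finrank 𝕜 Λ + K = r + 1) ∧
  (∃ S : Set (MvPolynomial (Fin K × Fin (r+1)) 𝕜), ∀ H : Fin K → Fin (r+1) → 𝕜,
    (LinearIndependent 𝕜 H ∧ centre H ∈ U) ↔ ∃ Φ ∈ S, eval (fun ij => H ij.1 ij.2) Φ ≠ 0) ∧
  (∀ Ψ : MvPolynomial (Fin K × Fin (r+1)) 𝕜, Ψ ≠ 0 → ∃ H : Fin K → Fin (r+1) → 𝕜,
    LinearIndependent 𝕜 H ∧ centre H ∈ U ∧ eval (fun ij => H ij.1 ij.2) Ψ ≠ 0)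

/-- `m` is the Castelnuovo-Mumford regularity of the (nonempty) finite closed subscheme defined by `J`. -/
def IsRegularity {𝕜 : Type*} [Field 𝕜] {r : ℕ} (J : Ideal (MvPolynomial (Fin (r+1)) 𝕜)) (m : ℕ) : Prop :=
  IsLeast {m : ℕ | 1 ≤ m ∧ ImposesIndependentConditions J (m - 1)} m

end H693RF
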